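import Pool.Agent.MP_b9845b_al.H94.CP

namespace Pool.Agent.MP_b9845b_al.H94

open Relation Function

theorem head_of_overlap {A B : Type} {j : A → B} {u : List A} {z₁ x l z₂ : List B}
    (h : u.map j ++ z₁ = x ++ l ++ z₂) (hx : x.length < (u.map j).length) (hl : l ≠ []) :
    ∃ x₀ c, x = List.map j x₀ ∧ l.head? = some (j c) := by
  induction x generalizing u with
  | nil =>
    cases u with
    | nil => simp at hx
    | cons c u =>
      cases l with
      | nil => exact absurd rfl hl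
      | cons a l =>
        simp at h
        exact ⟨[], c, rfl, by simp [h.1]⟩
  | cons a x ih =>
    cases u with
    | nil => simp at hx
    | cons c u =>
      simp only [List.map_cons, List.cons_append, List.cons.injEq] at h
      obtain ⟨x₀, c', h1, h2⟩ := ih h.2 (by simpa using hx)
      exact ⟨c :: x₀, c', by simp [h1, h.1], h2⟩

/-- A step from a word that starts with a segment over a good subalphabet. -/
theorem step_map_append {A B : Type} {R : Rules A} {R' : Rules B} {j : A → B} (hj : Injective j)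
    (hne : ∀ p ∈ R', p.1 ≠ [])
    (head : ∀ p ∈ R', ∀ c, p.1.head? = some (j c) → ∃ q ∈ R, p = (q.1.map j, q.2.map j))
    {u : List A} {v w : List B} (h : Step R' (u.map j ++ v) w) :
    (∃ v', (Step R' v v' ∨ ∃ x, x ≠ [] ∧ v = x ++ v') ∧ ∃ u', w = List.map j u' ++ v') ∨
      ∃ u', Step R u u' ∧ w = u'.map j ++ v := by
  obtain ⟨x, y₂, p, hp, h, rfl⟩ := h
  rcases overlap_cases h with ⟨m, rfl, rfl⟩ | ⟨hx, z₁, z₂, y, rfl, rfl, h1, h2⟩
  · exact Or.inl ⟨m ++ p.2 ++ y₂, Or.inl ⟨m, y₂, p, hp, rfl, rfl⟩, u, by simp⟩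
  · obtain ⟨x₀, c, rfl, hc⟩ := head_of_overlap h1 hx (hne p hp)
    obtain ⟨q, hq, rfl⟩ := head p hp c hc
    by_cases hz : z₁ = []
    · subst hz
      rw [List.append_nil, ← List.map_append] at h1
      obtain ⟨a, b, rfl, h3, rfl⟩ := List.map_eq_append_iff.1 h1
      rw [List.map_injective_iff.2 hj h3]
      exact Or.inr ⟨x₀ ++ q.2 ++ b, ⟨x₀, b, q, hq, rfl, rfl⟩, by simp⟩
    · have : z₂ = [] := h2.resolve_left hz
      subst this
      exact Or.inl ⟨y, Or.inr ⟨z₁, hz, rfl⟩, x₀ ++ q.2, by simp⟩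

section AnchB
variable {G G' F : Type} [Group G] [Group G'] [Group F]

theorem exists_anch_of_subGood {S : Sys G} {C : Sys F} {kv : F →* G} {emb : C.A → S.A}
    (h : SubGood S C kv emb) :
    ∃ N : Anch S kv, N.P = {q | ∃ c, q = ([emb c], C.φ c, [])} := by
  refine ⟨⟨{q | ∃ c, q = ([emb c], C.φ c, [])}, ?_, ?_, ?_, ?_, ?_⟩, rfl⟩
  · exact (Set.finite_range fun c => (([emb c], C.φ c, []) : List S.A × F × List S.A)).subset
      (by rintro _ ⟨c, rfl⟩; exact ⟨c, rfl⟩)
  · rintro _ ⟨c, rfl⟩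
    simp
  · rintro _ ⟨c, rfl⟩
    simp [h.val]
  · refine Subrelation.wf ?_ S.wf.drop
    rintro v u (h | ⟨_, ⟨c, rfl⟩, y, rfl, rfl⟩)
    · exact Or.inl h
    · exact Or.inr ⟨[emb c], by simp, rfl⟩
  · have key : ∀ v, AIrr S.R {q | ∃ c, q = (([emb c], C.φ c, []) : List S.A × F × List S.A)} v →
        ∀ c, v.head? ≠ some (emb c) := by
      intro v hv c hc
      refine hv.2 _ ⟨c, rfl⟩ ?_
      cases v with
      | nil => simp at hc
      | cons a v => simp at hc; simp [hc]
    intro v v' k hv hv' hk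
    exact h.uniq hv.1 hv'.1 (key v hv) (key v' hv') hk

theorem Anch.exists_lift {S : Sys G} {kv : F →* G} (N : Anch S kv) {S' : Sys G'} {f : G →* G'}
    {j : S.A → S'.A} (h : SubGood S' S f j) :
    ∃ N' : Anch S' (f.comp kv), N'.P = {q | ∃ q₀ ∈ N.P, q = (q₀.1.map j, q₀.2.1, q₀.2.2.map j)} := by
  set P' : Set (List S'.A × F × List S'.A) :=
    {q | ∃ q₀ ∈ N.P, q = (q₀.1.map j, q₀.2.1, q₀.2.2.map j)} with hP'
  refine ⟨⟨P', ?_, ?_, ?_, ?_, ?_⟩, rfl⟩
  · exact (N.fin.image fun q₀ => (q₀.1.map j, q₀.2.1, q₀.2.2.map j)).subset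
      (by rintro _ ⟨q, hq, rfl⟩; exact ⟨q, hq, rfl⟩)
  · rintro _ ⟨q, hq, rfl⟩
    simpa using N.ne q hq
  · rintro _ ⟨q, hq, rfl⟩
    simp [h.ev_map, N.sound q hq]
  · have key : ∀ v, ∀ u : List S.A, Acc (fun v u => AStep S'.R P' u v) (u.map j ++ v) := by
      intro v
      induction v using WellFounded.induction S'.wf.drop with
      | _ v ih =>
        intro u
        induction u using WellFounded.induction N.wf with
        | _ u ih2 =>
          refine Acc.intro _ ?_
          rintro w (hw | ⟨_, ⟨q, hq, rfl⟩, y, h1, rfl⟩)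
          · rcases step_map_append h.inj S'.wf.ne_nil h.head hw with ⟨v', h1, u', rfl⟩ |
              ⟨u', h1, rfl⟩
            · exact ih v' h1 u'
            · exact ih2 u' (Or.inl h1)
          · rcases List.append_eq_append_iff.1 h1 with ⟨a, h2, h3⟩ | ⟨a, h2, rfl⟩
            · by_cases ha : a = []
              · subst ha
                rw [List.append_nil] at h2
                rw [List.nil_append] at h3
                subst h3
                exact ih2 q.2.2 (Or.inr ⟨q, hq, [], by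
                  simpa using (List.map_injective_iff.2 h.inj h2).symm, by simp⟩)
              · exact ih y (Or.inr ⟨a, ha, h3⟩) q.2.2
            · obtain ⟨a', b, rfl, h4, rfl⟩ := List.map_eq_append_iff.1 h2
              have h5 := List.map_injective_iff.2 h.inj h4
              have := ih2 (q.2.2 ++ b) (Or.inr ⟨q, hq, b, by rw [h5], rfl⟩)
              simpa using this
    exact ⟨fun v => by simpa using key v []⟩
  · intro v v' k hv hv' hk
    obtain ⟨u, w, rfl, hw⟩ := exists_split j v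
    obtain ⟨u', w', rfl, hw'⟩ := exists_split j v'
    have key : ∀ (u : List S.A) w, AIrr S'.R P' (u.map j ++ w) → AIrr S.R N.P u := by
      intro u w hu
      refine ⟨Irr.of_map j h.rule hu.1.of_append_left, ?_⟩
      rintro q hq ⟨y, rfl⟩
      exact hu.2 _ ⟨q, hq, rfl⟩ ⟨y.map j ++ w, by simp⟩
    simp only [ev_append, h.ev_map, MonoidHom.comp_apply] at hk
    obtain ⟨h1, h2⟩ := h.uniq hv.1.of_append_right hv'.1.of_append_right hw hw'
      (k := (ev S.φ u')⁻¹ * kv k * ev S.φ u) (by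
        rw [map_mul, map_mul, map_inv, mul_assoc, mul_assoc, ← mul_assoc (f (kv k)), mul_assoc, hk]
        simp)
    obtain ⟨h3, h4⟩ := N.uniq u u' k (key u w hv) (key u' w' hv') (by
      rw [mul_assoc, inv_mul_eq_one] at h2
      exact h2.symm)
    exact ⟨by rw [h1, h3], h4⟩

theorem tsteps_of_steps {A : Type} {R : Rules A} {P : Set (List A × F × List A)} (k : F)
    {u v : List A} (h : Steps R u v) : ReflTransGen (TStep R P) (k, u) (k, v) := by
  induction h with
  | refl => exact .refl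
  | tail _ h ih => exact ih.tail (Or.inl ⟨rfl, h⟩)

theorem TJn.of_jn {A : Type} {R : Rules A} {P : Set (List A × F × List A)} (k : F)
    {u v : List A} (h : Jn R u v) : TJn R P (k, u) (k, v) :=
  let ⟨w, h1, h2⟩ := h; ⟨(k, w), tsteps_of_steps k h1, tsteps_of_steps k h2⟩

theorem TJn.of_ev {S : Sys G} {P : Set (List S.A × F × List S.A)} (k : F) {u v : List S.A}
    (h : ev S.φ u = ev S.φ v) : TJn S.R P (k, u) (k, v) := TJn.of_jn k (S.jn_of_ev h)

theorem TJn.symm {A : Type} {R : Rules A} {P : Set (List A × F × List A)} {a b : F × List A}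
    (h : TJn R P a b) : TJn R P b a := let ⟨c, h1, h2⟩ := h; ⟨c, h2, h1⟩

theorem TJn.head_left {A : Type} {R : Rules A} {P : Set (List A × F × List A)}
    {a a' b : F × List A} (h : ReflTransGen (TStep R P) a a') (h' : TJn R P a' b) : TJn R P a b :=
  let ⟨c, h1, h2⟩ := h'; ⟨c, h.trans h1, h2⟩

theorem TStep.anch {A : Type} {R : Rules A} {P : Set (List A × F × List A)} {l r : List A} {k : F}
    (h : (l, k, r) ∈ P) (k₀ : F) (y : List A) : TStep R P (k₀, l ++ y) (k₀ * k, r ++ y) :=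
  Or.inr ⟨_, h, y, rfl, rfl⟩

theorem TStep.ctx {A : Type} {R : Rules A} {P : Set (List A × F × List A)} {a b : F × List A}
    (h : TStep R P a b) (k : F) (y : List A) :
    TStep R P (k * a.1, a.2 ++ y) (k * b.1, b.2 ++ y) := by
  rcases h with ⟨h1, h2⟩ | ⟨q, hq, z, h1, rfl⟩
  · exact Or.inl ⟨by simp [h1], h2.right y⟩
  · exact Or.inr ⟨q, hq, z ++ y, by simp [h1], by simp [mul_assoc]⟩

theorem TJn.ctx {A : Type} {R : Rules A} {P : Set (List A × F × List A)} {a b : F × List A}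
    (h : TJn R P a b) (k : F) (y : List A) : TJn R P (k * a.1, a.2 ++ y) (k * b.1, b.2 ++ y) := by
  have key : ∀ a b, ReflTransGen (TStep R P) a b →
      ReflTransGen (TStep R P) (k * a.1, a.2 ++ y) (k * b.1, b.2 ++ y) := by
    intro a b h
    induction h with
    | refl => exact .refl
    | tail _ h ih => exact ih.tail (h.ctx k y)
  obtain ⟨c, h1, h2⟩ := h
  exact ⟨_, key _ _ h1, key _ _ h2⟩

theorem TStep.astep {A : Type} {R : Rules A} {P : Set (List A × F × List A)} {a b : F × List A}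
    (h : TStep R P a b) : AStep R P a.2 b.2 := by
  rcases h with ⟨-, h2⟩ | ⟨q, hq, z, h1, rfl⟩
  · exact Or.inl h2
  · exact Or.inr ⟨q, hq, z, h1, rfl⟩

theorem AIrr.not_astep {A F : Type} {R : Rules A} {P : Set (List A × F × List A)} {u v : List A}
    (hu : AIrr R P u) : ¬ AStep R P u v := by
  rintro (h | ⟨q, hq, y, rfl, -⟩)
  · exact irr_iff.1 hu.1 _ h
  · exact hu.2 q hq (List.prefix_append _ _)

theorem AIrr.eq_of_tsteps {A : Type} {R : Rules A} {P : Set (List A × F × List A)}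
    {a b : F × List A} (ha : AIrr R P a.2) (h : ReflTransGen (TStep R P) a b) : a = b := by
  rcases h.cases_head with h | ⟨c, h, -⟩
  · exact h
  · exact absurd h.astep ha.not_astep

theorem uniq_of_lc {S : Sys G} {kv : F →* G} {P : Set (List S.A × F × List S.A)}
    (sound : ∀ q ∈ P, ev S.φ q.1 = kv q.2.1 * ev S.φ q.2.2)
    (wf : WellFounded fun v u => AStep S.R P u v)
    (gen : ∀ L : Subgroup F, (∀ q ∈ P, q.2.1 ∈ L) → ∀ k, k ∈ L)
    (lc1 : ∀ q ∈ P, ∀ p ∈ S.R, ∀ x z₁ z₂, q.1 ++ z₁ = x ++ p.1 ++ z₂ → x.length < q.1.length →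
      (z₁ = [] ∨ z₂ = []) → TJn S.R P (q.2.1, q.2.2 ++ z₁) (1, x ++ p.2 ++ z₂))
    (lc2 : ∀ q ∈ P, ∀ q' ∈ P, ∀ z, q.1 = q'.1 ++ z →
      TJn S.R P (q.2.1, q.2.2) (q'.2.1, q'.2.2 ++ z)) :
    ∀ v v' k, AIrr S.R P v → AIrr S.R P v' → kv k * ev S.φ v = ev S.φ v' → v = v' ∧ k = 1 := by
  have wf' : WellFounded fun b a => TStep S.R P a b :=
    Subrelation.wf (r := InvImage (fun v u => AStep S.R P u v) Prod.snd) (fun h => h.astep)
      (InvImage.wf _ wf)
  have mixed : ∀ k, ∀ q ∈ P, ∀ y c, Step S.R (q.1 ++ y) c →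
      TJn S.R P (k * q.2.1, q.2.2 ++ y) (k, c) := by
    rintro k q hq y _ ⟨x, y₂, p, hp, h, rfl⟩
    rcases overlap_cases h with ⟨m, rfl, rfl⟩ | ⟨hx, z₁, z₂, y, rfl, rfl, h1, h2⟩
    · refine ⟨(k * q.2.1, q.2.2 ++ (m ++ p.2 ++ y₂)),
        .single (Or.inl ⟨rfl, Step.left ⟨m, y₂, p, hp, rfl, rfl⟩ _⟩), .single ?_⟩
      simpa using TStep.anch (R := S.R) hq k (m ++ p.2 ++ y₂)
    · simpa using (lc1 q hq p hp x z₁ z₂ h1 hx h2).ctx k y
  have lc : ∀ a b c, TStep S.R P a b → TStep S.R P a c → TJn S.R P b c := by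
    rintro ⟨k, u⟩ ⟨kb, b⟩ ⟨kc, c⟩ (⟨h1, h2⟩ | ⟨q, hq, y, h1, h2⟩) (⟨h3, h4⟩ | ⟨q', hq', y', h3, h4⟩)
    · dsimp only at h1 h2 h3 h4
      subst h1 h3
      exact TJn.of_ev _ ((h2.ev_eq S.sound).symm.trans (h4.ev_eq S.sound))
    · dsimp only at h1 h2 h3 h4
      subst h1 h3
      rw [h4]
      exact (mixed _ q' hq' y' b h2).symm
    · dsimp only at h1 h2 h3 h4
      subst h1 h3
      rw [h2]
      exact mixed _ q hq y c h4
    · dsimp only at h1 h2 h3 h4
      rw [h2, h4]
      rw [h1] at h3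
      rcases List.append_eq_append_iff.1 h3 with ⟨a, h5, rfl⟩ | ⟨a, h5, rfl⟩
      · simpa using ((lc2 q' hq' q hq a h5).ctx k y').symm
      · simpa using (lc2 q hq q' hq' a h5).ctx k y
  have sem : ∀ k u v, ev S.φ u = ev S.φ v → EqvGen (TStep S.R P) (k, u) (k, v) :=
    fun k u v h => eqvGen_of_join (TJn.of_ev k h)
  let L : Subgroup F :=
    { carrier := {k | ∀ k₀ u W, ev S.φ W = kv k * ev S.φ u →
        EqvGen (TStep S.R P) (k₀ * k, u) (k₀, W)}
      one_mem' := fun k₀ u W h => by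
        rw [mul_one]
        exact sem _ _ _ (by simpa using h.symm)
      mul_mem' := fun {k k'} hk hk' k₀ u W h => by
        rw [← mul_assoc]
        exact .trans _ _ _ (hk' (k₀ * k) u (S.word (kv k' * ev S.φ u)) (by simp))
          (hk k₀ _ W (by simp [h, mul_assoc]))
      inv_mem' := fun {k} hk k₀ u W h => by
        have := hk (k₀ * k⁻¹) W u (by simp [h])
        rw [inv_mul_cancel_right] at this
        exact .symm _ _ this }
  have hL : ∀ k, k ∈ L := gen L fun q hq k₀ u W h => by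
    refine .trans _ (k₀ * q.2.1, q.2.2 ++ S.word ((ev S.φ q.2.2)⁻¹ * ev S.φ u)) _
      (sem _ _ _ (by simp)) (.trans _ (k₀, q.1 ++ S.word ((ev S.φ q.2.2)⁻¹ * ev S.φ u)) _
      (.symm _ _ (.rel _ _ (TStep.anch hq _ _))) (sem _ _ _ ?_))
    simp [h, sound q hq, mul_assoc]
  intro v v' k hv hv' hk
  have := hL k 1 v v' hk.symm
  obtain ⟨c, h1, h2⟩ := join_of_eqvGen (newman wf' lc) this
  have h3 := (hv.eq_of_tsteps (a := (1 * k, v)) h1).trans (hv'.eq_of_tsteps (a := (1, v')) h2).symm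
  simp only [one_mul, Prod.mk.injEq] at h3
  exact ⟨h3.2, h3.1⟩

/-- Every word reduces, with tracking, to an anchored irreducible word. -/
theorem Anch.exists_nf {S : Sys G} {kv : F →* G} (N : Anch S kv) (u : List S.A) :
    ∃ k v, ReflTransGen (TStep S.R N.P) (1, u) (k, v) ∧ AIrr S.R N.P v := by
  induction u using WellFounded.induction N.wf with
  | _ u ih =>
    have key : ∀ a b, ReflTransGen (TStep S.R N.P) a b → ∀ k,
        ReflTransGen (TStep S.R N.P) (k * a.1, a.2) (k * b.1, b.2) := by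
      intro a b h k
      induction h with
      | refl => exact .refl
      | tail _ h ih => exact ih.tail (by simpa using h.ctx k [])
    rcases N.airr_or u with hu | ⟨v, hv⟩
    · exact ⟨1, u, .refl, hu⟩
    · obtain ⟨k, w, h1, h2⟩ := ih v hv
      rcases hv with hv | ⟨q, hq, y, rfl, rfl⟩
      · exact ⟨k, w, .head (b := (1, v)) (Or.inl ⟨rfl, hv⟩) h1, h2⟩
      · refine ⟨q.2.1 * k, w, .head (TStep.anch hq 1 y) ?_, h2⟩
        simpa using key _ _ h1 q.2.1

theorem Anch.ev_tsteps {S : Sys G} {kv : F →* G} (N : Anch S kv) {a b : F × List S.A}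
    (h : ReflTransGen (TStep S.R N.P) a b) : kv a.1 * ev S.φ a.2 = kv b.1 * ev S.φ b.2 := by
  induction h with
  | refl => rfl
  | tail _ h ih =>
    rw [ih]
    rcases h with ⟨h1, h2⟩ | ⟨q, hq, y, h1, rfl⟩
    · rw [h1, h2.ev_eq S.sound]
    · simp [h1, N.sound q hq, mul_assoc]

end AnchB

end Pool.Agent.MP_b9845b_al.H94
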