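import Pool.Agent.MP_b9845b_al.H94.Ext

namespace Pool.Agent.MP_b9845b_al.H94

open Relation FreeGroup Function

section GoodB
variable {G G' ι ι' : Type} [Group G] [Group G'] [Finite ι] [Finite ι']

/-- A sign-compatible injection of letters gives a good subsystem of the free system. -/
theorem goodB_subGood (τ : ι' × Bool → ι × Bool) (hτ : Injective τ)
    (h : ∀ i b, τ (i, !b) = ((τ (i, b)).1, !(τ (i, b)).2)) :
    SubGood (freeSys ι) (freeSys ι') (lift fun i => mk [τ (i, true)]) τ := by
  refine ⟨hτ, ?_, ?_, ?_⟩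
  · rintro ⟨i, _ | _⟩
    · show mk [τ (i, false)] = lift _ (mk [(i, false)])
      rw [lift_mk_single, sg_false, inv_mk]
      simp [invRev, ← h]
    · show mk [τ (i, true)] = lift _ (mk [(i, true)])
      rw [lift_mk_single, sg_true]
  · rintro _ ⟨i, b, rfl⟩
    exact ⟨(τ (i, b)).1, (τ (i, b)).2, by simp [h]⟩
  · rintro _ ⟨i, b, rfl⟩ ⟨j, c⟩ hc
    have h1 : (i, b) = τ (j, c) := by simpa using hc
    exact ⟨_, ⟨j, c, rfl⟩, by simp [h, ← h1]⟩

theorem Good.sub {y : ι → G} (h : Good y) (σ : ι' → ι) (hσ : Injective σ) :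
    Good fun i => y (σ i) := by
  obtain ⟨S, emb, h⟩ := h
  exact ⟨S, _, (h.trans (goodB_subGood (Prod.map σ id) (hσ.prodMap injective_id)
    fun _ _ => rfl)).congr (by ext i; simp)⟩

theorem Good.equiv {y : ι → G} (h : Good y) (e : G ≃* G') : Good fun i => e (y i) := by
  obtain ⟨S, emb, h⟩ := h
  exact ⟨S.map e, emb, (h.map e).congr (by ext i; simp)⟩

theorem Good.conj {y : ι → G} (h : Good y) (g : G) : Good fun i => g * y i * g⁻¹ :=
  h.equiv (MulAut.conj g)

theorem Good.inv {y : ι → G} (h : Good y) : Good fun i => (y i)⁻¹ := by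
  obtain ⟨S, emb, h⟩ := h
  exact ⟨S, _, (h.trans (goodB_subGood (Prod.map id not)
    (injective_id.prodMap Bool.not_injective) fun _ _ => rfl)).congr (by ext i; simp)⟩

theorem Good.injective {y : ι → G} (h : Good y) : Injective (lift y) := by
  obtain ⟨S, emb, h⟩ := h
  exact h.kv_injective

theorem Good.of_bijective {y : ι → G} (h : Bijective (lift y)) : Good y :=
  ⟨(freeSys ι).map (MulEquiv.ofBijective (lift y) h), id,
    ((SubGood.refl (freeSys ι)).map (MulEquiv.ofBijective (lift y) h)).congr (by ext i; simp)⟩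

theorem Good.sGood {y : ι → G} (h : Good y) : SGood y :=
  ⟨G, inferInstance, Empty, inferInstance, _, _, isFreeExt_id G, h⟩

theorem Good.tGood {y : ι → G} (h : Good y) : TGood y := by
  refine ⟨G, inferInstance, Empty, inferInstance, _, _, fun k => k.elim, isFreeExt_id G, ?_⟩
  convert h.sub (Equiv.sumEmpty ι Empty) (Equiv.injective _) using 2 with j
  rcases j with j | j
  · rfl
  · exact j.elim

theorem TGood.sGood {y : ι → G} (h : TGood y) : SGood y := by
  obtain ⟨M, _, κ, _, i, f, e, h1, h2⟩ := h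
  exact ⟨M, inferInstance, κ, inferInstance, i, f, h1, h2.sub Sum.inl Sum.inl_injective⟩

theorem SGood.sub {y : ι → G} (h : SGood y) (σ : ι' → ι) (hσ : Injective σ) :
    SGood fun i => y (σ i) := by
  obtain ⟨M, _, κ, _, i, f, h1, h2⟩ := h
  exact ⟨M, inferInstance, κ, inferInstance, i, f, h1, h2.sub σ hσ⟩

theorem TGood.sub {y : ι → G} (h : TGood y) (σ : ι' → ι) (hσ : Injective σ) :
    TGood fun i => y (σ i) := by
  obtain ⟨M, _, κ, _, i, f, e, h1, h2⟩ := h
  refine ⟨M, inferInstance, κ, inferInstance, i, f, e, h1, ?_⟩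
  convert h2.sub (Sum.map σ id) (hσ.sumMap injective_id) using 2 with j
  rcases j with j | j <;> rfl

theorem SGood.equiv {y : ι → G} (h : SGood y) (e : G ≃* G') : SGood fun i => e (y i) := by
  obtain ⟨M, _, κ, _, i, f, h1, h2⟩ := h
  exact ⟨M, inferInstance, κ, inferInstance, _, f, h1.precomp e.symm, by simpa using h2⟩

theorem TGood.equiv {y : ι → G} (h : TGood y) (e : G ≃* G') : TGood fun i => e (y i) := by
  obtain ⟨M, _, κ, _, i, f, d, h1, h2⟩ := h
  refine ⟨M, inferInstance, κ, inferInstance, _, f, fun k => e (d k), h1.precomp e.symm, ?_⟩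
  convert h2 using 2 with j
  rcases j with j | j <;> simp

theorem SGood.injective {y : ι → G} (h : SGood y) : Injective (lift y) := by
  obtain ⟨M, _, κ, _, i, f, -, h2⟩ := h
  have h3 := h2.injective
  rw [show (lift fun j => i (y j)) = i.comp (lift y) by ext j; simp] at h3
  exact Injective.of_comp (f := i) h3
end GoodB

end Pool.Agent.MP_b9845b_al.H94
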