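import Pool.Agent.MP_b9845b_al.H94.Term
import Pool.Agent.MP_b9845b_al.H94.GoodB

namespace Pool.Agent.MP_b9845b_al.H94

open Relation FreeGroup Function

theorem finIdx_transversal {D M : Type} [Group D] [Group M] (j : D →* M) (hj : Injective j)
    [j.range.FiniteIndex] : ∃ (T : Type) (_ : Finite T) (val : Option T → M), val none = 1 ∧
      (∀ m, ∃ d o, m = j d * val o) ∧
      ∀ d o d' o', j d * val o = j d' * val o' → d = d' ∧ o = o' := by
  let T : Type := {q : M ⧸ j.range // q ≠ ((1 : M) : M ⧸ j.range)}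
  let val : Option T → M := fun o => o.elim 1 fun τ => τ.1.out⁻¹
  refine ⟨T, inferInstance, val, rfl, fun m => ?_, fun d o d' o' h => ?_⟩
  · by_cases hm : ((m⁻¹ : M) : M ⧸ j.range) = ((1 : M) : M ⧸ j.range)
    · obtain ⟨d, hd⟩ := QuotientGroup.eq.1 hm
      exact ⟨d, none, by simpa [val] using hd.symm⟩
    · obtain ⟨⟨_, d, rfl⟩, hd⟩ := QuotientGroup.mk_out_eq_mul j.range m⁻¹
      refine ⟨d, some ⟨_, hm⟩, ?_⟩
      simp only [val, Option.elim_some, hd]
      group
  · have h1 : (((val o)⁻¹ : M) : M ⧸ j.range) = (((val o')⁻¹ : M) : M ⧸ j.range) := by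
      refine QuotientGroup.eq.2 ⟨d⁻¹ * d', ?_⟩
      rw [j.map_mul, j.map_inv, inv_inv, inv_mul_eq_iff_eq_mul, ← mul_assoc, h, mul_inv_cancel_right]
    have h2 : o = o' := by
      rcases o with _ | τ <;> rcases o' with _ | τ' <;>
        simp only [val, Option.elim_some, Option.elim_none, inv_inv, inv_one,
          QuotientGroup.out_eq'] at h1
      · rfl
      · exact absurd h1.symm τ'.2
      · exact absurd h1 τ.2
      · exact congrArg some (Subtype.ext h1)
    subst h2
    exact ⟨hj (mul_right_cancel h), rfl⟩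

theorem finIdx_sys {D M : Type} [Group D] [Group M] (S : Sys D) (j : D →* M) (hj : Injective j)
    [j.range.FiniteIndex] : ∃ (S' : Sys M) (emb : S.A → S'.A), SubGood S' S j emb := by
  classical
  obtain ⟨T, _, val, h1, hs, hu⟩ := finIdx_transversal j hj
  choose dd oo hdec using hs
  let φ : S.A ⊕ T → M := Sum.elim (fun a => j (S.φ a)) fun τ => val (some τ)
  let nf : List S.A → Option T → List (S.A ⊕ T) := fun w o => w.map .inl ++ o.toList.map .inr
  have hev0 : ∀ w : List S.A, ev φ (w.map .inl) = j (ev S.φ w) :=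
    ev_map_hom φ _ S.φ j fun _ => rfl
  have hev : ∀ w o, ev φ (nf w o) = j (ev S.φ w) * val o := by
    intro w o
    rcases o with _ | τ <;> simp [nf, hev0, h1, φ]
  let wd : M → List (S.A ⊕ T) := fun m => nf (S.word (dd m)) (oo m)
  have hwd : ∀ m, ev φ (wd m) = m := fun m => by rw [hev, S.ev_word, ← hdec]
  let R1 : Rules (S.A ⊕ T) := Set.range fun p : T × (S.A ⊕ T) =>
    ([.inr p.1, p.2], wd (val (some p.1) * φ p.2))
  have hirr : ∀ u, Irr (mapR Sum.inl S.R ∪ R1) u → ∃ w o, u = nf w o ∧ Irr S.R w := by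
    intro u hu
    obtain ⟨w, v, rfl, hv⟩ := exists_split (Sum.inl : S.A → S.A ⊕ T) u
    have hw : Irr S.R w := Irr.of_map Sum.inl (fun p hp => Or.inl (mem_mapR _ hp))
      hu.of_append_left
    rcases v with _ | ⟨a | τ, _ | ⟨x, v⟩⟩
    · exact ⟨w, none, rfl, hw⟩
    · exact absurd rfl (hv a)
    · exact absurd rfl (hv a)
    · exact ⟨w, some τ, rfl, hw⟩
    · exact absurd ⟨w.map .inl, v, by simp⟩ (hu _ (Or.inr ⟨(τ, x), rfl⟩))
  have hwf : WFR (mapR Sum.inl S.R ∪ R1) := by
    have h0 : WFR (mapR (Sum.inl : S.A → S.A ⊕ T) S.R) :=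
      (WFR.union_mapR (R' := ∅) Sum.inl_injective S.wf (wfr_of_length (by simp)) (by simp)).mono
        Set.subset_union_left
    have hc : ∀ w : List S.A, (w.map (Sum.inl : S.A → S.A ⊕ T)).countP
        (fun a => decide (a.isRight = true)) = 0 := by simp
    refine (wfr_carrier_left (fun a : S.A ⊕ T => a.isRight = true)
      (Rc := {p | ∃ τ a τ', ∃ w : List S.A, p = ([.inr τ, .inl a], w.map .inl ++ [.inr τ'])})
      (Rd := {p | p.2.countP (fun a => decide (a.isRight = true)) <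
        p.1.countP (fun a => decide (a.isRight = true))}) h0 ?_ ?_ fun p hp => hp).mono ?_
    · rintro _ ⟨q, -, rfl⟩ (a | τ) <;> simp
    · rintro _ ⟨τ, a, τ', w, rfl⟩
      refine ⟨[], .inr τ, [.inl a], w.map .inl, .inr τ', rfl, rfl, rfl, by simp, ?_⟩
      rintro (a | τ) <;> simp
    · rintro _ (hp | ⟨⟨τ, x⟩, rfl⟩)
      · exact Or.inl (Or.inl hp)
      · simp only [wd, nf]
        rcases oo (val (some τ) * φ x) with _ | τ' <;> rcases x with a | σ
        · right; rw [Set.mem_ofPred_eq, List.countP_append, hc]; simp [List.countP_cons]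
        · right; rw [Set.mem_ofPred_eq, List.countP_append, hc]; simp [List.countP_cons]
        · exact Or.inl (Or.inr ⟨τ, a, τ', _, rfl⟩)
        · right; rw [Set.mem_ofPred_eq, List.countP_append, hc]; simp [List.countP_cons]
  refine ⟨⟨S.A ⊕ T, inferInstance, mapR Sum.inl S.R ∪ R1,
    (finite_mapR _ S.Rfin).union (Set.finite_range _), φ, ?_, hwf, fun g => ⟨_, hwd g⟩, ?_⟩,
    Sum.inl, Sum.inl_injective, fun _ => rfl, fun p hp => Or.inl (mem_mapR _ hp), ?_⟩
  · rintro _ (⟨q, hq, rfl⟩ | ⟨⟨τ, x⟩, rfl⟩)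
    · rw [hev0, hev0, S.sound q hq]
    · rw [hwd]; simp [φ]
  · intro u v hu' hv' h
    obtain ⟨w, o, rfl, hw⟩ := hirr u hu'
    obtain ⟨w', o', rfl, hw'⟩ := hirr v hv'
    rw [hev, hev] at h
    obtain ⟨h2, rfl⟩ := hu _ _ _ _ h
    rw [S.inj w w' hw hw' h2]
  · rintro _ (hp | ⟨⟨τ, x⟩, rfl⟩) c hc
    · exact hp
    · simp at hc

theorem Good.finiteIndex {D M ι : Type} [Group D] [Group M] [Finite ι] {y : ι → D} (h : Good y)
    (j : D →* M) (hj : Injective j) [j.range.FiniteIndex] : Good fun i => j (y i) := by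
  obtain ⟨S, emb, hS⟩ := h
  obtain ⟨S', emb', hS'⟩ := finIdx_sys S j hj
  exact ⟨S', _, (hS'.trans hS).congr (by ext i; simp)⟩

theorem Good.of_finite {G ι : Type} [Group G] [Finite G] [Finite ι] [IsEmpty ι] (y : ι → G) :
    Good y := by
  have h1 : Good (of : ι → FreeGroup ι) :=
    Good.of_bijective (by rw [lift_of_eq_id]; exact bijective_id)
  have h2 := h1.finiteIndex (lift y) fun a b _ => Subsingleton.elim a b
  simpa using h2

end Pool.Agent.MP_b9845b_al.H94
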