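import Pool.Agent.MP_b9845b_al.H94.Marker
import Pool.Agent.MP_b9845b_al.H94.FinIdx

namespace Pool.Agent.MP_b9845b_al.H94

open Relation FreeGroup Function

theorem asc_finIdx {G : Type} [Group G] (L : Subgroup G) (θ : G →* Multiplicative ℤ)
    (hker : ∀ g, θ g = 1 → g ∈ L) {m : G} (hm : m ∈ L) (hθ : θ m ≠ 1) : L.FiniteIndex := by
  have h1 : (Subgroup.zpowers (θ m)).FiniteIndex := by
    have h2 := Int.index_zmultiples (θ m).toAdd
    refine ⟨fun h => hθ ?_⟩
    have h3 : (AddSubgroup.zmultiples (θ m).toAdd).index = 0 := h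
    rw [h3] at h2
    exact toAdd_eq_zero.1 (Int.natAbs_eq_zero.1 h2.symm)
  have h2 : ((Subgroup.zpowers (θ m)).comap θ).FiniteIndex := by
    refine ⟨?_⟩
    rw [Subgroup.index_comap]
    exact Subgroup.FiniteIndex.index_ne_zero (H := (Subgroup.zpowers (θ m)).subgroupOf θ.range)
  refine Subgroup.finiteIndex_of_le (H := (Subgroup.zpowers (θ m)).comap θ) ?_
  rintro g ⟨k, hk⟩
  have h3 : g * (m ^ k)⁻¹ ∈ L := hker _ (by simp [← hk])
  simpa using L.mul_mem h3 (L.zpow_mem hm k)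

section
variable {H G : Type} [Group H] [Group G] {f : H →* G} {t : G}

theorem asc_pow (hc : ∀ h, ∃ h', t * f h * t⁻¹ = f h') (k : ℕ) (h : H) :
    ∃ h', t ^ k * f h * (t ^ k)⁻¹ = f h' := by
  induction k with
  | zero => exact ⟨h, by simp⟩
  | succ k ih =>
    obtain ⟨h1, e1⟩ := ih
    obtain ⟨h2, e2⟩ := hc h1
    exact ⟨h2, by rw [← e2, ← e1]; group⟩

theorem asc_nf (gen : ∀ L : Subgroup G, (∀ h, f h ∈ L) → t ∈ L → ∀ g, g ∈ L)
    (hc : ∀ h, ∃ h', t * f h * t⁻¹ = f h') (g : G) :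
    ∃ (i j : ℕ) (h : H), g = (t ^ i)⁻¹ * f h * t ^ j := by
  let L : Subgroup G :=
    { carrier := {g | ∃ (i j : ℕ) (h : H), g = (t ^ i)⁻¹ * f h * t ^ j}
      one_mem' := ⟨0, 0, 1, by simp⟩
      inv_mem' := by
        rintro _ ⟨i, j, h, rfl⟩
        exact ⟨j, i, h⁻¹, by rw [f.map_inv]; group⟩
      mul_mem' := by
        rintro _ _ ⟨i, j, h, rfl⟩ ⟨i', j', h', rfl⟩
        obtain ⟨h1, e1⟩ := asc_pow hc i' h
        obtain ⟨h2, e2⟩ := asc_pow hc j h'
        exact ⟨i + i', j + j', h1 * h2, by rw [f.map_mul, ← e1, ← e2]; group⟩ }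
  exact gen L (fun h => ⟨0, 0, h, by simp⟩) ⟨0, 1, 1, by simp⟩ g

theorem asc_mid_nf (hc : ∀ h, ∃ h', t * f h * t⁻¹ = f h') {n : ℕ} {m : G} (hm : Mid f t n m) :
    ∃ h, m = f h * t ^ n := by
  induction hm with
  | zero => exact ⟨1, by simp⟩
  | succ h _ ih =>
    obtain ⟨h1, rfl⟩ := ih
    obtain ⟨h2, e2⟩ := hc h1
    exact ⟨h * h2, by rw [f.map_mul, ← e2]; group⟩

theorem asc_m_pow (hc : ∀ h, ∃ h', t * f h * t⁻¹ = f h') (h : H) (n i : ℕ) :
    ∃ h', (f h * t ^ n) ^ i = f h' * t ^ (n * i) := by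
  induction i with
  | zero => exact ⟨1, by simp⟩
  | succ i ih =>
    obtain ⟨h1, e1⟩ := ih
    obtain ⟨h2, e2⟩ := asc_pow hc (n * i) h
    exact ⟨h1 * h2, by rw [pow_succ, e1, f.map_mul, ← e2]; group⟩

theorem asc_snoc {n : ℕ} {m : G} (hm : Mid f t n m) (h : H) : Mid f t (n + 1) (m * (f h * t)) := by
  induction hm with
  | zero => simpa using Mid.succ h (Mid.zero (f := f) (t := t))
  | succ h' _ ih => rw [mul_assoc]; exact .succ h' ih

theorem asc_psi {ι : Type} [Finite ι] {b : ι → H} {ψ : H →* H} (hψ : ∀ h, t * f h * t⁻¹ = f (ψ h))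
    (hinj : Injective ψ)
    (hS : ∀ V : ι ⊕ Unit → H, SGood V → SGood fun j => ψ (V j)) {n : ℕ} {m : G}
    (hm : Mid f t n m) : ∃ ψ' : H →* H, (∀ h, m * f h * m⁻¹ = f (ψ' h)) ∧ Injective ψ' ∧
      (Surjective ψ → Surjective ψ') ∧ (n = 0 → ψ' = MonoidHom.id H) ∧
      (n ≠ 0 → (∃ e, SGood (Sum.elim (fun i => ψ (b i)) fun _ : Unit => e)) →
        ∃ e, SGood (Sum.elim (fun i => ψ' (b i)) fun _ : Unit => e)) := by
  induction hm with
  | zero => exact ⟨MonoidHom.id H, by simp, injective_id, fun _ => surjective_id, fun _ => rfl,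
      fun h => absurd rfl h⟩
  | @succ h n m _ ih =>
    obtain ⟨ψ', h1, h2, h3, h4, h5⟩ := ih
    refine ⟨(MulAut.conj h : H →* H).comp (ψ.comp ψ'), fun x => ?_,
      (MulAut.conj h).injective.comp (hinj.comp h2),
      fun hs => (MulAut.conj h).surjective.comp (hs.comp (h3 hs)), by simp, fun _ he => ?_⟩
    · simp only [MonoidHom.comp_apply, MonoidHom.coe_coe, MulAut.conj_apply, f.map_mul, f.map_inv,
        ← hψ, ← h1]
      group
    · have h6 : ∃ e, SGood (Sum.elim (fun i => ψ (ψ' (b i))) fun _ : Unit => e) := by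
        by_cases hn : n = 0
        · rw [h4 hn]; exact he
        · obtain ⟨e, he'⟩ := h5 hn he
          refine ⟨ψ e, ?_⟩
          convert hS _ he' using 2 with j
          rcases j with i | u <;> rfl
      obtain ⟨e, he'⟩ := h6
      refine ⟨MulAut.conj h e, ?_⟩
      convert he'.equiv (MulAut.conj h) using 2 with j
      rcases j with i | u <;> rfl

end

theorem asc {H G ι : Type} [Group H] [Group G] [Finite ι] {a b : ι → H} (ha : SGood a)
    (hb : Bijective (lift b)) {f : H →* G} {t : G} (hG : IsHNN (lift a) (lift b) f t)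
    (hcase : Surjective (lift a) ∨ Subsingleton ι ∨ ∃ e, SGood (Sum.elim a fun _ : Unit => e))
    {n : ℕ} {m : G} (hm : Mid f t (n + 1) m) : Good fun _ : Unit => m := by
  let β : FreeGroup ι ≃* H := MulEquiv.ofBijective (lift b) hb
  let ψ : H →* H := (lift a).comp (β.symm : H →* FreeGroup ι)
  have hβ : ∀ k, β.symm (lift b k) = k := β.symm_apply_apply
  have hψb : ∀ i, ψ (b i) = a i := fun i => by
    have := hβ (of i)
    rw [lift_apply_of] at this
    simp [ψ, this]
  have hψ : ∀ h, t * f h * t⁻¹ = f (ψ h) := fun h => by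
    have h1 := hG.rel (β.symm h)
    have h2 : lift b (β.symm h) = h := β.apply_symm_apply h
    rw [h2] at h1
    rw [← h1]; simp [ψ, mul_assoc]
  have hc : ∀ h, ∃ h', t * f h * t⁻¹ = f h' := fun h => ⟨_, hψ h⟩
  have hf : Injective f := fun h h' e =>
    (IsHNN.britton (kk := fun c => cond c (lift b) (lift a)) (h := h) (h' := h') (L := []) (L' := [])
      (by rintro (_ | _); exacts [ha.injective, hb.1]) hG List.IsChain.nil List.IsChain.nil
      (by simpa [hprod] using e)).2.2 rfl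
  obtain ⟨ψ', h1, h2, h3, -, h5⟩ := asc_psi (b := b) hψ (ha.injective.comp β.symm.injective)
    (fun V hV => ha.trans (hV.equiv β.symm)) hm
  have hl : lift (fun i => ψ' (b i)) = ψ'.comp (lift b) := by ext i; simp
  have hsub : Subsingleton ι → TGood fun i => ψ' (b i) := by
    intro hs
    have hfi : (ψ'.comp (lift b)).range.FiniteIndex := by
      rcases isEmpty_or_nonempty ι with he | ⟨⟨i0⟩⟩
      · have : Subsingleton H := hb.2.subsingleton
        infer_instance
      · let _ : Unique ι := uniqueOfSubsingleton i0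
        let γ : H ≃* Multiplicative ℤ := β.symm.trans mulEquivIntOfUnique
        refine asc_finIdx _ (γ : H →* Multiplicative ℤ) (fun g hg => ?_)
          (m := ψ'.comp (lift b) (of i0)) ⟨_, rfl⟩ fun h => ?_
        · rw [(γ.map_eq_one_iff).1 hg]; exact one_mem _
        · exact of_ne_one i0 ((injective_iff_map_eq_one _).1 (h2.comp hb.1 :
            Injective (ψ'.comp (lift b))) _ ((γ.map_eq_one_iff).1 h))
    have h6 : Good (of : ι → FreeGroup ι) :=
      Good.of_bijective (by rw [lift_of_eq_id]; exact bijective_id)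
    have h7 := h6.finiteIndex (ψ'.comp (lift b)) (h2.comp hb.1)
    refine Good.tGood ?_
    simpa using h7
  have hT : TGood fun i => ψ' (b i) := by
    rcases hcase with hs | hs | he
    · refine (Good.of_bijective ?_).tGood
      rw [hl]
      exact Bijective.comp (g := ψ') ⟨h2, h3 (hs.comp β.symm.surjective)⟩ hb
    · exact hsub hs
    · rcases isEmpty_or_nonempty ι with he' | hne
      · exact hsub inferInstance
      · obtain ⟨e, he'⟩ := h5 n.succ_ne_zero (by simpa only [hψb] using he)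
        exact he'.tGood
  obtain ⟨G0, _, f0, t0, hG0⟩ := exists_hnn (lift fun i => ψ' (b i)) (lift b)
  have hg := (TGood.hnn hT (Good.of_bijective hb).tGood hG0).2
  obtain ⟨J, hJ1, hJ2⟩ := hG0.univ G f m fun k => by
    rw [hl, MonoidHom.comp_apply, ← h1]; group
  obtain ⟨θ, hθ1, hθ2⟩ := hG.univ (Multiplicative ℤ) 1 (Multiplicative.ofAdd 1) fun k => by simp
  obtain ⟨h0, rfl⟩ := asc_mid_nf hc hm
  have hθ : ∀ (x : G) (i j : ℕ) (h : H), θ x ≠ 1 → θ ((x ^ i)⁻¹ * f h * x ^ j) = 1 → i = j := by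
    intro x i j h hx e
    simp only [θ.map_mul, θ.map_inv, θ.map_pow, hθ1, MonoidHom.one_apply, mul_one] at e
    have e2 := congrArg Multiplicative.toAdd e
    simp only [toAdd_mul, toAdd_inv, toAdd_pow, toAdd_one, nsmul_eq_mul] at e2
    have e3 : ((i : ℤ) - j) * (θ x).toAdd = 0 := by linarith
    have e4 := (mul_eq_zero.1 e3).resolve_right fun h => hx (toAdd_eq_zero.1 h)
    omega
  have hθm : θ (f h0 * t ^ (n + 1)) ≠ 1 := by
    intro e
    simp only [θ.map_mul, θ.map_pow, hθ1, hθ2, MonoidHom.one_apply, one_mul] at e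
    have e2 := congrArg Multiplicative.toAdd e
    simp only [toAdd_pow, toAdd_ofAdd, toAdd_one, nsmul_eq_mul] at e2
    omega
  have hJ : Injective J := by
    rw [injective_iff_map_eq_one]
    intro g hg1
    obtain ⟨i, j, h, rfl⟩ := asc_nf hG0.gen (fun h => ⟨ψ' h, by
      have h6 := hG0.rel (β.symm h)
      have h7 : lift b (β.symm h) = h := β.apply_symm_apply h
      rw [hl, MonoidHom.comp_apply, h7] at h6
      rw [← h6]; group⟩) g
    simp only [J.map_mul, J.map_inv, J.map_pow, hJ1, hJ2] at hg1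
    obtain rfl := hθ _ i j h hθm (by rw [hg1, θ.map_one])
    have h6 : f h = f 1 := by
      rw [f.map_one]
      calc f h = (f h0 * t ^ (n + 1)) ^ i * (((f h0 * t ^ (n + 1)) ^ i)⁻¹ * f h *
          (f h0 * t ^ (n + 1)) ^ i) * ((f h0 * t ^ (n + 1)) ^ i)⁻¹ := by
            simp only [mul_assoc, mul_inv_cancel_left, mul_inv_cancel, mul_one]
        _ = 1 := by rw [hg1, mul_one, mul_inv_cancel]
    rw [hf h6]; simp
  have hfi : J.range.FiniteIndex := by
    refine asc_finIdx _ θ (fun g hg1 => ?_) ⟨t0, hJ2⟩ hθm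
    obtain ⟨i, j, h, rfl⟩ := asc_nf hG.gen hc g
    obtain rfl := hθ t i j h (by rw [hθ2]; simp) hg1
    obtain ⟨h6, e6⟩ := asc_m_pow hc h0 (n + 1) i
    obtain ⟨h7, e7⟩ := asc_pow hc (n * i) h
    refine ⟨(t0 ^ i)⁻¹ * f0 (h6 * h7 * h6⁻¹) * t0 ^ i, ?_⟩
    simp only [J.map_mul, J.map_inv, J.map_pow, hJ1, hJ2, e6, f.map_mul, f.map_inv, ← e7]
    group
  simpa only [hJ2] using hg.finiteIndex J hJ

theorem Mid.inv {H G : Type} [Group H] [Group G] {f : H →* G} {t : G} {n : ℕ} {m : G}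
    (hm : Mid f t n m) : Mid f t⁻¹ n (t * m⁻¹ * t⁻¹) := by
  induction hm with
  | zero => simpa using Mid.zero
  | succ h _ ih =>
    convert asc_snoc ih h⁻¹ using 1
    rw [f.map_inv]; group

end Pool.Agent.MP_b9845b_al.H94
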