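import Mathlib

/-!
Basic notions: string rewriting, complete systems presenting a group, good subsystems,
anchored systems, universal properties.
-/

namespace Pool.Agent.MP_b9845b_al.H94

open Relation

abbrev Rules (A : Type) := Set (List A × List A)

section Words
variable {A : Type}

def Step (R : Rules A) (u v : List A) : Prop :=
  ∃ x y : List A, ∃ p ∈ R, u = x ++ p.1 ++ y ∧ v = x ++ p.2 ++ y

def Irr (R : Rules A) (u : List A) : Prop := ∀ p ∈ R, ¬ p.1 <:+: u

abbrev Steps (R : Rules A) : List A → List A → Prop := ReflTransGen (Step R)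

def Jn (R : Rules A) (u v : List A) : Prop := ∃ w, Steps R u w ∧ Steps R v w

def WFR (R : Rules A) : Prop := WellFounded fun v u => Step R u v

def ev {G : Type} [Monoid G] (φ : A → G) (w : List A) : G := (w.map φ).prod

section ev
variable {G : Type} [Monoid G] (φ : A → G)
@[simp] theorem ev_nil : ev φ [] = 1 := rfl
@[simp] theorem ev_cons (a : A) (w : List A) : ev φ (a :: w) = φ a * ev φ w := by simp [ev]
@[simp] theorem ev_append (u w : List A) : ev φ (u ++ w) = ev φ u * ev φ w := by simp [ev]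
theorem ev_singleton (a : A) : ev φ [a] = φ a := by simp
theorem ev_map {B : Type} (e : B → A) (w : List B) : ev φ (w.map e) = ev (fun b => φ (e b)) w := by
  simp [ev, Function.comp_def]
theorem map_ev {K : Type} [Monoid K] (f : G →* K) (w : List A) :
    f (ev φ w) = ev (fun a => f (φ a)) w := by
  induction w with
  | nil => simp
  | cons a w ih => simp [ih]
theorem ev_congr {ψ : A → G} {w : List A} (h : ∀ a ∈ w, φ a = ψ a) : ev φ w = ev ψ w := by
  induction w with
  | nil => simp
  | cons a w ih =>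
    simp only [ev_cons]
    rw [h a (by simp), ih (fun b hb => h b (by simp [hb]))]
theorem ev_map_hom {B F : Type} [Monoid F] (e : B → A) (ψ : B → F) (kv : F →* G)
    (h : ∀ b, φ (e b) = kv (ψ b)) (w : List B) : ev φ (w.map e) = kv (ev ψ w) := by
  rw [ev_map, map_ev]; exact ev_congr _ (fun a _ => h a)
end ev

variable {R : Rules A}

theorem Step.of_mem {l r : List A} (h : (l, r) ∈ R) (x y : List A) :
    Step R (x ++ l ++ y) (x ++ r ++ y) := ⟨x, y, (l, r), h, rfl, rfl⟩

theorem Step.of_mem_left {l r : List A} (h : (l, r) ∈ R) (y : List A) :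
    Step R (l ++ y) (r ++ y) := ⟨[], y, (l, r), h, by simp, by simp⟩

theorem Step.of_mem' {l r : List A} (h : (l, r) ∈ R) : Step R l r :=
  ⟨[], [], (l, r), h, by simp, by simp⟩

theorem Step.ctx {u v : List A} (h : Step R u v) (a b : List A) :
    Step R (a ++ u ++ b) (a ++ v ++ b) := by
  obtain ⟨x, y, p, hp, rfl, rfl⟩ := h
  exact ⟨a ++ x, y ++ b, p, hp, by simp, by simp⟩

theorem Step.left {u v : List A} (h : Step R u v) (a : List A) : Step R (a ++ u) (a ++ v) := by
  simpa using h.ctx a []

theorem Step.right {u v : List A} (h : Step R u v) (b : List A) : Step R (u ++ b) (v ++ b) := by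
  simpa using h.ctx [] b

theorem Step.cons {u v : List A} (h : Step R u v) (a : A) : Step R (a :: u) (a :: v) :=
  h.left [a]

theorem Step.mono {R' : Rules A} (hR : R ⊆ R') {u v : List A} (h : Step R u v) : Step R' u v := by
  obtain ⟨x, y, p, hp, h1, h2⟩ := h
  exact ⟨x, y, p, hR hp, h1, h2⟩

theorem Steps.ctx {u v : List A} (h : Steps R u v) (a b : List A) :
    Steps R (a ++ u ++ b) (a ++ v ++ b) := by
  induction h with
  | refl => exact .refl
  | tail _ h ih => exact ih.tail (h.ctx a b)

theorem Steps.left {u v : List A} (h : Steps R u v) (a : List A) : Steps R (a ++ u) (a ++ v) := by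
  simpa using Steps.ctx h a []

theorem Steps.right {u v : List A} (h : Steps R u v) (b : List A) : Steps R (u ++ b) (v ++ b) := by
  simpa using Steps.ctx h [] b

theorem Steps.cons {u v : List A} (h : Steps R u v) (a : A) : Steps R (a :: u) (a :: v) :=
  Steps.left h [a]

theorem Steps.append {u v u' v' : List A} (h : Steps R u v) (h' : Steps R u' v') :
    Steps R (u ++ u') (v ++ v') := (Steps.right h u').trans (Steps.left h' v)

theorem Jn.refl (u : List A) : Jn R u u := ⟨u, .refl, .refl⟩
theorem Jn.symm {u v : List A} (h : Jn R u v) : Jn R v u := let ⟨w, a, b⟩ := h; ⟨w, b, a⟩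
theorem Jn.of_steps {u v : List A} (h : Steps R u v) : Jn R u v := ⟨v, h, .refl⟩
theorem Jn.of_step {u v : List A} (h : Step R u v) : Jn R u v := ⟨v, .single h, .refl⟩
theorem Jn.ctx {u v : List A} (h : Jn R u v) (a b : List A) : Jn R (a ++ u ++ b) (a ++ v ++ b) :=
  let ⟨_, h1, h2⟩ := h; ⟨_, Steps.ctx h1 a b, Steps.ctx h2 a b⟩
theorem Jn.left {u v : List A} (h : Jn R u v) (a : List A) : Jn R (a ++ u) (a ++ v) := by
  simpa using h.ctx a []
theorem Jn.right {u v : List A} (h : Jn R u v) (b : List A) : Jn R (u ++ b) (v ++ b) := by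
  simpa using h.ctx [] b
theorem Jn.head_left {u u' v : List A} (h : Steps R u u') (h' : Jn R u' v) : Jn R u v :=
  let ⟨w, h1, h2⟩ := h'; ⟨w, h.trans h1, h2⟩
theorem Jn.head_right {u v v' : List A} (h : Steps R v v') (h' : Jn R u v') : Jn R u v :=
  let ⟨w, h1, h2⟩ := h'; ⟨w, h1, h.trans h2⟩
theorem Jn.append {u v u' v' : List A} (h : Jn R u v) (h' : Jn R u' v') :
    Jn R (u ++ u') (v ++ v') :=
  let ⟨_, h1, h2⟩ := h; let ⟨_, h3, h4⟩ := h'; ⟨_, Steps.append h1 h3, Steps.append h2 h4⟩

theorem irr_iff {u : List A} : Irr R u ↔ ∀ v, ¬ Step R u v := by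
  constructor
  · rintro h v ⟨x, y, p, hp, rfl, -⟩
    exact h p hp ⟨x, y, rfl⟩
  · rintro h p hp ⟨x, y, rfl⟩
    exact h _ ⟨x, y, p, hp, rfl, rfl⟩

theorem Irr.of_isInfix {u v : List A} (h : Irr R v) (huv : u <:+: v) : Irr R u :=
  fun p hp h' => h p hp (h'.trans huv)

theorem Irr.of_append_left {u v : List A} (h : Irr R (u ++ v)) : Irr R u :=
  h.of_isInfix (List.prefix_append u v).isInfix

theorem Irr.of_append_right {u v : List A} (h : Irr R (u ++ v)) : Irr R v :=
  h.of_isInfix (List.suffix_append u v).isInfix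

theorem Irr.tail {a : A} {v : List A} (h : Irr R (a :: v)) : Irr R v :=
  Irr.of_append_right (u := [a]) h

theorem Irr.not_mem {l r : List A} (hp : (l, r) ∈ R) (x y : List A) : ¬ Irr R (x ++ l ++ y) :=
  fun h => h _ hp ⟨x, y, rfl⟩

theorem Irr.eq_of_steps {u v : List A} (h : Irr R u) (huv : Steps R u v) : u = v := by
  rcases huv.cases_head with h' | ⟨w, h', -⟩
  · exact h'
  · exact absurd h' (irr_iff.1 h w)

/-- A word `a :: v` with `v` irreducible is irreducible unless a left side is an initial segment. -/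
theorem irr_cons {a : A} {v : List A} (hv : Irr R v) (h : ∀ p ∈ R, ¬ p.1 <+: a :: v) :
    Irr R (a :: v) := by
  intro p hp hi
  rcases List.infix_cons_iff.1 hi with h' | h'
  · exact h p hp h'
  · exact hv p hp h'

theorem WFR.ne_nil (h : WFR R) : ∀ p ∈ R, p.1 ≠ [] := by
  intro p hp h0
  have key : ∀ u, Acc (fun v u => Step R u v) u → False := by
    intro u hu
    induction hu with
    | intro u _ ih => exact ih (p.2 ++ u) ⟨[], u, p, hp, by simp [h0], by simp⟩
  exact key [] (h.apply [])

theorem WFR.irr_nil (h : WFR R) : Irr R [] := by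
  intro p hp hi
  exact h.ne_nil p hp (List.infix_nil.1 hi)

theorem WFR.exists_irr (h : WFR R) (u : List A) : ∃ v, Steps R u v ∧ Irr R v := by
  induction u using WellFounded.induction h with
  | _ u ih =>
    by_cases hu : Irr R u
    · exact ⟨u, .refl, hu⟩
    · rw [irr_iff] at hu
      push Not at hu
      obtain ⟨v, hv⟩ := hu
      obtain ⟨w, h1, h2⟩ := ih v hv
      exact ⟨w, .head hv h1, h2⟩

theorem WFR.mono {R' : Rules A} (h : WFR R') (hR : R ⊆ R') : WFR R :=
  Subrelation.wf (fun h' => Step.mono hR h') h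

theorem Step.ev_eq {G : Type} [Monoid G] {φ : A → G} (hs : ∀ p ∈ R, ev φ p.1 = ev φ p.2)
    {u v : List A} (h : Step R u v) : ev φ u = ev φ v := by
  obtain ⟨x, y, p, hp, rfl, rfl⟩ := h
  simp [hs p hp]

theorem Steps.ev_eq {G : Type} [Monoid G] {φ : A → G} (hs : ∀ p ∈ R, ev φ p.1 = ev φ p.2)
    {u v : List A} (h : Steps R u v) : ev φ u = ev φ v := by
  induction h with
  | refl => rfl
  | tail _ h ih => exact ih.trans (h.ev_eq hs)

theorem Jn.ev_eq {G : Type} [Monoid G] {φ : A → G} (hs : ∀ p ∈ R, ev φ p.1 = ev φ p.2)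
    {u v : List A} (h : Jn R u v) : ev φ u = ev φ v :=
  let ⟨_, h1, h2⟩ := h; (Steps.ev_eq hs h1).trans (Steps.ev_eq hs h2).symm

/-- Steps transfer along a letter map that sends rules to rules. -/
theorem Step.map {B : Type} {R' : Rules B} (e : A → B)
    (he : ∀ p ∈ R, (p.1.map e, p.2.map e) ∈ R') {u v : List A} (h : Step R u v) :
    Step R' (u.map e) (v.map e) := by
  obtain ⟨x, y, p, hp, rfl, rfl⟩ := h
  exact ⟨x.map e, y.map e, _, he p hp, by simp, by simp⟩

theorem Steps.map {B : Type} {R' : Rules B} (e : A → B)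
    (he : ∀ p ∈ R, (p.1.map e, p.2.map e) ∈ R') {u v : List A} (h : Steps R u v) :
    Steps R' (u.map e) (v.map e) := by
  induction h with
  | refl => exact .refl
  | tail _ h ih => exact ih.tail (h.map e he)

theorem Jn.map {B : Type} {R' : Rules B} (e : A → B)
    (he : ∀ p ∈ R, (p.1.map e, p.2.map e) ∈ R') {u v : List A} (h : Jn R u v) :
    Jn R' (u.map e) (v.map e) :=
  let ⟨_, h1, h2⟩ := h; ⟨_, Steps.map e he h1, Steps.map e he h2⟩

theorem Irr.of_map {B : Type} {R' : Rules B} (e : A → B)
    (he : ∀ p ∈ R, (p.1.map e, p.2.map e) ∈ R') {u : List A} (h : Irr R' (u.map e)) : Irr R u :=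
  irr_iff.2 fun _ hv => irr_iff.1 h _ (hv.map e he)

/-- The image of a rule set under a letter map. -/
def mapR {B : Type} (e : A → B) (R : Rules A) : Rules B :=
  {p | ∃ q ∈ R, p = (q.1.map e, q.2.map e)}

theorem mem_mapR {B : Type} (e : A → B) {q : List A × List A} (h : q ∈ R) :
    (q.1.map e, q.2.map e) ∈ mapR e R := ⟨q, h, rfl⟩

theorem finite_mapR {B : Type} (e : A → B) (h : R.Finite) : (mapR e R).Finite :=
  (h.image fun q => (q.1.map e, q.2.map e)).subset (by rintro _ ⟨q, hq, rfl⟩; exact ⟨q, hq, rfl⟩)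

/-- Every word splits as a word in the image of `e` followed by a word that does not start with
a letter in the image of `e`. -/
theorem exists_split {B : Type} (e : B → A) (w : List A) :
    ∃ (u : List B) (v : List A), w = u.map e ++ v ∧ ∀ c, v.head? ≠ some (e c) := by
  induction w with
  | nil => exact ⟨[], [], rfl, by simp⟩
  | cons a w ih =>
    by_cases ha : ∃ c, a = e c
    · obtain ⟨c, rfl⟩ := ha
      obtain ⟨u, v, rfl, h⟩ := ih
      exact ⟨c :: u, v, rfl, h⟩
    · exact ⟨[], a :: w, rfl, fun c hc => ha ⟨c, by simpa using hc⟩⟩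

theorem split_unique {B : Type} {e : B → A} (he : Function.Injective e) {u u' : List B}
    {v v' : List A} (hv : ∀ c, v.head? ≠ some (e c)) (hv' : ∀ c, v'.head? ≠ some (e c))
    (h : u.map e ++ v = u'.map e ++ v') : u = u' ∧ v = v' := by
  induction u generalizing u' with
  | nil =>
    cases u' with
    | nil => exact ⟨rfl, by simpa using h⟩
    | cons c u' => exact absurd (by simp at h; simp [h]) (hv c)
  | cons c u ih =>
    cases u' with
    | nil => exact absurd (by simp at h; simp [← h]) (hv' c)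
    | cons c' u' =>
      simp only [List.map_cons, List.cons_append, List.cons.injEq] at h
      obtain ⟨h1, h2⟩ := ih h.2
      exact ⟨by rw [he h.1, h1], h2⟩

/-- An initial segment in the image of `e` lies inside the maximal such segment. -/
theorem isPrefix_of_split {B : Type} {e : B → A} {l u : List B}
    {v : List A} (he : Function.Injective e) (hv : ∀ c, v.head? ≠ some (e c))
    (h : l.map e <+: u.map e ++ v) : l <+: u := by
  induction l generalizing u with
  | nil => exact List.nil_prefix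
  | cons c l ih =>
    cases u with
    | nil =>
      obtain ⟨z, hz⟩ := h
      exact absurd (by simp at hz; simp [← hz]) (hv c)
    | cons c' u =>
      simp only [List.map_cons, List.cons_append, List.cons_prefix_cons] at h ⊢
      exact ⟨he h.1, ih h.2⟩

end Words

/-- A finite complete rewriting system presenting the group `G`. -/
structure Sys (G : Type) [Group G] where
  A : Type
  fin : Finite A
  R : Rules A
  Rfin : R.Finite
  φ : A → G
  sound : ∀ p ∈ R, ev φ p.1 = ev φ p.2
  wf : WFR R
  surj : ∀ g, ∃ w, ev φ w = g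
  inj : ∀ u v, Irr R u → Irr R v → ev φ u = ev φ v → u = v

attribute [instance] Sys.fin

namespace Sys
variable {G : Type} [Group G] (S : Sys G)

/-- A word for a group element. -/
noncomputable def word (g : G) : List S.A := (S.surj g).choose
@[simp] theorem ev_word (g : G) : ev S.φ (S.word g) = g := (S.surj g).choose_spec

theorem jn_of_ev {u v : List S.A} (h : ev S.φ u = ev S.φ v) : Jn S.R u v := by
  obtain ⟨u', h1, h2⟩ := S.wf.exists_irr u
  obtain ⟨v', h3, h4⟩ := S.wf.exists_irr v
  have : u' = v' := S.inj _ _ h2 h4 (by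
    rw [← Steps.ev_eq S.sound h1, ← Steps.ev_eq S.sound h3, h])
  subst this
  exact ⟨u', h1, h3⟩

theorem steps_of_ev {u v : List S.A} (hv : Irr S.R v) (h : ev S.φ u = ev S.φ v) :
    Steps S.R u v := by
  obtain ⟨w, h1, h2⟩ := S.jn_of_ev h
  rwa [← hv.eq_of_steps h2] at h1

theorem steps_nil {u : List S.A} (h : ev S.φ u = 1) : Steps S.R u [] :=
  S.steps_of_ev S.wf.irr_nil h

theorem exists_nf (g : G) : ∃ v, Irr S.R v ∧ ev S.φ v = g := by
  obtain ⟨v, h1, h2⟩ := S.wf.exists_irr (S.word g)
  exact ⟨v, h2, by rw [← Steps.ev_eq S.sound h1, ev_word]⟩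

/-- The system presents its group. -/
theorem pres {K : Type} [Group K] (g : S.A → K) (hg : ∀ p ∈ S.R, ev g p.1 = ev g p.2) :
    ∃ ψ : G →* K, ∀ w, ψ (ev S.φ w) = ev g w := by
  have key : ∀ u v, ev S.φ u = ev S.φ v → ev g u = ev g v := fun u v h => (S.jn_of_ev h).ev_eq hg
  refine ⟨MonoidHom.mk' (fun γ => ev g (S.word γ)) fun a b => ?_, fun w => key _ _ (by simp)⟩
  rw [← ev_append]
  exact key _ _ (by simp)

theorem hom_ext {K : Type} [Group K] {ψ ψ' : G →* K} (h : ∀ a, ψ (S.φ a) = ψ' (S.φ a)) :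
    ψ = ψ' := by
  ext g
  rw [← S.ev_word g, map_ev, map_ev]
  exact ev_congr _ fun a _ => h a

/-- Transport along an isomorphism. -/
@[reducible] def map {G' : Type} [Group G'] (e : G ≃* G') : Sys G' where
  A := S.A
  fin := S.fin
  R := S.R
  Rfin := S.Rfin
  φ := fun a => e (S.φ a)
  sound := fun p hp => by
    have := congrArg e (S.sound p hp)
    simpa [map_ev S.φ (e : G →* G')] using
      (map_ev S.φ (e : G →* G') p.1).symm.trans (this.trans (map_ev S.φ (e : G →* G') p.2))
  wf := S.wf
  surj := fun g => ⟨S.word (e.symm g), by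
    have := map_ev S.φ (e : G →* G') (S.word (e.symm g))
    simpa using this.symm⟩
  inj := fun u v hu hv h => S.inj u v hu hv (e.injective (by
    have h1 := map_ev S.φ (e : G →* G') u
    have h2 := map_ev S.φ (e : G →* G') v
    simp only [MonoidHom.coe_coe] at h1 h2
    rw [h1, h2, h]))

end Sys

/-- `C` sits in `S` as a subsystem along `emb`, and every rule of `S` whose left side starts with
a letter of `C` is a rule of `C`. -/
structure SubGood {G F : Type} [Group G] [Group F] (S : Sys G) (C : Sys F) (kv : F →* G)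
    (emb : C.A → S.A) : Prop where
  inj : Function.Injective emb
  val : ∀ c, S.φ (emb c) = kv (C.φ c)
  rule : ∀ p ∈ C.R, (p.1.map emb, p.2.map emb) ∈ S.R
  head : ∀ p ∈ S.R, ∀ c, p.1.head? = some (emb c) → ∃ q ∈ C.R, p = (q.1.map emb, q.2.map emb)

namespace SubGood
variable {G F : Type} [Group G] [Group F] {S : Sys G} {C : Sys F} {kv : F →* G}
  {emb : C.A → S.A}

theorem ev_map (h : SubGood S C kv emb) (w : List C.A) :
    ev S.φ (w.map emb) = kv (ev C.φ w) := ev_map_hom _ _ _ _ h.val w

theorem irr_append (h : SubGood S C kv emb) {u : List C.A} {v : List S.A} (hu : Irr C.R u)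
    (hv : Irr S.R v) (hv' : ∀ c, v.head? ≠ some (emb c)) : Irr S.R (u.map emb ++ v) := by
  induction u with
  | nil => simpa using hv
  | cons c u ih =>
    refine irr_cons (ih hu.tail) fun p hp hpre => ?_
    have hne := S.wf.ne_nil p hp
    have hh : p.1.head? = some (emb c) := by
      obtain ⟨z, hz⟩ := hpre
      cases hp1 : p.1 with
      | nil => exact absurd hp1 hne
      | cons a l => rw [hp1] at hz; simp at hz; simp [hz.1]
    obtain ⟨q, hq, rfl⟩ := h.head p hp c hh
    exact hu q hq (isPrefix_of_split (u := c :: u) h.inj hv' hpre).isInfix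

theorem irr_map (h : SubGood S C kv emb) {u : List C.A} (hu : Irr C.R u) : Irr S.R (u.map emb) := by
  simpa using h.irr_append hu S.wf.irr_nil (by simp)

/-- Coset uniqueness. -/
theorem uniq (h : SubGood S C kv emb) {v v' : List S.A} (hv : Irr S.R v) (hv' : Irr S.R v')
    (h1 : ∀ c, v.head? ≠ some (emb c)) (h1' : ∀ c, v'.head? ≠ some (emb c)) {k : F}
    (hk : kv k * ev S.φ v = ev S.φ v') : v = v' ∧ k = 1 := by
  obtain ⟨u, hu, rfl⟩ := C.exists_nf k
  have := S.inj _ _ (h.irr_append hu hv h1) hv' (by rw [ev_append, h.ev_map, hk])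
  have h2 := split_unique (u' := []) h.inj h1 h1' (by simpa using this)
  exact ⟨h2.2, by simp [h2.1]⟩

theorem kv_injective (h : SubGood S C kv emb) : Function.Injective kv := by
  rw [injective_iff_map_eq_one]
  intro k hk
  exact (h.uniq S.wf.irr_nil S.wf.irr_nil (by simp) (by simp) (by simpa using hk)).2

theorem refl (S : Sys G) : SubGood S S (MonoidHom.id G) id :=
  ⟨fun _ _ h => h, fun _ => rfl, fun p hp => by simpa using hp, fun p hp _ _ => ⟨p, hp, by simp⟩⟩

theorem trans {E : Type} [Group E] {D : Sys E} {kv' : E →* F} {emb' : D.A → C.A}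
    (h : SubGood S C kv emb) (h' : SubGood C D kv' emb') :
    SubGood S D (kv.comp kv') (fun c => emb (emb' c)) := by
  refine ⟨fun a b hab => h'.inj (h.inj hab), fun c => by simp [h.val, h'.val], fun p hp => ?_,
    fun p hp c hc => ?_⟩
  · simpa [Function.comp_def] using h.rule _ (h'.rule p hp)
  · obtain ⟨q, hq, rfl⟩ := h.head p hp _ hc
    have : q.1.head? = some (emb' c) := by
      cases hq1 : q.1 with
      | nil => simp [hq1] at hc
      | cons a l => simp [hq1] at hc; simp [h.inj hc]
    obtain ⟨q', hq', rfl⟩ := h'.head q hq c this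
    exact ⟨q', hq', by simp [Function.comp_def]⟩

theorem congr {kv' : F →* G} (h : SubGood S C kv emb) (hk : kv = kv') : SubGood S C kv' emb :=
  hk ▸ h

theorem map {G' : Type} [Group G'] (h : SubGood S C kv emb) (e : G ≃* G') :
    SubGood (S.map e) C ((e : G →* G').comp kv) emb :=
  ⟨h.inj, fun c => by simp [h.val], h.rule, h.head⟩

end SubGood

/-- Free reductions. -/
def freeR (ι : Type) : Rules (ι × Bool) := {p | ∃ i b, p = ([(i, b), (i, !b)], [])}

theorem ev_mk {ι : Type} (w : List (ι × Bool)) :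
    ev (fun c : ι × Bool => FreeGroup.mk [c]) w = FreeGroup.mk w := by
  induction w with
  | nil => rfl
  | cons a w ih => rw [ev_cons, ih, FreeGroup.mul_mk]; rfl

theorem step_freeR {ι : Type} {u v : List (ι × Bool)} :
    Step (freeR ι) u v ↔ FreeGroup.Red.Step u v := by
  constructor
  · rintro ⟨x, y, _, ⟨i, b, rfl⟩, rfl, rfl⟩
    simp
  · rintro @⟨x, y, i, b⟩
    exact ⟨x, y, _, ⟨i, b, rfl⟩, by simp, by simp⟩

theorem irr_freeR {ι : Type} {u : List (ι × Bool)} : Irr (freeR ι) u ↔ FreeGroup.IsReduced u := by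
  rw [irr_iff, FreeGroup.isReduced_iff_not_step]
  simp [step_freeR]

theorem wfr_of_length {A : Type} {R : Rules A} (h : ∀ p ∈ R, p.2.length < p.1.length) : WFR R := by
  refine Subrelation.wf (r := InvImage (· < ·) List.length) ?_ (InvImage.wf _ wellFounded_lt)
  rintro v u ⟨x, y, p, hp, rfl, rfl⟩
  have := h p hp
  simp only [InvImage, List.length_append]
  omega

/-- The free reduction system of a free group. -/
@[reducible] def freeSys (ι : Type) [Finite ι] : Sys (FreeGroup ι) where
  A := ι × Bool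
  fin := inferInstance
  R := freeR ι
  Rfin := (Set.finite_range fun c : ι × Bool => (([c, (c.1, !c.2)], []) :
      List (ι × Bool) × List (ι × Bool))).subset (by rintro _ ⟨i, b, rfl⟩; exact ⟨(i, b), rfl⟩)
  φ := fun c => FreeGroup.mk [c]
  sound := by
    rintro _ ⟨i, b, rfl⟩
    rw [ev_mk, ev_mk]
    exact Quot.sound (by simp)
  wf := wfr_of_length (by rintro _ ⟨i, b, rfl⟩; simp)
  surj := by rintro ⟨w⟩; exact ⟨w, ev_mk w⟩
  inj := fun u v hu hv h => by
    rw [ev_mk, ev_mk] at h
    obtain ⟨w, h1, h2⟩ := FreeGroup.Red.exact.1 h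
    rw [(irr_freeR.1 hu).red_iff_eq] at h1
    rw [(irr_freeR.1 hv).red_iff_eq] at h2
    rw [← h1, h2]

/-- The value of a signed letter. -/
def sg {G ι : Type} [Group G] (y : ι → G) (c : ι × Bool) : G := if c.2 then y c.1 else (y c.1)⁻¹

@[simp] theorem sg_true {G ι : Type} [Group G] (y : ι → G) (i : ι) : sg y (i, true) = y i := rfl
@[simp] theorem sg_false {G ι : Type} [Group G] (y : ι → G) (i : ι) :
    sg y (i, false) = (y i)⁻¹ := rfl
theorem sg_not {G ι : Type} [Group G] (y : ι → G) (i : ι) (b : Bool) :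
    sg y (i, !b) = (sg y (i, b))⁻¹ := by cases b <;> simp

@[simp] theorem lift_mk_single {G ι : Type} [Group G] (y : ι → G) (c : ι × Bool) :
    FreeGroup.lift y (FreeGroup.mk [c]) = sg y c := by
  rcases c with ⟨i, _ | _⟩ <;> simp [sg]

theorem lift_mk_eq_ev {G ι : Type} [Group G] (y : ι → G) (w : List (ι × Bool)) :
    FreeGroup.lift y (FreeGroup.mk w) = ev (sg y) w := by
  rw [← ev_mk, map_ev]; exact ev_congr _ fun c _ => lift_mk_single y c

/-- `G` has a finite complete system containing letters for the `y i` and their inverses such that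
a left side starting with such a letter is a free reduction. -/
def Good {G ι : Type} [Group G] [Finite ι] (y : ι → G) : Prop :=
  ∃ (S : Sys G) (emb : ι × Bool → S.A), SubGood S (freeSys ι) (FreeGroup.lift y) emb

/-- One step of rewriting, or of an anchored rule at the start of the word. -/
def AStep {A F : Type} (R : Rules A) (P : Set (List A × F × List A)) (u v : List A) : Prop :=
  Step R u v ∨ ∃ q ∈ P, ∃ y, u = q.1 ++ y ∧ v = q.2.2 ++ y

def AIrr {A F : Type} (R : Rules A) (P : Set (List A × F × List A)) (v : List A) : Prop :=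
  Irr R v ∧ ∀ q ∈ P, ¬ q.1 <+: v

/-- An anchored system: finitely many rules at the start of a word which give unique
representatives for the right cosets of the image of `kv`. -/
structure Anch {G F : Type} [Group G] [Group F] (S : Sys G) (kv : F →* G) where
  P : Set (List S.A × F × List S.A)
  fin : P.Finite
  ne : ∀ q ∈ P, q.1 ≠ []
  sound : ∀ q ∈ P, ev S.φ q.1 = kv q.2.1 * ev S.φ q.2.2
  wf : WellFounded fun v u => AStep S.R P u v
  uniq : ∀ v v' k, AIrr S.R P v → AIrr S.R P v' → kv k * ev S.φ v = ev S.φ v' → v = v' ∧ k = 1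

namespace Anch
variable {G F : Type} [Group G] [Group F] {S : Sys G} {kv : F →* G} (N : Anch S kv)

theorem airr_nil : AIrr S.R N.P [] :=
  ⟨S.wf.irr_nil, fun q hq h => N.ne q hq (List.prefix_nil.1 h)⟩

include N in
theorem kv_injective : Function.Injective kv := by
  rw [injective_iff_map_eq_one]
  intro k hk
  exact (N.uniq _ _ k N.airr_nil N.airr_nil (by simpa using hk)).2

theorem airr_or (u : List S.A) : AIrr S.R N.P u ∨ ∃ v, AStep S.R N.P u v := by
  by_contra h
  push Not at h
  refine h.1 ⟨irr_iff.2 fun v hv => h.2 v (Or.inl hv), ?_⟩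
  rintro q hq ⟨y, rfl⟩
  exact h.2 _ (Or.inr ⟨q, hq, y, rfl, rfl⟩)

theorem eq_nil_of_mem {v : List S.A} (hv : AIrr S.R N.P v) {k : F} (h : ev S.φ v = kv k) :
    v = [] := (N.uniq [] v k N.airr_nil hv (by simp [h])).1.symm

end Anch

/-- `G` is the HNN extension of `H` with stable letter `t` conjugating `kA k` to `kB k`. -/
structure IsHNN {F H G : Type} [Group F] [Group H] [Group G] (kA kB : F →* H) (f : H →* G)
    (t : G) : Prop where
  rel : ∀ k, t⁻¹ * f (kA k) * t = f (kB k)
  gen : ∀ L : Subgroup G, (∀ h, f h ∈ L) → t ∈ L → ∀ g, g ∈ L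
  univ : ∀ (K : Type) [Group K] (g : H →* K) (s : K), (∀ k, s⁻¹ * g (kA k) * s = g (kB k)) →
    ∃ ψ : G →* K, (∀ h, ψ (f h) = g h) ∧ ψ t = s

/-- `D` is the amalgamated product of `H₀` and `H₁` along `k₀`, `k₁`. -/
structure IsAmalg {F H₀ H₁ D : Type} [Group F] [Group H₀] [Group H₁] [Group D] (k₀ : F →* H₀)
    (k₁ : F →* H₁) (f₀ : H₀ →* D) (f₁ : H₁ →* D) : Prop where
  rel : ∀ k, f₀ (k₀ k) = f₁ (k₁ k)
  gen : ∀ L : Subgroup D, (∀ h, f₀ h ∈ L) → (∀ h, f₁ h ∈ L) → ∀ g, g ∈ L
  univ : ∀ (K : Type) [Group K] (g₀ : H₀ →* K) (g₁ : H₁ →* K), (∀ k, g₀ (k₀ k) = g₁ (k₁ k)) →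
    ∃ ψ : D →* K, (∀ h, ψ (f₀ h) = g₀ h) ∧ ∀ h, ψ (f₁ h) = g₁ h

/-- `M` is the free product of `G` and the free group on the `f k`. -/
structure IsFreeExt {G M κ : Type} [Group G] [Group M] (i : G →* M) (f : κ → M) : Prop where
  gen : ∀ L : Subgroup M, (∀ g, i g ∈ L) → (∀ k, f k ∈ L) → ∀ m, m ∈ L
  univ : ∀ (K : Type) [Group K] (g : G →* K) (s : κ → K),
    ∃ ψ : M →* K, (∀ x, ψ (i x) = g x) ∧ ∀ k, ψ (f k) = s k

/-- Stable goodness: goodness after a free product with a free group of finite rank. -/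
def SGood {G ι : Type} [Group G] [Finite ι] (y : ι → G) : Prop :=
  ∃ (M : Type) (_ : Group M) (κ : Type) (_ : Finite κ) (i : G →* M) (f : κ → M),
    IsFreeExt i f ∧ Good fun j => i (y j)

/-- Stable goodness of `y` together with as many further elements of `G` as free letters used. -/
def TGood {G ι : Type} [Group G] [Finite ι] (y : ι → G) : Prop :=
  ∃ (M : Type) (_ : Group M) (κ : Type) (_ : Finite κ) (i : G →* M) (f : κ → M) (e : κ → G),
    IsFreeExt i f ∧ Good fun j : ι ⊕ κ => i (Sum.elim y e j)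

end Pool.Agent.MP_b9845b_al.H94
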