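import Pool.Agent.MP_b9845b_al.H94.AnchB

namespace Pool.Agent.MP_b9845b_al.H94

open Relation FreeGroup Function

/-- Position of a factor relative to a marked letter. -/
theorem cf_mid_split {A : Type} {u v x l y : List A} {a : A} (h : u ++ a :: v = x ++ l ++ y) :
    (∃ y', u = x ++ l ++ y' ∧ y = y' ++ a :: v) ∨ (∃ x', x = u ++ a :: x' ∧ v = x' ++ l ++ y) ∨
      ∃ l₁ l₂, l = l₁ ++ a :: l₂ ∧ u = x ++ l₁ ∧ v = l₂ ++ y := by
  rcases List.append_eq_append_iff.1 h with ⟨a', h1, h2⟩ | ⟨c', h1, h2⟩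
  · cases a' with
    | nil =>
      left
      exact ⟨[], by simpa using h1.symm, by simpa using h2.symm⟩
    | cons b a' =>
      simp only [List.cons_append, List.cons.injEq] at h2
      obtain ⟨rfl, rfl⟩ := h2
      rcases List.append_eq_append_iff.1 h1 with ⟨a'', h3, h4⟩ | ⟨c'', h3, h4⟩
      · right; right
        exact ⟨a'', a', h4, h3, rfl⟩
      · cases c'' with
        | nil =>
          right; right
          exact ⟨[], a', by simpa using h4.symm, by simpa using h3.symm, rfl⟩
        | cons b c'' =>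
          simp only [List.cons_append, List.cons.injEq] at h4
          obtain ⟨rfl, rfl⟩ := h4
          right; left
          exact ⟨c'', h3, rfl⟩
  · left
    exact ⟨c', h1, h2⟩

section TJ
variable {A F : Type} [Group F] {R : Rules A} {P : Set (List A × F × List A)}

theorem cf_tjn_refl (a : F × List A) : TJn R P a a := ⟨a, .refl, .refl⟩

theorem cf_tjn_head {a b c : F × List A} (h : ReflTransGen (TStep R P) a b) (h' : TJn R P b c) :
    TJn R P a c :=
  let ⟨w, h1, h2⟩ := h'; ⟨w, h.trans h1, h2⟩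

theorem cf_tsteps (k : F) {u v : List A} (h : Steps R u v) :
    ReflTransGen (TStep R P) (k, u) (k, v) := by
  induction h with
  | refl => exact .refl
  | tail _ h ih => exact ih.tail (Or.inl ⟨rfl, h⟩)

theorem cf_tstep_anch {l r : List A} {g : F} (hq : (l, g, r) ∈ P) (k : F) (y : List A) :
    ReflTransGen (TStep R P) (k, l ++ y) (k * g, r ++ y) :=
  .single (Or.inr ⟨_, hq, y, rfl, rfl⟩)

end TJ

theorem cf_mk_not {ι : Type} (c : ι × Bool) : mk [c] * mk [(c.1, !c.2)] = 1 := by
  obtain ⟨i, b⟩ := c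
  rw [FreeGroup.mul_mk]
  exact Quot.sound (by simp)

theorem cf_mem_all {ι : Type} (L : Subgroup (FreeGroup ι)) (h : ∀ c, mk [c] ∈ L) (k : FreeGroup ι) :
    k ∈ L := by
  obtain ⟨w⟩ := k
  change mk w ∈ L
  induction w with
  | nil => exact L.one_mem
  | cons c w ih =>
    have : mk (c :: w) = mk [c] * mk w := by rw [FreeGroup.mul_mk]; rfl
    rw [this]
    exact L.mul_mem (h c) ih

theorem cf {M F ι : Type} [Group M] [Group F] [Finite ι] {S : Sys M} {U : ι → M}
    {emb : ι × Bool → S.A} (hS : SubGood S (freeSys ι) (lift U) emb) (c₁ c₂ : ι × Bool)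
    (hne : c₁.1 ≠ c₂.1)
    (hfree : ∀ p ∈ S.R, ∀ i ε, (i = c₁.1 ∨ i = c₂.1) → (emb (i, ε) ∈ p.1 ∨ emb (i, ε) ∈ p.2) →
      ∃ ε', p = ([emb (i, ε'), emb (i, !ε')], []))
    (ρ : List S.A) (hρ : Irr S.R ρ) (hρ0 : ρ ≠ []) (hρ1 : ∀ c, ρ.head? ≠ some (emb c))
    (hρ2 : ∀ i ε, (i = c₁.1 ∨ i = c₂.1) → emb (i, ε) ∉ ρ)
    (kv : F →* M) (inc : FreeGroup ι →* F) (hinc : ∀ k, kv (inc k) = lift U k) (ζ : F)
    (hζ : kv ζ = ev S.φ ρ * sg U c₁ * sg U c₂ * (ev S.φ ρ)⁻¹)
    (hgen : ∀ L : Subgroup F, (∀ k, inc k ∈ L) → ζ ∈ L → ∀ k, k ∈ L) :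
    ∃ N : Anch S kv, ∀ q ∈ N.P, (∃ c, q = ([emb c], inc (mk [c]), [])) ∨
      ∃ ε, emb (c₂.1, ε) ∈ q.1 := by
  classical
  obtain ⟨i₁, e₁⟩ := c₁
  obtain ⟨i₂, e₂⟩ := c₂
  dsimp only at hne hfree hρ2 ⊢
  have hinj : Injective emb := hS.inj
  have hval : ∀ c, S.φ (emb c) = sg U c := fun c => by
    rw [hS.val c]; exact lift_mk_single U c
  let qA : ι × Bool → List S.A × F × List S.A := fun c => ([emb c], inc (mk [c]), [])
  let qB : List S.A × F × List S.A := (ρ ++ [emb (i₁, e₁), emb (i₂, e₂)], ζ, ρ)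
  let qC : List S.A × F × List S.A := (ρ ++ [emb (i₂, !e₂)], ζ⁻¹, ρ ++ [emb (i₁, e₁)])
  let P : Set (List S.A × F × List S.A) := {q | (∃ c, q = qA c) ∨ q = qB ∨ q = qC}
  have hA : ∀ c, qA c ∈ P := fun c => Or.inl ⟨c, rfl⟩
  have hB : qB ∈ P := Or.inr (Or.inl rfl)
  have hC : qC ∈ P := Or.inr (Or.inr rfl)
  have hfin : P.Finite := by
    refine ((Set.finite_range qA).union ((Set.finite_singleton qC).insert qB)).subset ?_
    rintro q (⟨c, rfl⟩ | rfl | rfl)
    · exact Or.inl ⟨c, rfl⟩
    · exact Or.inr (Or.inl rfl)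
    · exact Or.inr (Or.inr rfl)
  have hsound : ∀ q ∈ P, ev S.φ q.1 = kv q.2.1 * ev S.φ q.2.2 := by
    rintro q (⟨c, rfl⟩ | rfl | rfl)
    · simp only [qA, ev_singleton, hval, hinc, lift_mk_single, ev_nil, mul_one]
    · simp [qB, hval, hζ, mul_assoc]
    · simp [qC, hval, hζ, mul_assoc, sg_not]
  -- the number of letters with index `i₂`
  let isC : S.A → Bool := fun a => decide (∃ ε, a = emb (i₂, ε))
  have hc2 : ∀ ε, isC (emb (i₂, ε)) = true := fun ε => by simp only [isC, decide_eq_true_eq]; exact ⟨ε, rfl⟩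
  have hc1 : isC (emb (i₁, e₁)) = false := by
    simp only [isC, decide_eq_false_iff_not]
    rintro ⟨ε, h⟩
    exact hne (congrArg Prod.fst (hinj h))
  have hwf : WellFounded fun v u => AStep S.R P u v := by
    refine wf_lex2 (fun w : List S.A => w.countP isC) wellFounded_lt S.wf.drop ?_
    rintro v u (⟨x, y, p, hp, rfl, rfl⟩ | ⟨q, hq, y, rfl, rfl⟩)
    · have hle : p.2.countP isC ≤ p.1.countP isC := by
        by_cases h2 : ∃ ε, emb (i₂, ε) ∈ p.2
        · obtain ⟨ε, h2⟩ := h2
          obtain ⟨ε', rfl⟩ := hfree p hp i₂ ε (Or.inr rfl) (Or.inr h2)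
          simp
        · have : p.2.countP isC = 0 := by
            rw [List.countP_eq_zero]
            intro a ha hc
            simp only [isC, decide_eq_true_eq] at hc
            obtain ⟨ε, rfl⟩ := hc
            exact h2 ⟨ε, ha⟩
          omega
      rcases hle.lt_or_eq with h | h
      · left; simp only [List.countP_append]; omega
      · right
        exact ⟨by simp only [List.countP_append]; omega, Or.inl ⟨x, y, p, hp, rfl, rfl⟩⟩
    · rcases hq with ⟨c, rfl⟩ | rfl | rfl
      · have hle : (([] : List S.A) ++ y).countP isC ≤ ([emb c] ++ y).countP isC := by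
          simp only [List.countP_append]; simp
        rcases hle.lt_or_eq with h | h
        · exact Or.inl h
        · exact Or.inr ⟨h, Or.inr ⟨[emb c], by simp, rfl⟩⟩
      · left
        simp [qB, List.countP_append, List.countP_cons, hc2]
        omega
      · left
        simp [qC, List.countP_append, hc2, hc1]
  -- an overlap of a rule with `ρ` followed by a letter with index `i₁` or `i₂`
  have hov : ∀ p ∈ S.R, ∀ i ε, (i = i₁ ∨ i = i₂) → ∀ x v z, ρ ++ emb (i, ε) :: v = x ++ p.1 ++ z →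
      (∃ x', x = ρ ++ emb (i, ε) :: x' ∧ v = x' ++ p.1 ++ z) ∨
        (x = ρ ∧ p.2 = [] ∧ v = emb (i, !ε) :: z) := by
    intro p hp i ε hi x v z h
    rcases cf_mid_split h with ⟨y', h1, -⟩ | h1 | ⟨l₁, l₂, h1, h2, h3⟩
    · exact absurd ⟨x, y', h1.symm⟩ (hρ p hp)
    · exact Or.inl h1
    · right
      obtain ⟨ε', rfl⟩ := hfree p hp i ε hi (Or.inl (by simp [h1]))
      cases l₁ with
      | nil =>
        simp only [List.nil_append, List.cons.injEq] at h1
        have h4 : ε' = ε := congrArg Prod.snd (hinj h1.1)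
        subst h4
        exact ⟨by simpa using h2.symm, rfl, by rw [h3, ← h1.2]; rfl⟩
      | cons b l₁ =>
        simp only [List.cons_append, List.cons.injEq] at h1
        exact absurd (by rw [h2, ← h1.1]; simp) (hρ2 i ε' hi)
  refine ⟨⟨P, hfin, ?_, hsound, hwf, uniq_of_lc hsound hwf ?_ ?_ ?_⟩, ?_⟩
  · rintro q (⟨c, rfl⟩ | rfl | rfl) <;> simp [qA, qB, qC]
  · intro L hL
    refine hgen L (fun k => ?_) (hL _ hB)
    exact cf_mem_all (L.comap inc) (fun c => hL _ (hA c)) k
  · rintro q (⟨c, rfl⟩ | rfl | rfl) p hp x z₁ z₂ h hx -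
    · have hx0 : x = [] := by simpa [qA] using hx
      subst hx0
      have hh : p.1.head? = some (emb c) := by
        cases hp1 : p.1 with
        | nil => exact absurd hp1 (S.wf.ne_nil p hp)
        | cons a l => simp [qA, hp1] at h; simp [h.1]
      obtain ⟨_, ⟨i, b, rfl⟩, rfl⟩ := hS.head p hp c hh
      simp only [qA, List.map_cons, List.map_nil, List.cons_append, List.nil_append,
        List.cons.injEq] at h ⊢
      obtain ⟨h1, rfl⟩ := h
      have h2 := hinj h1
      subst h2
      refine cf_tjn_head (cf_tstep_anch (hA (i, !b)) _ z₂) ?_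
      rw [← _root_.map_mul, cf_mk_not (i, b), _root_.map_one]
      exact cf_tjn_refl _
    · simp only [qB, List.append_assoc, List.cons_append, List.nil_append] at h hx ⊢
      rcases hov p hp i₁ e₁ (Or.inl rfl) x _ z₂ (by simpa using h) with ⟨x', rfl, h2⟩ | ⟨-, -, h2⟩
      · have hx0 : x' = [] := by simpa using hx
        subst hx0
        have hh : emb (i₂, e₂) ∈ p.1 := by
          cases hp1 : p.1 with
          | nil => exact absurd hp1 (S.wf.ne_nil p hp)
          | cons a l => simp [hp1] at h2; simp [h2.1]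
        obtain ⟨ε', rfl⟩ := hfree p hp i₂ e₂ (Or.inr rfl) (Or.inl hh)
        simp only [List.nil_append, List.cons_append, List.cons.injEq] at h2
        obtain ⟨h1, rfl⟩ := h2
        have h3 : e₂ = ε' := congrArg Prod.snd (hinj h1)
        subst h3
        have := cf_tstep_anch (R := S.R) hC ζ z₂
        simp only [List.append_assoc, List.cons_append, List.nil_append, mul_inv_cancel] at this ⊢
        exact cf_tjn_head this (cf_tjn_refl _)
      · simp only [List.cons.injEq] at h2
        exact absurd (congrArg Prod.fst (hinj h2.1)).symm hne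
    · simp only [qC, List.append_assoc, List.cons_append, List.nil_append] at h hx ⊢
      rcases hov p hp i₂ (!e₂) (Or.inr rfl) x _ z₂ (by simpa using h) with
        ⟨x', rfl, h2⟩ | ⟨rfl, h1, rfl⟩
      · simp at hx
      · have := cf_tstep_anch (R := S.R) hB ζ⁻¹ z₂
        simp only [List.append_assoc, List.cons_append, List.nil_append, inv_mul_cancel,
          Bool.not_not, h1] at this ⊢
        exact cf_tjn_head this (cf_tjn_refl _)
  · obtain ⟨r₀, ρ', rfl⟩ := List.exists_cons_of_ne_nil hρ0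
    have hr : ∀ c, r₀ ≠ emb c := fun c hc => hρ1 c (by simp [hc])
    rintro q (⟨c, rfl⟩ | rfl | rfl) q' (⟨c', rfl⟩ | rfl | rfl) z h
    · simp only [qA, List.cons_append, List.nil_append, List.cons.injEq] at h ⊢
      obtain ⟨h1, rfl⟩ := h
      rw [hinj h1]
      exact cf_tjn_refl _
    · simp [qA, qB] at h
    · simp [qA, qC] at h
    · simp [qA, qB, hr] at h
    · have : z = [] := by simpa [qB] using h
      subst this
      simpa using cf_tjn_refl _
    · simp only [qB, qC, List.append_assoc, List.append_cancel_left_eq, List.cons_append,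
        List.cons.injEq] at h
      exact absurd (congrArg Prod.fst (hinj h.2.1)) hne
    · simp [qA, qC, hr] at h
    · simp [qB, qC] at h
    · have : z = [] := by simpa [qC] using h
      subst this
      simpa using cf_tjn_refl _
  · rintro q (⟨c, rfl⟩ | rfl | rfl)
    · exact Or.inl ⟨c, rfl⟩
    · exact Or.inr ⟨e₂, by simp [qB]⟩
    · exact Or.inr ⟨!e₂, by simp [qC]⟩

end Pool.Agent.MP_b9845b_al.H94
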