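import Pool.Agent.MP_b9845b_al.H94.Term

namespace Pool.Agent.MP_b9845b_al.H94

open Relation Function

theorem newman {α : Type} {r : α → α → Prop} (wf : WellFounded fun b a => r a b)
    (lc : ∀ a b c, r a b → r a c → Join (ReflTransGen r) b c) :
    ∀ a b c, ReflTransGen r a b → ReflTransGen r a c → Join (ReflTransGen r) b c := by
  intro a
  induction a using WellFounded.induction wf with
  | _ a ih =>
    intro b c hb hc
    rcases hb.cases_head with rfl | ⟨b', hb1, hb2⟩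
    · exact ⟨c, hc, .refl⟩
    rcases hc.cases_head with rfl | ⟨c', hc1, hc2⟩
    · exact ⟨b, .refl, .head hb1 hb2⟩
    obtain ⟨d, hd1, hd2⟩ := lc a b' c' hb1 hc1
    obtain ⟨e, he1, he2⟩ := ih b' hb1 b d hb2 hd1
    obtain ⟨f, hf1, hf2⟩ := ih c' hc1 e c (hd2.trans he2) hc2
    exact ⟨f, he1.trans hf1, hf2⟩

theorem join_of_eqvGen {α : Type} {r : α → α → Prop}
    (conf : ∀ a b c, ReflTransGen r a b → ReflTransGen r a c → Join (ReflTransGen r) b c)
    {a b : α} (h : EqvGen r a b) : Join (ReflTransGen r) a b := by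
  induction h with
  | rel a b h => exact ⟨b, .single h, .refl⟩
  | refl a => exact ⟨a, .refl, .refl⟩
  | symm a b _ ih => exact let ⟨c, h1, h2⟩ := ih; ⟨c, h2, h1⟩
  | trans a b c _ _ ih1 ih2 =>
    obtain ⟨d, h1, h2⟩ := ih1
    obtain ⟨e, h3, h4⟩ := ih2
    obtain ⟨f, h5, h6⟩ := conf b d e h2 h3
    exact ⟨f, h1.trans h5, h4.trans h6⟩

theorem eqvGen_of_steps {α : Type} {r : α → α → Prop} {a b : α} (h : ReflTransGen r a b) :
    EqvGen r a b := by
  induction h with
  | refl => exact .refl _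
  | tail _ h ih => exact .trans _ _ _ ih (.rel _ _ h)

theorem eqvGen_of_join {α : Type} {r : α → α → Prop} {a b : α} (h : Join (ReflTransGen r) a b) :
    EqvGen r a b :=
  let ⟨_, h1, h2⟩ := h; .trans _ _ _ (eqvGen_of_steps h1) (.symm _ _ (eqvGen_of_steps h2))

/-- Two occurrences, the second starting at or after the first: disjoint or overlapping. -/
theorem overlap_cases {A : Type} {l₁ y₁ x l₂ y₂ : List A} (h : l₁ ++ y₁ = x ++ l₂ ++ y₂) :
    (∃ m, x = l₁ ++ m ∧ y₁ = m ++ l₂ ++ y₂) ∨ (x.length < l₁.length ∧ ∃ z₁ z₂ y,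
      y₁ = z₁ ++ y ∧ y₂ = z₂ ++ y ∧ l₁ ++ z₁ = x ++ l₂ ++ z₂ ∧ (z₁ = [] ∨ z₂ = [])) := by
  by_cases hx : x.length < l₁.length
  · refine Or.inr ⟨hx, ?_⟩
    rcases List.append_eq_append_iff.1 h with ⟨a, h1, h2⟩ | ⟨a, h1, h2⟩
    · exact ⟨a, [], y₂, h2, rfl, by simp [h1], Or.inr rfl⟩
    · exact ⟨[], a, y₁, rfl, h2, by simp [h1], Or.inl rfl⟩
  · rw [List.append_assoc] at h
    rcases List.append_eq_append_iff.1 h with ⟨a, h1, h2⟩ | ⟨a, h1, h2⟩
    · exact Or.inl ⟨a, h1, by simp [h2]⟩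
    · have : a = [] := by
        have := congrArg List.length h1
        simp at this
        exact List.length_eq_zero_iff.1 (by omega)
      subst this
      exact Or.inl ⟨[], by simpa using h1.symm, by simpa using h2.symm⟩

theorem lc_of_cp {A : Type} {R : Rules A}
    (cp : ∀ p ∈ R, ∀ q ∈ R, ∀ x z₁ z₂, p.1 ++ z₁ = x ++ q.1 ++ z₂ → x.length < p.1.length →
      (z₁ = [] ∨ z₂ = []) → Jn R (p.2 ++ z₁) (x ++ q.2 ++ z₂)) :
    ∀ a b c, Step R a b → Step R a c → Jn R b c := by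
  have key : ∀ p ∈ R, ∀ q ∈ R, ∀ y₁ x y₂, p.1 ++ y₁ = x ++ q.1 ++ y₂ →
      Jn R (p.2 ++ y₁) (x ++ q.2 ++ y₂) := by
    intro p hp q hq y₁ x y₂ h
    rcases overlap_cases h with ⟨m, rfl, rfl⟩ | ⟨hx, z₁, z₂, y, rfl, rfl, h1, h2⟩
    · refine ⟨p.2 ++ m ++ q.2 ++ y₂, .single ⟨p.2 ++ m, y₂, q, hq, by simp, by simp⟩,
        .single ⟨[], m ++ q.2 ++ y₂, p, hp, by simp, by simp⟩⟩
    · simpa using (cp p hp q hq x z₁ z₂ h1 hx h2).right y
  rintro _ _ _ ⟨x₁, y₁, p, hp, rfl, rfl⟩ ⟨x₂, y₂, q, hq, h, rfl⟩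
  rw [List.append_assoc, List.append_assoc] at h
  rcases List.append_eq_append_iff.1 h with ⟨a, rfl, h2⟩ | ⟨a, rfl, h2⟩
  · simpa using (key p hp q hq y₁ a y₂ (by simpa using h2)).left x₁
  · simpa using (key q hq p hp y₂ a y₁ (by simpa using h2)).symm.left x₂

theorem eqvGen_ctx {A : Type} {R : Rules A} {u v : List A} (h : EqvGen (Step R) u v)
    (a b : List A) : EqvGen (Step R) (a ++ u ++ b) (a ++ v ++ b) := by
  induction h with
  | rel _ _ h => exact .rel _ _ (h.ctx a b)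
  | refl => exact .refl _
  | symm _ _ _ ih => exact .symm _ _ ih
  | trans _ _ _ _ _ ih1 ih2 => exact .trans _ _ _ ih1 ih2

/-- The congruence generated by the rules. -/
def rcon {A : Type} (R : Rules A) : Con (FreeMonoid A) where
  r u v := EqvGen (Step R) u.toList v.toList
  iseqv := ⟨fun _ => .refl _, fun h => .symm _ _ h, fun h h' => .trans _ _ _ h h'⟩
  mul' := fun {w x y z} h h' => by
    refine .trans _ (x.toList ++ y.toList) _ ?_ ?_
    · simpa using eqvGen_ctx h [] y.toList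
    · simpa using eqvGen_ctx h' x.toList []

theorem inj_of_cp {A G : Type} [Group G] {R : Rules A} {φ : A → G} (wf : WFR R)
    (cp : ∀ p ∈ R, ∀ q ∈ R, ∀ x z₁ z₂, p.1 ++ z₁ = x ++ q.1 ++ z₂ → x.length < p.1.length →
      (z₁ = [] ∨ z₂ = []) → Jn R (p.2 ++ z₁) (x ++ q.2 ++ z₂))
    (inv : ∀ a, ∃ w, EqvGen (Step R) (a :: w) [])
    (pres : ∀ (K : Type) [Group K] (g : A → K), (∀ p ∈ R, ev g p.1 = ev g p.2) →
      ∃ ψ : G →* K, ∀ a, ψ (φ a) = g a) :
    ∀ u v, Irr R u → Irr R v → ev φ u = ev φ v → u = v := by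
  intro u v hu hv h
  let M := (rcon R).Quotient
  let g : A → M := fun a => (rcon R).mk' (FreeMonoid.of a)
  have hg : ∀ w, ev g w = (rcon R).mk' (FreeMonoid.ofList w) := by
    intro w
    induction w with
    | nil => simp
    | cons a w ih => rw [ev_cons, ih, FreeMonoid.ofList_cons, map_mul]
  have hr : ∀ m : M, ∃ m', m * m' = 1 := by
    intro m
    obtain ⟨w, rfl⟩ := (rcon R).mk'_surjective m
    induction w using FreeMonoid.inductionOn' with
    | one => exact ⟨1, by simp⟩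
    | of_mul a w ih =>
      obtain ⟨m', hm'⟩ := ih
      obtain ⟨w', hw'⟩ := inv a
      refine ⟨m' * (rcon R).mk' (FreeMonoid.ofList w'), ?_⟩
      rw [map_mul, mul_assoc, ← mul_assoc _ m', hm', one_mul, ← map_mul, ← map_one (rcon R).mk']
      exact (Con.eq _).2 hw'
  have hunit : ∀ m : M, IsUnit m := by
    intro m
    obtain ⟨m', h1⟩ := hr m
    obtain ⟨m'', h2⟩ := hr m'
    have : m = m'' := by rw [← mul_one m, ← h2, ← mul_assoc, h1, one_mul]
    exact ⟨⟨m, m', h1, this ▸ h2⟩, rfl⟩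
  obtain ⟨ψ, hψ⟩ := pres Mˣ (fun a => (hunit (g a)).unit) (by
    intro p hp
    apply Units.ext
    have h1 := map_ev (fun a => (hunit (g a)).unit) (Units.coeHom M) p.1
    have h2 := map_ev (fun a => (hunit (g a)).unit) (Units.coeHom M) p.2
    simp only [Units.coeHom_apply, IsUnit.unit_spec] at h1 h2
    rw [h1, h2, hg, hg]
    exact (Con.eq _).2 (.rel _ _ (Step.of_mem' hp)))
  have key : ∀ w, ((ψ (ev φ w) : Mˣ) : M) = (rcon R).mk' (FreeMonoid.ofList w) := by
    intro w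
    rw [← hg, map_ev]
    have := map_ev (fun a => ψ (φ a)) (Units.coeHom M) w
    simp only [Units.coeHom_apply, hψ, IsUnit.unit_spec] at this
    simpa only [hψ] using this
  have h1 : EqvGen (Step R) u v := (Con.eq (rcon R)).1 (by
    have := key u
    rw [h, key] at this
    exact this.symm)
  obtain ⟨w, h2, h3⟩ := join_of_eqvGen (newman wf (lc_of_cp cp)) h1
  rw [hu.eq_of_steps h2, hv.eq_of_steps h3]

theorem ev_reverse_inv {A G : Type} [Group G] (φ : A → G) (w : List A) :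
    ev (fun a => (φ a)⁻¹) w.reverse = (ev φ w)⁻¹ := by
  induction w with
  | nil => simp
  | cons a w ih => simp [ih]

theorem ev_inv_eq {A G : Type} [Group G] (φ : A → G) (w : List A) :
    ev (fun a => (φ a)⁻¹) w = (ev φ w.reverse)⁻¹ := by
  rw [← ev_reverse_inv, List.reverse_reverse]

theorem irr_revR {A : Type} {R : Rules A} {u : List A} : Irr (revR R) u ↔ Irr R u.reverse := by
  constructor
  · intro h p hp hi
    refine h (p.1.reverse, p.2.reverse) (by simpa [revR] using hp) ?_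
    simpa using List.reverse_infix.2 hi
  · intro h p hp hi
    exact h _ hp (List.reverse_infix.2 hi)

/-- The mirror image of a system. -/
@[reducible] def Sys.op {G : Type} [Group G] (S : Sys G) : Sys G where
  A := S.A
  fin := S.fin
  R := revR S.R
  Rfin := (S.Rfin.image fun p => (p.1.reverse, p.2.reverse)).subset fun p hp =>
    ⟨_, hp, by simp⟩
  φ := fun a => (S.φ a)⁻¹
  sound := fun p hp => by
    rw [ev_inv_eq, ev_inv_eq]
    exact congrArg _ (S.sound _ hp)
  wf := S.wf.rev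
  surj := fun g => ⟨(S.word g⁻¹).reverse, by simp [ev_reverse_inv]⟩
  inj := fun u v hu hv h => by
    rw [ev_inv_eq, ev_inv_eq, inv_inj] at h
    exact List.reverse_injective (S.inj _ _ (irr_revR.1 hu) (irr_revR.1 hv) h)

end Pool.Agent.MP_b9845b_al.H94
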