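import Pool.Agent.MP_b9845b_al.H94.Defs

namespace Pool.Agent.MP_b9845b_al.H94

open Relation FreeGroup Function

section
variable {X : Type}

open Classical in
/-- Replace the letter `u` by `w`. -/
noncomputable def eucSub (u : X) (w : FreeGroup X) : FreeGroup X →* FreeGroup X :=
  lift fun c => if c = u then w else of c

theorem eucSub_self (u : X) (w : FreeGroup X) : eucSub u w (of u) = w := by simp [eucSub]

theorem eucSub_ne {u c : X} (h : c ≠ u) (w : FreeGroup X) : eucSub u w (of c) = of c := by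
  simp [eucSub, h]

theorem eucSub_comp {u : X} {w w' : FreeGroup X} (h : eucSub u w w' = of u) :
    (eucSub u w).comp (eucSub u w') = MonoidHom.id _ := by
  ext c
  by_cases hc : c = u
  · subst hc
    simp [eucSub_self, h]
  · simp [eucSub_ne hc]

/-- The Nielsen move sending `u` to `u * v`. -/
noncomputable def eucMul {u v : X} (h : v ≠ u) : FreeGroup X ≃* FreeGroup X :=
  MonoidHom.toMulEquiv (eucSub u (of u * of v)) (eucSub u (of u * (of v)⁻¹))
    (eucSub_comp (by simp [eucSub_self, eucSub_ne h]))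
    (eucSub_comp (by simp [eucSub_self, eucSub_ne h]))

/-- The Nielsen move inverting `u`. -/
noncomputable def eucInv (u : X) : FreeGroup X ≃* FreeGroup X :=
  MonoidHom.toMulEquiv (eucSub u (of u)⁻¹) (eucSub u (of u)⁻¹)
    (eucSub_comp (by simp [eucSub_self])) (eucSub_comp (by simp [eucSub_self]))

theorem euc_expo_mul (x : X) (r s : FreeGroup X) : expo x (r * s) = expo x r + expo x s := by
  simp [expo]

theorem euc_expo_inv (x : X) (r : FreeGroup X) : expo x r⁻¹ = -expo x r := by simp [expo]

theorem euc_expo_one (x : X) : expo x (1 : FreeGroup X) = 0 := by simp [expo]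

theorem euc_expo_self (x : X) : expo x (of x) = 1 := by simp [expo]

theorem euc_expo_ne {x c : X} (h : c ≠ x) : expo x (of c) = 0 := by simp [expo, h]

theorem euc_expo_sub (x u : X) (w r : FreeGroup X) :
    expo x (eucSub u w r) = expo x r + expo u r * (expo x w - expo x (of u)) := by
  induction r using FreeGroup.induction_on with
  | C1 => simp [euc_expo_one]
  | of c =>
    by_cases hc : c = u
    · subst hc
      rw [eucSub_self, euc_expo_self]
      ring
    · rw [eucSub_ne hc, euc_expo_ne hc]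
      ring
  | inv_of c ih =>
    rw [_root_.map_inv, euc_expo_inv, euc_expo_inv, euc_expo_inv, ih]
    ring
  | mul r s ih ih' =>
    rw [_root_.map_mul, euc_expo_mul, euc_expo_mul, euc_expo_mul, ih, ih']
    ring

/-- Positive automorphisms supported on two letters. -/
structure EucPos (a b : X) (σ : FreeGroup X ≃* FreeGroup X) : Prop where
  fix : ∀ c, c ≠ a → c ≠ b → σ (of c) = of c
  inv : ∀ c, c = a ∨ c = b → σ.symm (of c) ∈ Subgroup.closure {of a, of b}
  pos : ∀ c, c = a ∨ c = b → σ (of c) ∈ Submonoid.closure {of a, of b}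

theorem EucPos.swap {a b : X} {σ : FreeGroup X ≃* FreeGroup X} (h : EucPos a b σ) :
    EucPos b a σ :=
  ⟨fun c h1 h2 => h.fix c h2 h1, fun c hc => Set.pair_comm (of a) (of b) ▸ h.inv c hc.symm,
    fun c hc => Set.pair_comm (of a) (of b) ▸ h.pos c hc.symm⟩

theorem euc_mem_group {a b : X} (f : FreeGroup X →* FreeGroup X)
    (h : ∀ c, c = a ∨ c = b → f (of c) ∈ Subgroup.closure {of a, of b}) {s : FreeGroup X}
    (hs : s ∈ Subgroup.closure {of a, of b}) : f s ∈ Subgroup.closure {of a, of b} := by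
  refine Subgroup.mem_comap.1 ((Subgroup.closure_le (Subgroup.comap f _)).2 ?_ hs)
  rintro _ (rfl | rfl)
  · exact h a (Or.inl rfl)
  · exact h b (Or.inr rfl)

theorem euc_mem_monoid {a b : X} (f : FreeGroup X →* FreeGroup X)
    (h : ∀ c, c = a ∨ c = b → f (of c) ∈ Submonoid.closure {of a, of b}) {s : FreeGroup X}
    (hs : s ∈ Submonoid.closure {of a, of b}) : f s ∈ Submonoid.closure {of a, of b} := by
  refine Submonoid.mem_comap.1 ((Submonoid.closure_le (S := Submonoid.comap f _)).2 ?_ hs)
  rintro _ (rfl | rfl)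
  · exact h a (Or.inl rfl)
  · exact h b (Or.inr rfl)

theorem EucPos.trans {a b : X} {σ τ : FreeGroup X ≃* FreeGroup X} (h : EucPos a b σ)
    (h' : EucPos a b τ) : EucPos a b (σ.trans τ) :=
  ⟨fun c h1 h2 => by rw [MulEquiv.trans_apply, h.fix c h1 h2, h'.fix c h1 h2],
    fun c hc => euc_mem_group (σ.symm : FreeGroup X →* FreeGroup X) h.inv (h'.inv c hc),
    fun c hc => euc_mem_monoid (τ : FreeGroup X →* FreeGroup X) h'.pos (h.pos c hc)⟩

theorem eucPos_refl (a b : X) : EucPos a b (MulEquiv.refl _) := by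
  refine ⟨fun c _ _ => rfl, ?_, ?_⟩
  · rintro c (rfl | rfl) <;> exact Subgroup.subset_closure (by simp)
  · rintro c (rfl | rfl) <;> exact Submonoid.subset_closure (by simp)

theorem eucPos_mul {a b : X} (h : a ≠ b) : EucPos a b (eucMul h) := by
  have ha : of a ∈ Subgroup.closure {of a, of b} := Subgroup.subset_closure (by simp)
  have hb : of b ∈ Subgroup.closure {of a, of b} := Subgroup.subset_closure (by simp)
  have ha' : of a ∈ Submonoid.closure {of a, of b} := Submonoid.subset_closure (by simp)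
  have hb' : of b ∈ Submonoid.closure {of a, of b} := Submonoid.subset_closure (by simp)
  refine ⟨fun c _ h2 => eucSub_ne h2 _, ?_, ?_⟩
  · rintro c (rfl | rfl)
    · exact (eucSub_ne h (of b * (of c)⁻¹)).symm ▸ ha
    · exact (eucSub_self c (of c * (of a)⁻¹)).symm ▸ mul_mem hb (inv_mem ha)
  · rintro c (rfl | rfl)
    · exact (eucSub_ne h (of b * of c)).symm ▸ ha'
    · exact (eucSub_self c (of c * of a)).symm ▸ mul_mem hb' ha'

theorem euc_aux (n : ℕ) : ∀ (r : FreeGroup X) (a b : X), a ≠ b → expo a r * expo b r ≤ 0 →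
    (expo a r).natAbs + (expo b r).natAbs = n →
    ∃ σ, EucPos a b σ ∧ (expo a (σ r) = 0 ∨ expo b (σ r) = 0) := by
  induction n using Nat.strong_induction_on with
  | _ n ih =>
    have key : ∀ (r : FreeGroup X) (a b : X), a ≠ b → expo a r * expo b r ≤ 0 →
        (expo a r).natAbs + (expo b r).natAbs = n → (expo b r).natAbs ≤ (expo a r).natAbs →
        ∃ σ, EucPos a b σ ∧ (expo a (σ r) = 0 ∨ expo b (σ r) = 0) := by
      intro r a b hab h1 h2 h3
      by_cases hb : expo b r = 0
      · exact ⟨_, eucPos_refl a b, Or.inr hb⟩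
      have e1 : expo a (eucMul hab r) = expo a r + expo b r := by
        have := euc_expo_sub a b (of b * of a) r
        rw [euc_expo_mul, euc_expo_self, euc_expo_ne hab.symm] at this
        exact this.trans (by ring)
      have e2 : expo b (eucMul hab r) = expo b r := by
        have := euc_expo_sub b b (of b * of a) r
        rw [euc_expo_mul, euc_expo_self, euc_expo_ne hab] at this
        exact this.trans (by ring)
      have h4 : (0 ≤ expo a r ∧ expo b r ≤ 0) ∨ (expo a r ≤ 0 ∧ 0 ≤ expo b r) :=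
        mul_nonpos_iff.1 h1
      obtain ⟨σ, hσ, h5⟩ := ih _ (by rw [e1, e2]; omega) (eucMul hab r) a b hab
        (by rw [e1, e2, mul_nonpos_iff]; omega) rfl
      exact ⟨_, (eucPos_mul hab).trans hσ, h5⟩
    intro r a b hab h1 h2
    rcases le_total (expo b r).natAbs (expo a r).natAbs with h | h
    · exact key r a b hab h1 h2 h
    · obtain ⟨σ, hσ, h5⟩ := key r b a hab.symm (by rwa [mul_comm]) (by omega) h
      exact ⟨σ, hσ.swap, h5.symm⟩

end

theorem euclid {X : Type} (r : FreeGroup X) {a b : X} (hab : a ≠ b) :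
    ∃ υ : FreeGroup X ≃* FreeGroup X, (∀ c, c ≠ a → c ≠ b → υ (of c) = of c) ∧
      (∀ c, c = a ∨ c = b → υ.symm (of c) ∈ Subgroup.closure {of a, of b}) ∧
      (∀ c, c = a ∨ c = b → υ (of c) ∈ Submonoid.closure {of a, of b} ∨
        (υ (of c))⁻¹ ∈ Submonoid.closure {of a, of b}) ∧
      (expo a (υ r) = 0 ∨ expo b (υ r) = 0) := by
  by_cases h : expo a r * expo b r ≤ 0
  · obtain ⟨σ, hσ, h5⟩ := euc_aux _ r a b hab h rfl
    exact ⟨σ, hσ.fix, hσ.inv, fun c hc => Or.inl (hσ.pos c hc), h5⟩
  have e1 : expo a (eucInv a r) = -expo a r := by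
    have := euc_expo_sub a a (of a)⁻¹ r
    rw [euc_expo_inv, euc_expo_self] at this
    exact this.trans (by ring)
  have e2 : expo b (eucInv a r) = expo b r := by
    have := euc_expo_sub b a (of a)⁻¹ r
    rw [euc_expo_inv, euc_expo_ne hab] at this
    exact this.trans (by ring)
  obtain ⟨σ, hσ, h5⟩ := euc_aux _ (eucInv a r) a b hab (by rw [e1, e2]; linarith) rfl
  have f1 : eucInv a (of a) = (of a)⁻¹ := eucSub_self _ _
  have f2 : ∀ c, c ≠ a → eucInv a (of c) = of c := fun c hc => eucSub_ne hc _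
  refine ⟨(eucInv a).trans σ, fun c h1 h2 => ?_, fun c hc => ?_, ?_, h5⟩
  · rw [MulEquiv.trans_apply, f2 c h1, hσ.fix c h1 h2]
  · refine euc_mem_group ((eucInv a).symm : FreeGroup X →* FreeGroup X) ?_ (hσ.inv c hc)
    rintro c (rfl | rfl)
    · exact (eucSub_self c (of c)⁻¹).symm ▸ inv_mem (Subgroup.subset_closure (by simp))
    · exact (eucSub_ne hab.symm (of a)⁻¹).symm ▸ Subgroup.subset_closure (by simp)
  · rintro c (rfl | rfl)
    · right
      rw [MulEquiv.trans_apply, f1, _root_.map_inv, inv_inv]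
      exact hσ.pos c (Or.inl rfl)
    · left
      rw [MulEquiv.trans_apply, f2 c hab.symm]
      exact hσ.pos c (Or.inr rfl)

end Pool.Agent.MP_b9845b_al.H94
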