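import Pool.Agent.MP_b9845b_al.H94.Levels
import Pool.Agent.MP_b9845b_al.H94.Euclid

namespace Pool.Agent.MP_b9845b_al.H94

open Relation Function
open FreeGroup hiding map_mul map_inv map_one map_pure

theorem caseA_relabel {X X' G : Type} [Group G] (e : X ≃ X') {r : FreeGroup X} {g : X → G}
    (hG : IsOR r g) : IsOR (freeGroupCongr e r) fun c => g (e.symm c) := by
  have := hG.aut (freeGroupCongr e)
  simpa [freeGroupCongr] using this

theorem caseA_expo {X X' : Type} (e : X ≃ X') (x : X) (r : FreeGroup X) :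
    expo (e x) (freeGroupCongr e r) = expo x r := by
  induction r using FreeGroup.induction_on with
  | C1 => simp [lev_expo_one]
  | of y =>
    have : freeGroupCongr e (of y) = of (e y) := by simp [freeGroupCongr]
    rw [this]
    by_cases h : y = x
    · rw [h, lev_expo_of_self, lev_expo_of_self]
    · rw [lev_expo_of_ne h, lev_expo_of_ne (e.injective.ne h)]
  | inv_of y ih => rw [map_inv, lev_expo_inv, lev_expo_inv, ih]
  | mul a b iha ihb => rw [map_mul, lev_expo_mul, lev_expo_mul, iha, ihb]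

theorem caseA_const {Z : Type} (m : ℤ) (ρ : List ((Z × ℤ) × Bool)) (h : ∀ c ∈ ρ, c.1.2 = m) :
    ∃ s ∈ omitSub (none : Option Z), projAll Z (mk ρ) = of none ^ (-m) * s * of none ^ m := by
  induction ρ with
  | nil => exact ⟨1, one_mem _, by simp [lev_mk_nil]⟩
  | cons c w ih =>
    obtain ⟨s, hs, h1⟩ := ih fun c hc => h c (by simp [hc])
    have h2 : c.1.2 = m := h c (by simp)
    have h3 : of (some c.1.1) ∈ omitSub (none : Option Z) :=
      Subgroup.subset_closure ⟨some c.1.1, by simp, rfl⟩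
    rw [lev_mk_cons, map_mul, h1]
    split_ifs
    · refine ⟨_, mul_mem h3 hs, ?_⟩
      simp only [projAll, lift_apply_of, h2]; group
    · refine ⟨_, mul_mem (inv_mem h3) hs, ?_⟩
      simp only [projAll, map_inv, lift_apply_of, h2]; group

/-- The common part of the two cases. -/
theorem caseA_core {Z G : Type} [Group G] {r : FreeGroup (Option Z)} {g : Option Z → G}
    (hG : IsOR r g) {ρ₀ : List ((Z × ℤ) × Bool)} (hc : IsCyclicallyReduced ρ₀) (hne : ρ₀ ≠ [])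
    (hρ : IsConj (projAll Z (mk ρ₀)) r) :
    ∃ (m M : ℤ) (H : Type) (_ : Group H) (ρ : List (Lev (fun _ : Z => m) (fun _ => M) × Bool))
      (h : Lev (fun _ : Z => m) (fun _ => M) → H) (zA zB : Lev (fun _ : Z => m) (fun _ => M))
      (f : H →* G), m ≤ M ∧ (∀ c ∈ ρ₀, m ≤ c.1.2 ∧ c.1.2 ≤ M) ∧ ρ.length = ρ₀.length ∧
      IsOR (mk ρ) h ∧ Ess zA (mk ρ) ∧ Ess zB (mk ρ) ∧ zA.1.2 = M ∧ zB.1.2 = m ∧
      (∀ z, f (h z) = g none ^ (-z.1.2) * g (some z.1.1) * g none ^ z.1.2) ∧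
      IsHNN (lift fun p : LevE (fun _ : Z => m) (fun _ => M) => h p.dn)
        (lift fun p : LevE (fun _ : Z => m) (fun _ => M) => h p.up) f (g none) := by
  classical
  have hne' : ρ₀.toFinset.Nonempty := by simpa using hne
  obtain ⟨cB, hB, hB'⟩ := ρ₀.toFinset.exists_min_image (fun c => c.1.2) hne'
  obtain ⟨cA, hA, hA'⟩ := ρ₀.toFinset.exists_max_image (fun c => c.1.2) hne'
  simp only [List.mem_toFinset] at hA hA' hB hB'
  have hb : ∀ c ∈ ρ₀, cB.1.2 ≤ c.1.2 ∧ c.1.2 ≤ cA.1.2 := fun c hc => ⟨hB' c hc, hA' c hc⟩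
  obtain ⟨ρ, hρ'⟩ := exists_lev_word (fun _ : Z => cB.1.2) (fun _ => cA.1.2) ρ₀ hb
  have hcyc : IsCyclicallyReduced ρ :=
    isCyc_of_map (fun z : Lev (fun _ : Z => cB.1.2) (fun _ => cA.1.2) => z.1) (hρ' ▸ hc)
  have hconj : IsConj (projAll Z (FreeGroup.map Subtype.val (mk ρ))) r := by
    have : (FreeGroup.map Subtype.val (mk ρ) : FreeGroup (Z × ℤ)) = mk ρ₀ := by
      rw [← hρ']; exact map.mk
    rw [this]; exact hρ
  obtain ⟨f, hf, hH⟩ := levels_hnn hG (fun _ => hB' cA hA) hconj (isOR_presented (mk ρ))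
  rw [← hρ'] at hA hB
  obtain ⟨dA, hdA, hdA'⟩ := List.mem_map.1 hA
  obtain ⟨dB, hdB, hdB'⟩ := List.mem_map.1 hB
  refine ⟨cB.1.2, cA.1.2, _, inferInstance, ρ, _, dA.1, dB.1, f, hB' cA (hρ' ▸ hA), hb, ?_,
    isOR_presented _, (ess_iff hcyc _).2 ⟨dA.2, hdA⟩, (ess_iff hcyc _).2 ⟨dB.2, hdB⟩,
    congrArg (fun c => c.1.2) hdA', congrArg (fun c => c.1.2) hdB', hf, hH⟩
  rw [← hρ', List.length_map]

theorem caseA {X G : Type} [Finite X] [Group G] {w : List (X × Bool)} {g : X → G}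
    (hG : IsOR (mk w) g) {x : X} (hx : Ess x (mk w)) (h0 : expo x (mk w) = 0) :
    ∃ (Z ι H : Type) (_ : Finite Z) (_ : Finite ι) (_ : Group H) (ρ : List (Z × Bool)) (h : Z → H)
      (dn up : ι → Z) (zA zB : Z) (f : H →* G) (σ : {y // y ≠ x} → ι) (c : G),
      ρ.length < w.length ∧ IsOR (mk ρ) h ∧ Ess zA (mk ρ) ∧ Ess zB (mk ρ) ∧ Injective dn ∧
      Injective up ∧ (∀ i, dn i ≠ zA) ∧ (∀ i, up i ≠ zB) ∧ Injective σ ∧
      IsHNN (lift fun i => h (dn i)) (lift fun i => h (up i)) f (g x) ∧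
      ∀ y, g y.1 = c * f (h (dn (σ y))) * c⁻¹ := by
  classical
  obtain ⟨w', hw1, hw2, hw3, -⟩ := exists_cyc w
  let e : X ≃ Option {y // y ≠ x} := (Equiv.optionSubtypeNe x).symm
  have hex : e x = none := by simp [e]
  have he0 : e.symm none = x := by simp [e]
  have he1 : ∀ y, e.symm (some y) = y.1 := fun y => by simp [e]
  let w'' := w'.map fun c => (e c.1, c.2)
  have hmk : freeGroupCongr e (mk w') = mk w'' := map.mk
  have hG' := caseA_relabel e (hG.conj hw2.symm)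
  rw [hmk] at hG'
  have hx' : Ess x (mk w') := hx.conj hw2.symm
  have hx'' : Ess none (mk w'') := by
    rw [← hmk]
    refine hx'.aut _ fun y hy => Subgroup.subset_closure ⟨e.symm y, fun h => hy ?_, ?_⟩
    · rw [← hex]; exact e.symm_apply_eq.1 h
    · simp [freeGroupCongr]
  have h0' : expo none (mk w'') = 0 := by
    rw [← hmk, ← hex, caseA_expo, lev_expo_conj x hw2, h0]
  obtain ⟨ρ₀, h1, h2, -, h3⟩ := exists_levels_word w'' h0'
  have h4 : ρ₀.length < w''.length := by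
    obtain ⟨b, hb⟩ := (ess_iff hw1 x).1 hx'
    exact h3 ⟨b, List.mem_map.2 ⟨_, hb, by rw [hex]⟩⟩
  have h5 : ∀ m : ℤ, ¬ ∀ c ∈ ρ₀, c.1.2 = m := by
    intro m hm
    obtain ⟨s, hs, h6⟩ := caseA_const m ρ₀ hm
    refine hx'' s hs (IsConj.trans (isConj_iff.2 ⟨of none ^ (-m), ?_⟩) h2)
    rw [h6]; group
  have hne : ρ₀ ≠ [] := fun h => h5 0 (by simp [h])
  obtain ⟨m, M, H, _, ρ, h, zA, zB, f, hm, hb, hl, hH, hA, hB, hA', hB', hf, hHNN⟩ :=
    caseA_core hG' h1 hne h2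
  rw [he0] at hHNN
  have hlt : m < M := by
    by_contra hlt
    exact h5 m fun c hc => by have := hb c hc; omega
  refine ⟨_, LevE (fun _ : {y // y ≠ x} => m) (fun _ => M), H, inferInstance, inferInstance,
    inferInstance, ρ, h, LevE.dn, LevE.up, zA, zB, f, fun y => ⟨(y, m), le_rfl, hlt⟩, g x ^ m,
    ?_, hH, hA, hB, LevE.dn_injective, LevE.up_injective, ?_, ?_, ?_, hHNN, ?_⟩
  · simp only [w'', List.length_map] at h4; omega
  · intro i hi
    have h6 : i.1.2 = M := (congrArg (fun z : Lev _ _ => z.1.2) hi).trans hA'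
    have : i.1.2 < M := i.2.2
    omega
  · intro i hi
    have h6 : i.1.2 + 1 = m := (congrArg (fun z : Lev _ _ => z.1.2) hi).trans hB'
    have : m ≤ i.1.2 := i.2.1
    omega
  · intro y y' hy
    exact congrArg (fun z : LevE (fun _ : {y // y ≠ x} => m) (fun _ => M) => z.1.1) hy
  · intro y
    rw [hf]
    simp only [LevE.dn, he0, he1]
    group

theorem caseB_mid_mul {H G : Type} [Group H] [Group G] {f : H →* G} {t : G} {n : ℕ} {m : G}
    (hm : Mid f t (n + 1) m) (h : H) : Mid f t (n + 1) (f h * m) := by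
  cases hm with
  | succ h' hm' =>
    have := Mid.succ (h * h') hm'
    simpa [mul_assoc] using this

theorem caseB_pos {H G : Type} [Group H] [Group G] (f : H →* G) (t : G) (h₀ : H) {γ : G}
    (hγ : γ ∈ Submonoid.closure {t, f h₀}) :
    (∃ h, γ = f h) ∨ ∃ n m h, Mid f t (n + 1) m ∧ γ = m * f h := by
  induction hγ using Submonoid.closure_induction_left with
  | one => exact Or.inl ⟨1, by simp⟩
  | mul_left y hy γ _ ih =>
    rcases hy with rfl | rfl
    · right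
      rcases ih with ⟨h, rfl⟩ | ⟨n, m, h, hm, rfl⟩
      · exact ⟨0, _, h, Mid.succ 1 Mid.zero, by simp⟩
      · exact ⟨n + 1, _, h, Mid.succ 1 hm, by simp [mul_assoc]⟩
    · rcases ih with ⟨h, rfl⟩ | ⟨n, m, h, hm, rfl⟩
      · exact Or.inl ⟨h₀ * h, by simp⟩
      · exact Or.inr ⟨n, _, h, caseB_mid_mul hm h₀, by simp [mul_assoc]⟩

theorem caseB_ab {X : Type} {x a : X} (hX : ∀ c, c = a ∨ c = x) (hax : a ≠ x)
    (φ : X → Multiplicative ℤ) (ha : φ a = 1) (r : FreeGroup X) :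
    (lift φ r).toAdd = expo x r * (φ x).toAdd := by
  induction r using FreeGroup.induction_on with
  | C1 => simp [lev_expo_one]
  | of y =>
    rcases hX y with rfl | rfl
    · simp [ha, lev_expo_of_ne hax]
    · simp [lev_expo_of_self]
  | inv_of y ih => rw [map_inv, toAdd_inv, ih, lev_expo_inv]; ring
  | mul a b iha ihb => rw [map_mul, toAdd_mul, iha, ihb, lev_expo_mul]; ring

theorem caseB_aux {X G : Type} [Finite X] [Group G] {r : FreeGroup X} {g : X → G} (hG : IsOR r g)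
    {s u : X} (hus : u ≠ s) (hX : ∀ c, c = u ∨ c = s) (hr : r ≠ 1) (h0 : expo s r = 0) {γ : G}
    (hγ : γ ∈ Submonoid.closure {g s, g u})
    (hθ : ∀ θ : G →* Multiplicative ℤ, θ γ = 1 → θ = 1) :
    ∃ (Z ι H : Type) (_ : Finite Z) (_ : Finite ι) (_ : Group H) (ρ : FreeGroup Z) (h : Z → H)
      (dn up : ι → Z) (zA zB : Z) (f : H →* G) (t : G) (n : ℕ) (m c : G),
      IsOR ρ h ∧ Ess zA ρ ∧ Ess zB ρ ∧ Injective dn ∧ Injective up ∧
      (∀ z, z ≠ zA ↔ ∃ i, dn i = z) ∧ (∀ z, z ≠ zB ↔ ∃ i, up i = z) ∧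
      IsHNN (lift fun i => h (dn i)) (lift fun i => h (up i)) f t ∧ Mid f t (n + 1) m ∧
      γ = c * m * c⁻¹ := by
  classical
  let e : X ≃ Option {y // y ≠ s} := (Equiv.optionSubtypeNe s).symm
  have hex : e s = none := by simp [e]
  have he0 : e.symm none = s := by simp [e]
  have he1 : ∀ y, e.symm (some y) = y.1 := fun y => by simp [e]
  have hG' := caseA_relabel e hG
  have h0' := caseA_expo e s r
  rw [hex, h0] at h0'
  have hr' : freeGroupCongr e r ≠ 1 := fun h => hr ((MulEquiv.map_eq_one_iff _).1 h)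
  generalize freeGroupCongr e r = r' at hG' h0' hr'
  obtain ⟨w, rfl⟩ : ∃ w, mk w = r' := ⟨r'.toWord, mk_toWord⟩
  obtain ⟨ρ₀, h1, h2, -, -⟩ := exists_levels_word w h0'
  have hne : ρ₀ ≠ [] := by
    rintro rfl
    rw [lev_mk_nil, map_one] at h2
    exact hr' (isConj_one_right.1 h2)
  obtain ⟨m, M, H, _, ρ, h, zA, zB, f, hm, -, -, hH, hA, hB, hA', hB', hf, hHNN⟩ :=
    caseA_core hG' h1 hne h2
  rw [he0] at hHNN
  have hsub : ∀ y y' : {y // y ≠ s}, y = y' := fun y y' =>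
    Subtype.ext (((hX y.1).resolve_right y.2).trans ((hX y'.1).resolve_right y'.2).symm)
  let z₀ : Lev (fun _ : {y // y ≠ s} => m) (fun _ => M) := ⟨(⟨u, hus⟩, m), le_rfl, hm⟩
  have hz₀ : f (h z₀) = g s ^ (-m) * g u * g s ^ m := by
    rw [hf]; simp only [z₀, he0, he1]
  have hγ' : (MulAut.conj (g s ^ (-m))).toMonoidHom γ ∈ Submonoid.closure {g s, f (h z₀)} := by
    have := Submonoid.mem_map_of_mem (MulAut.conj (g s ^ (-m))).toMonoidHom hγ
    rw [MonoidHom.map_mclosure, Set.image_pair] at this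
    convert this using 3
    · simp only [MulEquiv.coe_toMonoidHom, MulAut.conj_apply]; group
    · rw [hz₀]; simp only [MulEquiv.coe_toMonoidHom, MulAut.conj_apply]; group
  simp only [MulEquiv.coe_toMonoidHom, MulAut.conj_apply] at hγ'
  rcases caseB_pos f (g s) _ hγ' with ⟨k, hk⟩ | ⟨n, μ, k, hμ, hk⟩
  · exfalso
    obtain ⟨θ, hθ1, hθ2⟩ := hHNN.univ (Multiplicative ℤ) 1 (Multiplicative.ofAdd 1) (by simp)
    have h3 : θ γ = 1 := by
      have h4 : γ = g s ^ m * f k * (g s ^ m)⁻¹ := by rw [← hk]; group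
      rw [h4, map_mul, map_mul, hθ1, map_inv]; simp
    rw [hθ θ h3] at hθ2
    exact absurd (congrArg Multiplicative.toAdd hθ2) (by simp)
  refine ⟨_, LevE (fun _ : {y // y ≠ s} => m) (fun _ => M), H, inferInstance, inferInstance,
    inferInstance, mk ρ, h, LevE.dn, LevE.up, zA, zB, f, g s, n, f k * μ, g s ^ m * (f k)⁻¹, hH,
    hA, hB, LevE.dn_injective, LevE.up_injective, fun z => ⟨fun hz => ?_, ?_⟩,
    fun z => ⟨fun hz => ?_, ?_⟩, hHNN, caseB_mid_mul hμ k, ?_⟩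
  · have h3 : z.1.2 ≠ M := fun h3 => hz (Subtype.ext (Prod.ext (hsub _ _) (h3.trans hA'.symm)))
    exact ⟨⟨z.1, z.2.1, lt_of_le_of_ne z.2.2 h3⟩, rfl⟩
  · rintro ⟨i, rfl⟩ hi
    have h6 : i.1.2 = M := (congrArg (fun z : Lev _ _ => z.1.2) hi).trans hA'
    have : i.1.2 < M := i.2.2
    omega
  · have h3 : z.1.2 ≠ m := fun h3 => hz (Subtype.ext (Prod.ext (hsub _ _) (h3.trans hB'.symm)))
    have h4 : m ≤ z.1.2 := z.2.1
    have h5 : z.1.2 ≤ M := z.2.2
    refine ⟨⟨(z.1.1, z.1.2 - 1), by dsimp only; omega, by dsimp only; omega⟩, ?_⟩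
    exact Subtype.ext (Prod.ext rfl (by simp [LevE.up]))
  · rintro ⟨i, rfl⟩ hi
    have h6 : i.1.2 + 1 = m := (congrArg (fun z : Lev _ _ => z.1.2) hi).trans hB'
    have : m ≤ i.1.2 := i.2.1
    omega
  · have h4 : γ = g s ^ m * (μ * f k) * (g s ^ m)⁻¹ := by rw [← hk]; group
    rw [h4]; group

theorem caseB {X G : Type} [Finite X] [Group G] {r : FreeGroup X} {g : X → G} (hG : IsOR r g)
    {x a : X} (hax : a ≠ x) (hX : ∀ c, c = a ∨ c = x) (h0 : expo x r ≠ 0) :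
    ∃ (Z ι H : Type) (_ : Finite Z) (_ : Finite ι) (_ : Group H) (ρ : FreeGroup Z) (h : Z → H)
      (dn up : ι → Z) (zA zB : Z) (f : H →* G) (t : G) (n : ℕ) (m c : G),
      IsOR ρ h ∧ Ess zA ρ ∧ Ess zB ρ ∧ Injective dn ∧ Injective up ∧
      (∀ z, z ≠ zA ↔ ∃ i, dn i = z) ∧ (∀ z, z ≠ zB ↔ ∃ i, up i = z) ∧
      IsHNN (lift fun i => h (dn i)) (lift fun i => h (up i)) f t ∧ Mid f t (n + 1) m ∧
      (g a = c * m * c⁻¹ ∨ (g a)⁻¹ = c * m * c⁻¹) := by
  obtain ⟨υ, -, -, h1, h2⟩ := euclid r hax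
  have hG' := hG.aut υ
  set g' : X → G := fun c => lift g (υ.symm (of c)) with hg'
  have hl : ∀ k, lift g' (υ k) = lift g k := by
    intro k
    have : lift g' = (lift g).comp υ.symm.toMonoidHom := by ext c; simp [hg']
    rw [this]; simp
  have hr : υ r ≠ 1 := by
    intro h
    rw [MulEquiv.map_eq_one_iff] at h
    exact h0 (h ▸ lev_expo_one x)
  have hθ : ∀ θ : G →* Multiplicative ℤ, θ (g a) = 1 → θ = 1 := by
    intro θ hθ
    have h3 := caseB_ab hX hax (fun c => θ (g c)) hθ r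
    have h4 : lift (fun c => θ (g c)) = θ.comp (lift g) := by ext c; simp
    rw [h4, MonoidHom.comp_apply, hG.rel, map_one, toAdd_one] at h3
    have h5 : θ (g x) = 1 := toAdd_eq_zero.1 ((mul_eq_zero.1 h3.symm).resolve_left h0)
    refine hG.hom_ext fun c => ?_
    rcases hX c with rfl | rfl
    · simpa using hθ
    · simpa using h5
  obtain ⟨γ, hγ, hγ1, hγ2⟩ : ∃ γ, γ ∈ Submonoid.closure {g' a, g' x} ∧
      (∀ θ : G →* Multiplicative ℤ, θ γ = 1 → θ = 1) ∧ (g a = γ ∨ (g a)⁻¹ = γ) := by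
    rcases h1 a (Or.inl rfl) with h3 | h3
    · have := Submonoid.mem_map_of_mem (lift g') h3
      rw [MonoidHom.map_mclosure, Set.image_pair, hl, lift_apply_of, lift_apply_of,
        lift_apply_of] at this
      exact ⟨_, this, hθ, Or.inl rfl⟩
    · have := Submonoid.mem_map_of_mem (lift g') h3
      rw [MonoidHom.map_mclosure, Set.image_pair, map_inv, hl, lift_apply_of, lift_apply_of,
        lift_apply_of] at this
      exact ⟨_, this, fun θ h => hθ θ (by simpa using h), Or.inr rfl⟩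
  have key : ∃ (Z ι H : Type) (_ : Finite Z) (_ : Finite ι) (_ : Group H) (ρ : FreeGroup Z)
      (h : Z → H) (dn up : ι → Z) (zA zB : Z) (f : H →* G) (t : G) (n : ℕ) (m c : G),
      IsOR ρ h ∧ Ess zA ρ ∧ Ess zB ρ ∧ Injective dn ∧ Injective up ∧
      (∀ z, z ≠ zA ↔ ∃ i, dn i = z) ∧ (∀ z, z ≠ zB ↔ ∃ i, up i = z) ∧
      IsHNN (lift fun i => h (dn i)) (lift fun i => h (up i)) f t ∧ Mid f t (n + 1) m ∧
      γ = c * m * c⁻¹ := by
    rcases h2 with h2 | h2
    · exact caseB_aux hG' hax.symm (fun c => (hX c).symm) hr h2 hγ hγ1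
    · exact caseB_aux hG' hax hX hr h2 (Set.pair_comm _ _ ▸ hγ) hγ1
  obtain ⟨Z, ι, H, i1, i2, i3, ρ, h, dn, up, zA, zB, f, t, n, m, c, k1, k2, k3, k4, k5, k6, k7,
    k8, k9, k10⟩ := key
  exact ⟨Z, ι, H, i1, i2, i3, ρ, h, dn, up, zA, zB, f, t, n, m, c, k1, k2, k3, k4, k5, k6, k7,
    k8, k9, k10 ▸ hγ2⟩

end Pool.Agent.MP_b9845b_al.H94
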