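import Pool.Agent.MP_b9845b_al.H94.Basic

/-! Further definitions shared by the files of the proof. -/

namespace Pool.Agent.MP_b9845b_al.H94

open Relation

/-- Products `f h₁ * t * f h₂ * t * ... * f hₙ * t`. -/
inductive Mid {H G : Type} [Group H] [Group G] (f : H →* G) (t : G) : ℕ → G → Prop
  | zero : Mid f t 0 1
  | succ (h : H) {n : ℕ} {m : G} : Mid f t n m → Mid f t (n + 1) (f h * t * m)

/-- Tracked anchored steps: the first component collects what the anchored rules emit. -/
def TStep {A F : Type} [Group F] (R : Rules A) (P : Set (List A × F × List A))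
    (a b : F × List A) : Prop :=
  (b.1 = a.1 ∧ Step R a.2 b.2) ∨ ∃ q ∈ P, ∃ y, a.2 = q.1 ++ y ∧ b = (a.1 * q.2.1, q.2.2 ++ y)

def TJn {A F : Type} [Group F] (R : Rules A) (P : Set (List A × F × List A))
    (a b : F × List A) : Prop :=
  ∃ c, ReflTransGen (TStep R P) a c ∧ ReflTransGen (TStep R P) b c

/-- Paths in a finite directed graph whose edges are letters. -/
inductive Path {L O : Type} (src tgt : L → O) : O → List L → O → Prop
  | nil (v : O) : Path src tgt v [] v
  | cons {a : L} {w : List L} {u v : O} : src a = u → Path src tgt (tgt a) w v →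
      Path src tgt u (a :: w) v

/-- `G` with the generators `g` is the one-relator group with relator `r`. -/
structure IsOR {X G : Type} [Group G] (r : FreeGroup X) (g : X → G) : Prop where
  rel : FreeGroup.lift g r = 1
  gen : ∀ L : Subgroup G, (∀ x, g x ∈ L) → ∀ γ, γ ∈ L
  univ : ∀ (K : Type) [Group K] (h : X → K), FreeGroup.lift h r = 1 →
    ∃ ψ : G →* K, ∀ x, ψ (g x) = h x

/-- The subgroup of the free group generated by the letters other than `x`. -/
def omitSub {X : Type} (x : X) : Subgroup (FreeGroup X) :=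
  Subgroup.closure (FreeGroup.of '' {y | y ≠ x})

/-- The letter `x` is essential in `r`: no conjugate of `r` avoids it. -/
def Ess {X : Type} (x : X) (r : FreeGroup X) : Prop := ∀ s ∈ omitSub x, ¬ IsConj s r

open Classical in
/-- Exponent sum of the letter `x`. -/
noncomputable def expo {X : Type} (x : X) (r : FreeGroup X) : ℤ :=
  Multiplicative.toAdd (FreeGroup.lift
    (fun y => if y = x then Multiplicative.ofAdd (1 : ℤ) else 1) r)

/-- Letters with levels between `lo` and `hi`. -/
def Lev {Z : Type} (lo hi : Z → ℤ) : Type := {p : Z × ℤ // lo p.1 ≤ p.2 ∧ p.2 ≤ hi p.1}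

/-- Letters that can be moved up one level. -/
def LevE {Z : Type} (lo hi : Z → ℤ) : Type := {p : Z × ℤ // lo p.1 ≤ p.2 ∧ p.2 < hi p.1}

def LevE.dn {Z : Type} {lo hi : Z → ℤ} (p : LevE lo hi) : Lev lo hi :=
  ⟨p.1, p.2.1, p.2.2.le⟩

def LevE.up {Z : Type} {lo hi : Z → ℤ} (p : LevE lo hi) : Lev lo hi :=
  ⟨(p.1.1, p.1.2 + 1), by have := p.2.1; dsimp only; omega, by have := p.2.2; dsimp only; omega⟩

instance Lev.finite {Z : Type} [Finite Z] (lo hi : Z → ℤ) : Finite (Lev lo hi) := by
  have : {p : Z × ℤ | lo p.1 ≤ p.2 ∧ p.2 ≤ hi p.1}.Finite := by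
    refine (Set.finite_iUnion fun z : Z =>
      (Set.finite_Icc (lo z) (hi z)).image fun i => (z, i)).subset ?_
    rintro ⟨z, i⟩ h
    exact Set.mem_iUnion.2 ⟨z, i, h, rfl⟩
  exact this.to_subtype

theorem LevE.dn_injective {Z : Type} {lo hi : Z → ℤ} :
    Function.Injective (LevE.dn : LevE lo hi → Lev lo hi) :=
  fun _ _ h => Subtype.ext (congrArg (fun p : Lev lo hi => p.1) h)

theorem LevE.up_injective {Z : Type} {lo hi : Z → ℤ} :
    Function.Injective (LevE.up : LevE lo hi → Lev lo hi) := by
  intro p q h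
  have := congrArg (fun p : Lev lo hi => p.1) h
  simp only [LevE.up, Prod.mk.injEq] at this
  exact Subtype.ext (Prod.ext this.1 (by omega))

instance LevE.finite {Z : Type} [Finite Z] (lo hi : Z → ℤ) : Finite (LevE lo hi) :=
  Finite.of_injective _ LevE.dn_injective

/-- The letter `z` at level `i` is `t ^ (-i) * z * t ^ i`, where `t` is the letter `none`. -/
def projAll (Z : Type) : FreeGroup (Z × ℤ) →* FreeGroup (Option Z) :=
  FreeGroup.lift fun p =>
    FreeGroup.of none ^ (-p.2) * FreeGroup.of (some p.1) * FreeGroup.of none ^ p.2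

/-- The lift of a word to levels: the letter `x` raises the level by `θ x`. -/
def liftW {X : Type} (θ : X → ℤ) : ℤ → List (X × Bool) → List ((X × ℤ) × Bool)
  | _, [] => []
  | l, (x, true) :: w => ((x, l), true) :: liftW θ (l + θ x) w
  | l, (x, false) :: w => ((x, l - θ x), false) :: liftW θ (l - θ x) w

/-- The total change of level along a word. -/
def degW {X : Type} (θ : X → ℤ) (w : List (X × Bool)) : ℤ :=
  (w.map fun c => if c.2 then θ c.1 else -θ c.1).sum

/-- Start and end of a signed edge. -/
def ssrc {Z V : Type} (src tgt : Z → V) (c : Z × Bool) : V := if c.2 then src c.1 else tgt c.1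
def stgt {Z V : Type} (src tgt : Z → V) (c : Z × Bool) : V := if c.2 then tgt c.1 else src c.1

/-- `τ` for `false` and its inverse for `true`. -/
def sgn {P : Type} [Group P] (τ : P) (b : Bool) : P := if b then τ⁻¹ else τ

@[simp] theorem sgn_false {P : Type} [Group P] (τ : P) : sgn τ false = τ := rfl
@[simp] theorem sgn_true {P : Type} [Group P] (τ : P) : sgn τ true = τ⁻¹ := rfl
theorem sgn_not {P : Type} [Group P] (τ : P) (b : Bool) : sgn τ (!b) = (sgn τ b)⁻¹ := by
  cases b <;> simp

/-- The product `f h * t ^ ± * f h₁ * t ^ ± * f h₂ ...`; the flag `false` stands for `t`. -/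
def hprod {H G : Type} [Group H] [Group G] (f : H →* G) (t : G) (h : H) (L : List (Bool × H)) :
    G := f h * (L.map fun p => sgn t p.1 * f p.2).prod

/-- No pinch. -/
def HRed {F H : Type} [Group F] [Group H] (kk : Bool → F →* H) (L : List (Bool × H)) : Prop :=
  L.IsChain fun p q => p.2 ∈ (kk (!p.1)).range → p.1 = q.1

/-- Reversed rules. -/
def revR {A : Type} (R : Rules A) : Rules A := {p | (p.1.reverse, p.2.reverse) ∈ R}

end Pool.Agent.MP_b9845b_al.H94
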