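import Pool.Agent.MP_b9845b_al.H94.Defs

namespace Pool.Agent.MP_b9845b_al.H94

open Relation FreeGroup Function

section Ext
variable {F G H M M' κ κ' : Type} [Group F] [Group G] [Group H] [Group M] [Group M']

theorem ext_coprod_gen {A B D : Type} [Group A] [Group B] [Group D] (π : Monoid.Coprod A B →* D)
    (hπ : Surjective π) (L : Subgroup D) (h1 : ∀ a, π (Monoid.Coprod.inl a) ∈ L)
    (h2 : ∀ b, π (Monoid.Coprod.inr b) ∈ L) (d : D) : d ∈ L := by
  obtain ⟨m, rfl⟩ := hπ d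
  induction m using Monoid.Coprod.induction_on with
  | inl a => exact h1 a
  | inr b => exact h2 b
  | mul x y hx hy => rw [_root_.map_mul]; exact L.mul_mem hx hy

theorem ext_free_gen {D : Type} [Group D] (π : FreeGroup κ →* D) (L : Subgroup D)
    (h : ∀ k, π (of k) ∈ L) (b : FreeGroup κ) : π b ∈ L := by
  induction b using FreeGroup.induction_on with
  | C1 => rw [_root_.map_one]; exact L.one_mem
  | of k => exact h k
  | inv_of k hk => rw [_root_.map_inv]; exact L.inv_mem hk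
  | mul x y hx hy => rw [_root_.map_mul]; exact L.mul_mem hx hy

theorem exists_freeExt (G κ : Type) [Group G] :
    ∃ (M : Type) (_ : Group M) (i : G →* M) (f : κ → M), IsFreeExt i f :=
  ⟨Monoid.Coprod G (FreeGroup κ), inferInstance, Monoid.Coprod.inl,
    fun k => Monoid.Coprod.inr (of k),
    fun L h1 h2 => ext_coprod_gen (MonoidHom.id _) surjective_id L h1
      (ext_free_gen Monoid.Coprod.inr L h2),
    fun K _ g s => ⟨Monoid.Coprod.lift g (lift s), fun x => by simp, fun k => by simp⟩⟩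

theorem IsFreeExt.retract {i : G →* M} {f : κ → M} (h : IsFreeExt i f) :
    ∃ ρ : M →* G, (∀ g, ρ (i g) = g) ∧ ∀ k, ρ (f k) = 1 :=
  h.univ G (MonoidHom.id G) fun _ => 1

theorem IsFreeExt.injective {i : G →* M} {f : κ → M} (h : IsFreeExt i f) : Injective i := by
  obtain ⟨ρ, h1, -⟩ := h.retract
  exact LeftInverse.injective h1

theorem IsFreeExt.hom_ext {K : Type} [Group K] {i : G →* M} {f : κ → M} (h : IsFreeExt i f)
    {ψ ψ' : M →* K} (h1 : ∀ g, ψ (i g) = ψ' (i g)) (h2 : ∀ k, ψ (f k) = ψ' (f k)) : ψ = ψ' :=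
  MonoidHom.ext (h.gen (ψ.eqLocus ψ') h1 h2)

theorem IsFreeExt.trans {i : G →* M} {f : κ → M} (h : IsFreeExt i f) {i' : M →* M'} {f' : κ' → M'}
    (h' : IsFreeExt i' f') : IsFreeExt (i'.comp i) (Sum.elim (fun k => i' (f k)) f') := by
  refine ⟨fun L h1 h2 => h'.gen L (h.gen (L.comap i') h1 fun k => h2 (Sum.inl k))
    fun k => h2 (Sum.inr k), fun K _ g s => ?_⟩
  obtain ⟨ψ, a1, a2⟩ := h.univ K g fun k => s (Sum.inl k)
  obtain ⟨ψ', b1, b2⟩ := h'.univ K ψ fun k => s (Sum.inr k)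
  refine ⟨ψ', fun x => (b1 _).trans (a1 x), ?_⟩
  rintro (k | k)
  · exact (b1 _).trans (a2 k)
  · exact b2 k

theorem IsFreeExt.reindex {i : G →* M} {f : κ → M} (h : IsFreeExt i f) (e : κ' ≃ κ) :
    IsFreeExt i fun k => f (e k) := by
  refine ⟨fun L h1 h2 => h.gen L h1 fun k => by simpa using h2 (e.symm k), fun K _ g s => ?_⟩
  obtain ⟨ψ, a1, a2⟩ := h.univ K g fun k => s (e.symm k)
  exact ⟨ψ, a1, fun k => by simp [a2]⟩

theorem IsFreeExt.unique {i : G →* M} {f : κ → M} (h : IsFreeExt i f) {i' : G →* M'} {f' : κ → M'}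
    (h' : IsFreeExt i' f') : ∃ e : M ≃* M', (∀ g, e (i g) = i' g) ∧ ∀ k, e (f k) = f' k := by
  obtain ⟨ψ, a1, a2⟩ := h.univ M' i' f'
  obtain ⟨ψ', b1, b2⟩ := h'.univ M i f
  exact ⟨MonoidHom.toMulEquiv ψ ψ'
    (h.hom_ext (fun g => by simp [a1, b1]) fun k => by simp [a2, b2])
    (h'.hom_ext (fun g => by simp [a1, b1]) fun k => by simp [a2, b2]), a1, a2⟩

theorem IsFreeExt.precomp {G' : Type} [Group G'] {i : G →* M} {f : κ → M} (h : IsFreeExt i f)
    (e : G' ≃* G) : IsFreeExt (i.comp (e : G' →* G)) f := by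
  refine ⟨fun L h1 h2 => h.gen L (fun g => by simpa using h1 (e.symm g)) h2, fun K _ g s => ?_⟩
  obtain ⟨ψ, a1, a2⟩ := h.univ K (g.comp (e.symm : G →* G')) s
  exact ⟨ψ, fun x => by simp [a1], a2⟩

theorem isFreeExt_id (G : Type) [Group G] :
    IsFreeExt (MonoidHom.id G) (fun k : Empty => k.elim) :=
  ⟨fun _ h1 _ => h1, fun _ _ g _ => ⟨g, fun _ => rfl, fun k => k.elim⟩⟩

theorem exists_amalg {H₀ H₁ : Type} [Group H₀] [Group H₁] (k₀ : F →* H₀) (k₁ : F →* H₁) :
    ∃ (D : Type) (_ : Group D) (f₀ : H₀ →* D) (f₁ : H₁ →* D), IsAmalg k₀ k₁ f₀ f₁ := by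
  let N : Subgroup (Monoid.Coprod H₀ H₁) := Subgroup.normalClosure
    (Set.range fun k => (Monoid.Coprod.inl (k₀ k))⁻¹ * Monoid.Coprod.inr (k₁ k))
  refine ⟨_ ⧸ N, inferInstance, (QuotientGroup.mk' N).comp Monoid.Coprod.inl,
    (QuotientGroup.mk' N).comp Monoid.Coprod.inr,
    fun k => QuotientGroup.eq.2 (Subgroup.subset_normalClosure ⟨k, rfl⟩),
    fun L h1 h2 => ext_coprod_gen _ (QuotientGroup.mk'_surjective N) L h1 h2,
    fun K _ g₀ g₁ hg => ⟨QuotientGroup.lift N (Monoid.Coprod.lift g₀ g₁) ?_,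
      fun x => Monoid.Coprod.lift_apply_inl g₀ g₁ x, fun x => Monoid.Coprod.lift_apply_inr g₀ g₁ x⟩⟩
  refine Subgroup.normalClosure_le_normal ?_
  rintro _ ⟨k, rfl⟩
  simp [hg]

theorem exists_hnn (kA kB : F →* H) :
    ∃ (G : Type) (_ : Group G) (f : H →* G) (t : G), IsHNN kA kB f t := by
  obtain ⟨M, _, i, e, hM⟩ := exists_freeExt H Unit
  let N : Subgroup M := Subgroup.normalClosure
    (Set.range fun k => ((e ())⁻¹ * i (kA k) * e ())⁻¹ * i (kB k))
  refine ⟨M ⧸ N, inferInstance, (QuotientGroup.mk' N).comp i, QuotientGroup.mk' N (e ()),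
    fun k => QuotientGroup.eq.2 (Subgroup.subset_normalClosure ⟨k, rfl⟩), fun L h1 h2 g => ?_,
    fun K _ g s hg => ?_⟩
  · obtain ⟨m, rfl⟩ := QuotientGroup.mk'_surjective N g
    exact hM.gen (L.comap (QuotientGroup.mk' N)) h1 (fun _ => h2) m
  · obtain ⟨ψ, a1, a2⟩ := hM.univ K g fun _ => s
    refine ⟨QuotientGroup.lift N ψ ?_, a1, a2 ()⟩
    refine Subgroup.normalClosure_le_normal ?_
    rintro _ ⟨k, rfl⟩
    simp only [SetLike.mem_coe, MonoidHom.mem_ker, _root_.map_mul, _root_.map_inv, a1, a2, hg, inv_mul_cancel]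

theorem IsHNN.hom_ext {K : Type} [Group K] {kA kB : F →* H} {f : H →* G} {t : G}
    (h : IsHNN kA kB f t) {ψ ψ' : G →* K} (h1 : ∀ x, ψ (f x) = ψ' (f x)) (h2 : ψ t = ψ' t) :
    ψ = ψ' :=
  MonoidHom.ext (h.gen (ψ.eqLocus ψ') h1 h2)

theorem IsHNN.symm {kA kB : F →* H} {f : H →* G} {t : G} (h : IsHNN kA kB f t) :
    IsHNN kB kA f t⁻¹ := by
  refine ⟨fun k => by rw [← h.rel k]; group, fun L h1 h2 => h.gen L h1 (inv_mem_iff.1 h2),
    fun K _ g s hg => ?_⟩
  obtain ⟨ψ, a1, a2⟩ := h.univ K g s⁻¹ fun k => by rw [← hg k]; group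
  exact ⟨ψ, a1, by rw [_root_.map_inv, a2, inv_inv]⟩

theorem IsHNN.freeExt {kA kB : F →* H} {f : H →* G} {t : G} (h : IsHNN kA kB f t)
    {i : H →* M} {e : κ → M} (hM : IsFreeExt i e) :
    ∃ (G' : Type) (_ : Group G') (i' : G →* G') (f' : M →* G'),
      IsFreeExt i' (fun k => f' (e k)) ∧ IsHNN (i.comp kA) (i.comp kB) f' (i' t) ∧
      ∀ x, f' (i x) = i' (f x) := by
  obtain ⟨G', _, i', e', hG'⟩ := exists_freeExt G κ
  obtain ⟨f', a1, a2⟩ := hM.univ G' (i'.comp f) e'
  refine ⟨G', inferInstance, i', f', by simpa only [a2] using hG', ⟨fun k => ?_, fun L h1 h2 => ?_,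
    fun K _ g s hg => ?_⟩, a1⟩
  · simp only [MonoidHom.comp_apply, a1, ← h.rel k, _root_.map_mul, _root_.map_inv]
  · exact hG'.gen L (h.gen (L.comap i') (fun x => by simpa [a1] using h1 (i x)) h2)
      fun k => a2 k ▸ h1 (e k)
  · obtain ⟨ψ, b1, b2⟩ := h.univ K (g.comp i) s hg
    obtain ⟨ψ', c1, c2⟩ := hG'.univ K ψ fun k => g (e k)
    refine ⟨ψ', fun m => ?_, (c1 t).trans b2⟩
    exact DFunLike.congr_fun (hM.hom_ext (ψ := ψ'.comp f') (ψ' := g)
      (fun x => by simp [a1, c1, b1]) fun k => by simp [a2, c2]) m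

/-- The exponent attached to a flag. -/
def extU (b : Bool) : ℤˣ := if b then -1 else 1

theorem extU_injective : Injective extU := by decide

theorem IsHNN.britton {kk : Bool → F →* H} (hinj : ∀ b, Injective (kk b)) {f : H →* G} {t : G}
    (hG : IsHNN (kk false) (kk true) f t) {h h' : H} {L L' : List (Bool × H)} (hL : HRed kk L)
    (hL' : HRed kk L') (e : hprod f t h L = hprod f t h' L') :
    L.map Prod.fst = L'.map Prod.fst ∧ (∀ i ∈ L.head?.map Prod.fst, h⁻¹ * h' ∈ (kk i).range) ∧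
      (L = [] → h = h') := by
  let φ : (kk true).range ≃* (kk false).range :=
    (MonoidHom.ofInjective (hinj true)).symm.trans (MonoidHom.ofInjective (hinj false))
  have hφ : ∀ k, (φ ⟨kk true k, k, rfl⟩ : H) = kk false k := fun k => by
    have : (⟨kk true k, k, rfl⟩ : (kk true).range) = MonoidHom.ofInjective (hinj true) k := rfl
    rw [this]
    simp [φ, MonoidHom.ofInjective_apply]
  obtain ⟨ψ, a1, a2⟩ := hG.univ (HNNExtension H _ _ φ) HNNExtension.of HNNExtension.t fun k => by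
    rw [← hφ, mul_assoc, ← HNNExtension.t_mul_of, inv_mul_cancel_left]
  have sub : ∀ b, HNNExtension.toSubgroup (kk true).range (kk false).range (extU b)
      = (kk (!b)).range := by
    rintro (_ | _) <;> rfl
  have sub' : ∀ b, HNNExtension.toSubgroup (kk true).range (kk false).range (-extU b)
      = (kk b).range := by
    rintro (_ | _) <;> rfl
  let W : ∀ (h : H) (L : List (Bool × H)), HRed kk L →
      HNNExtension.NormalWord.ReducedWord H (kk true).range (kk false).range := fun h L hL =>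
    ⟨h, L.map fun p => (extU p.1, p.2), by
      rw [List.isChain_map]
      exact hL.imp fun p q hpq h1 => congrArg extU (hpq (sub _ ▸ h1))⟩
  have hW : ∀ h L hL, (W h L hL).prod φ = ψ (hprod f t h L) := fun h L hL => by
    rw [hprod, _root_.map_mul, a1, map_list_prod, List.map_map]
    simp only [W, HNNExtension.NormalWord.ReducedWord.prod, List.map_map]
    congr 2
    refine List.map_congr_left ?_
    rintro ⟨_ | _, x⟩ _ <;> simp [extU, a1, a2]
  have key : (W h L hL).prod φ = (W h' L' hL').prod φ := by rw [hW h L hL, hW h' L' hL', e]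
  obtain ⟨b1, b2⟩ := HNNExtension.ReducedWord.map_fst_eq_and_of_prod_eq φ key
  have c1 : L.map Prod.fst = L'.map Prod.fst := by
    apply List.map_injective_iff.2 extU_injective
    simpa only [W, List.map_map, Function.comp_def] using b1
  refine ⟨c1, fun i hi => ?_, fun h0 => ?_⟩
  · rw [← sub']
    apply b2
    cases L with
    | nil => simp at hi
    | cons p L => simp at hi; simp [W, hi]
  · subst h0
    have h1 : L' = [] := by simpa using c1.symm
    subst h1
    apply HNNExtension.of_injective φ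
    simpa [W, HNNExtension.NormalWord.ReducedWord.prod] using key
end Ext

end Pool.Agent.MP_b9845b_al.H94
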