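import Pool.Agent.MP_b9845b_al.H94.Union
import Pool.Agent.MP_b9845b_al.H94.Ext

namespace Pool.Agent.MP_b9845b_al.H94

open Relation Function

theorem wf_state {Γ β : Type} (r : Γ → β → β → Prop) (h : ∀ γ, WellFounded (r γ)) :
    WellFounded fun a b : Γ × β => a.1 = b.1 ∧ r a.1 a.2 b.2 := by
  refine ⟨fun ⟨γ, u⟩ => ?_⟩
  induction u using WellFounded.induction (h γ) with
  | _ u ih =>
    refine Acc.intro _ ?_
    rintro ⟨γ', v⟩ ⟨rfl, h2⟩
    exact ih v h2

theorem IsHNN.sgn_rel {F H G : Type} [Group F] [Group H] [Group G] {kk : Bool → F →* H}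
    {f : H →* G} {t : G} (hG : IsHNN (kk false) (kk true) f t) (b : Bool) (k : F) :
    sgn t b * f (kk (!b) k) = f (kk b k) * sgn t b := by
  cases b
  · simp [← hG.rel, mul_assoc]
  · simp [← hG.rel, mul_assoc]

theorem maps_of_overlap {A B : Type} {j : A → B} {u v : List A} {z₁ z₂ : List B}
    (h : u.map j ++ z₁ = v.map j ++ z₂) (hz : z₁ = [] ∨ z₂ = []) :
    ∃ y₁ y₂, z₁ = List.map j y₁ ∧ z₂ = List.map j y₂ := by
  rcases hz with rfl | rfl
  · rw [List.append_nil] at h
    obtain ⟨a, b, -, -, rfl⟩ := List.map_eq_append_iff.1 h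
    exact ⟨[], b, rfl, rfl⟩
  · rw [List.append_nil] at h
    obtain ⟨a, b, -, -, rfl⟩ := List.map_eq_append_iff.1 h.symm
    exact ⟨b, [], rfl, rfl⟩

theorem surj_of_gen {B G : Type} [Group G] (φ : B → G)
    (h : ∀ L : Subgroup G, (∀ g, (∃ w, ev φ w = g) → (∃ w, ev φ w = g⁻¹) → g ∈ L) → ∀ g, g ∈ L)
    (g : G) : ∃ w, ev φ w = g := by
  let L : Subgroup G :=
    { carrier := {g | (∃ w, ev φ w = g) ∧ ∃ w, ev φ w = g⁻¹}
      one_mem' := ⟨⟨[], rfl⟩, ⟨[], by simp⟩⟩
      mul_mem' := by
        rintro _ _ ⟨⟨u, rfl⟩, u', hu'⟩ ⟨⟨v, rfl⟩, v', hv'⟩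
        exact ⟨⟨u ++ v, by simp⟩, v' ++ u', by simp [hu', hv']⟩
      inv_mem' := fun h => ⟨h.2, by simpa using h.1⟩ }
  exact (h L (fun g h1 h2 => ⟨h1, h2⟩) g).1

theorem hnn_sys {F H G : Type} [Group F] [Group H] [Group G] (S : Sys H) {kk : Bool → F →* H}
    (N : ∀ b, Anch S (kk b)) {f : H →* G} {t : G} (hG : IsHNN (kk false) (kk true) f t) :
    ∃ (S' : Sys G) (j : S.A → S'.A) (s : Bool → S'.A), SubGood S' S f j ∧
      (∀ b, S'.φ (s b) = sgn t b) ∧ Injective s ∧ (∀ a b, j a ≠ s b) ∧
      (∀ x, (∃ a, x = j a) ∨ ∃ b, x = s b) ∧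
      S'.R = mapR j S.R ∪ {p | ∃ b, ∃ q ∈ (N (!b)).P,
        p = (s b :: q.1.map j, (S.word (kk b q.2.1)).map j ++ s b :: q.2.2.map j)} ∪
        {p | ∃ b, p = ([s b, s (!b)], [])} := by
  classical
  let B := S.A ⊕ Bool
  let j : S.A → B := Sum.inl
  let s : Bool → B := Sum.inr
  have hj : Injective j := Sum.inl_injective
  let φ : B → G := Sum.elim (fun a => f (S.φ a)) (sgn t)
  have hφs : ∀ b, φ (s b) = sgn t b := fun _ => rfl
  have hev : ∀ w : List S.A, ev φ (w.map j) = f (ev S.φ w) := ev_map_hom _ _ _ _ fun _ => rfl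
  let Rc : Rules B := {p | ∃ b, ∃ q ∈ (N (!b)).P,
    p = (s b :: q.1.map j, (S.word (kk b q.2.1)).map j ++ s b :: q.2.2.map j)}
  let Rd : Rules B := {p | ∃ b, p = ([s b, s (!b)], [])}
  let R : Rules B := mapR j S.R ∪ Rc ∪ Rd
  have hR : ∀ p ∈ S.R, (p.1.map j, p.2.map j) ∈ R := fun p hp => Or.inl (Or.inl (mem_mapR j hp))
  have hRd : ∀ b, ([s b, s (!b)], []) ∈ R := fun b => Or.inr ⟨b, rfl⟩
  have head : ∀ p ∈ R, ∀ a, p.1.head? = some (j a) → ∃ q ∈ S.R, p = (q.1.map j, q.2.map j) := by
    rintro _ ((⟨q, hq, rfl⟩ | ⟨b, q, hq, rfl⟩) | ⟨b, rfl⟩) a ha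
    · exact ⟨q, hq, rfl⟩
    · simp [s, j] at ha
    · simp [s, j] at ha
  have hwf : WFR R := by
    refine wfr_carrier (fun x : B => x.isRight = true)
      (wf_state (Sum.elim (fun _ => emptyRelation) fun c => InvImage
        (fun v u => AStep S.R (N (!c)).P u v) (proj j)) ?_) (S.wf.mapR hj) ?_ ?_ ?_ ?_
    · rintro (a | c)
      · exact emptyWf.wf
      · exact InvImage.wf (proj j) (N (!c)).wf
    · rintro _ ⟨q, hq, rfl⟩ (a | c) ha
      · simp at ha
      · simp [j]
    · rintro (a | c) u v ha h
      · simp at ha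
      · exact ⟨rfl, Or.inl (h.proj_mapR hj)⟩
    · rintro _ ⟨b, q, hq, rfl⟩
      refine ⟨[], s b, _, _, s b, _, rfl, rfl, rfl, ?_, fun y => ⟨rfl, Or.inr ⟨q, hq, proj j y, ?_, ?_⟩⟩⟩
      · rintro (a | c) ha
        · simp at ha
        · simp [j]
      · simp [proj_append, proj_map hj]
      · simp [proj_append, proj_map hj]
    · rintro _ ⟨b, rfl⟩
      simp [s]
  have hne := hwf.ne_nil
  have sim : ∀ c a b, ReflTransGen (TStep S.R (N (!c)).P) a b → ∃ W, ev S.φ W = kk c (a.1⁻¹ * b.1) ∧
      Steps R (s c :: a.2.map j) (W.map j ++ s c :: b.2.map j) := by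
    intro c a b h
    induction h with
    | refl => exact ⟨[], by simp, .refl⟩
    | tail _ h ih =>
      obtain ⟨W, h1, h2⟩ := ih
      rcases h with ⟨h3, h4⟩ | ⟨q, hq, y, h3, rfl⟩
      · exact ⟨W, by rw [h1, h3], h2.tail (((h4.map j hR).cons _).left _)⟩
      · refine ⟨W ++ S.word (kk c q.2.1), by simp [h1, mul_assoc], h2.tail ?_⟩
        rw [h3]
        simpa using Step.of_mem (R := R) (Or.inl (Or.inr ⟨c, q, hq, rfl⟩)) (W.map j) (y.map j)
  have nf : ∀ c u, ∃ k v W, AIrr S.R (N (!c)).P v ∧ ev S.φ u = kk (!c) k * ev S.φ v ∧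
      ev S.φ W = kk c k ∧ Steps R (s c :: u.map j) (W.map j ++ s c :: v.map j) := by
    intro c u
    obtain ⟨k, v, h1, h2⟩ := (N (!c)).exists_nf u
    obtain ⟨W, h3, h4⟩ := sim c _ _ h1
    exact ⟨k, v, W, h2, by simpa using (N (!c)).ev_tsteps h1, by simpa using h3, h4⟩
  have J : ∀ c (W₁ u₁ W₂ u₂ : List S.A) k, ev S.φ W₂ = ev S.φ W₁ * kk c k →
      ev S.φ u₁ = kk (!c) k * ev S.φ u₂ →
      Jn R (W₁.map j ++ s c :: u₁.map j) (W₂.map j ++ s c :: u₂.map j) := by
    intro c W₁ u₁ W₂ u₂ k h1 h2
    obtain ⟨k₁, v₁, V₁, a1, a2, a3, a4⟩ := nf c u₁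
    obtain ⟨k₂, v₂, V₂, b1, b2, b3, b4⟩ := nf c u₂
    obtain ⟨rfl, h3⟩ := (N (!c)).uniq v₁ v₂ ((k * k₂)⁻¹ * k₁) a1 b1 (by
      rw [map_mul, mul_assoc, ← a2, h2, b2]
      simp [mul_assoc])
    rw [inv_mul_eq_one] at h3
    refine Jn.head_left (Steps.left a4 _) (Jn.head_right (Steps.left b4 _) ?_)
    rw [← List.append_assoc, ← List.append_assoc, ← List.map_append, ← List.map_append]
    refine Jn.right (Jn.map j hR (S.jn_of_ev ?_)) _
    simp [a3, b3, h1, ← h3, mul_assoc]
  have push : ∀ c k, ∃ W, ev S.φ W = kk c k ∧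
      Steps R (s c :: (S.word (kk (!c) k)).map j) (W.map j ++ [s c]) := by
    intro c k
    obtain ⟨k₁, v, W, a1, a2, a3, a4⟩ := nf c (S.word (kk (!c) k))
    rw [S.ev_word] at a2
    obtain ⟨rfl, h3⟩ := (N (!c)).uniq [] v (k₁⁻¹ * k) (N (!c)).airr_nil a1 (by simp [a2])
    rw [inv_mul_eq_one] at h3
    exact ⟨W, h3 ▸ a3, a4⟩
  let S' : Sys G :=
    { A := B
      fin := inferInstance
      R := R
      Rfin := by
        refine ((finite_mapR j S.Rfin).union ?_).union ?_
        · refine (Set.finite_iUnion fun b : Bool => (N (!b)).fin.image fun q =>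
            ((s b :: q.1.map j, (S.word (kk b q.2.1)).map j ++ s b :: q.2.2.map j) :
              List B × List B)).subset ?_
          rintro _ ⟨b, q, hq, rfl⟩
          exact Set.mem_iUnion.2 ⟨b, q, hq, rfl⟩
        · exact (Set.finite_range fun b : Bool => (([s b, s (!b)], []) : List B × List B)).subset
            (by rintro _ ⟨b, rfl⟩; exact ⟨b, rfl⟩)
      φ := φ
      sound := by
        rintro _ ((⟨q, hq, rfl⟩ | ⟨b, q, hq, rfl⟩) | ⟨b, rfl⟩)
        · rw [hev, hev, S.sound q hq]
        · simp only [ev_cons, ev_append, hev, hφs, (N (!b)).sound q hq, map_mul, S.ev_word,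
            ← mul_assoc, hG.sgn_rel]
        · simp [hφs, sgn_not]
      wf := hwf
      surj := surj_of_gen φ fun L hL => hG.gen L
        (fun h => hL _ ⟨(S.word h).map j, by simp [hev]⟩ ⟨(S.word h⁻¹).map j, by simp [hev]⟩)
        (hL _ ⟨[s false], by simp [hφs]⟩ ⟨[s true], by simp [hφs]⟩)
      inj := by
        refine inj_of_cp hwf ?_ ?_ ?_
        · rintro _ ((⟨p, hp, rfl⟩ | ⟨c, ⟨l, k, r⟩, hp, rfl⟩) | ⟨c, rfl⟩) q hq x z₁ z₂ h hx hz
          · obtain ⟨-, c, -, hc⟩ := head_of_overlap h hx (hne q hq)
            obtain ⟨q', hq', rfl⟩ := head q hq c hc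
            exact jn_of_sub S j hj hR hp hq' h hx hz
          · have hl := (N (!c)).ne _ hp
            have hs := (N (!c)).sound _ hp
            dsimp only at h hx hl hs ⊢
            cases x with
            | nil =>
              rcases hq with (⟨q, hq, rfl⟩ | ⟨c', ⟨l', k', r'⟩, hq, rfl⟩) | ⟨c', rfl⟩
              · have := S.wf.ne_nil q hq
                cases hq1 : q.1 with
                | nil => exact absurd hq1 this
                | cons a l => simp [hq1, s, j] at h
              · simp only [List.nil_append, List.cons_append, List.cons.injEq] at h ⊢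
                obtain rfl : c = c' := Sum.inr_injective h.1
                obtain ⟨y₁, y₂, rfl, rfl⟩ := maps_of_overlap h.2 hz
                have h' := h.2
                rw [← List.map_append, ← List.map_append] at h'
                have h'' := congrArg (ev S.φ) (List.map_injective_iff.2 hj h')
                have hs' := (N (!c)).sound _ hq
                dsimp only at hs'
                simp only [ev_append, hs, hs'] at h''
                simpa using J c (S.word (kk c k)) (r ++ y₁) (S.word (kk c k')) (r' ++ y₂) (k⁻¹ * k')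
                  (by simp) (by simp only [mul_assoc] at h''; simp [mul_assoc, ← h''])
              · cases l with
                | nil => exact absurd rfl hl
                | cons a l => simp [s, j] at h
            | cons a x =>
              simp only [List.cons_append, List.cons.injEq] at h
              obtain ⟨rfl, h⟩ := h
              obtain ⟨x₀, c', rfl, hc⟩ := head_of_overlap h (by simpa using hx) (hne q hq)
              obtain ⟨q', hq', rfl⟩ := head q hq c' hc
              dsimp only at h ⊢
              rw [← List.map_append] at h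
              obtain ⟨y₁, y₂, rfl, rfl⟩ := maps_of_overlap h hz
              rw [← List.map_append, ← List.map_append] at h
              have h'' := congrArg (ev S.φ) (List.map_injective_iff.2 hj h)
              simp only [ev_append, hs, S.sound _ hq'] at h''
              simpa using J c (S.word (kk c k)) (r ++ y₁) [] (x₀ ++ q'.2 ++ y₂) k⁻¹
                (by simp) (by simp only [ev_append, ← h'']; simp [mul_assoc])
          · dsimp only at h hx ⊢
            rcases hq with (⟨q, hq, rfl⟩ | ⟨c', ⟨l', k', r'⟩, hq, rfl⟩) | ⟨c', rfl⟩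
            · have := S.wf.ne_nil q hq
              cases hq1 : q.1 with
              | nil => exact absurd hq1 this
              | cons a l =>
                rcases x with _ | ⟨x1, _ | ⟨x2, x⟩⟩
                · simp [hq1, s, j] at h
                · simp [hq1, s, j] at h
                · simp at hx
            · have hl := (N (!c')).ne _ hq
              have hs := (N (!c')).sound _ hq
              dsimp only at hl hs h ⊢
              rcases x with _ | ⟨x1, _ | ⟨x2, x⟩⟩
              · cases l' with
                | nil => exact absurd rfl hl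
                | cons a l => simp [s, j] at h
              · simp only [List.cons_append, List.nil_append, List.cons.injEq] at h
                obtain ⟨rfl, h1, rfl⟩ := h
                obtain rfl : (!c) = c' := Sum.inr_injective h1
                have hz2 : z₂ = [] := hz.resolve_left (by simp [hl])
                subst hz2
                obtain ⟨W, h2, h3⟩ := push c k'
                refine Jn.head_right (v' := W.map j ++ r'.map j) ?_ ?_
                · have h4 := Steps.right h3 (s (!c) :: r'.map j)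
                  refine ReflTransGen.tail (by simpa using h4) ?_
                  simpa using Step.of_mem (hRd c) (W.map j) (r'.map j)
                · rw [← List.map_append]
                  simpa using Jn.map j hR (S.jn_of_ev (u := l') (v := W ++ r') (by
                    simpa [h2] using hs))
              · simp at hx
            · rcases x with _ | ⟨x1, _ | ⟨x2, x⟩⟩
              · simp only [List.cons_append, List.nil_append, List.cons.injEq] at h ⊢
                rw [h.2.2]
                exact Jn.refl _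
              · simp only [List.cons_append, List.nil_append, List.cons.injEq] at h ⊢
                obtain ⟨rfl, h1, rfl⟩ := h
                obtain rfl : (!c) = c' := Sum.inr_injective h1
                simpa using Jn.refl _
              · simp at hx
        · rintro (a | b)
          · exact eqvGen_inv_of_sub S j hR a
          · exact ⟨[s (!b)], .rel _ _ (Step.of_mem' (hRd b))⟩
        · intro K _ g hg
          obtain ⟨ψ₀, hψ₀⟩ := S.pres (fun a => g (j a)) fun p hp => by
            simpa [ev_map] using hg _ (hR p hp)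
          have h0 : ∀ w : List S.A, ev g (w.map j) = ψ₀ (ev S.φ w) := fun w => by
            rw [hψ₀, ev_map]
          have h1 : g (s true) = (g (s false))⁻¹ := by
            have := hg _ (hRd false)
            simp only [Bool.not_false, ev_cons, ev_nil, mul_one] at this
            exact eq_inv_of_mul_eq_one_right this
          obtain ⟨ψ, h2, h3⟩ := hG.univ K ψ₀ (g (s false)) fun k => by
            obtain ⟨W, h2, h3⟩ := push false k
            have := Steps.ev_eq hg h3
            simp only [ev_cons, ev_append, h0, h2, S.ev_word, Bool.not_false, ev_nil,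
              mul_one] at this
            rw [mul_assoc, ← this, inv_mul_cancel_left]
          refine ⟨ψ, ?_⟩
          rintro (a | _ | _)
          · exact (h2 _).trans (by simpa using hψ₀ [a])
          · exact h3
          · exact (map_inv ψ t).trans (by rw [h3, ← h1]) }
  refine ⟨S', j, s, ⟨hj, fun _ => rfl, hR, head⟩, hφs, Sum.inr_injective, fun a b => Sum.inl_ne_inr,
    ?_, rfl⟩
  rintro (a | b)
  · exact Or.inl ⟨a, rfl⟩
  · exact Or.inr ⟨b, rfl⟩

end Pool.Agent.MP_b9845b_al.H94
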