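import Pool.Agent.MP_b9845b_al.H94.Union
import Pool.Agent.MP_b9845b_al.H94.Hnn

namespace Pool.Agent.MP_b9845b_al.H94

open Relation Function

theorem double_core {H G ι : Type} [Group H] [Group G] [Finite ι] {a b : ι → H} (ha : Good a)
    (hb : Good b) {f : H →* G} {t : G} (hG : IsHNN (FreeGroup.lift a) (FreeGroup.lift b) f t) :
    (Good fun i => f (a i)) ∧
    ∃ (S : Sys G) (s : Bool → S.A) (D : Subgroup G), (∀ c, S.φ (s c) = sgn t c) ∧ Injective s ∧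
      (∀ h, f h ∈ D) ∧ (∀ h, t * f h * t⁻¹ ∈ D) ∧ (∀ x, (∀ c, x ≠ s c) → S.φ x ∈ D) ∧
      (∀ g ∈ D, ∃ w, (∀ c, s c ∉ w) ∧ ev S.φ w = g) ∧
      (∀ p ∈ S.R, (∀ c, s c ∉ p.1 ∧ s c ∉ p.2) ∨
        (∃ c x w, p = ([s c, x], w ++ [s c]) ∧ (∀ c', x ≠ s c' ∧ s c' ∉ w) ∧
          ∃ h, S.φ x = if c then t * f h * t⁻¹ else f h) ∨
        ∃ c, p = ([s c, s (!c)], [])) ∧
      ∀ c, ([s c, s (!c)], []) ∈ S.R := by
  constructor
  all_goals
    obtain ⟨SA, eA, hA⟩ := ha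
    obtain ⟨SB, eB, hB⟩ := hb
    obtain ⟨D, _, f₀, f₁, hD⟩ := exists_amalg (FreeGroup.lift b) (FreeGroup.lift a)
    obtain ⟨SD, j₀, j₁, h₀, h₁, -, hcov, -⟩ := union_sys hB hA hD
    obtain ⟨g, hg₀, hg₁⟩ := hD.univ G ((MulAut.conj t).toMonoidHom.comp f) f fun k => by
      simp [← hG.rel, mul_assoc]
    simp only [MulEquiv.toMonoidHom_eq_coe, MonoidHom.comp_apply, MonoidHom.coe_coe,
      MulAut.conj_apply] at hg₀
    have hH : IsHNN f₀ f₁ g t := by
      refine ⟨fun h => by simp [hg₀, hg₁, mul_assoc], fun L h1 h2 => hG.gen L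
        (fun h => hg₁ h ▸ h1 _) h2, fun K _ g' s hs => ?_⟩
      obtain ⟨ψ, h1, h2⟩ := hG.univ K (g'.comp f₁) s fun k => by
        simp only [MonoidHom.comp_apply]
        rw [← hD.rel, hs]
      refine ⟨ψ, fun d => ?_, h2⟩
      refine hD.gen ((ψ.comp g).eqLocus g') (fun h => ?_) (fun h => ?_) d
      · show ψ (g (f₀ h)) = g' (f₀ h)
        rw [hg₀, map_mul, map_mul, map_inv, h1, h2, MonoidHom.comp_apply, ← hs]
        simp [mul_assoc]
      · show ψ (g (f₁ h)) = g' (f₁ h)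
        rw [hg₁, h1, MonoidHom.comp_apply]
    obtain ⟨N₀, hN₀⟩ := exists_anch_of_subGood h₀
    obtain ⟨N₁, hN₁⟩ := exists_anch_of_subGood h₁
    let kk : Bool → H →* D := fun c => match c with | false => f₀ | true => f₁
    let N : ∀ c, Anch SD (kk c) := fun c => match c with | false => N₀ | true => N₁
    obtain ⟨S, j, s, hS, hs, hsi, hjs, hc, hR⟩ := hnn_sys SD N hH
  · refine ⟨S, _, ((hS.trans h₁).trans hA).congr ?_⟩
    exact FreeGroup.ext_hom _ _ fun i => by simp [hg₁]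
  · have hns : ∀ c (w : List SD.A), s c ∉ w.map j := fun c w h => by
      obtain ⟨x, -, hx⟩ := List.mem_map.1 h
      exact hjs _ _ hx
    refine ⟨S, s, g.range, hs, hsi, fun h => ⟨f₁ h, hg₁ h⟩, fun h => ⟨f₀ h, hg₀ h⟩, ?_, ?_, ?_, ?_⟩
    · intro x hx
      rcases hc x with ⟨y, rfl⟩ | ⟨c, rfl⟩
      · exact ⟨_, (hS.val y).symm⟩
      · exact absurd rfl (hx c)
    · rintro _ ⟨d, rfl⟩
      exact ⟨(SD.word d).map j, fun c => hns c _, by simp [hS.ev_map]⟩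
    · rw [hR]
      rintro _ ((⟨q, hq, rfl⟩ | ⟨c, q, hq, rfl⟩) | ⟨c, rfl⟩)
      · exact Or.inl fun c => ⟨hns c _, hns c _⟩
      · refine Or.inr (Or.inl ?_)
        cases c
        · have hq' : q ∈ N₁.P := hq
          rw [hN₁] at hq'
          obtain ⟨x, rfl⟩ := hq'
          exact ⟨false, j (j₁ x), _, rfl, fun c' => ⟨hjs _ _, hns _ _⟩, SA.φ x, by
            simp [hS.val, h₁.val, hg₁]⟩
        · have hq' : q ∈ N₀.P := hq
          rw [hN₀] at hq'
          obtain ⟨x, rfl⟩ := hq'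
          exact ⟨true, j (j₀ x), _, rfl, fun c' => ⟨hjs _ _, hns _ _⟩, SB.φ x, by
            simp [hS.val, h₀.val, hg₀]⟩
      · exact Or.inr (Or.inr ⟨c, rfl⟩)
    · intro c
      rw [hR]
      exact Or.inr ⟨c, rfl⟩

/-- A system in which vertex letters are pushed to the right through the stable letter. -/
theorem double_push {H G ι : Type} [Group H] [Group G] [Finite ι] {a b : ι → H} (ha : Good a)
    (hb : Good b) {f : H →* G} {t : G}
    (hG : IsHNN (FreeGroup.lift a) (FreeGroup.lift b) f t) :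
    ∃ (S : Sys G) (s : Bool → S.A) (D : Subgroup G), (∀ c, S.φ (s c) = sgn t c) ∧ Injective s ∧
      (∀ h, f h ∈ D) ∧ (∀ h, t * f h * t⁻¹ ∈ D) ∧ (∀ x, (∀ c, x ≠ s c) → S.φ x ∈ D) ∧
      (∀ g ∈ D, ∃ w, (∀ c, s c ∉ w) ∧ ev S.φ w = g) ∧
      (∀ p ∈ S.R, (∀ c, s c ∉ p.1 ∧ s c ∉ p.2) ∨
        (∃ c x w, p = ([x, s c], s c :: w) ∧ (∀ c', x ≠ s c' ∧ s c' ∉ w) ∧
          ∃ h, S.φ x = if c then f h else t * f h * t⁻¹) ∨
        ∃ c, p = ([s c, s (!c)], [])) ∧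
      ∀ c, ([s c, s (!c)], []) ∈ S.R := by
  obtain ⟨-, S, s, D, h1, h2, h3, h4, h5, h6, h7, h8⟩ := double_core ha hb hG
  refine ⟨S.op, fun c => s (!c), D, fun c => by simp [h1, sgn_not],
    fun c c' h => Bool.not_inj (h2 h), h3, h4, fun x hx => D.inv_mem (h5 x fun c => ?_), ?_, ?_, ?_⟩
  · simpa using hx (!c)
  · intro g hg
    obtain ⟨w, hw1, hw2⟩ := h6 _ (D.inv_mem hg)
    exact ⟨w.reverse, fun c => by simpa using hw1 (!c), by simp [ev_reverse_inv, hw2]⟩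
  · intro p hp
    rcases h7 _ hp with h | ⟨c, x, w, h, h', y, hy⟩ | ⟨c, h⟩
    · exact Or.inl fun c => by simpa using h (!c)
    · simp only [Prod.mk.injEq] at h
      refine Or.inr (Or.inl ⟨!c, x, w.reverse, Prod.ext ?_ ?_, fun c' => by simpa using h' (!c'),
        y⁻¹, ?_⟩)
      · simpa using congrArg List.reverse h.1
      · simpa using congrArg List.reverse h.2
      · cases c <;> simp [hy, mul_assoc]
    · simp only [Prod.mk.injEq] at h
      refine Or.inr (Or.inr ⟨c, Prod.ext ?_ ?_⟩)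
      · simpa using congrArg List.reverse h.1
      · simpa using congrArg List.reverse h.2
  · intro c
    simpa [revR] using h8 c

theorem double {H G ι : Type} [Group H] [Group G] [Finite ι] {a b : ι → H} (ha : Good a)
    (hb : Good b) {f : H →* G} {t : G}
    (hG : IsHNN (FreeGroup.lift a) (FreeGroup.lift b) f t) :
    (Good fun i => f (a i)) ∧ Good fun _ : Unit => t := by
  refine ⟨(double_core ha hb hG).1, ?_⟩
  obtain ⟨S, s, D, h1, h2, -, -, -, -, h7, h8⟩ := double_push ha hb hG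
  refine ⟨S, fun c => s (!c.2), ?_, ?_, ?_, ?_⟩
  · rintro ⟨_, c⟩ ⟨_, c'⟩ h
    simpa using Bool.not_inj (h2 h)
  · rintro ⟨_, c⟩
    cases c <;> simp [h1]
  · rintro _ ⟨i, c, rfl⟩
    exact h8 (!c)
  · rintro p hp ⟨_, c⟩ hc
    rcases h7 p hp with h | ⟨c', x, w, rfl, h', -⟩ | ⟨c', rfl⟩
    · exact absurd (List.mem_of_mem_head? hc) (h _).1
    · exact absurd (by simpa using hc) (h' (!c)).1
    · exact ⟨_, ⟨(), !c', rfl⟩, by simp⟩

end Pool.Agent.MP_b9845b_al.H94
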