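import Pool.Agent.MP_b9845b_al.H94.TT

namespace Pool.Agent.MP_b9845b_al.H94

open Relation FreeGroup Function

theorem final_bij {X G : Type} [Group G] {g : X → G} (hG : IsOR 1 g) : Bijective (lift g) := by
  constructor
  · obtain ⟨ψ, hψ⟩ := hG.univ (FreeGroup X) of (_root_.map_one _)
    have : ψ.comp (lift g) = MonoidHom.id _ := FreeGroup.ext_hom _ _ fun x => by simp [hψ]
    exact LeftInverse.injective (g := ψ) fun u => DFunLike.congr_fun this u
  · intro γ
    exact hG.gen (lift g).range (fun x => ⟨of x, by simp⟩) γ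

theorem final_omit {X : Type} {x : X} {s : FreeGroup X} (hs : s ∈ omitSub x) :
    ∃ r₀ : FreeGroup {y // y ≠ x}, FreeGroup.map Subtype.val r₀ = s := by
  have : omitSub x ≤ (FreeGroup.map (Subtype.val : {y // y ≠ x} → X)).range := by
    rw [omitSub, Subgroup.closure_le]
    rintro _ ⟨y, hy, rfl⟩
    exact ⟨of ⟨y, hy⟩, by simp⟩
  exact this hs

theorem final_aux (n : ℕ) : ∀ {X G : Type} [Finite X] [Group G] {r : FreeGroup X} {g : X → G},
    Nat.card X = n → IsOR r g → Nonempty (Sys G) := by
  induction n using Nat.strong_induction_on with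
  | _ n ih =>
  intro X G _ _ r g hn hG
  classical
  rcases subsingleton_or_nontrivial X with hX | hX
  · by_cases hr : r = 1
    · subst hr
      obtain ⟨S, -⟩ := Good.of_bijective (final_bij hG)
      exact ⟨S⟩
    · have := hG.finite hr
      obtain ⟨S, -⟩ := Good.of_finite (fun k : Empty => (k.elim : G))
      exact ⟨S⟩
  obtain ⟨a, b, hab⟩ := exists_pair_ne X
  obtain ⟨υ, -, -, -, h0⟩ := euclid r hab
  obtain ⟨t, ht⟩ : ∃ t, expo t (υ r) = 0 := h0.elim (fun h => ⟨_, h⟩) fun h => ⟨_, h⟩
  have hG' := hG.aut υ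
  generalize υ r = r' at ht hG'
  generalize (fun x => lift g (υ.symm (of x))) = g' at hG'
  by_cases hE : Ess t r'
  · obtain ⟨w, rfl⟩ : ∃ w, mk w = r' := ⟨r'.toWord, mk_toWord⟩
    obtain ⟨Z, ι, H, _, _, _, ρ, h, dn, up, zA, zB, f, σ, c, -, hH, hA, hB, hdn, hup, hdA, huB, -,
      hf, -⟩ := caseA hG' hE ht
    have h1 := (tt hH hA).sub (fun i => ⟨dn i, hdA i⟩)
      fun i j hij => hdn (congrArg Subtype.val hij)
    have h2 := (tt hH hB).sub (fun i => ⟨up i, huB i⟩)
      fun i j hij => hup (congrArg Subtype.val hij)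
    obtain ⟨S, -⟩ := (TGood.hnn h1 h2 hf).2
    exact ⟨S⟩
  · simp only [Ess, not_forall, not_not] at hE
    obtain ⟨s, hs, hc⟩ := hE
    obtain ⟨r₀, rfl⟩ := final_omit hs
    let e : {y // y ≠ t} ⊕ {y // ¬ y ≠ t} ≃ X := Equiv.sumCompl fun y => y ≠ t
    obtain ⟨i, -, hi⟩ := IsOR.split e (r₀ := r₀) (hG'.conj hc.symm) (isOR_presented r₀)
    have hlt : Nat.card {y // y ≠ t} < n := by
      rw [← hn]
      exact Finite.card_subtype_lt (x := t) (by simp)
    obtain ⟨S⟩ := ih _ hlt rfl (isOR_presented r₀)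
    obtain ⟨S', -⟩ := freeExt_sys S hi
    exact ⟨S'⟩

theorem exists_sys {X G : Type} [Finite X] [Group G] {r : FreeGroup X} {g : X → G}
    (hG : IsOR r g) : Nonempty (Sys G) := final_aux _ rfl hG

/-- Transport of a system along a bijection of alphabets. -/
@[reducible] def Sys.relabel {G : Type} [Group G] (S : Sys G) {B : Type} (e : S.A ≃ B) : Sys G :=
  have back : ∀ p ∈ mapR e S.R, (p.1.map e.symm, p.2.map e.symm) ∈ S.R := by
    rintro _ ⟨q, hq, rfl⟩
    simpa [Function.comp_def] using hq
  have evs : ∀ w : List B, ev (fun b => S.φ (e.symm b)) w = ev S.φ (w.map e.symm) := fun w =>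
    (ev_map S.φ e.symm w).symm
  have irr : ∀ w : List B, Irr (mapR e S.R) w → Irr S.R (w.map e.symm) := fun w hw =>
    Irr.of_map (R' := mapR e S.R) e (fun _ hp => mem_mapR e hp)
      (by simpa [Function.comp_def] using hw)
  { A := B
    fin := Finite.of_equiv _ e
    R := mapR e S.R
    Rfin := finite_mapR e S.Rfin
    φ := fun b => S.φ (e.symm b)
    sound := fun p hp => by rw [evs, evs]; exact S.sound _ (back p hp)
    wf := Subrelation.wf (r := InvImage (fun v u => Step S.R u v) (List.map e.symm))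
      (fun h => Step.map e.symm back h) (InvImage.wf _ S.wf)
    surj := fun g => ⟨(S.word g).map e, by rw [evs]; simp [Function.comp_def]⟩
    inj := fun u v hu hv h => by
      rw [evs, evs] at h
      exact (List.map_injective_iff.2 e.symm.injective) (S.inj _ _ (irr u hu) (irr v hv) h) }

theorem Sys.confluent {G : Type} [Group G] (S : Sys G) {a b c : List S.A} (h1 : Steps S.R a b)
    (h2 : Steps S.R a c) : Join (Steps S.R) b c :=
  S.jn_of_ev ((Steps.ev_eq S.sound h1).symm.trans (Steps.ev_eq S.sound h2))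

theorem Sys.ev_eq_iff {G : Type} [Group G] (S : Sys G) (u v : List S.A) :
    ev S.φ u = ev S.φ v ↔ ReflTransGen (fun a b => Step S.R a b ∨ Step S.R b a) u v := by
  constructor
  · intro h
    obtain ⟨w, h1, h2⟩ := S.jn_of_ev h
    have k1 : ∀ {a b}, Steps S.R a b →
        ReflTransGen (fun a b => Step S.R a b ∨ Step S.R b a) a b := by
      intro a b h
      induction h with
      | refl => exact .refl
      | tail _ h ih => exact ih.tail (Or.inl h)
    have k2 : ∀ {a b}, Steps S.R a b →
        ReflTransGen (fun a b => Step S.R a b ∨ Step S.R b a) b a := by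
      intro a b h
      induction h with
      | refl => exact .refl
      | tail _ h ih => exact .head (Or.inr h) ih
    exact (k1 h1).trans (k2 h2)
  · intro h
    induction h with
    | refl => rfl
    | tail _ h ih =>
      exact ih.trans (h.elim (fun h => h.ev_eq S.sound) fun h => (h.ev_eq S.sound).symm)

end Pool.Agent.MP_b9845b_al.H94
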