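import Pool.Agent.MP_b9845b_al.H94.CP
import Pool.Agent.MP_b9845b_al.H94.Ext

namespace Pool.Agent.MP_b9845b_al.H94

open Relation FreeGroup Function

section GrpAux
variable {L O : Type} {src tgt : L → O}

theorem grp_path_append {u v x : O} {w w' : List L} (h : Path src tgt u w v)
    (h' : Path src tgt v w' x) : Path src tgt u (w ++ w') x := by
  induction h with
  | nil v => simpa using h'
  | cons ha _ ih => exact Path.cons ha (ih h')

theorem grp_path_split {u x : O} {w w' : List L} (h : Path src tgt u (w ++ w') x) :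
    ∃ v, Path src tgt u w v ∧ Path src tgt v w' x := by
  induction w generalizing u with
  | nil => exact ⟨u, Path.nil u, by simpa using h⟩
  | cons a w ih =>
    rw [List.cons_append] at h
    cases h with
    | cons ha h =>
      obtain ⟨v, h1, h2⟩ := ih h
      exact ⟨v, Path.cons ha h1, h2⟩

theorem grp_path_end {u v v' : O} {w : List L} (h : Path src tgt u w v)
    (h' : Path src tgt u w v') : v = v' := by
  induction h with
  | nil v => cases h'; rfl
  | cons _ _ ih => cases h' with
    | cons _ h' => exact ih h'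

theorem grp_path_ends {u v u' v' : O} {w : List L} (h : Path src tgt u w v)
    (h' : Path src tgt u' w v') (hw : w ≠ []) : u = u' ∧ v = v' := by
  cases h with
  | nil => exact absurd rfl hw
  | cons ha h => cases h' with
    | cons ha' h' => exact ⟨ha.symm.trans ha', grp_path_end h h'⟩

theorem grp_path_step {R : Rules L} (wf : WFR R)
    (typed : ∀ p ∈ R, ∃ u v, Path src tgt u p.1 v ∧ Path src tgt u p.2 v)
    {u v : O} {w w' : List L} (h : Path src tgt u w v) (hs : Step R w w') :
    Path src tgt u w' v := by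
  obtain ⟨x, y, p, hp, rfl, rfl⟩ := hs
  obtain ⟨b, h1, h2⟩ := grp_path_split h
  obtain ⟨a, h3, h4⟩ := grp_path_split h1
  obtain ⟨a', b', h5, h6⟩ := typed p hp
  obtain ⟨rfl, rfl⟩ := grp_path_ends h4 h5 (wf.ne_nil p hp)
  exact grp_path_append (grp_path_append h3 h6) h2

theorem grp_path_steps {R : Rules L} (wf : WFR R)
    (typed : ∀ p ∈ R, ∃ u v, Path src tgt u p.1 v ∧ Path src tgt u p.2 v)
    {u v : O} {w w' : List L} (h : Path src tgt u w v) (hs : Steps R w w') :
    Path src tgt u w' v := by
  induction hs with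
  | refl => exact h
  | tail _ h' ih => exact grp_path_step wf typed ih h'

theorem grp_ev_path {G M : Type} [Group G] [Group M] (i : G →* M) (val : L → G) (g : O → M)
    {u v : O} {w : List L} (h : Path src tgt u w v) :
    ev (fun a => g (src a) * i (val a) * (g (tgt a))⁻¹) w = g u * i (ev val w) * (g v)⁻¹ := by
  induction h with
  | nil v => simp
  | cons ha _ ih => subst ha; rw [ev_cons, ih]; simp [mul_assoc]

theorem grp_eqvGen_of_steps {R : Rules L} {u v : List L} (h : Steps R u v) :
    EqvGen (Step R) u v := by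
  induction h with
  | refl => exact EqvGen.refl _
  | tail _ h ih => exact EqvGen.trans _ _ _ ih (EqvGen.rel _ _ h)

theorem grp_eqvGen_of_jn {R : Rules L} {u v : List L} (h : Jn R u v) : EqvGen (Step R) u v :=
  let ⟨_, h1, h2⟩ := h
  EqvGen.trans _ _ _ (grp_eqvGen_of_steps h1) (EqvGen.symm _ _ (grp_eqvGen_of_steps h2))

end GrpAux

theorem groupoid {L O G ν : Type} [Finite L] [Finite O] [Group G] [Finite ν]
    (src tgt : L → O) (R : Rules L) (Rfin : R.Finite) (val : L → G) (o : O)
    (typed : ∀ p ∈ R, ∃ u v, Path src tgt u p.1 v ∧ Path src tgt u p.2 v)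
    (sound : ∀ p ∈ R, ev val p.1 = ev val p.2) (wf : WFR R)
    (conn : ∀ u v g, ∃ w, Path src tgt u w v ∧ ev val w = g)
    (uniq : ∀ u v w w', Path src tgt u w v → Path src tgt u w' v → Irr R w → Irr R w' →
      ev val w = ev val w' → w = w')
    {V : ν → G} (emb : ν × Bool → L) (hinj : Injective emb)
    (hloop : ∀ c, src (emb c) = o ∧ tgt (emb c) = o) (hval : ∀ c, val (emb c) = sg V c)
    (hrule : ∀ i b, ([emb (i, b), emb (i, !b)], []) ∈ R)
    (hhead : ∀ p ∈ R, ∀ c, p.1.head? = some (emb c) → ∃ i b, p = ([emb (i, b), emb (i, !b)], [])) :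
    SGood V := by
  classical
  obtain ⟨M, _, i, f, hM⟩ := exists_freeExt G {v : O // v ≠ o}
  let g : O → M := fun v => if h : v = o then 1 else f ⟨v, h⟩
  have go : g o = 1 := by simp [g]
  have gk : ∀ k : {v : O // v ≠ o}, g k.1 = f k := fun k => by simp [g, k.2]
  let φ : L → M := fun a => g (src a) * i (val a) * (g (tgt a))⁻¹
  have hφ : ∀ {u v : O} {w : List L}, Path src tgt u w v →
      ev φ w = g u * i (ev val w) * (g v)⁻¹ := fun h => grp_ev_path i val g h
  have join : ∀ {u v : O} {w w' : List L}, Path src tgt u w v → Path src tgt u w' v →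
      ev val w = ev val w' → Jn R w w' := by
    intro u v w w' h h' e
    obtain ⟨a, h1, h2⟩ := wf.exists_irr w
    obtain ⟨b, h3, h4⟩ := wf.exists_irr w'
    have : a = b := uniq u v a b (grp_path_steps wf typed h h1) (grp_path_steps wf typed h' h3)
      h2 h4 (by rw [← Steps.ev_eq sound h1, ← Steps.ev_eq sound h3, e])
    subst this
    exact ⟨a, h1, h3⟩
  have hsound : ∀ p ∈ R, ev φ p.1 = ev φ p.2 := by
    intro p hp
    obtain ⟨u, v, h1, h2⟩ := typed p hp
    rw [hφ h1, hφ h2, sound p hp]
  have hsurj : ∀ m : M, ∃ w, ev φ w = m := by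
    have hinv : ∀ w : List L, ∃ w', ev φ w' = (ev φ w)⁻¹ := by
      intro w
      induction w with
      | nil => exact ⟨[], by simp⟩
      | cons a w ih =>
        obtain ⟨w', hw'⟩ := ih
        obtain ⟨c, hc, hc'⟩ := conn (tgt a) (src a) (val a)⁻¹
        refine ⟨w' ++ c, ?_⟩
        rw [ev_append, hw', hφ hc, hc', ev_cons]
        simp [φ, mul_assoc]
    let T : Subgroup M :=
      { carrier := {m | ∃ w, ev φ w = m}
        mul_mem' := by
          rintro _ _ ⟨w, rfl⟩ ⟨w', rfl⟩
          exact ⟨w ++ w', ev_append _ _ _⟩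
        one_mem' := ⟨[], rfl⟩
        inv_mem' := by
          rintro _ ⟨w, rfl⟩
          exact hinv w }
    refine hM.gen T (fun γ => ?_) (fun k => ?_)
    · obtain ⟨c, hc, hc'⟩ := conn o o γ
      exact ⟨c, by rw [hφ hc, hc', go]; simp⟩
    · obtain ⟨c, hc, hc'⟩ := conn k.1 o 1
      exact ⟨c, by rw [hφ hc, hc', go, gk]; simp⟩
  have hinj' : ∀ u v, Irr R u → Irr R v → ev φ u = ev φ v → u = v := by
    refine inj_of_cp wf ?_ ?_ ?_
    · intro p hp q hq x z₁ z₂ e hlen hz
      have hpath : ∃ u v, Path src tgt u (p.1 ++ z₁) v := by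
        obtain ⟨u, v, h1, -⟩ := typed p hp
        rcases hz with rfl | rfl
        · exact ⟨u, v, by simpa using h1⟩
        · obtain ⟨u', v', h2, -⟩ := typed q hq
          rw [List.append_nil] at e
          rcases List.append_eq_append_iff.1 e with ⟨m, e1, -⟩ | ⟨m, e1, e2⟩
          · rw [e1] at hlen; simp at hlen
          · have hm : m ≠ [] := by rintro rfl; rw [e1] at hlen; simp at hlen
            rw [e1] at h1
            rw [e2] at h2
            obtain ⟨a, h3, h4⟩ := grp_path_split h1
            obtain ⟨b, h5, h6⟩ := grp_path_split h2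
            obtain ⟨rfl, rfl⟩ := grp_path_ends h4 h5 hm
            exact ⟨u, v', by rw [e1]; exact grp_path_append (grp_path_append h3 h4) h6⟩
      obtain ⟨u, v, h⟩ := hpath
      have s1 : Step R (p.1 ++ z₁) (p.2 ++ z₁) := Step.of_mem_left (l := p.1) (r := p.2) hp z₁
      have s2 : Step R (p.1 ++ z₁) (x ++ q.2 ++ z₂) := by
        rw [e]; exact Step.of_mem (l := q.1) (r := q.2) hq x z₂
      exact join (grp_path_step wf typed h s1) (grp_path_step wf typed h s2)
        ((s1.ev_eq sound).symm.trans (s2.ev_eq sound))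
    · intro a
      obtain ⟨c, hc, hc'⟩ := conn (tgt a) (src a) (val a)⁻¹
      exact ⟨c, grp_eqvGen_of_jn (join (Path.cons rfl hc) (Path.nil _) (by simp [hc']))⟩
    · intro K _ g' hg'
      choose c hc hc' using conn
      have key : ∀ {u v : O} {w w' : List L}, Path src tgt u w v → Path src tgt u w' v →
          ev val w = ev val w' → ev g' w = ev g' w' := fun h h' e => (join h h' e).ev_eq hg'
      let ψ₀ : G →* K := MonoidHom.mk' (fun γ => ev g' (c o o γ)) fun a b => by
        rw [← ev_append]
        exact key (hc o o _) (grp_path_append (hc o o a) (hc o o b)) (by simp [hc'])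
      obtain ⟨ψ, h1, h2⟩ := hM.univ K ψ₀ fun k => ev g' (c k.1 o 1)
      have h3 : ∀ v, ψ (g v) = ev g' (c v o 1) := by
        intro v
        by_cases hv : v = o
        · subst hv
          rw [go, _root_.map_one]
          exact key (Path.nil _) (hc _ _ _) (by simp [hc'])
        · exact (congrArg ψ (gk ⟨v, hv⟩)).trans (h2 ⟨v, hv⟩)
      refine ⟨ψ, fun a => ?_⟩
      have h4 : ev g' (c (src a) o 1 ++ c o o (val a)) = ev g' (a :: c (tgt a) o 1) :=
        key (grp_path_append (hc _ _ _) (hc _ _ _)) (Path.cons rfl (hc _ _ _)) (by simp [hc'])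
      rw [ev_append, ev_cons] at h4
      simp only [φ, _root_.map_mul, _root_.map_inv, h1, h3]
      rw [mul_inv_eq_iff_eq_mul]
      exact h4
  let S : Sys M := ⟨L, inferInstance, R, Rfin, φ, hsound, wf, hsurj, hinj'⟩
  refine ⟨M, inferInstance, _, inferInstance, i, f, hM, S, emb, hinj, fun c => ?_, ?_, ?_⟩
  · show φ (emb c) = lift (fun j => i (V j)) (mk [c])
    rw [lift_mk_single]
    simp only [φ, (hloop c).1, (hloop c).2, go, hval, one_mul, inv_one, mul_one]
    rcases c with ⟨j, _ | _⟩ <;> simp
  · rintro _ ⟨j, b, rfl⟩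
    exact hrule j b
  · intro p hp c hc
    obtain ⟨j, b, rfl⟩ := hhead p hp c hc
    exact ⟨_, ⟨j, b, rfl⟩, rfl⟩

end Pool.Agent.MP_b9845b_al.H94
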