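import Pool.Agent.MP_b9845b_al.H94.Defs

namespace Pool.Agent.MP_b9845b_al.H94

open Relation FreeGroup Function

section Term
variable {A B : Type}

theorem wf_lex2 {α β : Type} (f : α → β) {r : β → β → Prop} (hr : WellFounded r)
    {s t : α → α → Prop} (hs : WellFounded s)
    (h : ∀ a b, t a b → r (f a) (f b) ∨ (f a = f b ∧ s a b)) : WellFounded t := by
  refine Subrelation.wf (r := InvImage (Prod.Lex r s) fun a => (f a, a)) ?_
    (InvImage.wf _ (hr.prod_lex hs))
  intro a b hab
  rcases h a b hab with h1 | ⟨h1, h2⟩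
  · exact Prod.Lex.left _ _ h1
  · show Prod.Lex r s (f a, a) (f b, b)
    rw [h1]
    exact Prod.Lex.right _ h2

open Classical in
noncomputable def proj (e : B → A) (w : List A) : List B :=
  w.filterMap fun a => if h : ∃ b, e b = a then some h.choose else none

theorem proj_append (e : B → A) (u v : List A) : proj e (u ++ v) = proj e u ++ proj e v := by
  simp [proj]

theorem proj_map {e : B → A} (he : Injective e) (u : List B) : proj e (u.map e) = u := by
  induction u with
  | nil => rfl
  | cons b u ih =>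
    have h : ∃ b', e b' = e b := ⟨b, rfl⟩
    have : h.choose = b := he h.choose_spec
    simp only [proj, List.map_cons] at ih ⊢
    rw [List.filterMap_cons, dif_pos h, this]
    simp only [ih]

theorem proj_eq_nil {e : B → A} {u : List A} (h : ∀ b, e b ∉ u) : proj e u = [] := by
  simp only [proj, List.filterMap_eq_nil_iff]
  intro a ha
  rw [dif_neg]
  rintro ⟨b, rfl⟩
  exact h b ha

theorem Step.proj_mapR {e : B → A} (he : Injective e) {R : Rules B} {u v : List A}
    (h : Step (mapR e R) u v) : Step R (proj e u) (proj e v) := by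
  obtain ⟨x, y, _, ⟨q, hq, rfl⟩, rfl, rfl⟩ := h
  exact ⟨proj e x, proj e y, q, hq, by simp [proj_append, proj_map he],
    by simp [proj_append, proj_map he]⟩

theorem Step.proj_eq {e : B → A} {R' : Rules A} (hd : ∀ p ∈ R', ∀ b, e b ∉ p.1 ∧ e b ∉ p.2)
    {u v : List A} (h : Step R' u v) : proj e u = proj e v := by
  obtain ⟨x, y, p, hp, rfl, rfl⟩ := h
  simp [proj_append, proj_eq_nil fun b => (hd p hp b).1, proj_eq_nil fun b => (hd p hp b).2]

theorem step_union {R R' : Rules A} {u v : List A} :
    Step (R ∪ R') u v ↔ Step R u v ∨ Step R' u v := by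
  constructor
  · rintro ⟨x, y, p, hp | hp, h1, h2⟩
    · exact Or.inl ⟨x, y, p, hp, h1, h2⟩
    · exact Or.inr ⟨x, y, p, hp, h1, h2⟩
  · rintro (h | h)
    · exact h.mono Set.subset_union_left
    · exact h.mono Set.subset_union_right

theorem WFR.union_mapR {e : B → A} (he : Injective e) {R : Rules B} {R' : Rules A} (hR : WFR R)
    (hR' : WFR R') (hd : ∀ p ∈ R', ∀ b, e b ∉ p.1 ∧ e b ∉ p.2) : WFR (mapR e R ∪ R') := by
  refine wf_lex2 (proj e) hR hR' fun v u h => ?_
  rcases step_union.1 h with h | h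
  · exact Or.inl (h.proj_mapR he)
  · exact Or.inr ⟨(h.proj_eq hd).symm, h⟩

theorem wfr_empty : WFR (∅ : Rules A) := wfr_of_length (by simp)

theorem WFR.mapR {e : B → A} (he : Injective e) {R : Rules B} (hR : WFR R) : WFR (mapR e R) := by
  simpa using hR.union_mapR he wfr_empty (by simp)

theorem WFR.drop {R : Rules A} (h : WFR R) :
    WellFounded fun v u => Step R u v ∨ ∃ x, x ≠ [] ∧ u = x ++ v := by
  have key : ∀ w, ∀ u, u <:+ w → Acc (fun v u => Step R u v ∨ ∃ x, x ≠ [] ∧ u = x ++ v) u := by
    intro w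
    induction w using WellFounded.induction h with
    | _ w ih =>
      intro u
      induction hn : u.length using Nat.strong_induction_on generalizing u with
      | _ n ih2 =>
        rintro ⟨z, rfl⟩
        refine Acc.intro _ ?_
        rintro v (hv | ⟨x, hx, rfl⟩)
        · exact ih _ (hv.left z) v (List.suffix_append z v)
        · refine ih2 v.length ?_ v rfl ⟨z ++ x, by simp⟩
          have := List.length_pos_iff.2 hx
          simp at hn
          omega
  exact ⟨fun u => key u u (List.suffix_refl u)⟩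

/-- Lexicographic order from the right on lists of the same length. -/
inductive RL {β : Type} (s : β → β → Prop) : List β → List β → Prop
  | tl {b b' : β} {L L' : List β} : RL s L' L → RL s (b' :: L') (b :: L)
  | hd {b b' : β} {L : List β} : s b' b → RL s (b' :: L) (b :: L)

theorem RL.wf {β : Type} {s : β → β → Prop} (hs : WellFounded s) : WellFounded (RL s) := by
  refine ⟨fun L => ?_⟩
  induction L with
  | nil => exact Acc.intro _ fun _ h => by cases h
  | cons b L ih =>
    induction ih generalizing b with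
    | intro L _ ihL =>
      induction b using WellFounded.induction hs with
      | _ b ihb =>
        refine Acc.intro _ fun L' h => ?_
        cases h with
        | tl h => exact ihL _ h _
        | hd h => exact ihb _ h

/-- Splitting a word at the carrier letters. -/
def parse (C : A → Prop) [DecidablePred C] : List A → List A × List (A × List A)
  | [] => ([], [])
  | a :: w => if C a then ([], (a, (parse C w).1) :: (parse C w).2)
      else (a :: (parse C w).1, (parse C w).2)

theorem parse_append (C : A → Prop) [DecidablePred C] {u : List A} (hu : ∀ a, C a → a ∉ u)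
    (w : List A) : parse C (u ++ w) = (u ++ (parse C w).1, (parse C w).2) := by
  induction u with
  | nil => rfl
  | cons a u ih =>
    have ha : ¬ C a := fun h => hu a h (by simp)
    rw [List.cons_append, parse, if_neg ha, ih fun b hb h => hu b hb (by simp [h])]
    rfl

theorem parse_cons (C : A → Prop) [DecidablePred C] {γ : A} (hγ : C γ) (w : List A) :
    parse C (γ :: w) = ([], (γ, (parse C w).1) :: (parse C w).2) := by
  rw [parse, if_pos hγ]

theorem parse_length (C : A → Prop) [DecidablePred C] (w : List A) :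
    (parse C w).2.length = w.countP fun a => C a := by
  induction w with
  | nil => rfl
  | cons a w ih =>
    by_cases ha : C a
    · simp [parse, ha, ih]
    · simp [parse, ha, ih]

theorem wfr_carrier (C : A → Prop) [DecidablePred C] {R Rc Rd : Rules A}
    {s : A × List A → A × List A → Prop} (hs : WellFounded s) (hR : WFR R)
    (hR0 : ∀ p ∈ R, ∀ a, C a → a ∉ p.1 ∧ a ∉ p.2)
    (hRs : ∀ γ u v, C γ → Step R u v → s (γ, v) (γ, u))
    (hc : ∀ p ∈ Rc, ∃ u γ l w γ' r, p = (u ++ γ :: l, w ++ γ' :: r) ∧ C γ ∧ C γ' ∧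
      (∀ a, C a → a ∉ u ∧ a ∉ l ∧ a ∉ w ∧ a ∉ r) ∧ ∀ y, s (γ', r ++ y) (γ, l ++ y))
    (hd : ∀ p ∈ Rd, p.2.countP (fun a => C a) < p.1.countP (fun a => C a)) :
    WFR (R ∪ Rc ∪ Rd) := by
  let O : List A × List (A × List A) → List A × List (A × List A) → Prop := fun a b =>
    a.2.length < b.2.length ∨ (a.2.length = b.2.length ∧ (RL s a.2 b.2 ∨
      (a.2 = b.2 ∧ Step R b.1 a.1)))
  have hO : WellFounded O := by
    refine wf_lex2 (fun a => a.2.length) wellFounded_lt ?_ fun a b h => h
    exact wf_lex2 (fun a => a.2) (RL.wf hs) (InvImage.wf Prod.fst hR) fun a b h => h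
  have hcons : ∀ x u v, O (parse C v) (parse C u) → O (parse C (x ++ v)) (parse C (x ++ u)) := by
    intro x u v h
    induction x with
    | nil => exact h
    | cons a x ih =>
      rw [List.cons_append, List.cons_append, parse, parse]
      by_cases ha : C a
      · rw [if_pos ha, if_pos ha]
        rcases ih with h1 | ⟨h1, h2 | ⟨h2, h3⟩⟩
        · exact Or.inl (by simpa using h1)
        · exact Or.inr ⟨by simpa using h1, Or.inl (RL.tl h2)⟩
        · refine Or.inr ⟨by simpa using h1, Or.inl ?_⟩
          dsimp only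
          rw [h2]
          exact RL.hd (hRs _ _ _ ha h3)
      · rw [if_neg ha, if_neg ha]
        rcases ih with h1 | ⟨h1, h2 | ⟨h2, h3⟩⟩
        · exact Or.inl h1
        · exact Or.inr ⟨h1, Or.inl h2⟩
        · exact Or.inr ⟨h1, Or.inr ⟨h2, h3.cons a⟩⟩
  refine Subrelation.wf (r := InvImage O (parse C)) ?_ (InvImage.wf _ hO)
  rintro v u ⟨x, y, p, hp, rfl, rfl⟩
  show O _ _
  rw [List.append_assoc, List.append_assoc]
  refine hcons x _ _ ?_
  rcases hp with (hp | hp) | hp
  · rw [parse_append C fun a ha => (hR0 p hp a ha).1, parse_append C fun a ha => (hR0 p hp a ha).2]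
    exact Or.inr ⟨rfl, Or.inr ⟨rfl, Step.of_mem_left hp _⟩⟩
  · obtain ⟨u, γ, l, w, γ', r, rfl, h1, h2, h3, h4⟩ := hc p hp
    simp only [List.append_assoc, List.cons_append]
    rw [parse_append C fun a ha => (h3 a ha).1, parse_append C fun a ha => (h3 a ha).2.2.1,
      parse_cons C h1, parse_cons C h2, parse_append C fun a ha => (h3 a ha).2.1,
      parse_append C fun a ha => (h3 a ha).2.2.2]
    exact Or.inr ⟨rfl, Or.inl (RL.hd (h4 _))⟩
  · refine Or.inl ?_
    have := hd p hp
    simp only [parse_length, List.countP_append]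
    omega

theorem wfr_carrier_left (C : A → Prop) [DecidablePred C] {R Rc Rd : Rules A} (hR : WFR R)
    (hR0 : ∀ p ∈ R, ∀ a, C a → a ∉ p.1 ∧ a ∉ p.2)
    (hc : ∀ p ∈ Rc, ∃ u γ l w γ', p = (u ++ γ :: l, w ++ [γ']) ∧ C γ ∧ C γ' ∧ l ≠ [] ∧
      ∀ a, C a → a ∉ u ∧ a ∉ l ∧ a ∉ w)
    (hd : ∀ p ∈ Rd, p.2.countP (fun a => C a) < p.1.countP (fun a => C a)) :
    WFR (R ∪ Rc ∪ Rd) := by
  refine wfr_carrier C (s := InvImage (fun v u => Step R u v ∨ ∃ x, x ≠ [] ∧ u = x ++ v) Prod.snd)
    (InvImage.wf _ hR.drop) hR hR0 (fun _ _ _ _ h => Or.inl h) (fun p hp => ?_) hd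
  obtain ⟨u, γ, l, w, γ', rfl, h1, h2, h3, h4⟩ := hc p hp
  exact ⟨u, γ, l, w, γ', [], rfl, h1, h2,
    fun a ha => ⟨(h4 a ha).1, (h4 a ha).2.1, (h4 a ha).2.2, by simp⟩,
    fun y => Or.inr ⟨l, h3, rfl⟩⟩

theorem Step.rev {R : Rules A} {u v : List A} (h : Step (revR R) u v) :
    Step R u.reverse v.reverse := by
  obtain ⟨x, y, p, hp, rfl, rfl⟩ := h
  exact ⟨y.reverse, x.reverse, _, hp, by simp, by simp⟩

theorem WFR.rev {R : Rules A} (h : WFR R) : WFR (revR R) :=
  Subrelation.wf (r := InvImage (fun v u => Step R u v) List.reverse) (fun h' => Step.rev h')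
    (InvImage.wf _ h)

theorem revR_revR (R : Rules A) : revR (revR R) = R := by
  ext p
  simp [revR]

theorem wfr_carrier_right (C : A → Prop) [DecidablePred C] {R Rc Rd : Rules A} (hR : WFR R)
    (hR0 : ∀ p ∈ R, ∀ a, C a → a ∉ p.1 ∧ a ∉ p.2)
    (hc : ∀ p ∈ Rc, ∃ γ l w γ', p = (l ++ [γ], γ' :: w) ∧ C γ ∧ C γ' ∧ l ≠ [] ∧
      ∀ a, C a → a ∉ l ∧ a ∉ w)
    (hd : ∀ p ∈ Rd, p.2.countP (fun a => C a) < p.1.countP (fun a => C a)) :
    WFR (R ∪ Rc ∪ Rd) := by
  have := wfr_carrier_left C (R := revR R) (Rc := revR Rc) (Rd := revR Rd) hR.rev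
    (fun p hp a ha => by simpa using hR0 _ hp a ha) (fun p hp => ?_)
    (fun p hp => by simpa using hd _ hp)
  · have h2 := this.rev
    have : revR (revR R ∪ revR Rc ∪ revR Rd) = R ∪ Rc ∪ Rd := by
      ext p
      simp [revR]
    rwa [this] at h2
  · obtain ⟨γ, l, w, γ', h0, h1, h2, h3, h4⟩ := hc _ hp
    simp only [Prod.mk.injEq] at h0
    refine ⟨[], γ, l.reverse, w.reverse, γ', Prod.ext ?_ ?_, h1, h2, by simpa using h3,
      fun a ha => by simpa using h4 a ha⟩
    · simpa using congrArg List.reverse h0.1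
    · simpa using congrArg List.reverse h0.2

end Term

end Pool.Agent.MP_b9845b_al.H94
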