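import Pool.Agent.MP_b9845b_al.H94.Groupoid
import Pool.Agent.MP_b9845b_al.H94.Term

namespace Pool.Agent.MP_b9845b_al.H94

open Relation Function

theorem path_map {L L' O : Type} {src tgt : L → O} {src' tgt' : L' → O} (e : L → L')
    (hs : ∀ a, src' (e a) = src a) (ht : ∀ a, tgt' (e a) = tgt a) {u v : O} {w : List L} :
    Path src' tgt' u (w.map e) v ↔ Path src tgt u w v := by
  induction w generalizing u with
  | nil =>
    constructor
    · intro h; cases h; exact Path.nil _
    · intro h; cases h; exact Path.nil _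
  | cons a w ih =>
    constructor
    · intro h
      cases h with
      | cons h1 h2 => exact Path.cons (hs a ▸ h1) (ih.1 (ht a ▸ h2))
    · intro h
      cases h with
      | cons h1 h2 => exact Path.cons ((hs a).trans h1) ((ht a).symm ▸ ih.2 h2)

theorem irr_append_of_last {A : Type} {R : Rules A} (hne : ∀ p ∈ R, p.1 ≠ []) {w z : List A}
    (hw : Irr R w) (hz : ∀ p ∈ R, ∀ a ∈ z, p.1.getLast? ≠ some a) : Irr R (w ++ z) := by
  induction z using List.reverseRecOn with
  | nil => simpa using hw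
  | append_singleton z a ih =>
    intro p hp hi
    rw [← List.append_assoc] at hi
    rcases List.infix_concat_iff.1 hi with h | h
    · refine hz p hp a (by simp) ?_
      obtain ⟨x, hx⟩ := h
      have := congrArg List.getLast? hx
      rw [List.getLast?_append_of_ne_nil _ (hne p hp)] at this
      simpa using this
    · exact ih (fun q hq b hb => hz q hq b (by simp [hb])) p hp h

/-- The groupoid lemma when only forward edges to a set of final objects are given. -/
theorem groupoid2 {L O G ν : Type} [Finite L] [Finite O] [Group G] [Finite ν]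
    (src tgt : L → O) (R : Rules L) (Rfin : R.Finite) (val : L → G) (o : O)
    (typed : ∀ p ∈ R, ∃ u v, Path src tgt u p.1 v ∧ Path src tgt u p.2 v)
    (sound : ∀ p ∈ R, ev val p.1 = ev val p.2) (wf : WFR R)
    (ψ : O → O) (μ : O → List L) (hμp : ∀ v, Path src tgt v (μ v) (ψ v))
    (hμv : ∀ v, ev val (μ v) = 1) (hμψ : ∀ v, μ (ψ v) = [])
    (hμl : ∀ p ∈ R, ∀ v, ∀ a ∈ μ v, p.1.getLast? ≠ some a)
    (conn : ∀ u v g, ∃ w, Path src tgt (ψ u) w (ψ v) ∧ ev val w = g)
    (uniq : ∀ u v w w', Path src tgt u w (ψ v) → Path src tgt u w' (ψ v) → Irr R w → Irr R w' →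
      ev val w = ev val w' → w = w')
    {V : ν → G} (emb : ν × Bool → L) (hinj : Injective emb)
    (hloop : ∀ c, src (emb c) = o ∧ tgt (emb c) = o) (hval : ∀ c, val (emb c) = sg V c)
    (hrule : ∀ i b, ([emb (i, b), emb (i, !b)], []) ∈ R)
    (hhead : ∀ p ∈ R, ∀ c, p.1.head? = some (emb c) → ∃ i b, p = ([emb (i, b), emb (i, !b)], []))
    (hμe : ∀ v c, (μ v).head? ≠ some (emb c)) : SGood V := by
  classical
  choose W hW hWv using conn
  let j : L → L ⊕ O := Sum.inl
  let n : O → L ⊕ O := Sum.inr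
  have hj : Injective j := Sum.inl_injective
  let src' : L ⊕ O → O := Sum.elim src ψ
  let tgt' : L ⊕ O → O := Sum.elim tgt id
  let val' : L ⊕ O → G := Sum.elim val fun _ => 1
  have pm : ∀ {u v : O} {w : List L}, Path src' tgt' u (w.map j) v ↔ Path src tgt u w v :=
    path_map j (fun _ => rfl) fun _ => rfl
  have pn : ∀ v, Path src' tgt' (ψ v) [n v] v := fun v => Path.cons rfl (Path.nil _)
  have hev : ∀ w : List L, ev val' (w.map j) = ev val w := fun w => ev_map _ _ _
  have hn : ∀ v, val' (n v) = 1 := fun _ => rfl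
  let Rc : Rules (L ⊕ O) :=
    {p | ∃ y, p = ([n (src y), j y], (W (src y) (tgt y) (val y)).map j ++ [n (tgt y)])}
  let Rd : Rules (L ⊕ O) := {p | ∃ v, p = ((μ v).map j ++ [n v], [])}
  let R' : Rules (L ⊕ O) := mapR j R ∪ Rc ∪ Rd
  have hR : ∀ p ∈ R, (p.1.map j, p.2.map j) ∈ R' := fun p hp => Or.inl (Or.inl (mem_mapR j hp))
  have shape : ∀ u v w, Path src' tgt' u w v → Irr R' w → ∃ w₀, Irr R w₀ ∧
      Path src tgt u w₀ (ψ v) ∧ ev val w₀ = ev val' w ∧
      ((∃ w₁, w₀ = w₁ ++ μ v ∧ w = w₁.map j) ∨ (¬ μ v <:+ w₀ ∧ w = w₀.map j ++ [n v])) := by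
    intro u v w hp hw
    obtain ⟨w₁, r, rfl, hr⟩ := exists_split j w
    obtain ⟨x, h1, h2⟩ := grp_path_split hp
    have hi : Irr R w₁ := Irr.of_map j hR hw.of_append_left
    cases h2 with
    | nil =>
      refine ⟨w₁ ++ μ v, irr_append_of_last wf.ne_nil hi fun p hp => hμl p hp v,
        grp_path_append (pm.1 h1) (hμp v), by simp [hev, hμv], Or.inl ⟨w₁, rfl, by simp⟩⟩
    | @cons a r _ _ ha h2 =>
      rcases a with a | a
      · exact absurd rfl (hr a)
      · have hnot : ¬ μ a <:+ w₁ := by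
          rintro ⟨z, rfl⟩
          exact hw _ (Or.inr ⟨a, rfl⟩) ⟨z.map j, r, by simp [n]⟩
        cases h2 with
        | nil =>
          subst ha
          exact ⟨w₁, hi, pm.1 h1, by simp [hev, val'], Or.inr ⟨hnot, rfl⟩⟩
        | @cons b r _ _ hb h2 =>
          exfalso
          rcases b with b | b
          · have : src b = a := hb
            subst this
            exact hw _ (Or.inl (Or.inr ⟨b, rfl⟩)) ⟨w₁.map j, r, by simp [n, j]⟩
          · have : ψ b = a := hb
            subst this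
            exact hnot (by simp [hμψ])
  refine groupoid src' tgt' R' ?_ val' o ?_ ?_ ?_ ?_ ?_ (fun c => j (emb c)) (hj.comp hinj) hloop
    hval (fun i b => hR _ (hrule i b)) ?_
  · exact ((finite_mapR j Rfin).union ((Set.finite_range _).subset
      (by rintro _ ⟨y, rfl⟩; exact ⟨y, rfl⟩))).union
      ((Set.finite_range _).subset (by rintro _ ⟨y, rfl⟩; exact ⟨y, rfl⟩))
  · rintro _ ((⟨p, hp, rfl⟩ | ⟨y, rfl⟩) | ⟨v, rfl⟩)
    · obtain ⟨u, v, h1, h2⟩ := typed p hp
      exact ⟨u, v, pm.2 h1, pm.2 h2⟩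
    · exact ⟨ψ (src y), tgt y, Path.cons rfl (Path.cons rfl (Path.nil _)),
        grp_path_append (pm.2 (hW _ _ _)) (pn _)⟩
    · exact ⟨v, v, grp_path_append (pm.2 (hμp v)) (pn v), Path.nil _⟩
  · rintro _ ((⟨p, hp, rfl⟩ | ⟨y, rfl⟩) | ⟨v, rfl⟩)
    · rw [hev, hev, sound p hp]
    · simp [hev, hn, hWv, val', j]
    · simp [hev, hn, hμv]
  · refine wfr_carrier_left (fun x : L ⊕ O => x.isRight = true) (wf.mapR hj) ?_ ?_ ?_
    · rintro _ ⟨q, hq, rfl⟩ (a | c) ha
      · simp at ha
      · simp [j]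
    · rintro _ ⟨y, rfl⟩
      refine ⟨[], n (src y), [j y], _, n (tgt y), rfl, rfl, rfl, by simp, ?_⟩
      rintro (a | c) ha
      · simp at ha
      · simp [j]
    · rintro _ ⟨v, rfl⟩
      simp [n]
  · intro u v g
    exact ⟨(μ u ++ W u v g).map j ++ [n v],
      grp_path_append (pm.2 (grp_path_append (hμp u) (hW u v g))) (pn v),
      by simp [hev, hn, hμv, hWv]⟩
  · intro u v w w' hp hp' hw hw' e
    obtain ⟨a, a1, a2, a3, a4⟩ := shape u v w hp hw
    obtain ⟨b, b1, b2, b3, b4⟩ := shape u v w' hp' hw'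
    obtain rfl : a = b := uniq u v a b a2 b2 a1 b1 (by rw [a3, b3, e])
    rcases a4 with ⟨x, rfl, rfl⟩ | ⟨a4, rfl⟩ <;> rcases b4 with ⟨y, b4, rfl⟩ | ⟨b4, rfl⟩
    · rw [List.append_cancel_right b4]
    · exact absurd (List.suffix_append _ _) b4
    · exact absurd (b4 ▸ List.suffix_append _ _) a4
    · rfl
  · rintro _ ((⟨p, hp, rfl⟩ | ⟨y, rfl⟩) | ⟨v, rfl⟩) c hc
    · obtain ⟨i, b, rfl⟩ := hhead p hp c (by
        cases hp1 : p.1 with
        | nil => simp [hp1] at hc
        | cons a l => simpa [hp1, j] using hc)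
      exact ⟨i, b, rfl⟩
    · simp [n, j] at hc
    · exfalso
      cases hv : μ v with
      | nil => simp [hv, n, j] at hc
      | cons a l => exact hμe v c (by simpa [hv, j] using hc)

end Pool.Agent.MP_b9845b_al.H94
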