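import Pool.Agent.MP_b9845b_al.H94.Marker
import Pool.Agent.MP_b9845b_al.H94.CF

namespace Pool.Agent.MP_b9845b_al.H94

open Relation FreeGroup Function

/-- The shape of a system in which vertex letters are pushed through the stable letter. -/
structure HypPush {M G : Type} [Group M] [Group G] (f : M →* G) (t : G) (S : Sys G)
    (s : Bool → S.A) (D : Subgroup G) : Prop where
  val : ∀ c, S.φ (s c) = sgn t c
  inj : Injective s
  memf : ∀ h, f h ∈ D
  memt : ∀ h, t * f h * t⁻¹ ∈ D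
  word : ∀ g ∈ D, ∃ w, (∀ c, s c ∉ w) ∧ ev S.φ w = g
  shape : ∀ p ∈ S.R, (∀ c, s c ∉ p.1 ∧ s c ∉ p.2) ∨
    (∃ c x w, p = ([x, s c], s c :: w) ∧ (∀ c', x ≠ s c' ∧ s c' ∉ w) ∧
      ∃ h, S.φ x = if c then f h else t * f h * t⁻¹) ∨
    ∃ c, p = ([s c, s (!c)], [])

theorem hyp_first_unique {A : Type} {a : A} {u u' v v' : List A} (hu : a ∉ u) (hu' : a ∉ u')
    (h : u ++ a :: v = u' ++ a :: v') : u = u' ∧ v = v' := by
  induction u generalizing u' with
  | nil =>
    cases u' with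
    | nil => exact ⟨rfl, by simpa using h⟩
    | cons b u' =>
      simp only [List.nil_append, List.cons_append, List.cons.injEq] at h
      exact absurd (by simp [h.1]) hu'
  | cons b u ih =>
    cases u' with
    | nil =>
      simp only [List.nil_append, List.cons_append, List.cons.injEq] at h
      exact absurd (by simp [h.1]) hu
    | cons b' u' =>
      simp only [List.cons_append, List.cons.injEq] at h
      obtain ⟨h1, h2⟩ := ih (fun h' => hu (by simp [h'])) (fun h' => hu' (by simp [h'])) h.2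
      exact ⟨by rw [h.1, h1], h2⟩

namespace HypPush

variable {M G : Type} [Group M] [Group G] {f : M →* G} {t : G} {S : Sys G} {s : Bool → S.A}
  {D : Subgroup G}

theorem ne_not (hP : HypPush f t S s D) (c : Bool) : s c ≠ s (!c) := fun h => by
  have := hP.inj h
  cases c <;> simp at this

/-- A stable letter at a position of a left side other than the last one. -/
theorem mid (hP : HypPush f t S s D) {p : List S.A × List S.A} (hp : p ∈ S.R) {c : Bool}
    {l₁ l₂ : List S.A} (h : p.1 = l₁ ++ s c :: l₂) (h2 : l₂ ≠ []) :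
    l₁ = [] ∧ l₂ = [s (!c)] ∧ p.2 = [] := by
  rcases hP.shape p hp with h1 | ⟨c', x, w, rfl, h1, -⟩ | ⟨c', rfl⟩
  · exact absurd (by simp [h]) (h1 c).1
  · cases l₁ with
    | nil =>
      simp only [List.nil_append, List.cons.injEq] at h
      exact absurd h.1 (h1 c).1
    | cons b l₁ =>
      have := congrArg List.length h
      cases l₂ with
      | nil => exact absurd rfl h2
      | cons d l₂ => simp at this; omega
  · cases l₁ with
    | nil =>
      simp only [List.nil_append, List.cons.injEq] at h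
      have h3 := hP.inj h.1
      subst h3
      exact ⟨rfl, h.2.symm, rfl⟩
    | cons b l₁ =>
      have := congrArg List.length h
      cases l₂ with
      | nil => exact absurd rfl h2
      | cons d l₂ => simp at this; omega

theorem glue (hP : HypPush f t S s D) {c : Bool} {u v : List S.A} (hu : Irr S.R (u ++ [s c]))
    (hv : Irr S.R v) (h : s (!c) ∉ v) : Irr S.R (u ++ s c :: v) := by
  rintro p hp ⟨x, y, hxy⟩
  rcases cf_mid_split hxy.symm with ⟨y', h1, -⟩ | ⟨x', -, h1⟩ | ⟨l₁, l₂, h1, h2, h3⟩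
  · exact hu p hp ⟨x, y' ++ [s c], by simp [h1]⟩
  · exact hv p hp ⟨x', y, h1.symm⟩
  · by_cases h4 : l₂ = []
    · exact hu p hp ⟨x, [], by simp [h1, h2, h4]⟩
    · obtain ⟨-, h5, -⟩ := hP.mid hp h1 h4
      exact h (by simp [h3, h5])

theorem overlap (hP : HypPush f t S s D) {c : Bool} {u z₁ x z₂ : List S.A}
    (hu : Irr S.R (u ++ [s c])) {p : List S.A × List S.A} (hp : p ∈ S.R)
    (h : u ++ [s c] ++ z₁ = x ++ p.1 ++ z₂) (hx : x.length < (u ++ [s c]).length) :
    x = u ∧ p.2 = [] ∧ z₁ = s (!c) :: z₂ := by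
  have h' : u ++ s c :: z₁ = x ++ p.1 ++ z₂ := by simpa using h
  rcases cf_mid_split h' with ⟨y', h1, -⟩ | ⟨x', h1, -⟩ | ⟨l₁, l₂, h1, h2, h3⟩
  · exact absurd ⟨x, y' ++ [s c], by simp [h1]⟩ (hu p hp)
  · simp [h1] at hx
  · by_cases h4 : l₂ = []
    · exact absurd ⟨x, [], by simp [h1, h2, h4]⟩ (hu p hp)
    · obtain ⟨h6, h5, h7⟩ := hP.mid hp h1 h4
      exact ⟨by simp [h2, h6], h7, by simp [h3, h5]⟩

theorem step_free (hP : HypPush f t S s D) {u v : List S.A} (h : Step S.R u v)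
    (hu : ∀ c, s c ∉ u) : ∀ c, s c ∉ v := by
  obtain ⟨x, y, p, hp, rfl, rfl⟩ := h
  intro c
  rcases hP.shape p hp with h1 | ⟨c', x', w, rfl, -, -⟩ | ⟨c', rfl⟩
  · have h2 := hu c
    have h3 := (h1 c).2
    simp only [List.mem_append, not_or] at h2 ⊢
    exact ⟨⟨h2.1.1, h3⟩, h2.2⟩
  · exact absurd (by simp) (hu c')
  · exact absurd (by simp) (hu c')

theorem nf (hP : HypPush f t S s D) {g : G} (hg : g ∈ D) :
    ∃ w, (∀ c, s c ∉ w) ∧ Irr S.R w ∧ ev S.φ w = g := by
  obtain ⟨w, h1, rfl⟩ := hP.word g hg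
  obtain ⟨v, h2, h3⟩ := S.wf.exists_irr w
  refine ⟨v, ?_, h3, (Steps.ev_eq S.sound h2).symm⟩
  clear h3 hg
  induction h2 with
  | refl => exact h1
  | tail _ h ih => exact hP.step_free h ih

/-- The homomorphism onto the subgroup of elements that pass through the stable letter. -/
def tf (f : M →* G) (t : G) (c : Bool) (h : M) : G := if c then f h else t * f h * t⁻¹

theorem tf_one (c : Bool) : tf f t c 1 = 1 := by cases c <;> simp [tf]
theorem tf_mul (c : Bool) (h h' : M) : tf f t c (h * h') = tf f t c h * tf f t c h' := by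
  cases c <;> simp [tf, mul_assoc]

theorem first_step (hP : HypPush f t S s D) {c : Bool} {σ b v : List S.A}
    (hσ : ∀ c, s c ∉ σ) (hb : ∀ c, s c ∉ b) (h : Step S.R (σ ++ s c :: b) v) :
    ∃ σ' b', v = σ' ++ s c :: b' ∧ (∀ c, s c ∉ σ') ∧ (∀ c, s c ∉ b') ∧
      ∃ μ, ev S.φ σ' = ev S.φ σ * tf f t c μ := by
  obtain ⟨x, y, p, hp, h, rfl⟩ := h
  rcases cf_mid_split h with ⟨y', h1, rfl⟩ | ⟨x', rfl, h1⟩ | ⟨l₁, l₂, h1, h2, h3⟩
  · have hs : Step S.R σ (x ++ p.2 ++ y') := ⟨x, y', p, hp, h1, rfl⟩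
    exact ⟨x ++ p.2 ++ y', b, by simp, hP.step_free hs hσ, hb, 1, by
      rw [tf_one, mul_one, hs.ev_eq S.sound]⟩
  · have hs : Step S.R b (x' ++ p.2 ++ y) := ⟨x', y, p, hp, h1, rfl⟩
    exact ⟨σ, x' ++ p.2 ++ y, by simp, hσ, hP.step_free hs hb, 1, by rw [tf_one, mul_one]⟩
  · by_cases h4 : l₂ = []
    · subst h4
      have h3' : b = y := by simpa using h3
      subst h3'
      rcases hP.shape p hp with h5 | ⟨c', x', w, rfl, h5, μ, hμ⟩ | ⟨c', rfl⟩
      · exact absurd (by simp [h1]) (h5 c).1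
      · have h6 : [x'] ++ [s c'] = l₁ ++ [s c] := h1
        obtain ⟨rfl, h7⟩ := List.append_inj' h6 rfl
        have h8 : c' = c := hP.inj (by simpa using h7)
        subst h8
        refine ⟨x, w ++ b, by simp, fun c h => hσ c (by simp [h2, h]), fun c => ?_, μ⁻¹, ?_⟩
        · simp only [List.mem_append, not_or]
          exact ⟨(h5 c).2, hb c⟩
        · have h9 : S.φ x' = tf f t c' μ := hμ
          rw [h2, ev_append, ev_singleton, h9, mul_assoc, ← tf_mul, mul_inv_cancel, tf_one, mul_one]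
      · have h6 : [s c'] ++ [s (!c')] = l₁ ++ [s c] := h1
        obtain ⟨rfl, -⟩ := List.append_inj' h6 rfl
        exact absurd (by simp [h2]) (hσ c')
    · obtain ⟨-, h5, -⟩ := hP.mid hp h1 h4
      exact absurd (by simp [h3, h5]) (hb (!c))

theorem first (hP : HypPush f t S s D) (c : Bool) {d : G} (hd : d ∈ D) :
    ∃ σ, (∀ c, s c ∉ σ) ∧ Irr S.R (σ ++ [s c]) ∧ ∃ μ, ev S.φ σ = d * tf f t c μ := by
  obtain ⟨w, h1, rfl⟩ := hP.word d hd
  obtain ⟨v, h2, h3⟩ := S.wf.exists_irr (w ++ [s c])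
  have key : ∃ σ b, v = σ ++ s c :: b ∧ (∀ c, s c ∉ σ) ∧ (∀ c, s c ∉ b) ∧
      ∃ μ, ev S.φ σ = ev S.φ w * tf f t c μ := by
    clear h3
    induction h2 with
    | refl => exact ⟨w, [], rfl, h1, by simp, 1, by rw [tf_one, mul_one]⟩
    | tail _ h ih =>
      obtain ⟨σ, b, rfl, h4, h5, μ, h6⟩ := ih
      obtain ⟨σ', b', rfl, h7, h8, μ', h9⟩ := hP.first_step h4 h5 h
      exact ⟨σ', b', rfl, h7, h8, μ * μ', by rw [h9, h6, tf_mul, mul_assoc]⟩
  obtain ⟨σ, b, rfl, h4, -, h6⟩ := key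
  exact ⟨σ, h4, Irr.of_append_left (v := b) (by simpa using h3), h6⟩

theorem exists_nf_mid [DecidableEq S.A] (hP : HypPush f t S s D) (n : ℕ) :
    ∀ (d : G), d ∈ D → ∀ m, Mid f t n m →
      ∃ π σ rest, π ++ [s false] = σ ++ s false :: rest ∧ s false ∉ σ ∧
        Irr S.R (π ++ [s false]) ∧ s true ∉ π ∧ π.count (s false) = n ∧
        (∃ μ, ev S.φ σ = d * (t * f μ * t⁻¹)) ∧ ∃ μ, d * t * m = ev S.φ π * t * f μ := by
  induction n with
  | zero =>
    intro d hd m hm
    cases hm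
    obtain ⟨σ, h1, h2, μ, h3⟩ := hP.first false hd
    refine ⟨σ, σ, [], rfl, h1 _, h2, h1 _, List.count_eq_zero.2 (h1 _), ⟨μ, h3⟩, μ⁻¹, ?_⟩
    rw [h3]
    simp [tf, mul_assoc]
  | succ n ih =>
    intro d hd m hm
    obtain ⟨σ, h1, h2, μ, h3⟩ := hP.first false hd
    cases hm with
    | succ h hm =>
      rename_i m'
      obtain ⟨π, -, -, -, -, h4, h5, h6, -, μ', h7⟩ := ih (f (μ⁻¹ * h)) (hP.memf _) m' hm
      refine ⟨σ ++ s false :: π, σ, π ++ [s false], by simp, h1 _, ?_, ?_, ?_, ⟨μ, h3⟩, μ', ?_⟩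
      · have := hP.glue h2 h4 (by
          simp only [List.mem_append, List.mem_singleton, not_or]
          exact ⟨h5, (hP.ne_not false).symm⟩)
        simpa using this
      · simp only [List.mem_append, List.mem_cons, not_or]
        exact ⟨h1 _, (hP.ne_not false).symm, h5⟩
      · simp [List.count_append, List.count_eq_zero.2 (h1 false), h6]
      · rw [ev_append, ev_cons, h3, hP.val]
        calc _ = d * t * f μ * (f (μ⁻¹ * h) * t * m') := by simp [mul_assoc]
          _ = _ := by rw [h7]; simp [tf, mul_assoc]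

theorem anch [DecidableEq S.A] (hP : HypPush f t S s D) {κ : Type} [Finite κ] {n : ℕ} (y η : κ → G)
    (π ρ : κ → List S.A) (μ : κ → M) (hη : ∀ i, η i ∈ D)
    (hy : ∀ i, y i = ev S.φ (π i) * t * η i) (hπ1 : ∀ i, Irr S.R (π i ++ [s false]))
    (hπ2 : ∀ i, s true ∉ π i) (hπ3 : ∀ i, (π i).count (s false) = n)
    (hπ4 : ∀ i j z, π i ++ [s false] = π j ++ [s false] ++ z → i = j)
    (hρ1 : ∀ i c, s c ∉ ρ i) (hρ2 : ∀ i, Irr S.R (ρ i ++ [s true]))
    (hρ3 : ∀ i, ev S.φ (ρ i) = (η i)⁻¹ * f (μ i)) (hρ4 : Injective ρ) :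
    Nonempty (Anch S (lift y)) := by
  choose r hr1 hr2 using fun i => hP.word _ (D.inv_mem (hη i))
  choose w hw1 hw2 using fun i => hP.word _ (hP.memt (μ i))
  let qA : κ → List S.A × FreeGroup κ × List S.A := fun i => (π i ++ [s false], of i, r i)
  let qB : κ → List S.A × FreeGroup κ × List S.A := fun i =>
    (ρ i ++ [s true], (of i)⁻¹, π i ++ w i)
  let P : Set (List S.A × FreeGroup κ × List S.A) := {q | (∃ i, q = qA i) ∨ ∃ i, q = qB i}
  have hA : ∀ i, qA i ∈ P := fun i => Or.inl ⟨i, rfl⟩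
  have hB : ∀ i, qB i ∈ P := fun i => Or.inr ⟨i, rfl⟩
  have hfin : P.Finite := by
    refine ((Set.finite_range qA).union (Set.finite_range qB)).subset ?_
    rintro q (⟨c, rfl⟩ | ⟨c, rfl⟩)
    · exact Or.inl ⟨c, rfl⟩
    · exact Or.inr ⟨c, rfl⟩
  have hsound : ∀ q ∈ P, ev S.φ q.1 = lift y q.2.1 * ev S.φ q.2.2 := by
    rintro q (⟨i, rfl⟩ | ⟨i, rfl⟩)
    · simp [qA, hP.val, hr2, hy, mul_assoc]
    · simp [qB, hP.val, hw2, hy, hρ3, mul_assoc]
  have hft : s false ≠ s true := hP.ne_not false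
  let wt : List S.A → ℕ := fun u => u.count (s false) + (n + 1) * u.count (s true)
  have wt_append : ∀ u v, wt (u ++ v) = wt u + wt v := fun u v => by
    simp only [wt, List.count_append]; ring
  have wt_free : ∀ u, (∀ c, s c ∉ u) → wt u = 0 := fun u hu => by
    simp [wt, List.count_eq_zero.2 (hu _)]
  have wt_π : ∀ i, wt (π i) = n := fun i => by
    simp [wt, hπ3, List.count_eq_zero.2 (hπ2 i)]
  have wt_f : wt [s false] = 1 := by simp [wt, hft]
  have wt_t : wt [s true] = n + 1 := by simp [wt, hft.symm]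
  have hwf : WellFounded fun v u => AStep S.R P u v := by
    refine wf_lex2 wt wellFounded_lt S.wf ?_
    rintro v u (⟨x, z, p, hp, rfl, rfl⟩ | ⟨q, hq, z, rfl, rfl⟩)
    · have hle : wt p.2 ≤ wt p.1 := by
        rcases hP.shape p hp with h1 | ⟨c, x', w', rfl, h1, -⟩ | ⟨c, rfl⟩
        · rw [wt_free _ fun c => (h1 c).2]; omega
        · change wt ([s c] ++ w') ≤ wt ([x'] ++ [s c])
          rw [wt_append, wt_append, wt_free w' fun c => (h1 c).2]; omega
        · simp [wt]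
      rcases hle.lt_or_eq with h | h
      · left; simp only [wt_append]; omega
      · right
        exact ⟨by simp only [wt_append]; omega, ⟨x, z, p, hp, rfl, rfl⟩⟩
    · left
      rcases hq with ⟨i, rfl⟩ | ⟨i, rfl⟩
      · simp only [qA, wt_append, wt_π, wt_f, wt_free _ (hr1 i)]; omega
      · simp only [qB, wt_append, wt_π, wt_t, wt_free _ (hw1 i), wt_free _ (hρ1 i)]; omega
  refine ⟨⟨P, hfin, ?_, hsound, hwf, uniq_of_lc hsound hwf ?_ ?_ ?_⟩⟩
  · rintro q (⟨c, rfl⟩ | ⟨c, rfl⟩) <;> simp [qA, qB]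
  · intro L hL k
    have : Subgroup.closure (Set.range (of : κ → FreeGroup κ)) ≤ L := by
      rw [Subgroup.closure_le]
      rintro _ ⟨i, rfl⟩
      exact hL _ (hA i)
    exact this (by rw [FreeGroup.closure_range_of]; trivial)
  · rintro q (⟨i, rfl⟩ | ⟨i, rfl⟩) p hp x z₁ z₂ h hx -
    · obtain ⟨rfl, h1, rfl⟩ := hP.overlap (hπ1 i) hp h hx
      obtain ⟨b, hb1, hb2, hb3⟩ := hP.nf (hP.memt (μ i)⁻¹)
      have h2 : Steps S.R (r i ++ [s true]) (ρ i ++ s true :: b) :=
        S.steps_of_ev (hP.glue (hρ2 i) hb2 (hb1 _)) (by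
          simp [hr2, hρ3, hb3, hP.val, mul_assoc])
      have h3 := cf_tsteps (P := P) (of i) (Steps.right h2 z₂)
      have h4 := cf_tstep_anch (R := S.R) (hB i) (of i) (b ++ z₂)
      simp only [qA, h1, List.append_assoc, List.cons_append, List.nil_append, mul_inv_cancel,
        Bool.not_false] at h3 h4 ⊢
      refine cf_tjn_head (h3.trans h4) (TJn.of_ev _ ?_)
      simp [hw2, hb3, mul_assoc]
    · obtain ⟨rfl, h1, rfl⟩ := hP.overlap (hρ2 i) hp h hx
      obtain ⟨b, hb1, hb2, hb3⟩ := hP.nf (hP.memf (μ i))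
      have h2 : Steps S.R (π i ++ w i ++ [s false]) (π i ++ s false :: b) :=
        S.steps_of_ev (hP.glue (hπ1 i) hb2 (hb1 _)) (by
          simp [hw2, hb3, hP.val, mul_assoc])
      have h3 := cf_tsteps (P := P) (of i)⁻¹ (Steps.right h2 z₂)
      have h4 := cf_tstep_anch (R := S.R) (hA i) (of i)⁻¹ (b ++ z₂)
      simp only [qB, h1, List.append_assoc, List.cons_append, List.nil_append, inv_mul_cancel,
        Bool.not_true] at h3 h4 ⊢
      refine cf_tjn_head (h3.trans h4) (TJn.of_ev _ ?_)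
      simp [hr2, hb3, hρ3, mul_assoc]
  · rintro q (⟨i, rfl⟩ | ⟨i, rfl⟩) q' (⟨j, rfl⟩ | ⟨j, rfl⟩) z h
    · obtain rfl := hπ4 i j z h
      have : z = [] := by simpa [qA] using h
      subst this
      simpa using cf_tjn_refl _
    · have h1 : s true ∈ π i ++ [s false] := by
        have : π i ++ [s false] = ρ j ++ [s true] ++ z := h
        rw [this]; simp
      simp [hπ2 i, hft.symm] at h1
    · have h1 : s false ∈ ρ i ++ [s true] := by
        have : ρ i ++ [s true] = π j ++ [s false] ++ z := h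
        rw [this]; simp
      simp [hρ1 i, hft] at h1
    · have h1 : ρ i ++ s true :: [] = ρ j ++ s true :: z := by simpa [qB] using h
      obtain ⟨h2, rfl⟩ := hyp_first_unique (hρ1 i true) (hρ1 j true) h1
      obtain rfl := hρ4 h2
      simpa using cf_tjn_refl _

end HypPush

theorem hyp_mid_map {H G M G' : Type} [Group H] [Group G] [Group M] [Group G'] {f : H →* G}
    {t : G} {i : H →* M} {i' : G →* G'} {f' : M →* G'} (h : ∀ x, f' (i x) = i' (f x)) {n : ℕ}
    {m : G} (hm : Mid f t n m) : Mid f' (i' t) n (i' m) := by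
  induction hm with
  | zero => rw [_root_.map_one]; exact .zero
  | succ x _ ih =>
    rw [_root_.map_mul, _root_.map_mul, ← h]
    exact .succ _ ih

theorem hyp_not_mem {F M G : Type} [Group F] [Group M] [Group G] {kA kB : F →* M}
    (hA : Injective kA) (hB : Injective kB) {f : M →* G} {t : G} (hG : IsHNN kA kB f t)
    (c : Bool) {x : M} (hx : x ∉ (cond c kA kB).range) (μ : M) :
    sgn t c * f x * (sgn t c)⁻¹ ≠ f μ := by
  intro h
  have := IsHNN.britton (kk := fun b => cond b kB kA) (by rintro (_ | _) <;> assumption)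
    (f := f) (t := t) hG (h := 1) (h' := μ) (L := [(c, x), (!c, 1)]) (L' := [])
    (by
      simp only [HRed, List.isChain_cons_cons, List.IsChain.singleton, and_true]
      intro h'
      exact absurd (by cases c <;> exact h') hx)
    (by simp [HRed]) (by simp [hprod, sgn_not, ← h, mul_assoc])
  simp at this

theorem hyp {H G ι : Type} [Group H] [Group G] [Finite ι] {a b : ι → H} (ha : SGood a)
    (hb : SGood b) {f : H →* G} {t : G} (hG : IsHNN (lift a) (lift b) f t)
    (ha' : ¬ Surjective (lift a)) (hb' : ¬ Surjective (lift b)) {n : ℕ} {m : G}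
    (hm : Mid f t (n + 1) m) : ∃ e : G, SGood (Sum.elim (fun _ : Unit => m) fun _ : Unit => e) := by
  classical
  obtain ⟨M, _, κ, _, i, e, hM, ga, gb⟩ := ha.common hb
  obtain ⟨G', _, i', f', hG1, hG2, hf⟩ := hG.freeExt hM
  have hla : i.comp (lift a) = lift fun j => i (a j) := by ext j; simp
  have hlb : i.comp (lift b) = lift fun j => i (b j) := by ext j; simp
  have hG3 : IsHNN (lift fun j => i (a j)) (lift fun j => i (b j)) f' (i' t) := hla ▸ hlb ▸ hG2
  obtain ⟨S, s, D, h1, h2, h3, h4, -, h5, h6, -⟩ := double_push ga gb hG3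
  have hP : HypPush f' (i' t) S s D := ⟨h1, h2, h3, h4, h5, h6⟩
  cases hm with
  | succ h₀ hm =>
  rename_i m'
  have hm' := hyp_mid_map hf hm
  set t' := i' t with ht'
  -- elements outside the two edge groups
  have hout : ∀ (y : ι → H), ¬ Surjective (lift y) →
      ∃ x, i x ∉ (lift fun j => i (y j)).range := by
    intro y hy
    by_contra hc
    push Not at hc
    refine hy fun x => ?_
    obtain ⟨k, hk⟩ := hc x
    have hl : i.comp (lift y) = lift fun j => i (y j) := by ext j; simp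
    exact ⟨k, hM.injective (by rw [← hk, ← hl]; rfl)⟩
  obtain ⟨xa, hxa⟩ := hout a ha'
  obtain ⟨xb, hxb⟩ := hout b hb'
  have hu : ∀ μ, t' * f' (i xb) * t'⁻¹ ≠ f' μ :=
    hyp_not_mem ga.injective gb.injective hG3 false hxb
  have hv : ∀ μ, t'⁻¹ * f' (i xa) * t'⁻¹⁻¹ ≠ f' μ :=
    hyp_not_mem ga.injective gb.injective hG3 true hxa
  have hg : ∃ g : G, i' g ∈ D ∧ (∀ μ, i' g ≠ f' μ) ∧
      ∀ μ, i' g * f' (i h₀) ≠ f' (i h₀) * (t' * f' μ * t'⁻¹) := by
    by_cases hc : ∃ μ, t' * f' (i xb) * t'⁻¹ * f' (i h₀) = f' (i h₀) * (t' * f' μ * t'⁻¹)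
    · obtain ⟨μ₀, hc⟩ := hc
      have hval : i' (f (h₀ * xa * h₀⁻¹) * (t * f xb * t⁻¹)) =
          f' (i (h₀ * xa * h₀⁻¹)) * (t' * f' (i xb) * t'⁻¹) := by
        simp only [hf, ht', _root_.map_mul, _root_.map_inv]
      refine ⟨f (h₀ * xa * h₀⁻¹) * (t * f xb * t⁻¹), ?_, fun μ hμ => ?_, fun μ hμ => ?_⟩
      · rw [hval]; exact D.mul_mem (h3 _) (h4 _)
      · rw [hval] at hμ
        exact hu ((i (h₀ * xa * h₀⁻¹))⁻¹ * μ) (by
          rw [_root_.map_mul, ← hμ, _root_.map_inv, inv_mul_cancel_left])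
      · rw [hval, mul_assoc, hc] at hμ
        refine hv (μ * μ₀⁻¹) ?_
        simp only [_root_.map_mul, _root_.map_inv] at hμ ⊢
        have h7 : f' (i xa) = t' * f' μ * (f' μ₀)⁻¹ * t'⁻¹ := by
          calc f' (i xa) = (f' (i h₀))⁻¹ * (f' (i h₀) * f' (i xa) * (f' (i h₀))⁻¹ *
                (f' (i h₀) * (t' * f' μ₀ * t'⁻¹))) * (t' * f' μ₀ * t'⁻¹)⁻¹ := by group
            _ = _ := by rw [hμ]; group
        rw [h7]; group
    · push Not at hc
      have hval : i' (t * f xb * t⁻¹) = t' * f' (i xb) * t'⁻¹ := by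
        simp only [hf, ht', _root_.map_mul, _root_.map_inv]
      exact ⟨t * f xb * t⁻¹, by rw [hval]; exact h4 _, by rw [hval]; exact hu,
        by rw [hval]; exact hc⟩
  obtain ⟨g, hgD, hg1, hg2⟩ := hg
  refine ⟨g * (f h₀ * t * m') * g⁻¹, SGood.of_freeExt hG1 ?_⟩
  let c : Unit ⊕ Unit → G' := Sum.elim (fun _ => 1) fun _ => i' g
  have hc : ∀ j, c j ∈ D := by
    rintro (_ | _)
    · exact D.one_mem
    · exact hgD
  choose π σ rest k1 k2 k3 k4 k5 k6 ν k7 using fun j =>
    hP.exists_nf_mid n (c j * f' (i h₀)) (D.mul_mem (hc j) (h3 _)) _ hm'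
  have hη : ∀ j, f' (ν j) * (c j)⁻¹ ∈ D := fun j => D.mul_mem (h3 _) (D.inv_mem (hc j))
  choose ρ l1 l2 μ l3 using fun j => hP.first true (D.inv_mem (hη j))
  have hσ : Injective σ := by
    obtain ⟨μ₁, e₁⟩ := k6 (.inl ())
    obtain ⟨μ₂, e₂⟩ := k6 (.inr ())
    have : σ (.inl ()) ≠ σ (.inr ()) := fun h => hg2 (μ₁ * μ₂⁻¹) (by
      rw [h, e₂] at e₁
      simp only [c, Sum.elim_inl, Sum.elim_inr, one_mul] at e₁
      rw [_root_.map_mul, _root_.map_inv]
      calc _ = (i' g * f' (i h₀) * (t' * f' μ₂ * t'⁻¹)) * (t' * f' μ₂ * t'⁻¹)⁻¹ := by group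
        _ = _ := by rw [e₁]; group)
    rintro (_ | _) (_ | _) h
    · rfl
    · exact absurd h this
    · exact absurd h.symm this
    · rfl
  have hρ : Injective ρ := by
    have : ρ (.inl ()) ≠ ρ (.inr ()) := fun h =>
      hg1 ((ν (.inl ()))⁻¹ * μ (.inl ()) * (μ (.inr ()))⁻¹ * ν (.inr ())) (by
      have e₁ := l3 (.inl ())
      rw [h, l3] at e₁
      simp only [c, Sum.elim_inl, Sum.elim_inr, HypPush.tf, if_true] at e₁
      simp only [_root_.map_mul, _root_.map_inv]
      calc _ = ((f' (ν (.inr ())) * (i' g)⁻¹)⁻¹ * f' (μ (.inr ()))) * (f' (μ (.inr ())))⁻¹ *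
            f' (ν (.inr ())) := by group
        _ = _ := by rw [e₁]; group)
    rintro (_ | _) (_ | _) h
    · rfl
    · exact absurd h this
    · exact absurd h.symm this
    · rfl
  obtain ⟨N⟩ := hP.anch (n := n)
    (fun j => i' (Sum.elim (fun _ : Unit => f h₀ * t * m')
      (fun _ : Unit => g * (f h₀ * t * m') * g⁻¹) j))
    (fun j => f' (ν j) * (c j)⁻¹) π ρ μ hη (by
      intro j
      have := k7 j
      rw [← mul_assoc _ (f' (ν j)), ← this, hf]
      rcases j with _ | _ <;> simp [c, ht', mul_assoc]) k3 k4 k5 (by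
      intro j j' z h
      rw [k1, k1] at h
      exact hσ (hyp_first_unique (k2 j) (k2 j') (by simpa using h)).1) l1 l2 l3 hρ
  obtain ⟨M', _, i'', f'', hM', hgood⟩ := marker N (V := of)
    (Good.of_bijective (by
      have : (lift (of : Unit ⊕ Unit → FreeGroup (Unit ⊕ Unit))) = MonoidHom.id _ := by
        ext j; simp
      rw [this]; exact bijective_id))
  exact ⟨M', _, Unit, inferInstance, i'', f'', hM', by simpa using hgood⟩

end Pool.Agent.MP_b9845b_al.H94
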