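import Pool.Agent.MP_b9845b_al.H94.OR

namespace Pool.Agent.MP_b9845b_al.H94

open Relation Function
open FreeGroup hiding map_mul map_inv map_one map_pure

section Levels
variable {Z G H : Type} [Group G] [Group H]

theorem lev_mk_cons {X : Type} (c : X × Bool) (w : List (X × Bool)) :
    mk (c :: w) = (if c.2 then of c.1 else (of c.1)⁻¹) * mk w := by
  obtain ⟨x, b⟩ := c
  cases b
  · show mk ((x, false) :: w) = (mk [(x, true)])⁻¹ * mk w
    rw [inv_mk, mul_mk]; rfl
  · show mk ((x, true) :: w) = mk [(x, true)] * mk w
    rw [mul_mk]; rfl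

theorem lev_mk_true {X : Type} (x : X) (w : List (X × Bool)) :
    mk ((x, true) :: w) = of x * mk w := lev_mk_cons _ _

theorem lev_mk_false {X : Type} (x : X) (w : List (X × Bool)) :
    mk ((x, false) :: w) = (of x)⁻¹ * mk w := lev_mk_cons _ _

theorem lev_mk_nil {X : Type} : mk ([] : List (X × Bool)) = 1 := rfl

theorem lev_expo_one {X : Type} (x : X) : expo x 1 = 0 := by simp [expo]

theorem lev_expo_mul {X : Type} (x : X) (r r' : FreeGroup X) :
    expo x (r * r') = expo x r + expo x r' := by simp [expo]

theorem lev_expo_inv {X : Type} (x : X) (r : FreeGroup X) : expo x r⁻¹ = -expo x r := by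
  simp [expo]

theorem lev_expo_of_self {X : Type} (x : X) : expo x (of x) = 1 := by simp [expo]

theorem lev_expo_of_ne {X : Type} {x y : X} (h : y ≠ x) : expo x (of y) = 0 := by simp [expo, h]

theorem lev_expo_conj {X : Type} (x : X) {r r' : FreeGroup X} (h : IsConj r r') :
    expo x r = expo x r' := by
  obtain ⟨c, rfl⟩ := isConj_iff.1 h
  rw [lev_expo_mul, lev_expo_mul, lev_expo_inv]; ring

theorem lev_lift_conj {X K : Type} [Group K] (a : X → K) {r r' : FreeGroup X} (h : IsConj r r') :
    lift a r = 1 ↔ lift a r' = 1 := by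
  obtain ⟨c, rfl⟩ := isConj_iff.1 h
  simp only [map_mul, map_inv]
  constructor
  · intro h; rw [h]; simp
  · intro h
    have : lift a r = (lift a c)⁻¹ * (lift a c * lift a r * (lift a c)⁻¹) * lift a c := by group
    rw [this, h]; simp

theorem lev_lift_projAll {K : Type} [Group K] (a : Option Z → K) (p : Z × ℤ) :
    lift a (projAll Z (of p)) = a none ^ (-p.2) * a (some p.1) * a none ^ p.2 := by
  simp [projAll]

theorem levels_hnn {r : FreeGroup (Option Z)} {g : Option Z → G} (hG : IsOR r g) {lo hi : Z → ℤ}
    (hlo : ∀ z, lo z ≤ hi z) {ρ : FreeGroup (Lev lo hi)}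
    (hρ : IsConj (projAll Z (FreeGroup.map Subtype.val ρ)) r) {h : Lev lo hi → H}
    (hH : IsOR ρ h) :
    ∃ f : H →* G, (∀ z, f (h z) = g none ^ (-z.1.2) * g (some z.1.1) * g none ^ z.1.2) ∧
      IsHNN (lift fun p : LevE lo hi => h p.dn) (lift fun p : LevE lo hi => h p.up) f (g none) := by
  have key : ∀ (K : Type) [Group K] (a : Option Z → K),
      lift (fun z : Lev lo hi => a none ^ (-z.1.2) * a (some z.1.1) * a none ^ z.1.2) ρ =
        lift a (projAll Z (FreeGroup.map Subtype.val ρ)) := by
    intro K _ a
    have : lift (fun z : Lev lo hi => a none ^ (-z.1.2) * a (some z.1.1) * a none ^ z.1.2) =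
        (lift a).comp ((projAll Z).comp (FreeGroup.map Subtype.val)) := by
      ext z
      rw [lift_apply_of]
      exact (lev_lift_projAll a z.1).symm
    rw [this]; rfl
  obtain ⟨f, hf⟩ := hH.univ G
    (fun z : Lev lo hi => g none ^ (-z.1.2) * g (some z.1.1) * g none ^ z.1.2)
    (by rw [key, lev_lift_conj g hρ]; exact hG.rel)
  refine ⟨f, hf, ?_, ?_, ?_⟩
  · intro k
    have : (MulAut.conj (g none)⁻¹).toMonoidHom.comp
        (f.comp (lift fun p : LevE lo hi => h p.dn)) =
        f.comp (lift fun p : LevE lo hi => h p.up) := by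
      ext p
      simp only [MonoidHom.comp_apply, lift_apply_of, hf, MulEquiv.coe_toMonoidHom,
        MulAut.conj_apply]
      simp only [LevE.dn, LevE.up]
      group
    simpa using DFunLike.congr_fun this k
  · intro L hL ht
    refine hG.gen L ?_
    rintro (_ | z)
    · exact ht
    · have h1 : g none ^ (-lo z) * g (some z) * g none ^ lo z ∈ L :=
        hf ⟨(z, lo z), le_rfl, hlo z⟩ ▸ hL _
      have h2 : g (some z) = g none ^ lo z * (g none ^ (-lo z) * g (some z) * g none ^ lo z) *
          g none ^ (-lo z) := by group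
      rw [h2]
      exact mul_mem (mul_mem (zpow_mem ht _) h1) (zpow_mem ht _)
  · intro K _ g' s hs
    let a : Option Z → K := fun c => c.elim s fun z =>
      s ^ lo z * g' (h ⟨(z, lo z), le_rfl, hlo z⟩) * s ^ (-lo z)
    have h1 : ∀ z (i : ℤ) (hi1 : lo z ≤ i) (hi2 : i ≤ hi z),
        s ^ (-i) * a (some z) * s ^ i = g' (h ⟨(z, i), hi1, hi2⟩) := by
      intro z i hi1
      induction i, hi1 using Int.leInduction with
      | base => intro _; simp only [a, Option.elim]; group
      | succ i hi1 ih =>
        intro hi2
        let p : LevE lo hi := ⟨(z, i), hi1, by dsimp only; omega⟩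
        have h2 := hs (of p)
        rw [lift_apply_of, lift_apply_of] at h2
        have h3 : s ^ (-i) * a (some z) * s ^ i = g' (h p.dn) := ih (by omega)
        show _ = g' (h p.up)
        rw [← h2, ← h3]
        group
    have h2 : (fun z : Lev lo hi => a none ^ (-z.1.2) * a (some z.1.1) * a none ^ z.1.2) =
        fun z => g' (h z) := by
      funext z
      exact h1 z.1.1 z.1.2 z.2.1 z.2.2
    have h3 : lift a r = 1 := by
      rw [← lev_lift_conj a hρ, ← key, h2]
      have : lift (fun z => g' (h z)) = g'.comp (lift h) := by ext z; simp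
      rw [this, MonoidHom.comp_apply, hH.rel, map_one]
    obtain ⟨ψ, hψ⟩ := hG.univ K a h3
    refine ⟨ψ, fun y => ?_, hψ none⟩
    have : ψ.comp f = g' := by
      refine hH.hom_ext fun z => ?_
      simp only [MonoidHom.comp_apply, hf, map_mul, map_zpow, hψ]
      exact congrFun h2 z
    exact DFunLike.congr_fun this y

/-- Reading a word with a running level. -/
def levRead : ℤ → List (Option Z × Bool) → List ((Z × ℤ) × Bool)
  | _, [] => []
  | l, (none, true) :: w => levRead (l - 1) w
  | l, (none, false) :: w => levRead (l + 1) w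
  | l, (some z, b) :: w => ((z, l), b) :: levRead l w

theorem levRead_spec (l : ℤ) (w : List (Option Z × Bool)) :
    projAll Z (mk (levRead l w)) =
      of none ^ (-l) * mk w * of none ^ (l - expo none (mk w)) := by
  induction w generalizing l with
  | nil => simp [levRead, lev_mk_nil, lev_expo_one]
  | cons c w ih =>
    obtain ⟨_ | z, _ | _⟩ := c
    · rw [levRead, ih, lev_mk_false, lev_expo_mul, lev_expo_inv, lev_expo_of_self]; group
    · rw [levRead, ih, lev_mk_true, lev_expo_mul, lev_expo_of_self]; group
    · rw [levRead, lev_mk_false, map_mul, map_inv, ih, lev_mk_false, lev_expo_mul, lev_expo_inv,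
        lev_expo_of_ne (by simp)]
      simp only [projAll, lift_apply_of]; group
    · rw [levRead, lev_mk_true, map_mul, ih, lev_mk_true, lev_expo_mul, lev_expo_of_ne (by simp)]
      simp only [projAll, lift_apply_of]; group

theorem levRead_length (l : ℤ) (w : List (Option Z × Bool)) :
    (levRead l w).length ≤ w.length ∧ ((∃ b, (none, b) ∈ w) → (levRead l w).length < w.length) := by
  induction w generalizing l with
  | nil => simp [levRead]
  | cons c w ih =>
    obtain ⟨_ | z, b⟩ := c
    · cases b
      · have := (ih (l + 1)).1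
        simp only [levRead, List.length_cons]
        exact ⟨by omega, fun _ => by omega⟩
      · have := (ih (l - 1)).1
        simp only [levRead, List.length_cons]
        exact ⟨by omega, fun _ => by omega⟩
    · have := ih l
      simp only [levRead, List.length_cons]
      refine ⟨by omega, ?_⟩
      rintro ⟨b', hb'⟩
      have h1 := this.2 ⟨b', by simpa using hb'⟩
      omega

/-- Rewriting a relator of exponent sum zero in `none` on levels. -/
theorem exists_levels_word (w : List (Option Z × Bool)) (hw : expo none (mk w) = 0) :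
    ∃ ρ : List ((Z × ℤ) × Bool), IsCyclicallyReduced ρ ∧ IsConj (projAll Z (mk ρ)) (mk w) ∧
      ρ.length ≤ w.length ∧ ((∃ b, (none, b) ∈ w) → ρ.length < w.length) := by
  obtain ⟨ρ, h1, h2, h3, -⟩ := exists_cyc (levRead 0 w)
  have h4 := levRead_spec 0 w
  rw [hw] at h4
  simp only [neg_zero, zpow_zero, one_mul, sub_self, mul_one] at h4
  refine ⟨ρ, h1, h4 ▸ (projAll Z).map_isConj h2, h3.trans (levRead_length 0 w).1, fun h => ?_⟩
  exact h3.trans_lt ((levRead_length 0 w).2 h)

theorem liftW_map_fst {X : Type} (θ : X → ℤ) (l : ℤ) (w : List (X × Bool)) :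
    (liftW θ l w).map (fun c => (c.1.1, c.2)) = w := by
  induction w generalizing l with
  | nil => simp [liftW]
  | cons c w ih => obtain ⟨x, _ | _⟩ := c <;> simp [liftW, ih]

theorem lev_degW_true {X : Type} (θ : X → ℤ) (x : X) (w : List (X × Bool)) :
    degW θ ((x, true) :: w) = θ x + degW θ w := by simp [degW]

theorem lev_degW_false {X : Type} (θ : X → ℤ) (x : X) (w : List (X × Bool)) :
    degW θ ((x, false) :: w) = -θ x + degW θ w := by simp [degW]

theorem liftW_path {X : Type} (θ : X → ℤ) (l : ℤ) (w : List (X × Bool)) :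
    Path (ssrc (fun p : X × ℤ => p.2) fun p => p.2 + θ p.1)
      (stgt (fun p : X × ℤ => p.2) fun p => p.2 + θ p.1) l (liftW θ l w) (l + degW θ w) := by
  induction w generalizing l with
  | nil => simpa [liftW, degW] using Path.nil l
  | cons c w ih =>
    obtain ⟨x, _ | _⟩ := c
    · rw [liftW, lev_degW_false]
      refine Path.cons (by simp [ssrc]) ?_
      have := ih (l - θ x)
      rw [show l - θ x + degW θ w = l + (-θ x + degW θ w) by ring] at this
      simpa [stgt] using this
    · rw [liftW, lev_degW_true]
      refine Path.cons (by simp [ssrc]) ?_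
      have := ih (l + θ x)
      rw [add_assoc] at this
      simpa [stgt] using this

theorem lev_twist_id {X K : Type} [Group K] (θ : X → ℤ) (s : K) (a : X → K) (l : ℤ)
    (w : List (X × Bool)) :
    lift (fun c : Option X => c.elim s fun x => a x * s ^ θ x) (projAll X (mk (liftW θ l w))) =
      s ^ (-l) * lift a (mk w) * s ^ (l + degW θ w) := by
  induction w generalizing l with
  | nil => simp [liftW, degW, lev_mk_nil]
  | cons c w ih =>
    obtain ⟨x, _ | _⟩ := c
    · rw [liftW, lev_mk_false, map_mul, map_mul, ih, map_inv, map_inv, lev_lift_projAll,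
        lev_degW_false, lev_mk_false, map_mul, map_inv, lift_apply_of]
      simp only [Option.elim]; group
    · rw [liftW, lev_mk_true, map_mul, map_mul, ih, lev_lift_projAll,
        lev_degW_true, lev_mk_true, map_mul, lift_apply_of]
      simp only [Option.elim]; group

/-- Adjoining a free letter `s` and twisting the generators by `θ`. -/
theorem IsOR.twist {X M : Type} [Group M] {w : List (X × Bool)} {g : X → G} 
    (h : IsOR (FreeGroup.mk w) g) (θ : X → ℤ) (hθ : degW θ w = 0) {i : G →* M} {s : Unit → M} (hM : IsFreeExt i s) :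
    IsOR (projAll X (FreeGroup.mk (liftW θ 0 w)))
      fun c : Option X => c.elim (s ()) fun x => i (g x) * s () ^ θ x := by
  refine ⟨?_, ?_, ?_⟩
  · rw [lev_twist_id θ (s ()) (fun x => i (g x)), hθ]
    have : lift (fun x => i (g x)) = i.comp (lift g) := by ext x; simp
    rw [this, MonoidHom.comp_apply, h.rel]; simp
  · intro L hL
    have hs : s () ∈ L := hL none
    refine hM.gen L (h.gen (L.comap i) fun x => ?_) fun _ => hs
    have h1 : i (g x) * s () ^ θ x ∈ L := hL (some x)
    exact (L.mul_mem_cancel_right (zpow_mem hs _)).1 h1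
  · intro K _ b hb
    have h1 : b = fun c : Option X => c.elim (b none)
        fun x => (b (some x) * b none ^ (-θ x)) * b none ^ θ x := by
      funext c
      cases c with
      | none => rfl
      | some x => simp only [Option.elim]; group
    rw [h1, lev_twist_id θ (b none) (fun x => b (some x) * b none ^ (-θ x)), hθ] at hb
    obtain ⟨ψ₀, hψ₀⟩ := h.univ K (fun x => b (some x) * b none ^ (-θ x)) (by simpa using hb)
    obtain ⟨ψ, hψ1, hψ2⟩ := hM.univ K ψ₀ fun _ => b none
    refine ⟨ψ, ?_⟩
    rintro (_ | x)
    · exact hψ2 ()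
    · simp only [Option.elim, map_mul, map_zpow, hψ1, hψ2, hψ₀]; group

open Classical in
theorem lev_degW_two {X : Type} (w : List (X × Bool)) {a x : X} (hax : a ≠ x) (A B : ℤ) :
    degW (fun y => if y = a then A else if y = x then B else 0) w =
      A * expo a (mk w) + B * expo x (mk w) := by
  induction w with
  | nil => simp [degW, lev_mk_nil, lev_expo_one]
  | cons c w ih =>
    have h1 : ∀ y, (if y = a then A else if y = x then B else 0) =
        A * expo a (of y) + B * expo x (of y) := by
      intro y
      by_cases h2 : y = a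
      · subst h2; simp [lev_expo_of_self, lev_expo_of_ne hax]
      · by_cases h3 : y = x
        · subst h3; simp [lev_expo_of_self, lev_expo_of_ne h2, h2]
        · simp [lev_expo_of_ne h2, lev_expo_of_ne h3, h2, h3]
    obtain ⟨y, _ | _⟩ := c
    · rw [lev_degW_false, ih, lev_mk_false, lev_expo_mul, lev_expo_mul, lev_expo_inv, lev_expo_inv,
        h1]; ring
    · rw [lev_degW_true, ih, lev_mk_true, lev_expo_mul, lev_expo_mul, h1]; ring

open Classical in
theorem degW_two {X : Type} (w : List (X × Bool)) {a x : X} (hax : a ≠ x) :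
    degW (fun y => if y = a then expo x (mk w) else if y = x then -expo a (mk w) else 0) w = 0 := by
  rw [lev_degW_two w hax]; ring

theorem lev_telescope {Y V : Type} (src tgt : Y → V) (pot : V → FreeGroup Y) {u v : V}
    {ρ : List (Y × Bool)} (hρ : Path (ssrc src tgt) (stgt src tgt) u ρ v) :
    lift (fun z => pot (src z) * of z * (pot (tgt z))⁻¹) (mk ρ) = pot u * mk ρ * (pot v)⁻¹ := by
  induction hρ with
  | nil v => simp [lev_mk_nil]
  | @cons c w u v h1 _ ih =>
    subst h1
    obtain ⟨z, _ | _⟩ := c
    · rw [lev_mk_false, map_mul, map_inv, ih, lift_apply_of]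
      simp only [ssrc, stgt, Bool.false_eq_true, if_false]; group
    · rw [lev_mk_true, map_mul, ih, lift_apply_of]
      simp only [ssrc, stgt, if_true]; group

open Classical in
theorem lev_filter {Y K : Type} [Group K] (z₀ : Y) (a b : Y → K) (ha : a z₀ = 1)
    (hab : ∀ z, z ≠ z₀ → b z = a z) (ρ : List (Y × Bool)) :
    lift b (mk (ρ.filter fun c => c.1 ≠ z₀)) = lift a (mk ρ) := by
  induction ρ with
  | nil => simp [lev_mk_nil]
  | cons c w ih =>
    by_cases hc : c.1 = z₀
    · rw [List.filter_cons_of_neg (by simpa using hc), ih, lev_mk_cons, map_mul]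
      split_ifs <;> simp [hc, ha]
    · rw [List.filter_cons_of_pos (by simpa using hc), lev_mk_cons, map_mul, ih, lev_mk_cons,
        map_mul]
      split_ifs <;> simp [hab _ hc]

open Classical in
/-- Deleting an edge that is not a loop from a closed path, by an automorphism. -/
theorem gauge {Y V : Type} (src tgt : Y → V) (z₀ : Y) (hz : src z₀ ≠ tgt z₀) {v : V}
    {ρ : List (Y × Bool)} (hρ : Path (ssrc src tgt) (stgt src tgt) v ρ v) :
    ∃ ω : FreeGroup Y ≃* FreeGroup Y,
      (∀ z, ω (of z) ∈ Subgroup.closure {of z, of z₀}) ∧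
      (∀ z, ω.symm (of z) ∈ Subgroup.closure {of z, of z₀}) ∧
      IsConj (ω (mk (ρ.filter fun c => c.1 ≠ z₀))) (mk ρ) := by
  let pot : V → FreeGroup Y := fun u => if u = tgt z₀ then of z₀ else 1
  let b : Y → FreeGroup Y := fun z =>
    if z = z₀ then of z₀ else pot (src z) * of z * (pot (tgt z))⁻¹
  let b' : Y → FreeGroup Y := fun z =>
    if z = z₀ then of z₀ else (pot (src z))⁻¹ * of z * pot (tgt z)
  have hb : ∀ u, lift b (pot u) = pot u := by
    intro u; simp only [pot]; split_ifs <;> simp [b]
  have hb' : ∀ u, lift b' (pot u) = pot u := by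
    intro u; simp only [pot]; split_ifs <;> simp [b']
  have hpot : ∀ u z, pot u ∈ Subgroup.closure {of z, of z₀} := by
    intro u z; simp only [pot]; split_ifs
    · exact Subgroup.subset_closure (by simp)
    · exact one_mem _
  have hof : ∀ z : Y, of z ∈ Subgroup.closure {of z, of z₀} := fun z =>
    Subgroup.subset_closure (by simp)
  have hof' : ∀ z : Y, of z₀ ∈ Subgroup.closure {of z, of z₀} := fun z =>
    Subgroup.subset_closure (by simp)
  let ω : FreeGroup Y ≃* FreeGroup Y := MonoidHom.toMulEquiv (lift b) (lift b')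
    (by
      ext z
      simp only [MonoidHom.comp_apply, lift_apply_of, MonoidHom.id_apply]
      by_cases h : z = z₀
      · simp [b, b', h]
      · rw [show b z = pot (src z) * of z * (pot (tgt z))⁻¹ from if_neg h, map_mul, map_mul,
          map_inv, hb', hb', lift_apply_of,
          show b' z = (pot (src z))⁻¹ * of z * pot (tgt z) from if_neg h]
        group)
    (by
      ext z
      simp only [MonoidHom.comp_apply, lift_apply_of, MonoidHom.id_apply]
      by_cases h : z = z₀
      · simp [b, b', h]
      · rw [show b' z = (pot (src z))⁻¹ * of z * pot (tgt z) from if_neg h, map_mul, map_mul,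
          map_inv, hb, hb, lift_apply_of,
          show b z = pot (src z) * of z * (pot (tgt z))⁻¹ from if_neg h]
        group)
  refine ⟨ω, fun z => ?_, fun z => ?_, ?_⟩
  · show lift b (of z) ∈ _
    rw [lift_apply_of]
    simp only [b]; split_ifs
    · exact hof' z
    · exact mul_mem (mul_mem (hpot _ _) (hof z)) (inv_mem (hpot _ _))
  · show lift b' (of z) ∈ _
    rw [lift_apply_of]
    simp only [b']; split_ifs
    · exact hof' z
    · exact mul_mem (mul_mem (inv_mem (hpot _ _)) (hof z)) (hpot _ _)
  · show IsConj (lift b (mk (ρ.filter fun c => c.1 ≠ z₀))) (mk ρ)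
    rw [lev_filter z₀ (fun z => pot (src z) * of z * (pot (tgt z))⁻¹) b (by simp [pot, hz])
      (fun z h => if_neg h), lev_telescope src tgt pot hρ]
    exact (isConj_iff.2 ⟨pot v, rfl⟩).symm
end Levels

end Pool.Agent.MP_b9845b_al.H94
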