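import Pool.Agent.MP_b9845b_al.H94.LineNF

namespace Pool.Agent.MP_b9845b_al.H94

open Relation Function

/-- The first sign of a sequence, or the final side. -/
def sd {H : Type} : List (Bool × H) → Bool → Bool
  | [], v => v
  | p :: _, _ => p.1

@[simp] theorem sd_nil {H : Type} (v : Bool) : sd ([] : List (Bool × H)) v = v := rfl
@[simp] theorem sd_cons {H : Type} (p : Bool × H) (L : List (Bool × H)) (v : Bool) :
    sd (p :: L) v = p.1 := rfl

theorem bool_ne {i j : Bool} (h : ¬ i = j) : j = !i := by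
  revert h; cases i <;> cases j <;> simp

namespace LD
variable {H G F P ι : Type} [Group H] [Group G] [Group F] [Group P] [Finite ι] (D : LD H G F P ι)

/-- The change of side in the last phase. -/
def c3 (i j : Bool) : List D.L := if i = j then [] else [.i3 i]

/-- The change of side in the middle phase. -/
def c2 (i j : Bool) : List D.L := if i = j then [] else [.i2 i]

/-- The word of a normal sequence. -/
noncomputable def core (v : Bool) : List (Bool × H) → List D.L
  | [] => []
  | p :: L => .t3 p.1 :: ((D.nf (!p.1) p.2).map (.x3 (!p.1)) ++ (D.c3 (!p.1) (sd L v) ++ core v L))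

/-- Normal words in the middle phase. -/
noncomputable def V2 (j : Bool) (h : H) (L : List (Bool × H)) (v : Bool) : List D.L :=
  (D.nf j h).map (.x2 j) ++ .m j :: D.core v L

/-- Normal words in the first phase. -/
def Sh1 (i : Bool) (h : H) (L : List (Bool × H)) (v : Bool) (w : List D.L) : Prop :=
  (sd L v = i ∧ ∃ (u : List (ι × Bool)) (l : List (D.S i).A), D.nf i h = u.map (D.emb i) ++ l ∧
    (∀ c, l.head? ≠ some (D.emb i c)) ∧
    w = u.map (.x1 i) ++ .k i :: (l.map (.x2 i) ++ .m i :: D.core v L)) ∨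
  (sd L v = !i ∧ w = .k i :: .i2 i :: D.V2 (!i) h L v)

/-- The edge group of side `i` is not crossed at the start. -/
def NC (i : Bool) (h : H) (L : List (Bool × H)) : Prop :=
  ∀ p ∈ L.head?, p.1 = i → h ∉ (D.kk i).range

variable {D}

theorem no {l r w : List D.L} (hw : Irr D.R w) (h : D.Rule l r) (x y : List D.L)
    (e : w = x ++ l ++ y) : False := Irr.not_mem (R := D.R) (r := r) h x y (e ▸ hw)

@[simp] theorem c3_self (i : Bool) : D.c3 i i = [] := by simp [c3]
@[simp] theorem c3_not (i : Bool) : D.c3 i (!i) = [.i3 i] := by simp [c3]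
@[simp] theorem c3_not' (i : Bool) : D.c3 (!i) i = [.i3 (!i)] := by simp [c3]
@[simp] theorem c2_self (i : Bool) : D.c2 i i = [] := by simp [c2]
@[simp] theorem c2_not (i : Bool) : D.c2 i (!i) = [.i2 i] := by simp [c2]
@[simp] theorem ev_c3 (i j : Bool) : ev val (D.c3 i j) = 1 := by
  unfold c3; split_ifs <;> simp
@[simp] theorem ev_c2 (i j : Bool) : ev val (D.c2 i j) = 1 := by
  unfold c2; split_ifs <;> simp

theorem ev_core (v : Bool) (h : H) (L : List (Bool × H)) :
    D.f h * ev val (D.core v L) = D.hp h L := by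
  induction L generalizing h with
  | nil => simp [core, hprod_nil]
  | cons p L ih =>
    obtain ⟨ε, g⟩ := p
    simp [core, hprod_cons, ih, mul_assoc]

theorem ev_V2 (j : Bool) (h : H) (L : List (Bool × H)) (v : Bool) :
    ev val (D.V2 j h L v) = D.hp h L := by
  simp [V2, ev_core]

theorem Sh1.ev_eq {i v : Bool} {h : H} {L : List (Bool × H)} {w : List D.L}
    (hw : D.Sh1 i h L v w) : ev val w = D.hp h L := by
  rcases hw with ⟨-, u, l, h1, -, rfl⟩ | ⟨-, rfl⟩
  · have := congrArg (ev (D.S i).φ) h1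
    rw [ev_nf, ev_append] at this
    rw [← ev_core v, this]
    simp [mul_assoc]
  · simp [ev_V2]

theorem Sh1.uniq {i v : Bool} {h : H} {L : List (Bool × H)} {w w' : List D.L}
    (hw : D.Sh1 i h L v w) (hw' : D.Sh1 i h L v w') : w = w' := by
  rcases hw with ⟨a0, u, l, a1, a2, rfl⟩ | ⟨a0, rfl⟩ <;>
    rcases hw' with ⟨b0, u', l', b1, b2, rfl⟩ | ⟨b0, rfl⟩
  · obtain ⟨rfl, rfl⟩ := split_unique (D.hS i).inj a2 b2 (a1.symm.trans b1)
    rfl
  · simp [a0] at b0
  · simp [a0] at b0
  · rfl

theorem shape3 {v : Bool} (w : List D.L) (i : Bool) (hp : D.Pa (.o3 i) w (.o3 v))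
    (hw : Irr D.R w) : ∃ h L, D.NL L ∧
      w = (D.nf i h).map (.x3 i) ++ (D.c3 i (sd L v) ++ D.core v L) := by
  induction hn : w.length using Nat.strong_induction_on generalizing w i with
  | _ n ih =>
    obtain ⟨u, r, rfl, hr⟩ := exists_split (L.x3 i) w
    have hu : Irr (D.S i).R u :=
      Irr.of_map (L.x3 i) (fun p hp => Rule.s3 i hp) hw.of_append_left
    rw [pa_x3] at hp
    cases r with
    | nil =>
      obtain rfl : i = v := by simpa using path_nil_iff.1 hp
      exact ⟨ev (D.S i).φ u, [], NL.nil, by simp [nf_eq hu, core]⟩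
    | cons a r =>
      obtain ⟨h1, h2⟩ := path_cons_iff.1 hp
      have hlt : r.length < n := by simp at hn; omega
      cases a with
      | x3 j s =>
        obtain rfl : j = i := by simpa using h1
        exact absurd rfl (hr s)
      | i3 j =>
        obtain rfl : j = i := by simpa using h1
        obtain ⟨h, L, hL, rfl⟩ := ih _ hlt r (!j) h2 hw.of_append_right.tail rfl
        have h3 : D.nf (!j) h = [] := by
          cases h3 : D.nf (!j) h with
          | nil => rfl
          | cons y l => exact (no hw (.i3x j _ rfl y) (u.map (.x3 j)) _ (by simp [h3]; rfl)).elim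
        have h4 : (!j) = sd L v := by
          by_contra h4
          exact no hw (.i3i j _ rfl) (u.map (.x3 j)) _ (by simp [h3, bool_ne h4]; rfl)
        exact ⟨ev (D.S j).φ u, L, hL, by simp [nf_eq hu, h3, ← h4]⟩
      | t3 j =>
        obtain rfl : j = i := by simpa using h1
        obtain ⟨h, L, hL, rfl⟩ := ih _ hlt r (!j) h2 hw.of_append_right.tail rfl
        have h3 : D.Tr (!j) h := by
          intro c hc
          cases h3 : D.nf (!j) h with
          | nil => simp [h3] at hc
          | cons y l =>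
            obtain rfl : y = D.emb (!j) c := by simpa [h3] using hc
            exact no hw (.t3x j _ rfl c) (u.map (.x3 j)) _ (by simp [h3]; rfl)
        refine ⟨ev (D.S j).φ u, (j, h) :: L, ⟨List.isChain_cons.2 ⟨fun y hy h4 => ?_, hL.1⟩, ?_⟩,
          by simp [nf_eq hu, core]⟩
        · by_contra h5
          cases L with
          | nil => simp at hy
          | cons p L =>
            obtain rfl : p = y := by simpa using hy
            obtain ⟨δ, g⟩ := p
            obtain rfl : δ = !j := bool_ne h5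
            exact no hw (.t3t j _ rfl) (u.map (.x3 j)) _ (by simp [h3.nil h4, core]; rfl)
        · exact List.forall_mem_cons.2 ⟨h3, hL.2⟩
      | _ => simp at h1

theorem shape2a {v j : Bool} {r : List D.L} (hp : D.Pa (.o3 j) r (.o3 v))
    (hw : Irr D.R (.m j :: r)) : ∃ L, D.NL L ∧ sd L v = j ∧ r = D.core v L := by
  obtain ⟨h, L, hL, rfl⟩ := shape3 r j hp hw.tail
  have h3 : D.nf j h = [] := by
    cases h3 : D.nf j h with
    | nil => rfl
    | cons y l => exact (no hw (.mx j y) [] _ (by simp [h3]; rfl)).elim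
  have h4 : j = sd L v := by
    by_contra h4
    exact no hw (.mi j _ rfl) [] _ (by simp [h3, bool_ne h4]; rfl)
  exact ⟨L, hL, h4.symm, by simp [h3, ← h4]⟩

theorem shape2b {v i : Bool} {w : List D.L} (hp : D.Pa (.o2 i) w (.o3 v)) (hw : Irr D.R w) :
    (∃ h L, D.NL L ∧ sd L v = i ∧ w = D.V2 i h L v) ∨ ∃ r, w = .i2 i :: r := by
  obtain ⟨u, r, rfl, hr⟩ := exists_split (L.x2 i) w
  have hu : Irr (D.S i).R u :=
    Irr.of_map (L.x2 i) (fun p hp => Rule.s2 i hp) hw.of_append_left
  rw [pa_x2] at hp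
  cases r with
  | nil => simpa using path_nil_iff.1 hp
  | cons a r =>
    obtain ⟨h1, h2⟩ := path_cons_iff.1 hp
    cases a with
    | x2 j s =>
      obtain rfl : j = i := by simpa using h1
      exact absurd rfl (hr s)
    | m j =>
      obtain rfl : j = i := by simpa using h1
      obtain ⟨L, hL, h3, rfl⟩ := shape2a h2 hw.of_append_right
      exact Or.inl ⟨ev (D.S j).φ u, L, hL, h3, by rw [V2, nf_eq hu]⟩
    | i2 j =>
      obtain rfl : j = i := by simpa using h1
      rcases List.eq_nil_or_concat' u with rfl | ⟨u, y, rfl⟩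
      · exact Or.inr ⟨r, rfl⟩
      · exact (no hw (.xi2 j _ rfl y) (u.map (.x2 j)) r (by simp)).elim
    | _ => simp at h1

theorem shape2 {v i : Bool} {w : List D.L} (hp : D.Pa (.o2 i) w (.o3 v)) (hw : Irr D.R w) :
    ∃ h L, D.NL L ∧ w = D.c2 i (sd L v) ++ D.V2 (sd L v) h L v := by
  rcases shape2b hp hw with ⟨h, L, hL, rfl, rfl⟩ | ⟨r, rfl⟩
  · exact ⟨h, L, hL, by simp⟩
  · rcases shape2b (path_cons_iff.1 hp).2 hw.tail with ⟨h, L, hL, h1, rfl⟩ | ⟨r, rfl⟩
    · exact ⟨h, L, hL, by simp [h1]⟩
    · exact (no hw (.i2i i _ rfl) [] r rfl).elim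

theorem shape1 {v i : Bool} {w : List D.L} (hp : D.Pa (.o1 i) w (.o3 v)) (hw : Irr D.R w) :
    (∃ h L, D.NL L ∧ D.NC i h L ∧ D.Sh1 i h L v w) ∨ ∃ r, w = .t1 i :: r := by
  obtain ⟨u, r, rfl, hr⟩ := exists_split (L.x1 i) w
  have hu : Irr (freeR ι) u :=
    Irr.of_map (L.x1 i) (by rintro _ ⟨z, b, rfl⟩; exact Rule.f1 i z b) hw.of_append_left
  rw [pa_x1] at hp
  cases r with
  | nil => simpa using path_nil_iff.1 hp
  | cons a r =>
    obtain ⟨h1, h2⟩ := path_cons_iff.1 hp
    cases a with
    | x1 j s =>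
      obtain rfl : j = i := by simpa using h1
      exact absurd rfl (hr s)
    | t1 j =>
      obtain rfl : j = i := by simpa using h1
      rcases List.eq_nil_or_concat' u with rfl | ⟨u, y, rfl⟩
      · exact Or.inr ⟨r, rfl⟩
      · exact (no hw (.xt1 j _ rfl y) (u.map (.x1 j)) r (by simp)).elim
    | k j =>
      obtain rfl : j = i := by simpa using h1
      obtain ⟨h, L, hL, rfl⟩ := shape2 h2 hw.of_append_right.tail
      refine Or.inl ?_
      by_cases h3 : j = sd L v
      · rw [← h3] at hw ⊢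
        have h4 : D.Tr j h := by
          intro c hc
          cases h4 : D.nf j h with
          | nil => simp [h4] at hc
          | cons y l =>
            obtain rfl : y = D.emb j c := by simpa [h4] using hc
            exact no hw (.kx j c) (u.map (.x1 j)) _ (by simp [h4, V2]; rfl)
        refine ⟨ev (D.S j).φ (u.map (D.emb j) ++ D.nf j h), L, hL, fun p hp hp1 h5 => ?_,
          Or.inl ⟨h3.symm, u, D.nf j h, nf_eq ((D.hS j).irr_append hu (nf_irr _ _) h4), h4,
            by simp [V2]⟩⟩
        rw [ev_append, ev_nf, ev_emb, ← kk_mk] at h5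
        have h6 := h4.nil ((Subgroup.mul_mem_cancel_left (D.kk j).range ⟨_, rfl⟩).1 h5)
        cases L with
        | nil => simp at hp
        | cons p' L =>
          obtain rfl : p' = p := by simpa using hp
          exact no hw (.kmt j _ rfl) (u.map (.x1 j)) _ (by simp [h6, V2, core, hp1]; rfl)
      · have h4 := bool_ne h3
        rw [h4] at hw ⊢
        rcases List.eq_nil_or_concat' u with rfl | ⟨u, y, rfl⟩
        · refine ⟨h, L, hL, fun p hp hp1 => ?_, Or.inr ⟨h4, by simp⟩⟩
          cases L with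
          | nil => simp at hp
          | cons p' L =>
            obtain rfl : p' = p := by simpa using hp
            exact absurd hp1.symm h3
        · exact (no hw (.xki j _ rfl y) (u.map (.x1 j)) _ (by simp; rfl)).elim
    | _ => simp at h1

theorem shape0 {v : Bool} {w : List D.L} (hp : D.Pa .o w (.o3 v)) (hw : Irr D.R w) :
    ∃ y h L r, Irr D.Q.R y ∧ D.NL L ∧ D.ND h L ∧
      AIrr (D.S (sd L v)).R (D.N (sd L v)).P (D.nf (sd L v) h) ∧
      D.Sh1 (sd L v) h L v r ∧ w = y.map .p ++ .e (sd L v) :: r := by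
  obtain ⟨y, r, rfl, hr⟩ := exists_split L.p w
  have hy : Irr D.Q.R y := Irr.of_map L.p (fun p hp => Rule.q hp) hw.of_append_left
  rw [pa_p] at hp
  cases r with
  | nil => simpa using path_nil_iff.1 hp
  | cons a r =>
    obtain ⟨h1, h2⟩ := path_cons_iff.1 hp
    cases a with
    | p s => exact absurd rfl (hr s)
    | e j =>
      have hw' := hw.of_append_right
      rcases shape1 h2 hw'.tail with ⟨h, L, hL, hc, hs⟩ | ⟨r, rfl⟩
      · rcases id hs with ⟨rfl, u, l, a1, a2, rfl⟩ | ⟨-, rfl⟩
        · have key : ∀ q ∈ (D.N (sd L v)).P, ∀ a', u.map (D.emb (sd L v)) = q.1 ++ a' → False := by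
            rintro ⟨q1, κ, q2⟩ hq a' h3
            obtain ⟨u₀, u₁, rfl, rfl, rfl⟩ := List.map_eq_append_iff.1 h3
            obtain ⟨u', -, h4, -⟩ := D.compat _ _ hq u₀ rfl
            dsimp only at h4
            subst h4
            exact no hw' (.ex _ hq) [] _ (by simp; rfl)
          have ha : AIrr (D.S (sd L v)).R (D.N (sd L v)).P (D.nf (sd L v) h) := by
            refine ⟨nf_irr _ _, ?_⟩
            rintro q hq ⟨z, hz⟩
            rw [a1] at hz
            rcases List.append_eq_append_iff.1 hz with ⟨a', h3, -⟩ | ⟨c', h3, rfl⟩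
            · exact key q hq a' h3
            · by_cases hc' : c' = []
              · exact key q hq [] (by simp [h3, hc'])
              · obtain ⟨q1, κ, q2⟩ := q
                dsimp only at h3
                subst h3
                exact no hw' (.ek _ hc' hq) [] _ (by simp; rfl)
          refine ⟨y, h, L, _, hy, hL, fun k p hp h3 => ?_, ha, hs, rfl⟩
          have h4 : p.1 = sd L v := by
            cases L with
            | nil => simp at hp
            | cons p' L => obtain rfl : p' = p := by simpa using hp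
                           rfl
          rw [h4] at h3
          exact hc p hp h4 (detect ha h3)
        · exact (no hw' (.eki j _ rfl) [] _ rfl).elim
      · exact (no hw' (.et j _ rfl) [] r rfl).elim
    | _ => simp at h1

theorem lead {i : Bool} {h h' : H} {L L' : List (Bool × H)} (hL : D.NL L) (hL' : D.NL L')
    (hc : D.NC (!i) h L) (hc' : D.NC i h' L') (e : sgn D.t i * D.hp h L = D.hp h' L') : False := by
  have h1 : HRed D.kk ((i, h) :: L) := by
    refine List.isChain_cons.2 ⟨fun y hy h2 => ?_, hL.1⟩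
    by_contra h3
    exact hc y hy (bool_ne h3) h2
  obtain ⟨g, M, z, rfl, rfl⟩ := britton' (h := 1) (h' := h') h1 hL'.1 (by
    rw [← e, hp, hprod_cons]; simp)
  exact hc' _ rfl rfl ⟨z, by simp⟩

theorem uniq1 {v i : Bool} {w w' : List D.L} {h h' : H} {L L' : List (Bool × H)} (hL : D.NL L)
    (hL' : D.NL L') (hs : D.Sh1 i h L v w) (hs' : D.Sh1 i h' L' v w')
    (e : ev val w = ev val w') : w = w' := by
  rw [hs.ev_eq, hs'.ev_eq] at e
  obtain ⟨rfl, rfl⟩ := nl_uniq hL hL' e
  exact hs.uniq hs'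

theorem uniq (u : LO) (v : Bool) (w w' : List D.L) (hp : D.Pa u w (.o3 v))
    (hp' : D.Pa u w' (.o3 v)) (hw : Irr D.R w) (hw' : Irr D.R w') (e : ev val w = ev val w') :
    w = w' := by
  cases u with
  | o =>
    obtain ⟨y, h, L, r, a1, a2, a3, a4, a5, rfl⟩ := shape0 hp hw
    obtain ⟨y', h', L', r', b1, b2, b3, b4, b5, rfl⟩ := shape0 hp' hw'
    simp only [ev_append, ev_cons, ev_p, val, one_mul, a5.ev_eq, b5.ev_eq] at e
    obtain ⟨k, h1, h2, rfl⟩ := claim0 a2 b2 a3 b3 (q := (ev D.Q.φ y')⁻¹ * ev D.Q.φ y) (by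
      rw [map_mul, mul_assoc, e]; simp)
    obtain ⟨h3, rfl⟩ := (D.N _).uniq _ _ k a4 b4 (by simpa using h2)
    rw [map_one, one_mul] at h2
    subst h2
    rw [map_one, inv_mul_eq_one] at h1
    rw [D.Q.inj _ _ b1 a1 h1, a5.uniq b5]
  | o1 i =>
    have key : ∀ r, D.Pa (.o1 i) (.t1 i :: r) (.o3 v) → Irr D.R (.t1 i :: r) →
        ∃ h L, D.NL L ∧ D.NC (!i) h L ∧ D.Sh1 (!i) h L v r := by
      intro r h1 h2
      rcases shape1 (path_cons_iff.1 h1).2 h2.tail with h | ⟨r, rfl⟩
      · exact h
      · exact (no h2 (.t1t i _ rfl) [] r rfl).elim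
    rcases shape1 hp hw with ⟨h, L, a1, a2, a3⟩ | ⟨r, rfl⟩ <;>
      rcases shape1 hp' hw' with ⟨h', L', b1, b2, b3⟩ | ⟨r', rfl⟩
    · exact uniq1 a1 b1 a3 b3 e
    · obtain ⟨h', L', b1, b2, b3⟩ := key r' hp' hw'
      exact (lead b1 a1 b2 a2 (by simpa [a3.ev_eq, b3.ev_eq] using e.symm)).elim
    · obtain ⟨h, L, a1, a2, a3⟩ := key r hp hw
      exact (lead a1 b1 a2 b2 (by simpa [a3.ev_eq, b3.ev_eq] using e)).elim
    · obtain ⟨h, L, a1, a2, a3⟩ := key r hp hw
      obtain ⟨h', L', b1, b2, b3⟩ := key r' hp' hw'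
      rw [uniq1 a1 b1 a3 b3 (by simpa using e)]
  | o2 i =>
    obtain ⟨h, L, a1, rfl⟩ := shape2 hp hw
    obtain ⟨h', L', b1, rfl⟩ := shape2 hp' hw'
    obtain ⟨rfl, rfl⟩ := nl_uniq (h := h) (h' := h') a1 b1 (by simpa [ev_V2] using e)
    rfl
  | o3 i =>
    obtain ⟨h, L, a1, rfl⟩ := shape3 w i hp hw
    obtain ⟨h', L', b1, rfl⟩ := shape3 w' i hp' hw'
    obtain ⟨rfl, rfl⟩ := nl_uniq (h := h) (h' := h') a1 b1 (by simpa [ev_core] using e)
    rfl

end LD

end Pool.Agent.MP_b9845b_al.H94
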