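import Pool.Agent.MP_b9845b_al.H94.LineTerm
import Pool.Agent.MP_b9845b_al.H94.LineShape
import Pool.Agent.MP_b9845b_al.H94.GoodB
import Pool.Agent.MP_b9845b_al.H94.AnchB

namespace Pool.Agent.MP_b9845b_al.H94

open Relation Function

theorem last_map {α β : Type} {e : α → β} {l : List α} (hl : l ≠ []) (x : List β) {a : β}
    (h : (x ++ l.map e).getLast? = some a) : ∃ b, a = e b := by
  rw [List.getLast?_append_of_ne_nil _ (by simpa using hl), List.getLast?_map] at h
  obtain ⟨b, -, hb⟩ := Option.map_eq_some_iff.1 h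
  exact ⟨b, hb.symm⟩

namespace LD
variable {H G F P ι : Type} [Group H] [Group G] [Group F] [Group P] [Finite ι] {D : LD H G F P ι}

/-- The final side of an object. -/
def side : LO → Bool
  | .o => false
  | .o1 i => i
  | .o2 i => i
  | .o3 i => i

/-- The forward path to a final object. -/
def fw : LO → List D.L
  | .o => [.e false, .k false, .m false]
  | .o1 i => [.k i, .m i]
  | .o2 i => [.m i]
  | .o3 _ => []

/-- The letters that pass from one phase to the next. -/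
def Mark (a : D.L) : Prop := ∃ i, a = .e i ∨ a = .k i ∨ a = .m i

theorem mark_of_mem {v : LO} {a : D.L} (h : a ∈ fw v) : Mark a := by
  cases v <;> simp only [fw, List.mem_cons, List.not_mem_nil, or_false] at h
  · exact ⟨false, h⟩
  · exact ⟨_, Or.inr h⟩
  · exact ⟨_, Or.inr (Or.inr h)⟩

theorem Rule.last {l r : List D.L} (h : D.Rule l r) {a : D.L} (ha : l.getLast? = some a) :
    ¬ Mark a := by
  cases h with
  | q h =>
    obtain ⟨b, rfl⟩ := last_map (D.Q.wf.ne_nil _ h) [] ha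
    simp [Mark]
  | s2 i h =>
    obtain ⟨b, rfl⟩ := last_map ((D.S i).wf.ne_nil _ h) [] ha
    simp [Mark]
  | s3 i h =>
    obtain ⟨b, rfl⟩ := last_map ((D.S i).wf.ne_nil _ h) [] ha
    simp [Mark]
  | @ex i u u' κ h =>
    obtain ⟨b, rfl⟩ := last_map (e := L.x1 i) (l := u) (by simpa using (D.N i).ne _ h) [.e i] ha
    simp [Mark]
  | @ek i u l r κ hl h =>
    obtain ⟨b, rfl⟩ := last_map (e := L.x2 i) hl (.e i :: (u.map (.x1 i) ++ [.k i]))
      (by simpa using ha)
    simp [Mark]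
  | _ =>
    simp only [List.getLast?_cons_cons, List.getLast?_singleton, Option.some.injEq] at ha
    subst ha
    simp [Mark]

theorem pa_c3 (i j : Bool) : D.Pa (.o3 i) (D.c3 i j) (.o3 j) := by
  cases i <;> cases j <;> simp [c3, path_cons_iff, path_nil_iff]

theorem conn (i j : Bool) (g : G) : ∃ w, D.Pa (.o3 i) w (.o3 j) ∧ ev val w = g := by
  let Z : G → Prop := fun g => ∀ i j, ∃ w, D.Pa (.o3 i) w (.o3 j) ∧ ev val w = g
  have hm : ∀ a b, Z a → Z b → Z (a * b) := fun a b ha hb i j => by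
    obtain ⟨u, h1, rfl⟩ := ha i i
    obtain ⟨w, h2, rfl⟩ := hb i j
    exact ⟨u ++ w, grp_path_append h1 h2, by simp⟩
  have hf : ∀ h, Z (D.f h) := fun h i j =>
    ⟨(D.nf i h).map (.x3 i) ++ D.c3 i j, (pa_x3 _ _).2 (pa_c3 i j), by simp⟩
  have ht : ∀ ε, Z (sgn D.t ε) := fun ε i j =>
    ⟨D.c3 i ε ++ .t3 ε :: D.c3 (!ε) j, grp_path_append (pa_c3 i ε) (Path.cons rfl (pa_c3 _ j)),
      by simp⟩
  let T : Subgroup G :=
    { carrier := {g | Z g ∧ Z g⁻¹}
      one_mem' := by simpa using hf 1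
      mul_mem' := fun {a b} ha hb => ⟨hm _ _ ha.1 hb.1, by rw [mul_inv_rev]; exact hm _ _ hb.2 ha.2⟩
      inv_mem' := fun {a} ha => ⟨ha.2, by simpa using ha.1⟩ }
  exact (D.hG.gen T (fun h => ⟨hf h, by simpa using hf h⁻¹⟩) ⟨ht false, ht true⟩ g).1 i j

theorem main {ν : Type} [Finite ν] {V : ν → P} {e : ν × Bool → D.Q.A}
    (hV : SubGood D.Q (freeSys ν) (FreeGroup.lift V) e) : SGood fun c => D.π (V c) := by
  refine groupoid2 src tgt D.R D.R_finite val .o typed sound wf (fun v => .o3 (side v)) fw ?_ ?_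
    (fun _ => rfl) (fun p hp v a ha h => Rule.last hp h (mark_of_mem ha))
    (fun u v => conn _ _) (fun u v => uniq u _) (fun c => .p (e c)) (p_inj.comp hV.inj)
    (fun _ => ⟨rfl, rfl⟩) ?_ (fun i b => Rule.q (hV.rule _ ⟨i, b, rfl⟩)) ?_ ?_
  · rintro (_ | i | i | i) <;> simp [fw, side, path_cons_iff, path_nil_iff]
  · rintro (_ | i | i | i) <;> simp [fw]
  · rintro ⟨i, _ | _⟩ <;> simp [hV.val]
  · rintro ⟨l, r⟩ h c hc
    change D.Rule l r at h
    cases h with
    | @q l r h =>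
      obtain ⟨_, ⟨i, b, rfl⟩, h1⟩ := hV.head _ h c (by
        cases l with
        | nil => simp at hc
        | cons a l => simpa using hc)
      simp only [Prod.mk.injEq] at h1
      exact ⟨i, b, by simp [h1.1, h1.2]⟩
    | _ => simp at hc
  · rintro (_ | i | i | i) c <;> simp [fw]

end LD

theorem line {H G F P ι ν : Type} [Group H] [Group G] [Group F] [Group P] [Finite ι] [Finite ν]
    (a : Bool → ι → H) (S : Bool → Sys H) (emb : ∀ b, ι × Bool → (S b).A)
    (hS : ∀ b, SubGood (S b) (freeSys ι) (FreeGroup.lift (a b)) (emb b)) {f : H →* G} {t : G}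
    (hG : IsHNN (FreeGroup.lift (a false)) (FreeGroup.lift (a true)) f t) (kv : F →* H)
    (N : ∀ b, Anch (S b) kv)
    (j : F →* P) (τ : P) (π : P →* G) (hπj : ∀ k, π (j k) = f (kv k)) (hπτ : π τ = t)
    (hgen : ∀ L : Subgroup P, (∀ k, j k ∈ L) → τ ∈ L → ∀ p, p ∈ L)
    (compat : ∀ b, ∀ q ∈ (N b).P, ∀ u : List (ι × Bool), q.1 = u.map (emb b) →
      ∃ (u' : List (ι × Bool)) (k' : F), q.2.2 = u'.map (emb b) ∧
        ev (sg (a (!b))) u = kv k' * ev (sg (a (!b))) u' ∧
        j k' = (sgn τ b)⁻¹ * j q.2.1 * sgn τ b)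
    {V : ν → P} (hV : Good V) : SGood fun c => π (V c) := by
  obtain ⟨Q, e, hV⟩ := hV
  exact LD.main (D := ⟨a, S, emb, hS, f, t, hG, kv, N, j, τ, π, hπj, hπτ, hgen, compat, Q⟩) hV

end Pool.Agent.MP_b9845b_al.H94
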