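import Pool.Agent.MP_b9845b_al.H94.Groupoid2
import Pool.Agent.MP_b9845b_al.H94.Hnn

namespace Pool.Agent.MP_b9845b_al.H94

open Relation Function

/-- The data of the line lemma. -/
structure LD (H G F P ι : Type) [Group H] [Group G] [Group F] [Group P] [Finite ι] : Type 1 where
  a : Bool → ι → H
  S : Bool → Sys H
  emb : ∀ b, ι × Bool → (S b).A
  hS : ∀ b, SubGood (S b) (freeSys ι) (FreeGroup.lift (a b)) (emb b)
  f : H →* G
  t : G
  hG : IsHNN (FreeGroup.lift (a false)) (FreeGroup.lift (a true)) f t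
  kv : F →* H
  N : ∀ b, Anch (S b) kv
  j : F →* P
  τ : P
  π : P →* G
  hπj : ∀ k, π (j k) = f (kv k)
  hπτ : π τ = t
  hgen : ∀ L : Subgroup P, (∀ k, j k ∈ L) → τ ∈ L → ∀ p, p ∈ L
  compat : ∀ b, ∀ q ∈ (N b).P, ∀ u : List (ι × Bool), q.1 = u.map (emb b) →
    ∃ (u' : List (ι × Bool)) (k' : F), q.2.2 = u'.map (emb b) ∧
      ev (sg (a (!b))) u = kv k' * ev (sg (a (!b))) u' ∧
      j k' = (sgn τ b)⁻¹ * j q.2.1 * sgn τ b
  Q : Sys P

/-- The objects of the groupoid. -/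
inductive LO : Type
  | o
  | o1 (i : Bool)
  | o2 (i : Bool)
  | o3 (i : Bool)

instance LO.finite : Finite LO :=
  Finite.of_surjective (fun x : Unit ⊕ Bool ⊕ Bool ⊕ Bool =>
    Sum.elim (fun _ => LO.o) (Sum.elim LO.o1 (Sum.elim LO.o2 LO.o3)) x) (by
      rintro (_ | i | i | i)
      · exact ⟨.inl (), rfl⟩
      · exact ⟨.inr (.inl i), rfl⟩
      · exact ⟨.inr (.inr (.inl i)), rfl⟩
      · exact ⟨.inr (.inr (.inr i)), rfl⟩)

section PathAux
variable {L O B : Type} {src tgt : L → O}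

theorem path_nil_iff {u v : O} : Path src tgt u [] v ↔ u = v :=
  ⟨fun h => by cases h; rfl, fun h => h ▸ Path.nil u⟩

theorem path_cons_iff {u v : O} {a : L} {w : List L} :
    Path src tgt u (a :: w) v ↔ src a = u ∧ Path src tgt (tgt a) w v :=
  ⟨fun h => by cases h with | cons h1 h2 => exact ⟨h1, h2⟩, fun h => Path.cons h.1 h.2⟩

theorem path_loop {e : B → L} {u v : O} (he : ∀ b, src (e b) = u ∧ tgt (e b) = u) (w : List B)
    (r : List L) : Path src tgt u (w.map e ++ r) v ↔ Path src tgt u r v := by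
  induction w with
  | nil => simp
  | cons b w ih => rw [List.map_cons, List.cons_append, path_cons_iff, (he b).1, (he b).2, ih]; simp

end PathAux

theorem exists_bound {α : Type} {s : Set α} (hs : s.Finite) (g : α → ℕ) :
    ∃ n, ∀ x ∈ s, g x ≤ n := by
  obtain ⟨n, hn⟩ := (hs.image g).bddAbove
  exact ⟨n, fun x hx => hn ⟨x, hx, rfl⟩⟩

namespace LD
variable {H G F P ι : Type} [Group H] [Group G] [Group F] [Group P] [Finite ι] (D : LD H G F P ι)

/-- The letters. -/
inductive L : Type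
  | p (y : D.Q.A)
  | e (i : Bool)
  | x1 (i : Bool) (c : ι × Bool)
  | t1 (i : Bool)
  | k (i : Bool)
  | x2 (i : Bool) (s : (D.S i).A)
  | i2 (i : Bool)
  | m (i : Bool)
  | x3 (i : Bool) (s : (D.S i).A)
  | i3 (i : Bool)
  | t3 (i : Bool)

instance L.finite : Finite D.L :=
  Finite.of_surjective (fun x : D.Q.A ⊕ (Bool × (ι × Bool)) ⊕ (Σ i, (D.S i).A) ⊕
      (Σ i, (D.S i).A) ⊕ (Fin 7 × Bool) =>
    Sum.elim L.p (Sum.elim (fun y => L.x1 y.1 y.2) (Sum.elim (fun y => L.x2 y.1 y.2)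
      (Sum.elim (fun y => L.x3 y.1 y.2)
        fun y => ![L.e, L.t1, L.k, L.i2, L.m, L.i3, L.t3] y.1 y.2))) x) (by
      rintro (y | i | ⟨i, c⟩ | i | i | ⟨i, s⟩ | i | i | ⟨i, s⟩ | i | i)
      · exact ⟨.inl y, rfl⟩
      · exact ⟨.inr (.inr (.inr (.inr (0, i)))), rfl⟩
      · exact ⟨.inr (.inl (i, c)), rfl⟩
      · exact ⟨.inr (.inr (.inr (.inr (1, i)))), rfl⟩
      · exact ⟨.inr (.inr (.inr (.inr (2, i)))), rfl⟩
      · exact ⟨.inr (.inr (.inl ⟨i, s⟩)), rfl⟩
      · exact ⟨.inr (.inr (.inr (.inr (3, i)))), rfl⟩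
      · exact ⟨.inr (.inr (.inr (.inr (4, i)))), rfl⟩
      · exact ⟨.inr (.inr (.inr (.inl ⟨i, s⟩))), rfl⟩
      · exact ⟨.inr (.inr (.inr (.inr (5, i)))), rfl⟩
      · exact ⟨.inr (.inr (.inr (.inr (6, i)))), rfl⟩)

variable {D}

@[simp] def src : D.L → LO
  | .p _ => .o
  | .e _ => .o
  | .x1 i _ => .o1 i
  | .t1 i => .o1 i
  | .k i => .o1 i
  | .x2 i _ => .o2 i
  | .i2 i => .o2 i
  | .m i => .o2 i
  | .x3 i _ => .o3 i
  | .i3 i => .o3 i
  | .t3 i => .o3 i

@[simp] def tgt : D.L → LO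
  | .p _ => .o
  | .e i => .o1 i
  | .x1 i _ => .o1 i
  | .t1 i => .o1 (!i)
  | .k i => .o2 i
  | .x2 i _ => .o2 i
  | .i2 i => .o2 (!i)
  | .m i => .o3 i
  | .x3 i _ => .o3 i
  | .i3 i => .o3 (!i)
  | .t3 i => .o3 (!i)

@[simp] def val : D.L → G
  | .p y => D.π (D.Q.φ y)
  | .e _ => 1
  | .x1 i c => D.f ((D.S i).φ (D.emb i c))
  | .t1 i => sgn D.t i
  | .k _ => 1
  | .x2 i s => D.f ((D.S i).φ s)
  | .i2 _ => 1
  | .m _ => 1
  | .x3 i s => D.f ((D.S i).φ s)
  | .i3 _ => 1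
  | .t3 i => sgn D.t i

variable (D)

/-- The associated subgroups. -/
def kk (i : Bool) : FreeGroup ι →* H := FreeGroup.lift (D.a i)

/-- The word in the letters `p` for an element of `P`. -/
noncomputable def wp (g : P) : List D.L := (D.Q.word g).map .p

/-- The rules. -/
inductive Rule : List D.L → List D.L → Prop
  | q {l r : List D.Q.A} : (l, r) ∈ D.Q.R → Rule (l.map .p) (r.map .p)
  | s2 (i : Bool) {l r : List (D.S i).A} : (l, r) ∈ (D.S i).R →
      Rule (l.map (.x2 i)) (r.map (.x2 i))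
  | s3 (i : Bool) {l r : List (D.S i).A} : (l, r) ∈ (D.S i).R →
      Rule (l.map (.x3 i)) (r.map (.x3 i))
  | f1 (i : Bool) (z : ι) (b : Bool) : Rule [.x1 i (z, b), .x1 i (z, !b)] []
  | t3x (i j : Bool) (h : j = !i) (c : ι × Bool) :
      Rule [.t3 i, .x3 j (D.emb j c)] [.x3 i (D.emb i c), .t3 i]
  | t3t (i j : Bool) (h : j = !i) : Rule [.t3 i, .t3 j] []
  | i3x (i j : Bool) (h : j = !i) (y : (D.S j).A) :
      Rule [.i3 i, .x3 j y] (((D.S i).word ((D.S j).φ y)).map (.x3 i) ++ [.i3 i])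
  | i3i (i j : Bool) (h : j = !i) : Rule [.i3 i, .i3 j] []
  | xi2 (i j : Bool) (h : j = !i) (y : (D.S i).A) :
      Rule [.x2 i y, .i2 i] (.i2 i :: ((D.S j).word ((D.S i).φ y)).map (.x2 j))
  | i2i (i j : Bool) (h : j = !i) : Rule [.i2 i, .i2 j] []
  | xt1 (i j : Bool) (h : j = !i) (c : ι × Bool) : Rule [.x1 i c, .t1 i] [.t1 i, .x1 j c]
  | t1t (i j : Bool) (h : j = !i) : Rule [.t1 i, .t1 j] []
  | kx (i : Bool) (c : ι × Bool) : Rule [.k i, .x2 i (D.emb i c)] [.x1 i c, .k i]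
  | xki (i j : Bool) (h : j = !i) (c : ι × Bool) : Rule [.x1 i c, .k i, .i2 i]
      (.k i :: .i2 i :: ((D.S j).word ((D.S i).φ (D.emb i c))).map (.x2 j))
  | mx (i : Bool) (y : (D.S i).A) : Rule [.m i, .x3 i y] [.x2 i y, .m i]
  | mi (i j : Bool) (h : j = !i) : Rule [.m i, .i3 i] [.i2 i, .m j]
  | kmt (i j : Bool) (h : j = !i) : Rule [.k i, .m i, .t3 i] [.t1 i, .k j, .m j]
  | ex (i : Bool) {u u' : List (ι × Bool)} {κ : F} :
      (u.map (D.emb i), κ, u'.map (D.emb i)) ∈ (D.N i).P →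
      Rule (.e i :: u.map (.x1 i)) (D.wp (D.j κ) ++ .e i :: u'.map (.x1 i))
  | ek (i : Bool) {u : List (ι × Bool)} {l r : List (D.S i).A} {κ : F} : l ≠ [] →
      (u.map (D.emb i) ++ l, κ, r) ∈ (D.N i).P →
      Rule (.e i :: (u.map (.x1 i) ++ .k i :: l.map (.x2 i)))
        (D.wp (D.j κ) ++ .e i :: .k i :: r.map (.x2 i))
  | et (i j : Bool) (h : j = !i) : Rule [.e i, .t1 i] (D.wp (sgn D.τ i) ++ [.e j])
  | eki (i j : Bool) (h : j = !i) : Rule [.e i, .k i, .i2 i] [.e j, .k j]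

/-- The rule set. -/
def R : Rules D.L := {p | D.Rule p.1 p.2}

theorem R_finite : D.R.Finite := by
  obtain ⟨n1, h1⟩ := exists_bound D.Q.Rfin fun p => p.1.length + p.2.length
  choose n2 h2 using fun i => exists_bound (D.S i).Rfin fun p => p.1.length + p.2.length
  choose n3 h3 using fun i => exists_bound (D.N i).fin
    fun q => q.1.length + q.2.2.length + (D.wp (D.j q.2.1)).length
  choose n4 h4 using fun i j => exists_bound (Set.toFinite (Set.univ : Set (D.S j).A))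
    fun y => ((D.S i).word ((D.S j).φ y)).length
  obtain ⟨n5, h5⟩ := exists_bound (Set.toFinite (Set.univ : Set Bool))
    fun i => n2 i + n3 i + n4 i (!i) + n4 (!i) i + (D.wp (sgn D.τ i)).length
  refine ((List.finite_length_le D.L (n1 + n5 + 3)).prod
    (List.finite_length_le D.L (n1 + n5 + 3))).subset ?_
  rintro ⟨l, r⟩ h
  change D.Rule l r at h
  show l.length ≤ _ ∧ r.length ≤ _
  cases h with
  | q h => have := h1 _ h; simp at this ⊢; omega
  | s2 i h => have := h2 _ _ h; have := h5 i trivial; simp at *; omega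
  | s3 i h => have := h2 _ _ h; have := h5 i trivial; simp at *; omega
  | i3x i j h y =>
    subst h
    have h6 := h4 i _ y trivial; have h7 := h5 i trivial
    simp only [List.length_cons, List.length_nil, List.length_append, List.length_map]; omega
  | xi2 i j h y =>
    subst h
    have h6 := h4 (!i) _ y trivial; have h7 := h5 i trivial
    simp only [List.length_cons, List.length_nil, List.length_append, List.length_map]; omega
  | xki i j h c =>
    subst h
    have h6 := h4 (!i) _ (D.emb i c) trivial; have h7 := h5 i trivial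
    simp only [List.length_cons, List.length_nil, List.length_append, List.length_map]; omega
  | ex i h =>
    have h6 := h3 _ _ h; have h7 := h5 i trivial
    simp only [List.length_cons, List.length_nil, List.length_append, List.length_map] at h6 ⊢
    omega
  | ek i _ h =>
    have h6 := h3 _ _ h; have h7 := h5 i trivial
    simp only [List.length_cons, List.length_nil, List.length_append, List.length_map] at h6 ⊢
    omega
  | et i j h =>
    have h7 := h5 i trivial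
    simp only [List.length_cons, List.length_nil, List.length_append, List.length_map]; omega
  | _ => simp

/-- Typed paths. -/
abbrev Pa (u : LO) (w : List D.L) (v : LO) : Prop := Path src tgt u w v

variable {D}

theorem pa_p {v : LO} (w : List D.Q.A) (r : List D.L) :
    D.Pa .o (w.map .p ++ r) v ↔ D.Pa .o r v := path_loop (fun _ => by simp) w r
theorem pa_x1 {v : LO} {i : Bool} (w : List (ι × Bool)) (r : List D.L) :
    D.Pa (.o1 i) (w.map (.x1 i) ++ r) v ↔ D.Pa (.o1 i) r v := path_loop (fun _ => by simp) w r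
theorem pa_x2 {v : LO} {i : Bool} (w : List (D.S i).A) (r : List D.L) :
    D.Pa (.o2 i) (w.map (.x2 i) ++ r) v ↔ D.Pa (.o2 i) r v := path_loop (fun _ => by simp) w r
theorem pa_x3 {v : LO} {i : Bool} (w : List (D.S i).A) (r : List D.L) :
    D.Pa (.o3 i) (w.map (.x3 i) ++ r) v ↔ D.Pa (.o3 i) r v := path_loop (fun _ => by simp) w r
theorem pa_p' (w : List D.Q.A) : D.Pa .o (w.map .p) .o := by
  simpa using (pa_p w []).2 (Path.nil _)
theorem pa_x1' {i : Bool} (w : List (ι × Bool)) : D.Pa (.o1 i) (w.map (.x1 i)) (.o1 i) := by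
  simpa using (pa_x1 w []).2 (Path.nil _)
theorem pa_x2' {i : Bool} (w : List (D.S i).A) : D.Pa (.o2 i) (w.map (.x2 i)) (.o2 i) := by
  simpa using (pa_x2 w []).2 (Path.nil _)
theorem pa_x3' {i : Bool} (w : List (D.S i).A) : D.Pa (.o3 i) (w.map (.x3 i)) (.o3 i) := by
  simpa using (pa_x3 w []).2 (Path.nil _)

theorem typed : ∀ p ∈ D.R, ∃ u v, D.Pa u p.1 v ∧ D.Pa u p.2 v := by
  rintro ⟨l, r⟩ h
  change D.Rule l r at h
  dsimp only
  cases h with
  | q h => exact ⟨_, _, pa_p' _, pa_p' _⟩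
  | s2 i h => exact ⟨_, _, pa_x2' _, pa_x2' _⟩
  | s3 i h => exact ⟨_, _, pa_x3' _, pa_x3' _⟩
  | f1 i z b => exact ⟨.o1 i, .o1 i, by simp [path_cons_iff, path_nil_iff]⟩
  | t3x i j h c => exact ⟨.o3 i, .o3 j, by simp [path_cons_iff, path_nil_iff, h]⟩
  | t3t i j h => exact ⟨.o3 i, .o3 i, by simp [path_cons_iff, path_nil_iff, h]⟩
  | i3x i j h c => exact ⟨.o3 i, .o3 j, by simp [path_cons_iff, path_nil_iff, h, pa_x3]⟩
  | i3i i j h => exact ⟨.o3 i, .o3 i, by simp [path_cons_iff, path_nil_iff, h]⟩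
  | xi2 i j h c => subst h; exact ⟨.o2 i, .o2 (!i), by simp [path_cons_iff, path_nil_iff, pa_x2']⟩
  | i2i i j h => exact ⟨.o2 i, .o2 i, by simp [path_cons_iff, path_nil_iff, h]⟩
  | xt1 i j h c => exact ⟨.o1 i, .o1 j, by simp [path_cons_iff, path_nil_iff, h]⟩
  | t1t i j h => exact ⟨.o1 i, .o1 i, by simp [path_cons_iff, path_nil_iff, h]⟩
  | kx i c => exact ⟨.o1 i, .o2 i, by simp [path_cons_iff, path_nil_iff]⟩
  | xki i j h c => subst h; exact ⟨.o1 i, .o2 (!i), by simp [path_cons_iff, path_nil_iff, pa_x2']⟩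
  | mx i c => exact ⟨.o2 i, .o3 i, by simp [path_cons_iff, path_nil_iff]⟩
  | mi i j h => exact ⟨.o2 i, .o3 j, by simp [path_cons_iff, path_nil_iff, h]⟩
  | kmt i j h => exact ⟨.o1 i, .o3 j, by simp [path_cons_iff, path_nil_iff, h]⟩
  | ex i h => exact ⟨.o, .o1 i, by simp [path_cons_iff, wp, pa_p, pa_x1']⟩
  | ek i _ h => exact ⟨.o, .o2 i, by simp [path_cons_iff, wp, pa_p, pa_x1, pa_x2']⟩
  | et i j h => exact ⟨.o, .o1 j, by simp [path_cons_iff, path_nil_iff, wp, pa_p, h]⟩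
  | eki i j h => exact ⟨.o, .o2 j, by simp [path_cons_iff, path_nil_iff, h]⟩

@[simp] theorem ev_p (w : List D.Q.A) : ev val (w.map (L.p : _ → D.L)) = D.π (ev D.Q.φ w) :=
  ev_map_hom val _ _ _ (fun _ => by simp) w
@[simp] theorem ev_x2 {i : Bool} (w : List (D.S i).A) :
    ev val (w.map (L.x2 i : _ → D.L)) = D.f (ev (D.S i).φ w) := ev_map_hom val _ _ _ (fun _ => by simp) w
@[simp] theorem ev_x3 {i : Bool} (w : List (D.S i).A) :
    ev val (w.map (L.x3 i : _ → D.L)) = D.f (ev (D.S i).φ w) := ev_map_hom val _ _ _ (fun _ => by simp) w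
@[simp] theorem ev_x1 {i : Bool} (w : List (ι × Bool)) :
    ev val (w.map (L.x1 i : _ → D.L)) = D.f (ev (D.S i).φ (w.map (D.emb i))) := by
  rw [ev_map (D.S i).φ]
  exact ev_map_hom val _ _ _ (fun _ => by simp) w
@[simp] theorem ev_wp (g : P) : ev val (D.wp g) = D.π g := by simp [wp]

theorem phi_emb (i : Bool) (c : ι × Bool) : (D.S i).φ (D.emb i c) = D.kk i (FreeGroup.mk [c]) :=
  (D.hS i).val c

theorem hG' : IsHNN (D.kk false) (D.kk true) D.f D.t := D.hG

theorem sgn_kk (i : Bool) (z : FreeGroup ι) :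
    sgn D.t i * D.f (D.kk (!i) z) = D.f (D.kk i z) * sgn D.t i := hG'.sgn_rel i z

theorem pi_sgn (i : Bool) : D.π (sgn D.τ i) = sgn D.t i := by
  cases i <;> simp [D.hπτ]

theorem sound : ∀ p ∈ D.R, ev val p.1 = ev val p.2 := by
  rintro ⟨l, r⟩ h
  change D.Rule l r at h
  dsimp only
  cases h with
  | q h => simp [D.Q.sound _ h]
  | s2 i h => simp [(D.S i).sound _ h]
  | s3 i h => simp [(D.S i).sound _ h]
  | f1 i z b =>
    simp only [ev_cons, val, ev_nil, mul_one, phi_emb, kk, lift_mk_single, sg_not, map_inv,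
      mul_inv_cancel]
  | t3x i j h c => subst h; simp [phi_emb, sgn_kk]
  | t3t i j h => subst h; simp [sgn_not]
  | xt1 i j h c => subst h; simp [phi_emb, sgn_kk]
  | t1t i j h => subst h; simp [sgn_not]
  | ex i h =>
    have := (D.N i).sound _ h
    dsimp only at this
    simp [this, D.hπj]
  | ek i _ h =>
    have := congrArg D.f ((D.N i).sound _ h)
    simp only [ev_append, map_mul] at this
    simp [this, D.hπj]
  | et i j h => simp [pi_sgn]
  | _ => simp

end LD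

end Pool.Agent.MP_b9845b_al.H94
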