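import Pool.Agent.MP_b9845b_al.H94.Double

namespace Pool.Agent.MP_b9845b_al.H94

open Relation FreeGroup Function

section Marker
variable {G H M F ι ν : Type} [Group G] [Group H] [Group M] [Group F] [Finite ι] [Finite ν]

theorem marker_good_congr {y y' : ι → G} (h : Good y) (e : ∀ j, y j = y' j) : Good y' :=
  (funext e : y = y') ▸ h

theorem marker_empty (S : Sys M) :
    SubGood S (freeSys Empty) (1 : FreeGroup Empty →* M) fun c => c.1.elim :=
  ⟨fun a => a.1.elim, fun c => c.1.elim, by rintro _ ⟨i, -, -⟩; exact i.elim,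
    fun _ _ c => c.1.elim⟩

theorem marker_amalg_ext {H₀ H₁ D K : Type} [Group H₀] [Group H₁] [Group D] [Group K]
    {k₀ : F →* H₀} {k₁ : F →* H₁} {f₀ : H₀ →* D} {f₁ : H₁ →* D} (hD : IsAmalg k₀ k₁ f₀ f₁)
    {ψ ψ' : D →* K} (h₀ : ∀ x, ψ (f₀ x) = ψ' (f₀ x)) (h₁ : ∀ x, ψ (f₁ x) = ψ' (f₁ x)) (d : D) :
    ψ d = ψ' d :=
  hD.gen (ψ.eqLocus ψ') h₀ h₁ d

theorem marker {S : Sys M} {kv : F →* M} (N : Anch S kv) {V : ν → F} (hV : Good V) :
    ∃ (M' : Type) (_ : Group M') (i : M →* M') (f : Unit → M'),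
      IsFreeExt i f ∧ Good fun j => i (kv (V j)) := by
  obtain ⟨C, emb, hC⟩ := hV
  obtain ⟨D, _, f₀, f₁, hD⟩ :=
    exists_amalg (1 : FreeGroup Empty →* M) (1 : FreeGroup Empty →* F)
  obtain ⟨S₀, j₀, j₁, h₀, h₁, -⟩ := union_sys (marker_empty S) (marker_empty C) hD
  obtain ⟨M', _, i, m, hM⟩ := exists_freeExt M Unit
  obtain ⟨g, hg₀, hg₁⟩ := hD.univ M' ((MulAut.conj (m ())⁻¹).toMonoidHom.comp i) (i.comp kv)
    (by simp)
  simp only [MonoidHom.comp_apply, MulEquiv.coe_toMonoidHom, MulAut.conj_apply, inv_inv] at hg₀ hg₁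
  obtain ⟨NA, -⟩ := exists_anch_of_subGood h₁
  obtain ⟨NB, -⟩ := N.exists_lift h₀
  have hH : IsHNN f₁ (f₀.comp kv) g (m ()) := by
    refine ⟨fun k => by simp [hg₀, hg₁], fun L hL hm => hM.gen L (fun x => ?_) (fun _ => hm),
      fun K _ g' s hs => ?_⟩
    · have := L.mul_mem (L.mul_mem hm (hL (f₀ x))) (L.inv_mem hm)
      rw [hg₀] at this
      simpa [mul_assoc] using this
    · obtain ⟨ψ, h1, h2⟩ := hM.univ K ((MulAut.conj s).toMonoidHom.comp (g'.comp f₀)) fun _ => s
      simp only [MonoidHom.comp_apply, MulEquiv.coe_toMonoidHom, MulAut.conj_apply] at h1 hs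
      refine ⟨ψ, marker_amalg_ext hD (ψ := ψ.comp g) (fun x => ?_) (fun x => ?_), h2 ()⟩
      · simp [hg₀, h1, h2, mul_assoc]
      · simp [hg₁, h1, ← hs, mul_assoc]
  obtain ⟨S', j, -, hj, -⟩ := hnn_sys S₀ (kk := fun b => cond b (f₀.comp kv) f₁)
    (fun b => match b with | false => NA | true => NB) hH
  refine ⟨M', inferInstance, i, m, hM, S', _, ((hj.trans h₁).trans hC).congr ?_⟩
  ext x
  simp [hg₁]

theorem SGood.of_freeExt {κ : Type} [Finite κ] {i : G →* M} {f : κ → M} (hM : IsFreeExt i f)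
    {y : ι → G} (h : SGood fun j => i (y j)) : SGood y := by
  obtain ⟨M', _, κ', _, i', f', h1, h2⟩ := h
  exact ⟨M', inferInstance, κ ⊕ κ', inferInstance, i'.comp i, _, hM.trans h1, h2⟩

theorem marker_free_sum (ι κ : Type) :
    IsFreeExt (FreeGroup.map (Sum.inl : ι → ι ⊕ κ)) fun k => FreeGroup.of (Sum.inr k) := by
  refine ⟨fun L h1 h2 m => ?_, fun K _ g s => ?_⟩
  · induction m with
    | C1 => exact L.one_mem
    | of x =>
      rcases x with x | x
      · simpa using h1 (FreeGroup.of x)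
      · exact h2 x
    | inv_of x hx => exact L.inv_mem hx
    | mul x y hx hy => exact L.mul_mem hx hy
  · refine ⟨lift (Sum.elim (fun x => g (FreeGroup.of x)) s), fun x => ?_, fun k => by simp⟩
    have : (lift (Sum.elim (fun x => g (FreeGroup.of x)) s)).comp
        (FreeGroup.map (Sum.inl : ι → ι ⊕ κ)) = g := by
      ext x; simp
    exact DFunLike.congr_fun this x

theorem SGood.trans {U : ι → G} (hU : SGood U) {V : ν → FreeGroup ι} (hV : SGood V) :
    SGood fun j => lift U (V j) := by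
  obtain ⟨M₁, _, κ, _, i, f, h1, hU⟩ := hU
  obtain ⟨M', _, κ', _, i', f', h2, hV⟩ := hV
  obtain ⟨M₂, _, i₂, f₂, h3⟩ := exists_freeExt M₁ κ'
  obtain ⟨S, emb, hS⟩ := hU.freeExt h3
  obtain ⟨N, -⟩ := exists_anch_of_subGood hS
  obtain ⟨e, he, -⟩ := h2.unique (marker_free_sum ι κ')
  obtain ⟨M₃, _, i₃, f₃, h4, h5⟩ := marker N (hV.equiv e)
  refine ⟨M₃, inferInstance, _, inferInstance, _, _, (h1.trans h3).trans h4,
    marker_good_congr h5 fun j => ?_⟩
  have : (lift (Sum.elim (fun j => i₂ (i (U j))) f₂)).comp (FreeGroup.map Sum.inl) =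
      (i₂.comp i).comp (lift U) := by
    ext x; simp
  rw [he]
  exact congrArg i₃ (DFunLike.congr_fun this (V j))

theorem SGood.common {a : ι → G} {b : ν → G} (ha : SGood a) (hb : SGood b) :
    ∃ (M : Type) (_ : Group M) (κ : Type) (_ : Finite κ) (i : G →* M) (f : κ → M),
      IsFreeExt i f ∧ (Good fun j => i (a j)) ∧ Good fun j => i (b j) := by
  obtain ⟨Ma, _, κa, _, ia, fa, h1, ha⟩ := ha
  obtain ⟨Mb, _, κb, _, ib, fb, h2, hb⟩ := hb
  obtain ⟨M₁, _, i₁, f₁, h3⟩ := exists_freeExt Ma κb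
  obtain ⟨M₂, _, i₂, f₂, h4⟩ := exists_freeExt Mb κa
  obtain ⟨e, he, -⟩ := ((h2.trans h4).reindex (Equiv.sumComm κa κb)).unique (h1.trans h3)
  refine ⟨M₁, inferInstance, _, inferInstance, _, _, h1.trans h3,
    (ha.freeExt h3).sub Sum.inl Sum.inl_injective,
    marker_good_congr (((hb.freeExt h4).sub Sum.inl Sum.inl_injective).equiv e) fun j => ?_⟩
  exact he (b j)

omit [Finite ι] in
theorem marker_lift_comp (i : H →* M) (a : ι → H) :
    i.comp (lift a) = lift fun j => i (a j) := by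
  ext x; simp

theorem SGood.hnn {a b : ι → H} (ha : SGood a) (hb : SGood b) {f : H →* G} {t : G}
    (hG : IsHNN (lift a) (lift b) f t) : SGood fun i => f (a i) := by
  obtain ⟨M, _, κ, _, i, e, h1, ha, hb⟩ := ha.common hb
  obtain ⟨G', _, i', f', h2, h3, h4⟩ := hG.freeExt h1
  rw [marker_lift_comp, marker_lift_comp] at h3
  exact ⟨G', inferInstance, κ, inferInstance, i', _, h2,
    marker_good_congr (double ha hb h3).1 fun j => h4 _⟩

theorem TGood.hnn {a b : ι → H} (ha : TGood a) (hb : TGood b) {f : H →* G} {t : G}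
    (hG : IsHNN (lift a) (lift b) f t) : (Good fun i => f (a i)) ∧ Good fun _ : Unit => t := by
  obtain ⟨Ma, _, κa, _, ia, fa, ea, h1, ha⟩ := ha
  obtain ⟨Mb, _, κb, _, ib, fb, eb, h2, hb⟩ := hb
  obtain ⟨M₁, _, i₁, f₁, h3⟩ := exists_freeExt Ma κb
  obtain ⟨M₂, _, i₂, f₂, h4⟩ := exists_freeExt Mb κa
  have hI := h1.trans h3
  obtain ⟨e, he, he'⟩ := ((h2.trans h4).reindex (Equiv.sumComm κa κb)).unique hI
  let σ : (ι ⊕ κa) ⊕ κb → (ι ⊕ κb) ⊕ κa :=
    Sum.elim (Sum.elim (fun j => .inl (.inl j)) .inr) fun k => .inl (.inr k)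
  have hσ : Injective σ := by
    rintro ((x | x) | x) ((y | y) | y) h <;> simp_all [σ]
  let A : (ι ⊕ κa) ⊕ κb → M₁ := Sum.elim (fun j => i₁ (ia (Sum.elim a ea j))) f₁
  let B : (ι ⊕ κa) ⊕ κb → M₁ :=
    Sum.elim (Sum.elim (fun j => i₁ (ia (b j))) fun k => i₁ (fa k)) fun k => i₁ (ia (eb k))
  have hA : Good A := ha.freeExt h3
  have hB : Good B := by
    refine marker_good_congr (((hb.freeExt h4).sub σ hσ).equiv e) ?_
    rintro ((x | x) | x)
    · exact he (b x)
    · exact he' (.inl x)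
    · exact he (eb x)
  obtain ⟨φ, hφ, hφ'⟩ := hI.univ G f
    (Sum.elim (fun k => t⁻¹ * f (ea k) * t) fun k => t * f (eb k) * t⁻¹)
  have p1 : ∀ x, φ (i₁ (ia x)) = f x := hφ
  have p2 : ∀ k, φ (i₁ (fa k)) = t⁻¹ * f (ea k) * t := fun k => hφ' (.inl k)
  have p3 : ∀ k, φ (f₁ k) = t * f (eb k) * t⁻¹ := fun k => hφ' (.inr k)
  have hH : IsHNN (lift A) (lift B) φ t := by
    refine ⟨fun k => ?_, fun L hL ht => hG.gen L (fun x => p1 x ▸ hL _) ht, fun K _ g s hs => ?_⟩
    · have : (MulAut.conj t⁻¹).toMonoidHom.comp (φ.comp (lift A)) = φ.comp (lift B) := by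
        ext ((x | x) | x)
        · simpa [A, B, p1] using hG.rel (FreeGroup.of x)
        · simp [A, B, p1, p2]
        · simp [A, B, p1, p3, mul_assoc]
      simpa using DFunLike.congr_fun this k
    · obtain ⟨ψ, q1, q2⟩ := hG.univ K (g.comp (i₁.comp ia)) s fun k => by
        have e1 : (i₁.comp ia).comp (lift a) =
            (lift A).comp (FreeGroup.map fun j => .inl (.inl j)) := by
          ext x; simp [A]
        have e2 : (i₁.comp ia).comp (lift b) =
            (lift B).comp (FreeGroup.map fun j => .inl (.inl j)) := by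
          ext x; simp [B]
        have e3 := DFunLike.congr_fun e1 k
        have e4 := DFunLike.congr_fun e2 k
        simp only [MonoidHom.comp_apply] at e3 e4 ⊢
        rw [e3, e4, hs]
      simp only [MonoidHom.comp_apply] at q1
      have : ψ.comp φ = g := by
        refine hI.hom_ext (fun x => by simp [p1, q1]) ?_
        rintro (k | k)
        · simpa [A, B, p2, q1, q2] using hs (FreeGroup.of (.inl (.inr k)))
        · have := hs (FreeGroup.of (.inr k))
          simp only [lift_apply_of, A, B, Sum.elim_inr] at this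
          simp [p3, q1, q2, ← this, mul_assoc]
      exact ⟨ψ, DFunLike.congr_fun this, q2⟩
  obtain ⟨r1, r2⟩ := double hA hB hH
  refine ⟨marker_good_congr (r1.sub (fun j => .inl (.inl j)) fun x y h => by simpa using h)
    fun j => p1 _, r2⟩

/-- The rules of the anchored system for conjugates of letters by powers of a further letter. -/
def markerRule {ι ν : Type} (lv : ν → ℕ) (lt : ν → ι) (c : ν × Bool) :
    List ((ι ⊕ Unit) × Bool) × FreeGroup ν × List ((ι ⊕ Unit) × Bool) :=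
  (List.replicate (lv c.1) (.inr (), true) ++ [(.inl (lt c.1), c.2)], FreeGroup.mk [c],
    List.replicate (lv c.1) (.inr (), true))

theorem marker_ev_replicate {A : Type} (φ : A → G) (n : ℕ) (a : A) :
    ev φ (List.replicate n a) = φ a ^ n := by
  simp [ev]

theorem marker_overlap {α : Type} {E c p q : α} (hE : p = E → q ≠ E) (hc : p = E → q ≠ c)
    {n : ℕ} {x z₁ z₂ : List α} (h : List.replicate n E ++ [c] ++ z₁ = x ++ [p, q] ++ z₂)
    (hx : x.length < n + 1) : x = List.replicate n E ∧ p = c ∧ z₁ = q :: z₂ := by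
  induction n generalizing x with
  | zero =>
    obtain rfl : x = [] := List.length_eq_zero_iff.1 (by omega)
    simp at h
    simp [h.1, h.2]
  | succ n ih =>
    cases x with
    | nil =>
      exfalso
      cases n with
      | zero => simp at h; exact hc h.1.symm h.2.1.symm
      | succ n => simp [List.replicate_succ] at h; exact hE h.1.symm h.2.1.symm
    | cons a x =>
      simp only [List.replicate_succ, List.cons_append, List.cons.injEq] at h
      obtain ⟨h1, h2, h3⟩ := ih h.2 (by simpa using hx)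
      exact ⟨by rw [h1, List.replicate_succ, h.1], h2, h3⟩

theorem marker_initial {α : Type} {E c c' : α} (hc : c ≠ E) (hc' : c' ≠ E) {n n' : ℕ}
    {z : List α} (h : List.replicate n E ++ [c] = List.replicate n' E ++ [c'] ++ z) :
    n = n' ∧ c = c' ∧ z = [] := by
  induction n generalizing n' with
  | zero =>
    cases n' with
    | zero => simpa using h
    | succ n' => exact absurd (List.cons.inj h).1 hc
  | succ n ih =>
    cases n' with
    | zero => simp [List.replicate_succ] at h; exact absurd h.1.symm hc'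
    | succ n' =>
      simp only [List.replicate_succ, List.cons_append, List.cons.injEq, true_and] at h
      simpa using ih h

theorem marker_anch (lv : ν → ℕ) (lt : ν → ι) (hinj : ∀ x y, lv x = lv y → lt x = lt y → x = y) :
    Nonempty (Anch (freeSys (ι ⊕ Unit)) (lift fun x : ν =>
      FreeGroup.of (Sum.inr ()) ^ lv x * FreeGroup.of (Sum.inl (lt x)) *
        (FreeGroup.of (Sum.inr ()) ^ lv x)⁻¹)) := by
  have sound : ∀ q ∈ Set.range (markerRule lv lt), ev (freeSys (ι ⊕ Unit)).φ q.1 =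
      (lift fun x : ν => FreeGroup.of (Sum.inr ()) ^ lv x * FreeGroup.of (Sum.inl (lt x)) *
        (FreeGroup.of (Sum.inr ()) ^ lv x)⁻¹) q.2.1 * ev (freeSys (ι ⊕ Unit)).φ q.2.2 := by
    rintro _ ⟨⟨x, b⟩, rfl⟩
    have e1 : ∀ j : ι ⊕ Unit, FreeGroup.mk [(j, true)] = FreeGroup.of j := fun _ => rfl
    have e2 : ∀ j : ι ⊕ Unit, FreeGroup.mk [(j, false)] = (FreeGroup.of j)⁻¹ := fun _ => rfl
    simp only [markerRule, ev_append, marker_ev_replicate, ev_singleton, lift_mk_single]
    cases b <;> simp [e1, e2, mul_assoc]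
  have wf : WellFounded fun v u =>
      AStep (freeSys (ι ⊕ Unit)).R (Set.range (markerRule lv lt)) u v := by
    refine Subrelation.wf (r := InvImage (· < ·) List.length) ?_ (InvImage.wf _ wellFounded_lt)
    rintro v u (⟨x, y, _, ⟨i, b, rfl⟩, rfl, rfl⟩ | ⟨_, ⟨c, rfl⟩, y, rfl, rfl⟩) <;>
      simp [InvImage, markerRule]
  refine ⟨⟨Set.range (markerRule lv lt), Set.finite_range _, ?_, sound, wf,
    uniq_of_lc sound wf (fun L hL k => ?_) ?_ ?_⟩⟩
  · rintro _ ⟨c, rfl⟩
    simp [markerRule]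
  · induction k with
    | C1 => exact L.one_mem
    | of x => exact hL _ ⟨(x, true), rfl⟩
    | inv_of x hx => exact L.inv_mem hx
    | mul x y hx hy => exact L.mul_mem hx hy
  · rintro _ ⟨⟨x, b⟩, rfl⟩ _ ⟨j, b', rfl⟩ w z₁ z₂ h hw hz
    obtain ⟨rfl, h2, rfl⟩ := marker_overlap (by rintro ⟨⟩; simp) (by rintro ⟨⟩; simp) h
      (by simpa [markerRule] using hw)
    obtain ⟨rfl, rfl⟩ := Prod.mk.inj h2
    obtain rfl : z₂ = [] := by simpa using hz
    refine ⟨_, .single (Or.inr ⟨_, ⟨(x, !b'), rfl⟩, [], by simp [markerRule], rfl⟩), ?_⟩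
    have : FreeGroup.mk [(x, b')] * FreeGroup.mk [(x, !b')] = 1 := by
      rw [FreeGroup.mul_mk]
      exact Quot.sound (by simp)
    simp only [markerRule, this, List.append_nil]
    exact .refl
  · rintro _ ⟨⟨x, b⟩, rfl⟩ _ ⟨⟨x', b'⟩, rfl⟩ z h
    obtain ⟨h1, h2, rfl⟩ := marker_initial (by simp) (by simp) h
    simp only [Prod.mk.injEq, Sum.inl.injEq] at h1 h2
    obtain rfl := hinj _ _ h1 h2.1
    obtain rfl := h2.2
    exact ⟨_, .refl, by simpa using ReflTransGen.refl⟩

theorem SGood.tGood [Nonempty ι] {y : ι → G} {e : G}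
    (h : SGood (Sum.elim y fun _ : Unit => e)) : TGood y := by
  obtain ⟨M, _, κ, _, i, f, h1, S, emb, hS⟩ := h
  obtain ⟨i₀⟩ := ‹Nonempty ι›
  obtain ⟨lv, hlv⟩ := Countable.exists_injective_nat (κ ⊕ Unit)
  obtain ⟨N⟩ := marker_anch (ν := ι ⊕ (κ ⊕ Unit)) (Sum.elim (fun _ => 0) fun k => lv k + 1)
    (Sum.elim id fun _ => i₀) (by
      rintro (x | x) (x' | x') e1 e2
      · simpa using e2
      · simp at e1
      · simp at e1
      · simpa using hlv (by simpa using e1))
  obtain ⟨N', -⟩ := N.exists_lift hS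
  obtain ⟨M', _, i', f', h2, h3⟩ := marker N' (V := FreeGroup.of)
    (Good.of_bijective (by rw [lift_of_eq_id]; exact bijective_id))
  refine ⟨M', inferInstance, κ ⊕ Unit, inferInstance, i'.comp i, _,
    fun k => e ^ (lv k + 1) * y i₀ * (e ^ (lv k + 1))⁻¹, h1.trans h2,
    marker_good_congr h3 ?_⟩
  rintro (x | x) <;> simp
end Marker

end Pool.Agent.MP_b9845b_al.H94
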