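import Pool.Agent.MP_b9845b_al.H94.Line
import Pool.Agent.MP_b9845b_al.H94.Marker

namespace Pool.Agent.MP_b9845b_al.H94

open Relation FreeGroup Function

/-- The letter at the lower level for `false` and at the upper level for `true`. -/
def llSel {Z : Type} {lo hi : Z → ℤ} (b : Bool) (p : LevE lo hi) : Lev lo hi :=
  match b with
  | false => p.dn
  | true => p.up

theorem llSel_injective {Z : Type} {lo hi : Z → ℤ} (b : Bool) :
    Injective (llSel b : LevE lo hi → Lev lo hi) := by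
  cases b
  · exact LevE.dn_injective
  · exact LevE.up_injective

theorem llSel_fst {Z : Type} {lo hi : Z → ℤ} (b : Bool) (p : LevE lo hi) :
    (llSel b p).1.1 = p.1.1 := by
  cases b <;> rfl

theorem llSel_snd_ne {Z : Type} {lo hi : Z → ℤ} (b : Bool) (p : LevE lo hi) :
    (llSel b p).1.2 ≠ if b then lo (llSel b p).1.1 else hi (llSel b p).1.1 := by
  have h1 := p.2.1
  have h2 := p.2.2
  cases b
  · show p.1.2 ≠ hi p.1.1
    omega
  · show p.1.2 + 1 ≠ lo p.1.1
    omega

theorem ll_subGood_sub {G ι ι' : Type} [Group G] [Finite ι] [Finite ι'] {S : Sys G} {y : ι → G}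
    {emb : ι × Bool → S.A} (h : SubGood S (freeSys ι) (lift y) emb) (σ : ι' → ι)
    (hσ : Injective σ) :
    SubGood S (freeSys ι') (lift fun j => y (σ j)) fun c => emb (σ c.1, c.2) := by
  refine ⟨fun a b hab => ?_, fun c => ?_, ?_, fun p hp c hc => ?_⟩
  · have := h.inj hab
    simp only [Prod.mk.injEq] at this
    exact Prod.ext (hσ this.1) this.2
  · rw [h.val]
    show lift y (mk [(σ c.1, c.2)]) = lift (fun j => y (σ j)) (mk [c])
    rw [lift_mk_single, lift_mk_single]
    rfl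
  · rintro _ ⟨j, b, rfl⟩
    exact h.rule _ ⟨σ j, b, rfl⟩
  · obtain ⟨_, ⟨j, b, rfl⟩, rfl⟩ := h.head p hp _ hc
    have h1 : (j, b) = (σ c.1, c.2) := h.inj (by simpa using hc)
    simp only [Prod.mk.injEq] at h1
    obtain ⟨rfl, rfl⟩ := h1
    exact ⟨_, ⟨c.1, c.2, rfl⟩, rfl⟩

/-- The line lemma for a Magnus splitting on levels; `x` is the omitted letter. -/
theorem line_levels {Z G H M κ F P ν : Type} [Finite Z] [Finite κ] [Finite ν] [Group G] [Group H]
    [Group M] [Group F] [Group P] (x : Z) {lo hi : Z → ℤ} {h : Lev lo hi → H} {f : H →* G} {t : G}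
    (hf : IsHNN (lift fun p : LevE lo hi => h p.dn) (lift fun p : LevE lo hi => h p.up) f t)
    {i : H →* M} {e : κ → M} (hM : IsFreeExt i e) (zz : Bool → Lev lo hi)
    (hzA : (zz false).1 = (x, hi x)) (hzB : (zz true).1 = (x, lo x)) (S : Bool → Sys M)
    (emb : ∀ b, {z // z ≠ zz b} × Bool → (S b).A)
    (hS : ∀ b, SubGood (S b) (freeSys _) (lift fun z : {z // z ≠ zz b} => i (h z.1)) (emb b))
    (kv : F →* H) (κF : {z : Lev lo hi // z.1.1 ≠ x} → F) (hκ : ∀ z, kv (κF z) = h z.1)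
    (N : ∀ b, Anch (S b) (i.comp kv))
    (hN : ∀ b, ∀ q ∈ (N b).P,
      (∃ (z : {z : Lev lo hi // z.1.1 ≠ x}) (hz : z.1 ≠ zz b) (ε : Bool),
        q = ([emb b (⟨z.1, hz⟩, ε)], sg κF (z, ε), [])) ∨
      ∃ z ε, emb b (z, ε) ∈ q.1 ∧ z.1.1.2 = if b then lo z.1.1.1 else hi z.1.1.1)
    (j : F →* P) (τ : P) (π : P →* G) (hπj : ∀ k, π (j k) = f (kv k)) (hπτ : π τ = t)
    (hgen : ∀ L : Subgroup P, (∀ k, j k ∈ L) → τ ∈ L → ∀ p, p ∈ L)
    (hj : ∀ z z' : {z : Lev lo hi // z.1.1 ≠ x}, z'.1.1 = (z.1.1.1, z.1.1.2 + 1) →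
      j (κF z') = τ⁻¹ * j (κF z) * τ)
    {V : ν → P} (hV : Good V) : SGood fun c => π (V c) := by
  obtain ⟨G', _, i', f', hfe, hH, hc⟩ := hf.freeExt hM
  have hne : ∀ b (p : LevE lo hi), llSel b p ≠ zz b := by
    intro b p hp
    apply llSel_snd_ne b p
    rw [hp]
    cases b
    · rw [hzA]; rfl
    · rw [hzB]; rfl
  let σ : ∀ b, LevE lo hi → {z // z ≠ zz b} := fun b p => ⟨llSel b p, hne b p⟩
  have hσ : ∀ b, Injective (σ b) := fun b p q hpq =>
    llSel_injective b (congrArg Subtype.val hpq)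
  let a : Bool → LevE lo hi → M := fun b p => i (h (llSel b p))
  have hS' : ∀ b, SubGood (S b) (freeSys (LevE lo hi)) (lift (a b))
      fun c => emb b (σ b c.1, c.2) := fun b => ll_subGood_sub (hS b) (σ b) (hσ b)
  have e0 : i.comp (lift fun p : LevE lo hi => h p.dn) = lift (a false) := by
    ext p; simp [a, llSel]
  have e1 : i.comp (lift fun p : LevE lo hi => h p.up) = lift (a true) := by
    ext p; simp [a, llSel]
  rw [e0, e1] at hH
  refine SGood.of_freeExt hfe (line a S (fun b c => emb b (σ b c.1, c.2)) hS' hH (i.comp kv) N j τ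
    (i'.comp π) (fun k => ?_) (by simp [hπτ]) hgen ?_ hV)
  · simp [hπj, hc]
  · intro b q hq u hu
    rcases hN b q hq with ⟨z, hz, ε, rfl⟩ | ⟨z, ε, hz, hz'⟩
    · obtain ⟨c, rfl⟩ : ∃ c, u = [c] := by
        have := congrArg List.length hu
        simp only [List.length_map, List.length_cons, List.length_nil] at this
        exact List.length_eq_one_iff.1 this.symm
      have h1 : ((⟨z.1, hz⟩ : {z // z ≠ zz b}), ε) = (σ b c.1, c.2) :=
        (hS b).inj (by simpa using hu)
      simp only [Prod.mk.injEq] at h1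
      obtain ⟨h1, rfl⟩ := h1
      have h2 : z.1 = llSel b c.1 := congrArg Subtype.val h1
      have h3 : (llSel (!b) c.1).1.1 ≠ x := by
        have := z.2
        rwa [h2, llSel_fst, ← llSel_fst (!b)] at this
      refine ⟨[], sg κF (⟨llSel (!b) c.1, h3⟩, c.2), rfl, ?_, ?_⟩
      · rcases c with ⟨p, _ | _⟩ <;> simp [a, hκ]
      · have h4 : j (κF ⟨llSel (!b) c.1, h3⟩) = (sgn τ b)⁻¹ * j (κF z) * sgn τ b := by
          cases b
          · exact hj z ⟨_, h3⟩ (by rw [h2]; rfl)
          · rw [hj ⟨_, h3⟩ z (by rw [h2]; rfl)]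
            simp [mul_assoc]
        rcases c with ⟨p, _ | _⟩
        · simp only [sg_false, _root_.map_inv, h4]
          simp [mul_assoc]
        · simpa using h4
    · exfalso
      rw [hu] at hz
      obtain ⟨c, -, hc'⟩ := List.mem_map.1 hz
      have h1 : (σ b c.1, c.2) = (z, ε) := (hS b).inj hc'
      simp only [Prod.mk.injEq] at h1
      obtain ⟨rfl, -⟩ := h1
      exact llSel_snd_ne b c.1 hz'

end Pool.Agent.MP_b9845b_al.H94
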