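import Pool.Agent.MP_b9845b_al.H94.LineDef

namespace Pool.Agent.MP_b9845b_al.H94

open Relation Function

section Hprod
variable {H G : Type} [Group H] [Group G] (f : H →* G) (t : G)

theorem hprod_nil (h : H) : hprod f t h [] = f h := by simp [hprod]

theorem hprod_cons (h : H) (ε : Bool) (g : H) (L : List (Bool × H)) :
    hprod f t h ((ε, g) :: L) = f h * sgn t ε * hprod f t g L := by
  simp [hprod, mul_assoc]

theorem hprod_mul (h h' : H) (L : List (Bool × H)) :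
    hprod f t (h * h') L = f h * hprod f t h' L := by
  simp [hprod, mul_assoc]

end Hprod

theorem ev_sg_step {G ι : Type} [Group G] (y : ι → G) {u v : List (ι × Bool)}
    (h : Step (freeR ι) u v) : ev (sg y) u = ev (sg y) v :=
  h.ev_eq (by rintro _ ⟨i, b, rfl⟩; simp [sg_not])

namespace LD
variable {H G F P ι : Type} [Group H] [Group G] [Group F] [Group P] [Finite ι] (D : LD H G F P ι)

/-- The normal form in the system of side `i`. -/
noncomputable def nf (i : Bool) (h : H) : List (D.S i).A := ((D.S i).exists_nf h).choose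

/-- Coset representatives. -/
def Tr (i : Bool) (h : H) : Prop := ∀ c, (D.nf i h).head? ≠ some (D.emb i c)

/-- Normal sequences. -/
def NL (L : List (Bool × H)) : Prop := HRed D.kk L ∧ ∀ p ∈ L, D.Tr (!p.1) p.2

/-- The first vertex element does not lie in the product of `K` and the edge group. -/
def ND (h : H) (L : List (Bool × H)) : Prop :=
  ∀ k, ∀ p ∈ L.head?, D.kv k * h ∉ (D.kk p.1).range

/-- The value of a sequence. -/
abbrev hp (h : H) (L : List (Bool × H)) : G := hprod D.f D.t h L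

variable {D}

theorem nf_irr (i : Bool) (h : H) : Irr (D.S i).R (D.nf i h) :=
  ((D.S i).exists_nf h).choose_spec.1

@[simp] theorem ev_nf (i : Bool) (h : H) : ev (D.S i).φ (D.nf i h) = h :=
  ((D.S i).exists_nf h).choose_spec.2

theorem nf_eq {i : Bool} {u : List (D.S i).A} (hu : Irr (D.S i).R u) :
    D.nf i (ev (D.S i).φ u) = u := (D.S i).inj _ _ (nf_irr _ _) hu (ev_nf _ _)

theorem kk_inj (i : Bool) : Injective (D.kk i) := (D.hS i).kv_injective

theorem Tr.uniq {i : Bool} {h h' : H} (a : D.Tr i h) (b : D.Tr i h') {z : FreeGroup ι}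
    (e : D.kk i z * h = h') : h = h' ∧ z = 1 := by
  obtain ⟨h1, h2⟩ := (D.hS i).uniq (nf_irr i h) (nf_irr i h') a b (k := z)
    (by rw [ev_nf, ev_nf]; exact e)
  exact ⟨by rw [← ev_nf (D := D) i h, h1, ev_nf], h2⟩

theorem Tr.nil {i : Bool} {h : H} (a : D.Tr i h) (b : h ∈ (D.kk i).range) : D.nf i h = [] := by
  obtain ⟨z, rfl⟩ := b
  exact ((D.hS i).uniq (D.S i).wf.irr_nil (nf_irr i _) (by simp) a (k := z) (by simp [kk])).1.symm

theorem NL.nil : D.NL [] := ⟨List.isChain_nil, by simp⟩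

theorem NL.tail {p : Bool × H} {L : List (Bool × H)} (h : D.NL (p :: L)) : D.NL L :=
  ⟨(List.isChain_cons.1 h.1).2, fun q hq => h.2 q (by simp [hq])⟩

theorem britton' {h h' g : H} {ε : Bool} {L L' : List (Bool × H)} (hL : HRed D.kk ((ε, g) :: L))
    (hL' : HRed D.kk L') (e : D.hp h ((ε, g) :: L) = D.hp h' L') :
    ∃ g' M z, L' = (ε, g') :: M ∧ h' = h * D.kk ε z := by
  obtain ⟨h1, h2, -⟩ := hG'.britton kk_inj hL hL' e
  obtain ⟨z, hz⟩ := h2 ε (by simp)
  cases L' with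
  | nil => simp at h1
  | cons p M =>
    obtain ⟨δ, g'⟩ := p
    simp only [List.map_cons, List.cons.injEq] at h1
    obtain ⟨rfl, -⟩ := h1
    exact ⟨g', M, z, rfl, by rw [hz, mul_inv_cancel_left]⟩

theorem nl_uniq {h h' : H} {L L' : List (Bool × H)} (hL : D.NL L) (hL' : D.NL L')
    (e : D.hp h L = D.hp h' L') : h = h' ∧ L = L' := by
  induction L generalizing h h' L' with
  | nil =>
    obtain ⟨h1, -, h3⟩ := hG'.britton kk_inj hL.1 hL'.1 e
    exact ⟨h3 rfl, (List.map_eq_nil_iff.1 h1.symm).symm⟩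
  | cons p L ih =>
    obtain ⟨ε, g⟩ := p
    obtain ⟨g', M, z, rfl, rfl⟩ := britton' hL.1 hL'.1 e
    have e' : D.hp g L = D.hp (D.kk (!ε) z * g') M := by
      rw [hp, hp, hprod_cons, hprod_cons, map_mul, mul_assoc (D.f h) (D.f _), ← sgn_kk] at e
      simpa [hp, hprod_mul, mul_assoc] using e
    obtain ⟨h1, rfl⟩ := ih hL.tail hL'.tail e'
    obtain ⟨h2, rfl⟩ := Tr.uniq (hL'.2 (ε, g') List.mem_cons_self)
      (hL.2 (ε, g) List.mem_cons_self) h1.symm
    dsimp only at h2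
    simp [h2]

theorem ev_emb (i : Bool) (u : List (ι × Bool)) :
    ev (D.S i).φ (u.map (D.emb i)) = ev (sg (D.a i)) u := by
  rw [ev_map]
  exact ev_congr _ fun c _ => by rw [phi_emb, kk, lift_mk_single]

theorem kk_mk (i : Bool) (u : List (ι × Bool)) : D.kk i (FreeGroup.mk u) = ev (sg (D.a i)) u :=
  lift_mk_eq_ev _ _

theorem dx (i : Bool) (u : List (ι × Bool)) : ∃ (u' : List (ι × Bool)) (k k' : F),
    AIrr (D.S i).R (D.N i).P (u'.map (D.emb i)) ∧
    ev (sg (D.a i)) u = D.kv k * ev (sg (D.a i)) u' ∧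
    ev (sg (D.a (!i))) u = D.kv k' * ev (sg (D.a (!i))) u' ∧
    D.j k' = (sgn D.τ i)⁻¹ * D.j k * sgn D.τ i := by
  induction u using WellFounded.induction (InvImage.wf (List.map (D.emb i)) (D.N i).wf) with
  | _ u ih =>
    rcases (D.N i).airr_or (u.map (D.emb i)) with hu | ⟨v, hv⟩
    · exact ⟨u, 1, 1, hu, by simp, by simp, by simp⟩
    · rcases id hv with hs | ⟨q, hq, y, h1, rfl⟩
      · rcases step_map_append (R := freeR ι) (v := []) (D.hS i).inj (D.S i).wf.ne_nil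
          (D.hS i).head (by simpa using hs) with ⟨v', h1 | ⟨x, h1, h2⟩, -⟩ | ⟨u₁, h1, rfl⟩
        · exact absurd h1 (irr_iff.1 (D.S i).wf.irr_nil _)
        · exact absurd (List.append_eq_nil_iff.1 h2.symm).1 h1
        · obtain ⟨u', k, k', a1, a2, a3, a4⟩ := ih u₁ (by simpa [InvImage] using hv)
          exact ⟨u', k, k', a1, by rw [ev_sg_step _ h1, a2], by rw [ev_sg_step _ h1, a3], a4⟩
      · obtain ⟨u₀, u₁, rfl, h2, rfl⟩ := List.map_eq_append_iff.1 h1
        obtain ⟨u₀', k₀, b1, b2, b3⟩ := D.compat i q hq u₀ h2.symm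
        have b4 := (D.N i).sound q hq
        rw [← h2, b1, ev_emb, ev_emb] at b4
        obtain ⟨u', k, k', a1, a2, a3, a4⟩ := ih (u₀' ++ u₁) (by simpa [InvImage, b1] using hv)
        rw [ev_append] at a2 a3
        refine ⟨u', q.2.1 * k, k₀ * k', a1, ?_, ?_, ?_⟩
        · rw [ev_append, b4, mul_assoc, a2, map_mul, mul_assoc]
        · rw [ev_append, b2, mul_assoc, a3, map_mul, mul_assoc]
        · simp [a4, b3, mul_assoc]

theorem detect {i : Bool} {h : H} (ha : AIrr (D.S i).R (D.N i).P (D.nf i h)) {k : F}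
    (hk : D.kv k * h ∈ (D.kk i).range) : h ∈ (D.kk i).range := by
  obtain ⟨⟨u⟩, hu⟩ := hk
  obtain ⟨u', k₁, -, a1, a2, -⟩ := dx (D := D) i u
  have hu' : ev (sg (D.a i)) u = D.kv k * h := (kk_mk i u).symm.trans hu
  obtain ⟨h1, -⟩ := (D.N i).uniq _ _ (k⁻¹ * k₁) a1 ha (by
    rw [ev_emb, ev_nf, map_mul, mul_assoc, ← a2, hu']; simp)
  exact ⟨FreeGroup.mk u', by rw [kk_mk, ← ev_emb, h1, ev_nf]⟩

theorem cross {i : Bool} {k : F} (hk : D.kv k ∈ (D.kk i).range) :
    ∃ k', D.j k' = (sgn D.τ i)⁻¹ * D.j k * sgn D.τ i := by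
  obtain ⟨⟨u⟩, hu⟩ := hk
  obtain ⟨u', k₁, k', a1, a2, -, a4⟩ := dx (D := D) i u
  have hu' : ev (sg (D.a i)) u = D.kv k := (kk_mk i u).symm.trans hu
  obtain ⟨-, h2⟩ := (D.N i).uniq _ _ (k⁻¹ * k₁) a1 (D.N i).airr_nil (by
    rw [ev_emb, map_mul, mul_assoc, ← a2, hu']; simp)
  rw [inv_mul_eq_one] at h2
  exact ⟨k', h2 ▸ a4⟩

theorem red_expr (q : P) : ∃ (k : F) (L : List (Bool × F)),
    HRed D.kk (L.map fun p => (p.1, D.kv p.2)) ∧ q = hprod D.j D.τ k L := by
  let Z : P → Prop := fun q => ∃ (k : F) (L : List (Bool × F)),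
    HRed D.kk (L.map fun p => (p.1, D.kv p.2)) ∧ q = hprod D.j D.τ k L
  let T : Subgroup P :=
    { carrier := {q | ∀ r, Z r → Z (q * r) ∧ Z (q⁻¹ * r)}
      one_mem' := fun r hr => by simpa using hr
      mul_mem' := fun {a b} ha hb r hr =>
        ⟨by rw [mul_assoc]; exact (ha _ (hb r hr).1).1,
          by rw [mul_inv_rev, mul_assoc]; exact (hb _ (ha r hr).2).2⟩
      inv_mem' := fun {a} ha r hr => ⟨(ha r hr).2, by simpa using (ha r hr).1⟩ }
  have h1 : ∀ k r, Z r → Z (D.j k * r) := by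
    rintro k _ ⟨k₀, L, hL, rfl⟩
    exact ⟨k * k₀, L, hL, by rw [hprod_mul]⟩
  have h2 : ∀ ε r, Z r → Z (sgn D.τ ε * r) := by
    rintro ε _ ⟨k₀, L, hL, rfl⟩
    by_cases hc : ∀ y ∈ (L.map fun p => (p.1, D.kv p.2)).head?,
        D.kv k₀ ∈ (D.kk (!ε)).range → ε = y.1
    · exact ⟨1, (ε, k₀) :: L, List.isChain_cons.2 ⟨hc, hL⟩, by simp [hprod_cons]⟩
    · push Not at hc
      obtain ⟨y, hy, h3, h4⟩ := hc
      cases L with
      | nil => simp at hy
      | cons p L =>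
        obtain ⟨δ, k₁⟩ := p
        obtain rfl : (δ, D.kv k₁) = y := by simpa using hy
        obtain rfl : δ = !ε := by cases ε <;> cases δ <;> simp_all
        obtain ⟨k', hk'⟩ := cross h3
        refine ⟨k' * k₁, L, (List.isChain_cons.1 hL).2, ?_⟩
        rw [hprod_cons, hprod_mul, hk', sgn_not]
        simp [mul_assoc]
  have h3 : q ∈ T := D.hgen T (fun k r hr => ⟨h1 k r hr, by simpa using h1 k⁻¹ r hr⟩)
    (fun r hr => ⟨h2 false r hr, h2 true r hr⟩) q
  simpa using (h3 1 ⟨1, [], List.isChain_nil, by simp [hprod_nil]⟩).1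

theorem glue {h : H} {L : List (Bool × H)} (hL : HRed D.kk L) (hd : D.ND h L)
    (M : List (Bool × F)) (ε : Bool) (k : F)
    (hM : HRed D.kk (((ε, k) :: M).map fun p => (p.1, D.kv p.2))) :
    ∃ g L', HRed D.kk ((ε, g) :: L') ∧ D.π (hprod D.j D.τ k M) * D.hp h L = D.hp g L' := by
  induction M generalizing ε k with
  | nil =>
    refine ⟨D.kv k * h, L, List.isChain_cons.2 ⟨fun y hy h1 => ?_, hL⟩,
      by simp [hprod_nil, hprod_mul, D.hπj]⟩
    by_contra h2
    have h3 : y.1 = !ε := by revert h2; cases ε <;> cases y.1 <;> simp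
    exact hd k y hy (h3 ▸ h1)
  | cons p M ih =>
    obtain ⟨δ, k₁⟩ := p
    obtain ⟨h1, h2⟩ := List.isChain_cons_cons.1 hM
    obtain ⟨g, L', a1, a2⟩ := ih δ k₁ h2
    refine ⟨D.kv k, (δ, g) :: L', List.isChain_cons_cons.2 ⟨h1, a1⟩, ?_⟩
    rw [hp, hp, hprod_cons, hprod_cons, map_mul, map_mul, D.hπj, pi_sgn, mul_assoc]
    exact congrArg _ a2

theorem claim0 {h h' : H} {L L' : List (Bool × H)} (hL : D.NL L) (hL' : D.NL L') (hd : D.ND h L)
    (hd' : D.ND h' L') {q : P} (e : D.π q * D.hp h L = D.hp h' L') :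
    ∃ k, q = D.j k ∧ D.kv k * h = h' ∧ L = L' := by
  obtain ⟨k, M, hM, rfl⟩ := red_expr (D := D) q
  cases M with
  | nil =>
    refine ⟨k, hprod_nil _ _ _, nl_uniq hL hL' ?_⟩
    rw [← e, hprod_nil, D.hπj, hp, hprod_mul]
  | cons p M =>
    obtain ⟨ε, k₁⟩ := p
    obtain ⟨g, L₁, a1, a2⟩ := glue hL.1 hd M ε k₁ hM
    obtain ⟨g', M', z, rfl, rfl⟩ := britton' (h := D.kv k) (h' := h') a1 hL'.1 (by
      rw [← e, hp, hprod_cons, hprod_cons, map_mul, map_mul, D.hπj, pi_sgn,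
        mul_assoc _ _ (D.hp h L), a2])
    exact absurd ⟨z, by simp⟩ (hd' k⁻¹ _ rfl)

end LD

end Pool.Agent.MP_b9845b_al.H94
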