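import Pool.Agent.MP_b9845b_al.H94.LineDef

namespace Pool.Agent.MP_b9845b_al.H94

open Relation Function

namespace LD
variable {H G F P ι : Type} [Group H] [Group G] [Group F] [Group P] [Finite ι] (D : LD H G F P ι)

/-- The rules after erasing the letters `k`, sorted by level and kind. -/
inductive TR : ℕ → Bool → List D.L → List D.L → Prop
  | q {l r : List D.Q.A} : (l, r) ∈ D.Q.R → TR 0 false (l.map .p) (r.map .p)
  | s2 (i : Bool) {l r : List (D.S i).A} : (l, r) ∈ (D.S i).R →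
      TR 0 false (l.map (.x2 i)) (r.map (.x2 i))
  | s3 (i : Bool) {l r : List (D.S i).A} : (l, r) ∈ (D.S i).R →
      TR 0 false (l.map (.x3 i)) (r.map (.x3 i))
  | ex (i : Bool) {l r : List (D.S i).A} {κ : F} : (l, κ, r) ∈ (D.N i).P →
      TR 1 false (.e i :: l.map (.x2 i)) (D.wp (D.j κ) ++ .e i :: r.map (.x2 i))
  | t3x (i j : Bool) (c : ι × Bool) :
      TR 2 false [.t3 i, .x3 j (D.emb j c)] [.x3 i (D.emb i c), .t3 i]
  | i3x (i j : Bool) (y : (D.S j).A) :
      TR 2 false [.i3 i, .x3 j y] (((D.S i).word ((D.S j).φ y)).map (.x3 i) ++ [.i3 i])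
  | t3t (i j : Bool) : TR 2 true [.t3 i, .t3 j] []
  | i3i (i j : Bool) : TR 2 true [.i3 i, .i3 j] []
  | xi2 (i j : Bool) (y : (D.S i).A) :
      TR 3 false [.x2 i y, .i2 i] (.i2 i :: ((D.S j).word ((D.S i).φ y)).map (.x2 j))
  | xt1 (i j : Bool) (c : ι × Bool) :
      TR 3 false [.x2 i (D.emb i c), .t1 i] [.t1 i, .x2 j (D.emb j c)]
  | i2i (i j : Bool) : TR 3 true [.i2 i, .i2 j] []
  | t1t (i j : Bool) : TR 3 true [.t1 i, .t1 j] []
  | et (i j : Bool) : TR 3 true [.e i, .t1 i] (D.wp (sgn D.τ i) ++ [.e j])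
  | ei (i j : Bool) : TR 3 true [.e i, .i2 i] [.e j]
  | mx (i : Bool) (y : (D.S i).A) : TR 4 false [.m i, .x3 i y] [.x2 i y, .m i]
  | mi (i j : Bool) : TR 4 false [.m i, .i3 i] [.i2 i, .m j]
  | mt (i j : Bool) : TR 4 false [.m i, .t3 i] [.t1 i, .m j]

/-- Rules of level below `n`. -/
def TT (n : ℕ) : Rules D.L := {p | ∃ n' < n, ∃ b, D.TR n' b p.1 p.2}

/-- Rules of level `n` and kind `b`. -/
def TK (n : ℕ) (b : Bool) : Rules D.L := {p | D.TR n b p.1 p.2}

variable {D}

@[simp] def lev : D.L → ℕ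
  | .p _ => 0
  | .e _ => 1
  | .x1 _ _ => 5
  | .t1 _ => 3
  | .k _ => 5
  | .x2 _ _ => 0
  | .i2 _ => 3
  | .m _ => 4
  | .x3 _ _ => 0
  | .i3 _ => 2
  | .t3 _ => 2

theorem TT_succ (n : ℕ) : D.TT (n + 1) ⊆ D.TT n ∪ D.TK n false ∪ D.TK n true := by
  rintro p ⟨n', h1, b, h2⟩
  rcases Nat.lt_succ_iff_lt_or_eq.1 h1 with h | rfl
  · exact Or.inl (Or.inl ⟨n', h, b, h2⟩)
  · cases b
    · exact Or.inl (Or.inr h2)
    · exact Or.inr h2

theorem lev_p {a : D.L} {w : List D.Q.A} (h : a ∈ w.map .p) : lev a = 0 := by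
  obtain ⟨_, -, rfl⟩ := List.mem_map.1 h; rfl
theorem lev_x2 {a : D.L} {i : Bool} {w : List (D.S i).A} (h : a ∈ w.map (.x2 i)) : lev a = 0 := by
  obtain ⟨_, -, rfl⟩ := List.mem_map.1 h; rfl
theorem lev_x3 {a : D.L} {i : Bool} {w : List (D.S i).A} (h : a ∈ w.map (.x3 i)) : lev a = 0 := by
  obtain ⟨_, -, rfl⟩ := List.mem_map.1 h; rfl
theorem lev_wp {a : D.L} {g : P} (h : a ∈ D.wp g) : lev a = 0 := lev_p h

theorem TR.lev_le {n : ℕ} {b : Bool} {l r : List D.L} (h : D.TR n b l r) :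
    (∀ a ∈ l, lev a ≤ n) ∧ ∀ a ∈ r, lev a ≤ n := by
  cases h <;> simp only [wp, List.forall_mem_cons, List.forall_mem_append, List.forall_mem_map] <;>
    simp

theorem TT_free {n : ℕ} : ∀ p ∈ D.TT n, ∀ a, lev a = n → a ∉ p.1 ∧ a ∉ p.2 := by
  rintro p ⟨n', h1, b, h2⟩ a ha
  exact ⟨fun h => by have := h2.lev_le.1 a h; omega, fun h => by have := h2.lev_le.2 a h; omega⟩

theorem x2_inj (i : Bool) : Injective (L.x2 i : _ → D.L) := fun _ _ h => by simpa using h
theorem x3_inj (i : Bool) : Injective (L.x3 i : _ → D.L) := fun _ _ h => by simpa using h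
theorem x1_inj (i : Bool) : Injective (L.x1 i : _ → D.L) := fun _ _ h => by simpa using h
theorem p_inj : Injective (L.p : _ → D.L) := fun _ _ h => by simpa using h

theorem wf1 : WFR (D.TT 1) := by
  have h1 : WFR (mapR (L.x3 true : _ → D.L) (D.S true).R) := (D.S true).wf.mapR (x3_inj _)
  have h2 := (D.S false).wf.union_mapR (x3_inj false) h1 (by rintro _ ⟨q, -, rfl⟩ b; simp)
  have h3 := (D.S true).wf.union_mapR (x2_inj true) h2
    (by rintro _ (⟨q, -, rfl⟩ | ⟨q, -, rfl⟩) b <;> simp)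
  have h4 := (D.S false).wf.union_mapR (x2_inj false) h3
    (by rintro _ (⟨q, -, rfl⟩ | ⟨q, -, rfl⟩ | ⟨q, -, rfl⟩) b <;> simp)
  have h5 := D.Q.wf.union_mapR p_inj h4
    (by rintro _ (⟨q, -, rfl⟩ | ⟨q, -, rfl⟩ | ⟨q, -, rfl⟩ | ⟨q, -, rfl⟩) b <;> simp)
  refine h5.mono ?_
  rintro ⟨l, r⟩ ⟨n, h1, b, h2⟩
  obtain rfl : n = 0 := by omega
  dsimp only at h2
  cases h2 with
  | q h => exact Or.inl (mem_mapR _ h)
  | s2 i h =>
    cases i
    · exact Or.inr (Or.inl (mem_mapR _ h))
    · exact Or.inr (Or.inr (Or.inl (mem_mapR _ h)))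
  | s3 i h =>
    cases i
    · exact Or.inr (Or.inr (Or.inr (Or.inl (mem_mapR _ h))))
    · exact Or.inr (Or.inr (Or.inr (Or.inr (mem_mapR _ h))))

/-- The order used for the segment after a letter `e i`. -/
def eOrd : D.L → List D.L → List D.L → Prop
  | .e i, v, u => AStep (D.S i).R (D.N i).P (proj (L.x2 i) u) (proj (L.x2 i) v) ∨
      (proj (L.x2 i) v = proj (L.x2 i) u ∧ Step (D.TT 1) u v)
  | _, _, _ => False

theorem eOrd_wf (γ : D.L) : WellFounded (eOrd γ) := by
  cases γ with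
  | e i => exact wf_lex2 (proj (L.x2 i)) (D.N i).wf wf1 fun a b h => h
  | _ => exact ⟨fun u => Acc.intro _ fun _ h => h.elim⟩

theorem wf2 : WFR (D.TT 2) := by
  refine WFR.mono (wfr_carrier (fun a : D.L => lev a = 1) (wf_state eOrd eOrd_wf) wf1 TT_free
    ?_ ?_ ?_) (TT_succ 1)
  · intro γ u v hγ h
    refine ⟨rfl, ?_⟩
    cases γ with
    | e i =>
      obtain ⟨x, y, ⟨l, r⟩, hp, rfl, rfl⟩ := id h
      obtain ⟨n, h1, b, h2⟩ := hp
      obtain rfl : n = 0 := by omega
      dsimp only at h2 h ⊢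
      cases h2 with
      | q h2 =>
        refine Or.inr ⟨?_, h⟩
        simp only [proj_append]
        rw [proj_eq_nil (u := List.map _ _) (by simp), proj_eq_nil (u := List.map _ _) (by simp)]
      | s3 i' h2 =>
        refine Or.inr ⟨?_, h⟩
        simp only [proj_append]
        rw [proj_eq_nil (u := List.map _ _) (by simp), proj_eq_nil (u := List.map _ _) (by simp)]
      | s2 i' h2 =>
        by_cases hi : i' = i
        · subst hi
          refine Or.inl (Or.inl ?_)
          simp only [proj_append, proj_map (x2_inj i')]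
          exact Step.of_mem h2 _ _
        · refine Or.inr ⟨?_, h⟩
          simp only [proj_append]
          rw [proj_eq_nil (u := List.map _ _) (by simp [hi]),
            proj_eq_nil (u := List.map _ _) (by simp [hi])]
    | _ => simp at hγ
  · rintro ⟨l, r⟩ h
    change D.TR 1 false l r at h
    cases h with
    | ex i h =>
      refine ⟨[], .e i, _, _, .e i, _, rfl, rfl, rfl, fun a ha => ⟨by simp, fun h => ?_, fun h => ?_,
        fun h => ?_⟩, fun y => ⟨rfl, Or.inl (Or.inr ⟨_, h, proj (L.x2 i) y, ?_, ?_⟩)⟩⟩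
      · have := lev_x2 h; omega
      · have := lev_wp h; omega
      · have := lev_x2 h; omega
      · simp [proj_append, proj_map (x2_inj i)]
      · simp [proj_append, proj_map (x2_inj i)]
  · rintro ⟨l, r⟩ h
    change D.TR 1 true l r at h
    cases h

theorem wf3 : WFR (D.TT 3) := by
  refine WFR.mono (wfr_carrier_left (fun a : D.L => lev a = 2) wf2 TT_free ?_ ?_) (TT_succ 2)
  · rintro ⟨l, r⟩ h
    change D.TR 2 false l r at h
    cases h with
    | t3x i j c =>
      refine ⟨[], .t3 i, [_], [_], .t3 i, rfl, rfl, rfl, by simp, fun a ha => ?_⟩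
      cases a <;> simp at ha ⊢
    | i3x i j y =>
      refine ⟨[], .i3 i, [_], _, .i3 i, rfl, rfl, rfl, by simp, fun a ha => ?_⟩
      cases a <;> simp at ha ⊢
  · rintro ⟨l, r⟩ h
    change D.TR 2 true l r at h
    cases h <;> simp

theorem countP_wp (g : P) (n : ℕ) : (D.wp g).countP (fun a => lev a = n + 1) = 0 := by
  rw [List.countP_eq_zero]
  intro a ha
  rw [lev_wp ha]
  simp

theorem wf4 : WFR (D.TT 4) := by
  refine WFR.mono (wfr_carrier_right (fun a : D.L => lev a = 3) wf3 TT_free ?_ ?_) (TT_succ 3)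
  · rintro ⟨l, r⟩ h
    change D.TR 3 false l r at h
    cases h with
    | xi2 i j c =>
      refine ⟨.i2 i, [_], _, .i2 i, rfl, rfl, rfl, by simp, fun a ha => ?_⟩
      cases a <;> simp at ha ⊢
    | xt1 i j y =>
      refine ⟨.t1 i, [_], _, .t1 i, rfl, rfl, rfl, by simp, fun a ha => ?_⟩
      cases a <;> simp at ha ⊢
  · rintro ⟨l, r⟩ h
    change D.TR 3 true l r at h
    cases h with
    | et i j =>
      rw [List.countP_append, countP_wp _ 2]
      simp
    | _ => simp

theorem wf5 : WFR (D.TT 5) := by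
  refine WFR.mono (wfr_carrier_left (fun a : D.L => lev a = 4) wf4 TT_free ?_ ?_) (TT_succ 4)
  · rintro ⟨l, r⟩ h
    change D.TR 4 false l r at h
    cases h with
    | mx i y =>
      refine ⟨[], .m i, [_], [_], .m i, rfl, rfl, rfl, by simp, fun a ha => ?_⟩
      cases a <;> simp at ha ⊢
    | mi i j =>
      refine ⟨[], .m i, [_], [_], .m j, rfl, rfl, rfl, by simp, fun a ha => ?_⟩
      cases a <;> simp at ha ⊢
    | mt i j =>
      refine ⟨[], .m i, [_], [_], .m j, rfl, rfl, rfl, by simp, fun a ha => ?_⟩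
      cases a <;> simp at ha ⊢
  · rintro ⟨l, r⟩ h
    change D.TR 4 true l r at h
    cases h

/-- Erase `k`, and read `x1` as `x2`. -/
@[simp] def pr1 : D.L → List D.L
  | .k _ => []
  | .x1 i c => [.x2 i (D.emb i c)]
  | .p y => [.p y]
  | .e i => [.e i]
  | .t1 i => [.t1 i]
  | .x2 i s => [.x2 i s]
  | .i2 i => [.i2 i]
  | .m i => [.m i]
  | .x3 i s => [.x3 i s]
  | .i3 i => [.i3 i]
  | .t3 i => [.t3 i]

theorem flatMap_map_single {α β : Type} (g : β → List β) (e e' : α → β) (h : ∀ a, g (e a) = [e' a])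
    (w : List α) : (w.map e).flatMap g = w.map e' := by
  induction w with
  | nil => rfl
  | cons a w ih => simp [h, ih]

theorem pr_p (w : List D.Q.A) : (w.map L.p).flatMap pr1 = w.map L.p :=
  flatMap_map_single pr1 _ _ (fun _ => by simp) w
theorem pr_wp (g : P) : (D.wp g).flatMap pr1 = D.wp g := pr_p _
theorem pr_x2 {i : Bool} (w : List (D.S i).A) : (w.map (L.x2 i)).flatMap pr1 = w.map (L.x2 i) :=
  flatMap_map_single pr1 _ _ (fun _ => by simp) w
theorem pr_x3 {i : Bool} (w : List (D.S i).A) : (w.map (L.x3 i)).flatMap pr1 = w.map (L.x3 i) :=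
  flatMap_map_single pr1 _ _ (fun _ => by simp) w
theorem pr_x1 {i : Bool} (w : List (ι × Bool)) :
    (w.map (L.x1 i)).flatMap pr1 = (w.map (D.emb i)).map (L.x2 i) := by
  rw [List.map_map]
  exact flatMap_map_single pr1 _ _ (fun _ => by simp) w

theorem Rule.pr {l r : List D.L} (h : D.Rule l r) :
    (l.flatMap pr1, r.flatMap pr1) ∈ D.TT 5 ∨ (r.flatMap pr1 = l.flatMap pr1 ∧
      r.countP (fun a => lev a = 0) < l.countP fun a => lev a = 0) := by
  have key : ∀ {n b l r}, D.TR n b l r → n < 5 → (l, r) ∈ D.TT 5 := fun h hn => ⟨_, hn, _, h⟩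
  cases h with
  | kx i c => exact Or.inr (by simp)
  | q h => exact Or.inl (by rw [pr_p, pr_p]; exact key (.q h) (by omega))
  | s2 i h => exact Or.inl (by rw [pr_x2, pr_x2]; exact key (.s2 i h) (by omega))
  | s3 i h => exact Or.inl (by rw [pr_x3, pr_x3]; exact key (.s3 i h) (by omega))
  | f1 i z b => exact Or.inl (key (.s2 i ((D.hS i).rule _ ⟨z, b, rfl⟩)) (by omega))
  | t3x i j h c => exact Or.inl (key (.t3x i j c) (by omega))
  | t3t i j h => exact Or.inl (key (.t3t i j) (by omega))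
  | i3x i j h y =>
    exact Or.inl (by rw [List.flatMap_append, pr_x3]; exact key (.i3x i j y) (by omega))
  | i3i i j h => exact Or.inl (key (.i3i i j) (by omega))
  | xi2 i j h y =>
    refine Or.inl ?_
    simp only [List.flatMap_cons, pr_x2]
    exact key (.xi2 i j y) (by omega)
  | i2i i j h => exact Or.inl (key (.i2i i j) (by omega))
  | xt1 i j h c => exact Or.inl (key (.xt1 i j c) (by omega))
  | t1t i j h => exact Or.inl (key (.t1t i j) (by omega))
  | xki i j h c =>
    refine Or.inl ?_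
    simp only [List.flatMap_cons, pr_x2]
    exact key (.xi2 i j _) (by omega)
  | mx i y => exact Or.inl (key (.mx i y) (by omega))
  | mi i j h => exact Or.inl (key (.mi i j) (by omega))
  | kmt i j h => exact Or.inl (key (.mt i j) (by omega))
  | ex i h =>
    refine Or.inl ?_
    simp only [List.flatMap_cons, List.flatMap_append, pr_x1, pr_wp]
    exact key (.ex i h) (by omega)
  | ek i _ h =>
    refine Or.inl ?_
    simp only [List.flatMap_cons, List.flatMap_append, pr_x1, pr_x2, pr_wp]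
    simpa using key (.ex i h) (by omega)
  | et i j h =>
    refine Or.inl ?_
    simp only [List.flatMap_append, pr_wp]
    exact key (.et i j) (by omega)
  | eki i j h => exact Or.inl (key (.ei i j) (by omega))

theorem wf : WFR D.R := by
  refine wf_lex2 (fun w : List D.L => w.flatMap pr1) wf5
    (InvImage.wf (fun w : List D.L => w.countP fun a => lev a = 0) wellFounded_lt) ?_
  rintro v u ⟨x, y, p, hp, rfl, rfl⟩
  simp only [List.flatMap_append, InvImage, List.countP_append]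
  rcases Rule.pr hp with h | ⟨h1, h2⟩
  · exact Or.inl (Step.of_mem h _ _)
  · exact Or.inr ⟨by rw [h1], by omega⟩

end LD

end Pool.Agent.MP_b9845b_al.H94
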