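import Pool.Agent.MP_b9845b_al.H94.Marker
import Pool.Agent.MP_b9845b_al.H94.GoodB

namespace Pool.Agent.MP_b9845b_al.H94

open Relation FreeGroup Function

section OR
variable {X X' G : Type} [Group G]

theorem or_map_lift {K : Type} [Group K] (ψ : G →* K) (g : X → G) (s : FreeGroup X) :
    ψ (lift g s) = lift (fun x => ψ (g x)) s :=
  lift_unique (ψ.comp (lift g)) fun x => by simp

theorem or_lift_of {K : Type} [Group K] (φ : FreeGroup X →* K) (s : FreeGroup X) :
    lift (fun x => φ (of x)) s = φ s := (lift_unique φ fun _ => rfl).symm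

theorem or_lift_map {K : Type} [Group K] (e : X → X') (g : X' → K) (s : FreeGroup X) :
    lift g (FreeGroup.map e s) = lift (fun x => g (e x)) s :=
  lift_unique ((lift g).comp (FreeGroup.map e)) fun x => by simp

theorem or_lift_mem (L : Subgroup G) {g : X → G} (h : ∀ x, g x ∈ L) (s : FreeGroup X) :
    lift g s ∈ L :=
  range_lift_le (s := L) (by rintro _ ⟨x, rfl⟩; exact h x) ⟨s, rfl⟩

theorem isOR_presented (r : FreeGroup X) :
    IsOR r (PresentedGroup.of : X → PresentedGroup ({r} : Set (FreeGroup X))) := by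
  refine ⟨?_, fun L hL γ => PresentedGroup.generated_by _ L hL γ, fun K _ h hr => ?_⟩
  · exact (or_lift_of (PresentedGroup.mk {r}) r).trans (PresentedGroup.one_of_mem rfl)
  · exact ⟨PresentedGroup.toGroup (f := h) (by rintro _ rfl; exact hr),
      fun x => PresentedGroup.toGroup.of _⟩

theorem IsOR.hom_ext {K : Type} [Group K] {r : FreeGroup X} {g : X → G} (h : IsOR r g)
    {ψ ψ' : G →* K} (h1 : ∀ x, ψ (g x) = ψ' (g x)) : ψ = ψ' :=
  MonoidHom.ext fun γ => h.gen (ψ.eqLocus ψ') h1 γ

theorem IsOR.conj {r r' : FreeGroup X} {g : X → G} (h : IsOR r g) (hc : IsConj r r') :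
    IsOR r' g := by
  refine ⟨?_, h.gen, fun K _ k hk => h.univ K k ?_⟩
  · have := (lift g).map_isConj hc
    rw [h.rel] at this
    exact isConj_one_right.1 this
  · have := (lift k).map_isConj hc
    rw [hk] at this
    exact isConj_one_left.1 this

theorem IsOR.aut {r : FreeGroup X} {g : X → G} (h : IsOR r g) (υ : FreeGroup X ≃* FreeGroup X') :
    IsOR (υ r) fun x => lift g (υ.symm (of x)) := by
  have key : ∀ s, lift (fun x => lift g (υ.symm (of x))) s = lift g (υ.symm s) := fun s =>
    or_lift_of ((lift g).comp (υ.symm : FreeGroup X' →* FreeGroup X)) s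
  refine ⟨by rw [key, υ.symm_apply_apply, h.rel], fun L hL => h.gen L fun x => ?_,
    fun K _ k hk => ?_⟩
  · have := or_lift_mem L hL (υ (of x))
    rwa [key, υ.symm_apply_apply, lift_apply_of] at this
  · have key2 : ∀ s, lift (fun x => lift k (υ (of x))) s = lift k (υ s) := fun s =>
      or_lift_of ((lift k).comp (υ : FreeGroup X →* FreeGroup X')) s
    obtain ⟨ψ, hψ⟩ := h.univ K (fun x => lift k (υ (of x))) (by rw [key2, hk])
    refine ⟨ψ, fun x => ?_⟩
    rw [or_map_lift]
    simp only [hψ]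
    rw [key2, υ.apply_symm_apply, lift_apply_of]

theorem IsOR.freeExt {M κ : Type} [Group M] {r : FreeGroup X} {g : X → G} (h : IsOR r g)
    {i : G →* M} {f : κ → M} (hM : IsFreeExt i f) :
    IsOR (FreeGroup.map Sum.inl r) (Sum.elim (fun x => i (g x)) f) := by
  refine ⟨?_, fun L hL => hM.gen L (fun γ => ?_) fun k => hL (Sum.inr k), fun K _ k hk => ?_⟩
  · rw [or_lift_map]
    exact (or_map_lift i g r).symm.trans (by rw [h.rel, _root_.map_one])
  · exact h.gen (L.comap i) (fun x => hL (Sum.inl x)) γ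
  · rw [or_lift_map] at hk
    obtain ⟨ψ, hψ⟩ := h.univ K _ hk
    obtain ⟨χ, h1, h2⟩ := hM.univ K ψ fun j => k (Sum.inr j)
    refine ⟨χ, ?_⟩
    rintro (x | j)
    · exact (h1 _).trans (hψ x)
    · exact h2 j

/-- Letters that do not occur in the relator split off as a free factor. -/
theorem IsOR.split {X₀ κ : Type} (e : X₀ ⊕ κ ≃ X) {r₀ : FreeGroup X₀} {g : X → G}
    (h : IsOR (FreeGroup.map (fun x => e (Sum.inl x)) r₀) g) {G₀ : Type} [Group G₀] {g₀ : X₀ → G₀}
    (h₀ : IsOR r₀ g₀) :
    ∃ i : G₀ →* G, (∀ x, i (g₀ x) = g (e (Sum.inl x))) ∧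
      IsFreeExt i fun k => g (e (Sum.inr k)) := by
  obtain ⟨i, hi⟩ := h₀.univ G (fun x => g (e (Sum.inl x))) (by rw [← h.rel, or_lift_map])
  refine ⟨i, hi, fun L h1 h2 => h.gen L fun x => ?_, fun K _ g' s => ?_⟩
  · obtain ⟨x | k, rfl⟩ := e.surjective x
    · exact hi x ▸ h1 _
    · exact h2 k
  · obtain ⟨ψ, hψ⟩ := h.univ K (fun x => Sum.elim (fun y => g' (g₀ y)) s (e.symm x)) (by
      rw [or_lift_map]
      simp only [Equiv.symm_apply_apply, Sum.elim_inl]
      rw [← or_map_lift, h₀.rel, _root_.map_one])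
    refine ⟨ψ, fun γ => ?_, fun k => by simp [hψ]⟩
    have : ψ.comp i = g' := h₀.hom_ext fun x => by simp [hi, hψ]
    exact DFunLike.congr_fun this γ

theorem IsOR.finite [Subsingleton X] {r : FreeGroup X} {g : X → G} (h : IsOR r g) (hr : r ≠ 1) :
    Finite G := by
  rcases isEmpty_or_nonempty X with hX | ⟨⟨x⟩⟩
  · refine absurd ?_ hr
    have := or_lift_mem (⊥ : Subgroup (FreeGroup X)) (g := of) (fun x => hX.elim x) r
    rwa [lift_of_apply, Subgroup.mem_bot] at this
  · have h1 := or_lift_mem (Subgroup.zpowers (of x)) (g := of)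
      (fun y => Subsingleton.elim x y ▸ Subgroup.mem_zpowers _) r
    rw [lift_of_apply] at h1
    obtain ⟨n, rfl⟩ := h1
    have hn : n ≠ 0 := by
      rintro rfl
      exact hr (zpow_zero _)
    have h2 : g x ^ n = 1 := by simpa using h.rel
    have h3 : IsOfFinOrder (g x) := isOfFinOrder_iff_zpow_eq_one.2 ⟨n, hn, h2⟩
    have h4 : ∀ γ, γ ∈ Subgroup.zpowers (g x) :=
      h.gen _ fun y => Subsingleton.elim x y ▸ Subgroup.mem_zpowers _
    exact Set.finite_univ_iff.1 (h3.finite_zpowers.subset fun γ _ => h4 γ)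

theorem exists_cyc (w : List (X × Bool)) :
    ∃ w', IsCyclicallyReduced w' ∧ IsConj (mk w') (mk w) ∧ w'.length ≤ w.length ∧
      ∀ c ∈ w', c ∈ w := by
  classical
  have h1 := reduceCyclically.conj_conjugator_reduceCyclically (reduce w)
  have h2 : List.Sublist (reduceCyclically (reduce w)) w := by
    refine List.Sublist.trans ?_ (reduce.red (L := w)).sublist
    conv_rhs => rw [← h1]
    exact (List.sublist_append_right _ _).trans (List.sublist_append_left _ _)
  refine ⟨reduceCyclically (reduce w),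
    reduceCyclically.isCyclicallyReduced (isReduced_iff_reduce_eq.2 reduce.idem), ?_,
    h2.length_le, fun c hc => h2.subset hc⟩
  refine isConj_iff.2 ⟨mk (reduceCyclically.conjugator (reduce w)), ?_⟩
  rw [inv_mk, mul_mk, mul_mk, h1, reduce.self]

theorem or_mk_mem_omit {x : X} {w : List (X × Bool)} (h : ∀ c ∈ w, c.1 ≠ x) :
    mk w ∈ omitSub x := by
  induction w with
  | nil => exact one_mem _
  | cons c w ih =>
    have h1 : of c.1 ∈ omitSub x := Subgroup.subset_closure ⟨c.1, h c (by simp), rfl⟩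
    have h2 : mk (c :: w) = mk [c] * mk w := by rw [mul_mk]; rfl
    rw [h2]
    refine mul_mem ?_ (ih fun d hd => h d (by simp [hd]))
    obtain ⟨y, _ | _⟩ := c
    · exact inv_mem h1
    · exact h1

theorem or_word_of_mem_omit {x : X} {s : FreeGroup X} (h : s ∈ omitSub x) :
    ∃ w, mk w = s ∧ ∀ c ∈ w, c.1 ≠ x := by
  induction h using Subgroup.closure_induction with
  | mem s hs =>
    obtain ⟨y, hy, rfl⟩ := hs
    exact ⟨[(y, true)], rfl, by simpa using hy⟩
  | one => exact ⟨[], rfl, by simp⟩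
  | mul s t _ _ hs ht =>
    obtain ⟨u, rfl, hu⟩ := hs
    obtain ⟨v, rfl, hv⟩ := ht
    exact ⟨u ++ v, mul_mk.symm, fun c hc => (List.mem_append.1 hc).elim (hu c) (hv c)⟩
  | inv s _ hs =>
    obtain ⟨u, rfl, hu⟩ := hs
    refine ⟨invRev u, inv_mk.symm, fun c hc => ?_⟩
    simp only [invRev, List.mem_reverse, List.mem_map] at hc
    obtain ⟨d, hd, rfl⟩ := hc
    exact hu d hd

theorem ess_iff {w : List (X × Bool)} (hw : IsCyclicallyReduced w) (x : X) :
    Ess x (mk w) ↔ ∃ b, (x, b) ∈ w := by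
  classical
  constructor
  · intro h
    by_contra hc
    refine h _ (or_mk_mem_omit (w := w) ?_) (IsConj.refl _)
    rintro ⟨y, b⟩ hy rfl
    exact hc ⟨b, hy⟩
  · rintro ⟨b, hb⟩ s hs hc
    obtain ⟨g', hg⟩ := isConj_iff.1 hc
    obtain ⟨g, rfl⟩ : ∃ g, mk g = g' := ⟨_, mk_toWord⟩
    set n := 2 * g.length + 1 with hn
    obtain ⟨u, hu, hux⟩ := or_word_of_mem_omit (pow_mem hs n)
    have h1 : mk (g ++ u ++ invRev g) = mk (List.replicate n w).flatten := by
      rw [← pow_mk, ← hg, ← mul_mk, ← mul_mk, ← inv_mk, hu, conj_pow]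
    have h2 : List.Sublist (List.replicate n w).flatten (g ++ u ++ invRev g) := by
      rw [← (hw.flatten_replicate n).isReduced.reduce_eq, ← reduce.sound h1]
      exact reduce.red.sublist
    have h3 := h2.countP_le (p := fun c => decide (c.1 = x))
    have h4 : u.countP (fun c => decide (c.1 = x)) = 0 :=
      List.countP_eq_zero.2 fun c hc => by simpa using hux c hc
    have h5 : 0 < w.countP (fun c => decide (c.1 = x)) :=
      List.countP_pos_iff.2 ⟨(x, b), hb, by simp⟩
    have h6 := List.countP_le_length (l := g) (p := fun c => decide (c.1 = x))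
    have h7 := List.countP_le_length (l := invRev g) (p := fun c => decide (c.1 = x))
    rw [List.countP_flatten, List.map_replicate, List.sum_replicate, List.countP_append,
      List.countP_append, h4, smul_eq_mul] at h3
    rw [invRev_length] at h7
    have h8 : n ≤ n * w.countP (fun c => decide (c.1 = x)) := Nat.le_mul_of_pos_right _ h5
    omega

theorem Ess.conj {x : X} {r r' : FreeGroup X} (h : Ess x r) (hc : IsConj r r') : Ess x r' :=
  fun s hs h' => h s hs (h'.trans hc.symm)

theorem or_map_omit {K : Type} [Group K] {x : X} (φ : FreeGroup X →* K) (L : Subgroup K)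
    (h : ∀ y, y ≠ x → φ (of y) ∈ L) {s : FreeGroup X} (hs : s ∈ omitSub x) : φ s ∈ L := by
  refine Subgroup.mem_comap.1 ((Subgroup.closure_le (L.comap φ)).2 ?_ hs)
  rintro _ ⟨y, hy, rfl⟩
  exact h y hy

theorem Ess.aut {x : X} {x' : X'} {r : FreeGroup X} (h : Ess x r) (υ : FreeGroup X ≃* FreeGroup X')
    (hυ : ∀ y, y ≠ x' → υ.symm (of y) ∈ omitSub x) : Ess x' (υ r) := by
  intro s hs hc
  refine h _ (or_map_omit (υ.symm : FreeGroup X' →* FreeGroup X) _ hυ hs) ?_
  simpa using (υ.symm : FreeGroup X' →* FreeGroup X).map_isConj hc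

open Classical in
/-- The retraction that kills the letter `x`. -/
noncomputable def orKill (x : X) : FreeGroup X →* FreeGroup {y // y ≠ x} :=
  lift fun y => if h : y = x then 1 else of ⟨y, h⟩

theorem orKill_of {x : X} (y : {y // y ≠ x}) : orKill x (of y.1) = of y := by
  simp [orKill, y.2]

theorem or_incl_kill {x : X} {s : FreeGroup X} (hs : s ∈ omitSub x) :
    FreeGroup.map Subtype.val (orKill x s) = s := by
  refine or_map_omit (MonoidHom.id _) (((FreeGroup.map Subtype.val).comp (orKill x)).eqLocus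
    (MonoidHom.id _)) (fun y hy => ?_) hs
  change FreeGroup.map Subtype.val (orKill x (of y)) = of y
  rw [orKill_of ⟨y, hy⟩, map.of]

/-- An endomorphism read on the letters other than `x`, extended by the identity. -/
noncomputable def orExt (x : X) (κ : Type) (α : FreeGroup X →* FreeGroup X) :
    {y // y ≠ x} ⊕ κ → FreeGroup ({y // y ≠ x} ⊕ κ) :=
  Sum.elim (fun y => FreeGroup.map Sum.inl (orKill x (α (of y.1)))) fun k => of (Sum.inr k)

theorem orExt_inv {x : X} {κ : Type} {α β : FreeGroup X →* FreeGroup X}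
    (hβ : ∀ y, y ≠ x → β (of y) ∈ omitSub x) (h : ∀ s, α (β s) = s)
    (t : FreeGroup ({y // y ≠ x} ⊕ κ)) : lift (orExt x κ α) (lift (orExt x κ β) t) = t := by
  have key : ∀ t : FreeGroup {y // y ≠ x}, lift (orExt x κ α) (FreeGroup.map Sum.inl t) =
      FreeGroup.map Sum.inl (orKill x (α (FreeGroup.map Subtype.val t))) := fun t => by
    rw [or_lift_map]
    exact (lift_unique ((FreeGroup.map Sum.inl).comp ((orKill x).comp
      (α.comp (FreeGroup.map Subtype.val)))) fun y => by simp [orExt]).symm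
  have : (lift (orExt x κ α)).comp (lift (orExt x κ β)) = MonoidHom.id _ := by
    ext (y | k)
    · simp only [MonoidHom.comp_apply, lift_apply_of, MonoidHom.id_apply]
      change lift (orExt x κ α) (FreeGroup.map Sum.inl (orKill x (β (of y.1)))) = _
      rw [key, or_incl_kill (hβ y.1 y.2), h, orKill_of, map.of]
    · simp [orExt]
  exact DFunLike.congr_fun this t

/-- Change of basis in the Magnus subgroup, with extra elements `e`. -/
theorem SGood.basis_change [Finite X] {κ : Type} [Finite κ] (g : X → G) (x : X) (e : κ → G)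
    (ω : FreeGroup X ≃* FreeGroup X) (h1 : ∀ y, y ≠ x → ω (of y) ∈ omitSub x)
    (h2 : ∀ y, y ≠ x → ω.symm (of y) ∈ omitSub x)
    (h : SGood (Sum.elim (fun y : {y // y ≠ x} => lift g (ω (of y.1))) e)) :
    SGood (Sum.elim (fun y : {y // y ≠ x} => g y.1) e) := by
  have hb : Bijective (lift (orExt x κ (ω.symm : FreeGroup X →* FreeGroup X))) :=
    bijective_iff_has_inverse.2 ⟨lift (orExt x κ (ω : FreeGroup X →* FreeGroup X)),
      orExt_inv h2 ω.apply_symm_apply, orExt_inv h1 ω.symm_apply_apply⟩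
  have h3 := h.trans (Good.of_bijective hb).sGood
  convert h3 using 2 with j
  rcases j with y | k
  · have key : ∀ t : FreeGroup {y // y ≠ x},
        lift (Sum.elim (fun y : {y // y ≠ x} => lift g (ω (of y.1))) e) (FreeGroup.map Sum.inl t) =
          lift g (ω (FreeGroup.map Subtype.val t)) := fun t => by
      rw [or_lift_map]
      exact (lift_unique ((lift g).comp ((ω : FreeGroup X →* FreeGroup X).comp
        (FreeGroup.map Subtype.val))) fun y => by simp).symm
    change g y.1 = lift _ (FreeGroup.map Sum.inl (orKill x (ω.symm (of y.1))))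
    rw [key, or_incl_kill (h2 y.1 y.2), ω.apply_symm_apply, lift_apply_of]
  · simp [orExt]

theorem exists_lev_word {Z : Type} (lo hi : Z → ℤ) (w : List ((Z × ℤ) × Bool))
    (h : ∀ c ∈ w, lo c.1.1 ≤ c.1.2 ∧ c.1.2 ≤ hi c.1.1) :
    ∃ w' : List (Lev lo hi × Bool), w'.map (fun c => (c.1.1, c.2)) = w := by
  induction w with
  | nil => exact ⟨[], rfl⟩
  | cons c w ih =>
    obtain ⟨w', hw'⟩ := ih fun d hd => h d (by simp [hd])
    exact ⟨(⟨c.1, h c (by simp)⟩, c.2) :: w', by rw [List.map_cons, hw']⟩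

theorem isCyc_of_map {Y : Type} (e : X → Y) {w : List (X × Bool)}
    (h : IsCyclicallyReduced (w.map fun c => (e c.1, c.2))) : IsCyclicallyReduced w := by
  obtain ⟨h1, h2⟩ := h
  refine ⟨?_, fun a ha b hb hab => ?_⟩
  · rw [FreeGroup.IsReduced, List.isChain_map] at h1
    exact h1.imp fun a b hab h => hab (congrArg e h)
  · refine h2 (e a.1, a.2) ?_ (e b.1, b.2) ?_ (congrArg e hab)
    · rw [List.getLast?_map, Option.mem_def.1 ha]
      rfl
    · rw [List.head?_map, Option.mem_def.1 hb]
      rfl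
end OR

end Pool.Agent.MP_b9845b_al.H94
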