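import Pool.Agent.MP_b9845b_al.H94.CaseA
import Pool.Agent.MP_b9845b_al.H94.LineLev
import Pool.Agent.MP_b9845b_al.H94.FinIdx

namespace Pool.Agent.MP_b9845b_al.H94

open Relation FreeGroup Function

/-- A free reduction system on fewer letters is a good subsystem. -/
theorem st_subFree {ι ι' : Type} [Finite ι] [Finite ι'] {σ : ι' → ι} (hσ : Injective σ) :
    SubGood (freeSys ι) (freeSys ι') (FreeGroup.map σ) fun c => (σ c.1, c.2) := by
  refine ⟨fun c d h => ?_, fun c => by simp, ?_, ?_⟩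
  · simp only [Prod.mk.injEq] at h
    exact Prod.ext (hσ h.1) h.2
  · rintro _ ⟨i, b, rfl⟩
    exact ⟨σ i, b, rfl⟩
  · rintro _ ⟨i, b, rfl⟩ ⟨j, c⟩ h
    simp only [List.head?_cons, Option.some.injEq, Prod.mk.injEq] at h
    obtain ⟨rfl, rfl⟩ := h
    exact ⟨_, ⟨j, b, rfl⟩, rfl⟩

theorem st_path {L L' O : Type} {src tgt : L → O} (e : L' → L) {w : List L'} {u v : O}
    (h : Path src tgt u (w.map e) v) : Path (fun a => src (e a)) (fun a => tgt (e a)) u w v := by
  induction w generalizing u with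
  | nil => cases h; exact .nil _
  | cons a w ih =>
    cases h with
    | cons h1 h2 => exact .cons h1 (ih h2)

theorem st_sg_of {ι : Type} (c : ι × Bool) : sg (of : ι → FreeGroup ι) c = FreeGroup.mk [c] := by
  rw [← lift_mk_single, lift_of_eq_id]
  rfl

theorem st_range {α : Type} (l : List α) (v : α → ℤ) (hl : l ≠ []) :
    ∃ a ∈ l, ∃ b ∈ l, ∀ c ∈ l, v a ≤ v c ∧ v c ≤ v b := by
  have hne : {c | c ∈ l}.Nonempty := List.exists_mem_of_ne_nil l hl
  obtain ⟨a, ha, ha'⟩ := Set.exists_min_image _ v (List.finite_toSet l) hne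
  obtain ⟨b, hb, hb'⟩ := Set.exists_max_image _ v (List.finite_toSet l) hne
  exact ⟨a, ha, b, hb, fun c hc => ⟨ha' c hc, hb' c hc⟩⟩

/-- The relator is a power of one letter. -/
theorem st_one {X G : Type} [Finite X] [Group G] {w : List (X × Bool)} {g : X → G}
    (hG : IsOR (mk w) g) {x : X} (hx : Ess x (mk w)) (hw : ∀ c ∈ w, c.1 = x) :
    SGood fun y : {y // y ≠ x} => g y.1 := by
  classical
  let e : {y // y = x} ⊕ {y // ¬ y = x} ≃ X := Equiv.sumCompl fun y => y = x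
  let w₀ : List ({y // y = x} × Bool) := w.map fun c => (⟨x, rfl⟩, c.2)
  have hw₀ : FreeGroup.map (fun y => e (Sum.inl y)) (mk w₀) = mk w := by
    rw [FreeGroup.map.mk]
    congr 1
    simp only [w₀, List.map_map]
    conv_rhs => rw [← List.map_id w]
    refine List.map_congr_left fun c hc => Prod.ext ?_ rfl
    exact (hw c hc).symm
  obtain ⟨i, -, hi⟩ := IsOR.split e (r₀ := mk w₀) (hw₀ ▸ hG) (isOR_presented (mk w₀))
  have hne : mk w₀ ≠ 1 := by
    intro h
    rw [h, _root_.map_one] at hw₀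
    exact hx 1 (one_mem _) (hw₀ ▸ IsConj.refl _)
  have := (isOR_presented (mk w₀)).finite hne
  have h1 := (Good.of_finite fun k : Empty =>
    (k.elim : PresentedGroup ({mk w₀} : Set (FreeGroup {y // y = x})))).freeExt hi
  exact (h1.sub Sum.inr Sum.inr_injective).sGood

/-- Removing an edge that is not a loop shortens the relator. -/
theorem st_gauge {Y V H : Type} [Finite Y] [Group H] {ρ : List (Y × Bool)} {h : Y → H}
    (hH : IsOR (mk ρ) h) (src tgt : Y → V) {z₀ z : Y} (hz : src z₀ ≠ tgt z₀) {v : V}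
    (hρ : Path (ssrc src tgt) (stgt src tgt) v ρ v) (hzz : z₀ ≠ z) (h0 : ∃ b, (z₀, b) ∈ ρ)
    (hE : Ess z (mk ρ))
    (ih : ∀ (ρ' : List (Y × Bool)) (h' : Y → H), ρ'.length < ρ.length → IsOR (mk ρ') h' →
      Ess z (mk ρ') → SGood fun y : {y // y ≠ z} => h' y.1) :
    SGood fun y : {y // y ≠ z} => h y.1 := by
  classical
  obtain ⟨ω, h1, h2, hc⟩ := gauge src tgt z₀ hz hρ
  have hsub : ∀ y, y ≠ z → Subgroup.closure {of y, of z₀} ≤ omitSub z := by
    intro y hy
    refine Subgroup.closure_mono ?_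
    rintro _ (rfl | rfl)
    · exact ⟨y, hy, rfl⟩
    · exact ⟨z₀, hzz, rfl⟩
  have hH' := (hH.conj hc.symm).aut ω.symm
  have hE' := (hE.conj hc.symm).aut (x' := z) ω.symm fun y hy => hsub y hy (h1 y)
  rw [MulEquiv.symm_apply_apply] at hH' hE'
  have hl : (ρ.filter fun c => c.1 ≠ z₀).length < ρ.length := by
    obtain ⟨b, hb⟩ := h0
    exact List.length_filter_lt_length_iff_exists.2 ⟨_, hb, by simp⟩
  have h3 := (ih _ _ hl hH' hE').sub (Sum.elim id Empty.elim : {y // y ≠ z} ⊕ Empty → _) (by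
    rintro (a | a) (b | b) hab
    · exact congrArg _ hab
    all_goals first | exact a.elim | exact b.elim)
  have h4 := SGood.basis_change h z (Empty.elim : Empty → H) ω (fun y hy => hsub y hy (h1 y))
    (fun y hy => hsub y hy (h2 y)) (by
      convert h3 using 2 with c
      rcases c with c | c
      · rfl
      · exact c.elim)
  exact h4.sub Sum.inl Sum.inl_injective

/-- The line step: from the two Magnus subgroups of the vertex group to the Magnus subgroup of the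
group itself. -/
theorem st_line {X G G₁ H : Type} [Finite X] [Group G] [Group G₁] [Group H] {g : X → G} (x : X)
    (θ : X → ℤ) {i : G →* G₁} {s : Unit → G₁} (hi : IsFreeExt i s) {lo hi' : X → ℤ}
    (hlo : ∀ z, lo z ≤ hi' z) {h : Lev lo hi' → H} {f : H →* G₁}
    (hfh : ∀ z, f (h z) = s () ^ (-z.1.2) * (i (g z.1.1) * s () ^ θ z.1.1) * s () ^ z.1.2)
    (hf : IsHNN (lift fun p : LevE lo hi' => h p.dn) (lift fun p : LevE lo hi' => h p.up) f (s ()))
    (zz : Bool → Lev lo hi') (hzA : (zz false).1 = (x, hi' x)) (hzB : (zz true).1 = (x, lo x))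
    (hS : ∀ b, SGood fun z : {z // z ≠ zz b} => h z.1) :
    SGood fun y : {y // y ≠ x} => g y.1 := by
  obtain ⟨M, _, κ, _, i', e, hM, hA, hB⟩ := (hS false).common (hS true)
  have hG : ∀ b, Good fun z : {z // z ≠ zz b} => i' (h z.1) := by
    rintro (_ | _)
    exacts [hA, hB]
  choose S emb hSG using hG
  have hzx : ∀ b, (zz b).1.1 = x := by
    rintro (_ | _)
    · rw [hzA]
    · rw [hzB]
  have hne : ∀ b (z : {z : Lev lo hi' // z.1.1 ≠ x}), z.1 ≠ zz b := fun b z hz =>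
    z.2 (hz ▸ hzx b)
  let kv : FreeGroup {z : Lev lo hi' // z.1.1 ≠ x} →* H := lift fun z => h z.1
  have hN : ∀ b, ∃ N : Anch (S b) (i'.comp kv), N.P =
      {q | ∃ c : {z : Lev lo hi' // z.1.1 ≠ x} × Bool,
        q = ([emb b (⟨c.1.1, hne b c.1⟩, c.2)], FreeGroup.mk [c], [])} := by
    intro b
    have h1 := (hSG b).trans (st_subFree
      (σ := fun z : {z : Lev lo hi' // z.1.1 ≠ x} => (⟨z.1, hne b z⟩ : {z // z ≠ zz b}))
      fun z z' hz => Subtype.ext (congrArg (fun u : {z // z ≠ zz b} => u.1) hz))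
    have h2 := h1.congr (kv' := i'.comp kv) (FreeGroup.ext_hom _ _ fun z => by simp [kv])
    exact exists_anch_of_subGood h2
  choose N hN using hN
  let τ : FreeGroup ({y // y ≠ x} ⊕ Unit) := of (Sum.inr ())
  let j : FreeGroup {z : Lev lo hi' // z.1.1 ≠ x} →* FreeGroup ({y // y ≠ x} ⊕ Unit) :=
    lift fun z => τ ^ (-z.1.1.2) * (of (Sum.inl ⟨z.1.1.1, z.2⟩) * τ ^ θ z.1.1.1) * τ ^ z.1.1.2
  let π : FreeGroup ({y // y ≠ x} ⊕ Unit) →* G₁ := lift (Sum.elim (fun y => i (g y.1)) s)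
  have hπτ : π τ = s () := by simp [π, τ]
  have hV : Good fun y : {y // y ≠ x} => (of (Sum.inl y) : FreeGroup ({y // y ≠ x} ⊕ Unit)) :=
    (Good.of_bijective (y := (of : _ → FreeGroup ({y // y ≠ x} ⊕ Unit)))
      (by rw [lift_of_eq_id]; exact bijective_id)).sub Sum.inl Sum.inl_injective
  have key := line_levels x hf hM zz hzA hzB S emb hSG kv of (fun z => by simp [kv]) N
    (fun b q hq => by
      rw [hN b] at hq
      obtain ⟨c, rfl⟩ := hq
      exact Or.inl ⟨c.1, hne b c.1, c.2, by rw [st_sg_of]⟩)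
    j τ π (fun k => ?_) hπτ (fun L hL hτ p => ?_) (fun z z' hz => ?_) hV
  · refine SGood.of_freeExt hi ?_
    convert key using 2 with y
    simp [π]
  · have : π.comp j = f.comp kv := FreeGroup.ext_hom _ _ fun z => by
      simp only [MonoidHom.comp_apply, j, kv, lift_apply_of, _root_.map_mul, map_zpow, hπτ, hfh]
      simp [π]
    exact DFunLike.congr_fun this k
  · have : Subgroup.closure (Set.range (of : _ → FreeGroup ({y // y ≠ x} ⊕ Unit))) ≤ L := by
      rw [Subgroup.closure_le]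
      rintro _ ⟨y | y, rfl⟩
      · have h1 := hL (of ⟨⟨(y.1, lo y.1), le_rfl, hlo _⟩, y.2⟩)
        simp only [j, lift_apply_of] at h1
        have h2 := L.mul_mem (L.mul_mem (L.mul_mem (L.zpow_mem hτ (lo y.1)) h1)
          (L.zpow_mem hτ (-lo y.1))) (L.zpow_mem hτ (-θ y.1))
        have h3 : (of (Sum.inl y) : FreeGroup ({y // y ≠ x} ⊕ Unit)) =
            τ ^ lo y.1 * (τ ^ (-lo y.1) * (of (Sum.inl y) * τ ^ θ y.1) * τ ^ lo y.1) *
              τ ^ (-lo y.1) * τ ^ (-θ y.1) := by group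
        exact h3 ▸ h2
      · exact hτ
    exact this (by rw [FreeGroup.closure_range_of]; trivial)
  · obtain ⟨⟨⟨y, l⟩, hz1⟩, hz2⟩ := z
    obtain ⟨⟨⟨y', l'⟩, hz1'⟩, hz2'⟩ := z'
    simp only [Prod.mk.injEq] at hz
    obtain ⟨rfl, rfl⟩ := hz
    simp only [j, lift_apply_of]
    group

theorem st_aux (n : ℕ) : ∀ {X G : Type} [Finite X] [Group G] {w : List (X × Bool)} {g : X → G},
    w.length = n → IsOR (mk w) g → ∀ {x : X}, Ess x (mk w) →
      SGood fun y : {y // y ≠ x} => g y.1 := by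
  induction n using Nat.strong_induction_on with
  | _ n ih =>
  intro X G _ _ w₀ g hn hG₀ x hx₀
  classical
  obtain ⟨w, hw, hc, hl, -⟩ := exists_cyc w₀
  have hG := hG₀.conj hc.symm
  have hx := hx₀.conj hc.symm
  rw [hn] at hl
  clear hG₀ hx₀ hc hn w₀
  by_cases h0 : expo x (mk w) = 0
  · obtain ⟨Z, ι, H, _, _, _, ρ, h, dn, up, zA, zB, f, σ, c, hl', hH, hA, hB, hdn, hup, hdA, huB,
      hσ, hf, hc⟩ := caseA hG hx h0
    have h1 := (ih _ (hl'.trans_le hl) rfl hH hA).sub (fun i => ⟨dn i, hdA i⟩)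
      fun i j hij => hdn (congrArg Subtype.val hij)
    have h2 := (ih _ (hl'.trans_le hl) rfl hH hB).sub (fun i => ⟨up i, huB i⟩)
      fun i j hij => hup (congrArg Subtype.val hij)
    have := ((SGood.hnn h1 h2 hf).sub σ hσ).equiv (MulAut.conj c)
    convert this using 2 with y
    exact hc y
  by_cases hone : ∀ c ∈ w, c.1 = x
  · exact st_one hG hx hone
  push Not at hone
  obtain ⟨⟨a, ε⟩, ha, hax⟩ := hone
  let θ : X → ℤ := fun y =>
    if y = a then expo x (mk w) else if y = x then -expo a (mk w) else 0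
  have hθ : degW θ w = 0 := by
    have := degW_two w hax
    convert this
  obtain ⟨G₁, _, i, s, hi⟩ := exists_freeExt G Unit
  have hG₁ := hG.twist θ hθ hi
  have hmap := liftW_map_fst θ 0 w
  have hpath := liftW_path θ 0 w
  rw [hθ, add_zero] at hpath
  generalize liftW θ 0 w = ρ at hG₁ hmap hpath
  have hmem : ∀ c ∈ w, ∃ l, ((c.1, l), c.2) ∈ ρ := by
    intro c hc
    rw [← hmap] at hc
    obtain ⟨d, hd, rfl⟩ := List.mem_map.1 hc
    exact ⟨d.1.2, hd⟩
  obtain ⟨b₀, hb₀⟩ := (ess_iff hw x).1 hx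
  obtain ⟨l₀, hl₀⟩ := hmem _ hb₀
  obtain ⟨la, hla⟩ := hmem _ ha
  obtain ⟨p, -, q, -, hpq⟩ := st_range ρ (fun c => c.1.2) (List.ne_nil_of_mem hl₀)
  obtain ⟨p', hp', q', hq', hpq'⟩ := st_range (ρ.filter fun c => c.1.1 = x) (fun c => c.1.2)
    (List.ne_nil_of_mem (List.mem_filter.2 ⟨hl₀, by simp⟩))
  simp only [List.mem_filter, decide_eq_true_eq] at hp' hq' hpq'
  let lo : X → ℤ := fun y => if y = x then p'.1.2 else p.1.2
  let hi' : X → ℤ := fun y => if y = x then q'.1.2 else q.1.2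
  have hlo : ∀ y, lo y ≤ hi' y := by
    intro y
    simp only [lo, hi']
    split_ifs
    · exact (hpq' _ hq').1
    · exact (hpq _ hl₀).1.trans (hpq _ hl₀).2
  have hbd : ∀ c ∈ ρ, lo c.1.1 ≤ c.1.2 ∧ c.1.2 ≤ hi' c.1.1 := by
    intro c hc
    simp only [lo, hi']
    split_ifs with h
    · exact hpq' c ⟨hc, h⟩
    · exact hpq c hc
  obtain ⟨ρ', hρ'⟩ := exists_lev_word lo hi' ρ hbd
  have hmem' : ∀ c (hc : c ∈ ρ), ((⟨c.1, hbd c hc⟩ : Lev lo hi'), c.2) ∈ ρ' := by
    intro c hc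
    have hc' := hc
    rw [← hρ'] at hc'
    obtain ⟨d, hd, rfl⟩ := List.mem_map.1 hc'
    exact hd
  have hcyc : IsCyclicallyReduced ρ' := by
    refine isCyc_of_map (fun z : Lev lo hi' => z.1) ?_
    rw [hρ']
    refine isCyc_of_map Prod.fst ?_
    rw [hmap]
    exact hw
  have hlen : ρ'.length = w.length := by
    rw [← hmap, ← hρ']
    simp
  have hH := isOR_presented (mk ρ')
  obtain ⟨f, hfh, hf⟩ := levels_hnn hG₁ hlo (ρ := mk ρ')
    (by rw [← hρ']; exact IsConj.refl _) hH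
  let zz : Bool → Lev lo hi' := fun b =>
    if b then ⟨p'.1, hbd _ hp'.1⟩ else ⟨q'.1, hbd _ hq'.1⟩
  have hzA : (zz false).1 = (x, hi' x) := Prod.ext hq'.2 (by simp [zz, hi'])
  have hzB : (zz true).1 = (x, lo x) := Prod.ext hp'.2 (by simp [zz, lo])
  refine st_line x θ hi hlo hfh hf zz hzA hzB fun b => ?_
  have hzx : (zz b).1.1 = x := by
    cases b
    · rw [hzA]
    · rw [hzB]
  have hE : Ess (zz b) (mk ρ') := by
    refine (ess_iff hcyc _).2 ?_
    cases b
    · exact ⟨_, hmem' _ hq'.1⟩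
    · exact ⟨_, hmem' _ hp'.1⟩
  rw [← hρ'] at hpath
  refine st_gauge hH (fun z : Lev lo hi' => z.1.2) (fun z => z.1.2 + θ z.1.1)
    (z₀ := ⟨(a, la), hbd _ hla⟩) ?_ (st_path (fun c : Lev lo hi' × Bool => (c.1.1, c.2)) hpath) ?_ ⟨_, hmem' _ hla⟩ hE
    fun ρ'' h' hl' hH' hE' => ih _ (by omega) rfl hH' hE'
  · simpa [θ] using h0
  · intro h
    exact hax (by rw [← hzx, ← h])

theorem st {X G : Type} [Finite X] [Group G] {r : FreeGroup X} {g : X → G} (hG : IsOR r g) {x : X}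
    (hx : Ess x r) : SGood fun y : {y // y ≠ x} => g y.1 := by
  classical
  obtain ⟨w, rfl⟩ : ∃ w, mk w = r := ⟨r.toWord, mk_toWord⟩
  exact st_aux _ rfl hG hx

end Pool.Agent.MP_b9845b_al.H94
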