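import Pool.Agent.MP_b9845b_al.H94.ST
import Pool.Agent.MP_b9845b_al.H94.CF

namespace Pool.Agent.MP_b9845b_al.H94

open Relation FreeGroup Function

theorem tp_gen {α : Type} (L : Subgroup (FreeGroup α)) (h : ∀ a, of a ∈ L) (k : FreeGroup α) :
    k ∈ L := by
  induction k using FreeGroup.induction_on with
  | C1 => exact L.one_mem
  | of a => exact h a
  | inv_of a ih => exact L.inv_mem ih
  | mul a b ha hb => exact L.mul_mem ha hb

theorem tp_lift_mem {α G : Type} [Group G] (L : Subgroup G) (y : α → G) (h : ∀ a, y a ∈ L)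
    (k : FreeGroup α) : lift y k ∈ L :=
  tp_gen (L.comap (lift y)) (fun a => by simpa using h a) k

theorem tp_sub {G ι ι' : Type} [Group G] [Finite ι] [Finite ι'] {S : Sys G} {U : ι → G}
    {emb : ι × Bool → S.A} (h : SubGood S (freeSys ι) (lift U) emb) (σ : ι' → ι)
    (hσ : Injective σ) :
    SubGood S (freeSys ι') (lift fun i => U (σ i)) fun c => emb (σ c.1, c.2) := by
  refine ⟨fun c c' hc => ?_, fun c => ?_, ?_, fun p hp c hc => ?_⟩
  · have := h.inj hc
    simp only [Prod.mk.injEq] at this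
    exact Prod.ext (hσ this.1) this.2
  · rw [h.val]
    simp only [lift_mk_single]
    rcases c with ⟨i, _ | _⟩ <;> rfl
  · rintro _ ⟨i, b, rfl⟩
    exact h.rule _ ⟨σ i, b, rfl⟩
  · obtain ⟨_, ⟨i, b, rfl⟩, rfl⟩ := h.head p hp _ hc
    have := h.inj (Option.some.inj hc)
    simp only [Prod.mk.injEq] at this
    obtain ⟨rfl, rfl⟩ := this
    exact ⟨_, ⟨c.1, c.2, rfl⟩, rfl⟩

theorem tp_push {H₀ H M₀ κ κ' : Type} [Group H₀] [Group H] [Group M₀] {i₀ : H₀ →* H} {a : κ' → H}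
    (h₀ : IsFreeExt i₀ a) {i : H₀ →* M₀} {f : κ → M₀} (h₁ : IsFreeExt i f) :
    ∃ (M : Type) (_ : Group M) (iH : H →* M) (i₁ : M₀ →* M), (∀ g, iH (i₀ g) = i₁ (i g)) ∧
      IsFreeExt iH (fun k => i₁ (f k)) ∧ IsFreeExt i₁ fun k => iH (a k) := by
  obtain ⟨M, _, iH, e, hM⟩ := exists_freeExt H κ
  obtain ⟨i₁, h1, h2⟩ := h₁.univ M (iH.comp i₀) e
  refine ⟨M, inferInstance, iH, i₁, fun g => (h1 g).symm, by simpa only [h2] using hM,
    fun L hL hL' => ?_, fun K _ g s => ?_⟩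
  · refine hM.gen L (h₀.gen (L.comap iH) (fun g => ?_) hL') fun k => h2 k ▸ hL _
    have := hL (i g)
    rwa [h1] at this
  · obtain ⟨ψ₀, e1, e2⟩ := h₀.univ K (g.comp i) s
    obtain ⟨ψ, e3, e4⟩ := hM.univ K ψ₀ fun k => g (f k)
    refine ⟨ψ, fun m => ?_, fun k => by rw [e3, e2]⟩
    have : ψ.comp i₁ = g := h₁.hom_ext (fun x => by simp [h1, e3, e1]) fun k => by simp [h2, e4]
    exact DFunLike.congr_fun this m

theorem tp_side {Y M₀ M : Type} [Finite Y] [Group M₀] [Group M] (a : Bool → Y) (ha : Injective a)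
    (zb : Y) (K : Y → Prop) (hKa : ∀ k, K (a k)) (hKz : ¬ K zb) (U : Y → M)
    (U₀ : {z : Y // ∀ k, z ≠ a k} → M₀) {i₁ : M₀ →* M} (hU : ∀ z, i₁ (U₀ z) = U z.1)
    (hgood : Good fun z : {z : {z : Y // ∀ k, z ≠ a k} // z.1 ≠ zb} => U₀ z.1)
    (hM : IsFreeExt i₁ fun k => U (a k)) (g₀ : M₀)
    (hg₀ : ∀ u : FreeGroup {z : {z : Y // ∀ k, z ≠ a k} // K z.1},
      lift (fun z => U₀ z.1) u ≠ g₀)
    (kv : FreeGroup ({z // K z} ⊕ Unit) →* M) (hkv : ∀ z, kv (of (Sum.inl z)) = U z.1)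
    (hkv' : kv (of (Sum.inr ())) = i₁ g₀ * (U (a false) * U (a true)) * (i₁ g₀)⁻¹) (b : Bool) :
    ∃ (S : Sys M) (emb : {z // z ≠ zb} × Bool → S.A) (N : Anch S kv),
      SubGood S (freeSys _) (lift fun z : {z // z ≠ zb} => U z.1) emb ∧
      ∀ q ∈ N.P, (∃ (z : {z // K z}) (hz : z.1 ≠ zb) (ε : Bool), q = ([emb (⟨z.1, hz⟩, ε)],
          sg (fun z : {z // K z} => (of (Sum.inl z) : FreeGroup ({z // K z} ⊕ Unit))) (z, ε), [])) ∨
        ∃ z ε, emb (z, ε) ∈ q.1 ∧ z.1 = a b := by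
  classical
  obtain ⟨S₀, emb₀, hS₀⟩ := hgood
  obtain ⟨S, j, j', hj, hj', hne, -, hR⟩ := freeExt_sys S₀ hM
  have hKne : ∀ z, K z → z ≠ zb := fun z hz h => hKz (h ▸ hz)
  let emb : {z // z ≠ zb} × Bool → S.A := fun c =>
    if h : ∃ k, c.1.1 = a k then j' (h.choose, c.2)
    else j (emb₀ (⟨⟨c.1.1, fun k hk => h ⟨k, hk⟩⟩, c.1.2⟩, c.2))
  have ea : ∀ k h ε, emb (⟨a k, h⟩, ε) = j' (k, ε) := by
    intro k h ε
    have h' : ∃ k', a k = a k' := ⟨k, rfl⟩
    simp only [emb]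
    rw [dif_pos h', ← ha h'.choose_spec]
  have eb : ∀ z h (h' : ∀ k, z ≠ a k) ε, emb (⟨z, h⟩, ε) = j (emb₀ (⟨⟨z, h'⟩, h⟩, ε)) := by
    intro z h h' ε
    simp only [emb]
    rw [dif_neg (fun ⟨k, hk⟩ => h' k hk)]
  have cases : ∀ z : Y, (∃ k, z = a k) ∨ ∀ k, z ≠ a k := fun z => by
    by_cases h : ∃ k, z = a k
    · exact Or.inl h
    · exact Or.inr fun k hk => h ⟨k, hk⟩
  have hj₀ := hj.trans hS₀
  have hS : SubGood S (freeSys _) (lift fun z : {z // z ≠ zb} => U z.1) emb := by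
    refine ⟨?_, ?_, ?_, ?_⟩
    · rintro ⟨⟨z, hz⟩, ε⟩ ⟨⟨z', hz'⟩, ε'⟩ h
      rcases cases z with ⟨k, rfl⟩ | h1 <;> rcases cases z' with ⟨k', rfl⟩ | h1'
      · rw [ea, ea] at h
        obtain ⟨rfl, rfl⟩ := Prod.mk.inj (hj'.inj h)
        rfl
      · rw [ea, eb _ _ h1'] at h
        exact absurd h.symm (hne _ _)
      · rw [ea, eb _ _ h1] at h
        exact absurd h (hne _ _)
      · rw [eb _ _ h1, eb _ _ h1'] at h
        obtain ⟨h2, rfl⟩ := Prod.mk.inj (hj₀.inj h)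
        obtain rfl : z = z' := congrArg (fun x => x.1.1) h2
        rfl
    · rintro ⟨⟨z, hz⟩, ε⟩
      rcases cases z with ⟨k, rfl⟩ | h1
      · rw [ea, hj'.val]
        simp only [lift_mk_single]
        cases ε <;> rfl
      · rw [eb _ _ h1, hj₀.val]
        simp only [lift_mk_single, MonoidHom.comp_apply]
        cases ε <;> simp [hU]
    · rintro _ ⟨⟨z, hz⟩, ε, rfl⟩
      rcases cases z with ⟨k, rfl⟩ | h1
      · simpa only [List.map_cons, List.map_nil, ea] using hj'.rule _ ⟨k, ε, rfl⟩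
      · simpa only [List.map_cons, List.map_nil, eb _ _ h1] using
          hj₀.rule _ ⟨⟨⟨z, h1⟩, hz⟩, ε, rfl⟩
    · rintro p hp ⟨⟨z, hz⟩, ε⟩ hc
      refine ⟨_, ⟨⟨z, hz⟩, ε, rfl⟩, ?_⟩
      rcases cases z with ⟨k, rfl⟩ | h1
      · rw [ea] at hc
        obtain ⟨_, ⟨k', ε', rfl⟩, rfl⟩ := hj'.head p hp _ hc
        obtain ⟨rfl, rfl⟩ := Prod.mk.inj (hj'.inj (Option.some.inj hc))
        simp only [List.map_cons, List.map_nil, ea]
      · rw [eb _ _ h1] at hc
        obtain ⟨_, ⟨k', ε', rfl⟩, rfl⟩ := hj₀.head p hp _ hc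
        obtain ⟨rfl, rfl⟩ := Prod.mk.inj (hj₀.inj (Option.some.inj hc))
        simp only [List.map_cons, List.map_nil, eb _ _ h1]
  have hSK := tp_sub hS (fun z : {z // K z} => ⟨z.1, hKne _ z.2⟩)
    fun z z' h => Subtype.ext (congrArg (fun x => x.1) h)
  have hSK₀ := tp_sub hS₀ (fun z : {z : {z : Y // ∀ k, z ≠ a k} // K z.1} => ⟨z.1, hKne _ z.2⟩)
    fun z z' h => Subtype.ext (congrArg (fun x => x.1) h)
  obtain ⟨v, hv, hvg⟩ := S₀.exists_nf g₀
  obtain ⟨u, v', rfl, hv'⟩ := exists_split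
    (fun c : {z : {z : Y // ∀ k, z ≠ a k} // K z.1} × Bool =>
      emb₀ (⟨c.1.1, hKne _ c.1.2⟩, c.2)) v
  rw [ev_append, hSK₀.ev_map, ev_mk] at hvg
  let inc : FreeGroup {z // K z} →* FreeGroup ({z // K z} ⊕ Unit) := FreeGroup.map Sum.inl
  have hinc : ∀ k, kv (inc k) = lift (fun z : {z // K z} => U z.1) k := by
    intro k
    have : kv.comp inc = lift fun z : {z // K z} => U z.1 := by
      ext z; simp [inc, hkv]
    exact DFunLike.congr_fun this k
  let k₀ : FreeGroup {z // K z} := FreeGroup.map (fun z => ⟨z.1.1, z.2⟩) (mk u)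
  have hk₀ : kv (inc k₀) = i₁ (lift (fun z => U₀ z.1) (mk u)) := by
    rw [hinc]
    have : (lift fun z : {z // K z} => U z.1).comp (FreeGroup.map
        (fun z : {z : {z : Y // ∀ k, z ≠ a k} // K z.1} => (⟨z.1.1, z.2⟩ : {z // K z}))) =
        i₁.comp (lift fun z => U₀ z.1) := by
      ext z; simp [hU]
    exact DFunLike.congr_fun this (mk u)
  have hρ : ev S.φ (v'.map j) = (kv (inc k₀))⁻¹ * i₁ g₀ := by
    rw [hj.ev_map, hk₀, ← hvg]
    simp
  have hnot : ∀ c, j' c ∉ v'.map j := by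
    intro c hc
    obtain ⟨x, -, hx⟩ := List.mem_map.1 hc
    exact hne _ _ hx
  obtain ⟨N, hN⟩ := cf hSK (⟨a (!b), hKa _⟩, b) (⟨a b, hKa _⟩, b)
    (fun h => by
      have := ha (congrArg (fun x => x.1) h)
      cases b <;> simp at this)
    (fun p hp i ε hi hmem => by
      obtain ⟨k, rfl⟩ : ∃ k, i = ⟨a k, hKa k⟩ := hi.elim (fun h => ⟨_, h⟩) fun h => ⟨_, h⟩
      simp only [ea] at hmem ⊢
      rw [hR] at hp
      rcases hp with ⟨q, -, rfl⟩ | ⟨_, ⟨k', ε', rfl⟩, rfl⟩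
      · rcases hmem with h | h <;>
        · obtain ⟨x, -, hx⟩ := List.mem_map.1 h
          exact absurd hx (hne _ _)
      · simp only [List.map_cons, List.map_nil, List.mem_cons, List.not_mem_nil, or_false] at hmem
        obtain rfl : k = k' := hmem.elim (fun h => (Prod.mk.inj (hj'.inj h)).1)
          fun h => (Prod.mk.inj (hj'.inj h)).1
        exact ⟨ε', rfl⟩)
    (v'.map j) (hj.irr_map hv.of_append_right)
    (fun h => by
      rw [List.map_eq_nil_iff.1 h] at hvg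
      exact hg₀ (mk u) (by simpa using hvg))
    (fun ⟨⟨z, hz⟩, ε⟩ h => by
      rcases cases z with ⟨k, rfl⟩ | h1
      · simp only [ea] at h
        exact hnot _ (List.mem_of_mem_head? h)
      · simp only [eb _ _ h1, List.head?_map] at h
        refine hv' (⟨⟨z, h1⟩, hz⟩, ε) ?_
        cases h' : v'.head? with
        | none => simp [h'] at h
        | some x =>
          rw [h'] at h
          exact congrArg some (hj.inj (Option.some.inj h)))
    (fun i ε hi => by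
      obtain ⟨k, rfl⟩ : ∃ k, i = ⟨a k, hKa k⟩ := hi.elim (fun h => ⟨_, h⟩) fun h => ⟨_, h⟩
      simp only [ea]
      exact hnot _)
    kv inc hinc (sgn ((inc k₀)⁻¹ * of (Sum.inr ()) * inc k₀) (!b))
    (by
      rw [hρ]
      cases b <;> simp [hkv', mul_assoc])
    (fun L h1 h2 => tp_gen L (by
      rintro (z | ⟨⟨⟩⟩)
      · simpa [inc] using h1 (of z)
      · have h3 : (inc k₀)⁻¹ * of (Sum.inr ()) * inc k₀ ∈ L := by
          cases b
          · exact L.inv_mem_iff.1 h2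
          · exact h2
        have := L.mul_mem (L.mul_mem (h1 k₀) h3) (L.inv_mem (h1 k₀))
        simpa [mul_assoc] using this))
  refine ⟨S, emb, N, hS, fun q hq => ?_⟩
  rcases hN q hq with ⟨⟨z, ε⟩, rfl⟩ | ⟨ε, h⟩
  · refine Or.inl ⟨z, hKne _ z.2, ε, ?_⟩
    have : inc (mk [(z, ε)]) = sg (fun z : {z // K z} =>
        (of (Sum.inl z) : FreeGroup ({z // K z} ⊕ Unit))) (z, ε) := by
      cases ε <;> rfl
    rw [this]
  · exact Or.inr ⟨_, ε, h, rfl⟩

theorem tp_bounds {α : Type} (l : List α) (v : α → ℤ) (h : l ≠ []) :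
    ∃ lo ∈ l, ∃ hi ∈ l, ∀ c ∈ l, v lo ≤ v c ∧ v c ≤ v hi := by
  classical
  have hne : l.toFinset.Nonempty := by
    obtain ⟨c, hc⟩ := List.exists_mem_of_ne_nil l h
    exact ⟨c, List.mem_toFinset.2 hc⟩
  obtain ⟨lo, h1, h2⟩ := l.toFinset.exists_min_image v hne
  obtain ⟨hi, h3, h4⟩ := l.toFinset.exists_max_image v hne
  exact ⟨lo, List.mem_toFinset.1 h1, hi, List.mem_toFinset.1 h3, fun c hc =>
    ⟨h2 c (List.mem_toFinset.2 hc), h4 c (List.mem_toFinset.2 hc)⟩⟩

theorem tp_word {α : Type} (P : α → Prop) (w : List (α × Bool)) (h : ∀ c ∈ w, P c.1) :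
    ∃ w' : List ({a // P a} × Bool), w'.map (fun c => (c.1.1, c.2)) = w := by
  induction w with
  | nil => exact ⟨[], rfl⟩
  | cons c w ih =>
    obtain ⟨w', hw'⟩ := ih fun d hd => h d (List.mem_cons_of_mem _ hd)
    exact ⟨(⟨c.1, h c List.mem_cons_self⟩, c.2) :: w', by simp [hw']⟩

theorem tp_mk_mem {α G : Type} [Group G] (L : Subgroup G) (ψ : FreeGroup α →* G)
    (w : List (α × Bool)) (h : ∀ c ∈ w, ψ (of c.1) ∈ L) : ψ (mk w) ∈ L := by
  induction w with
  | nil => exact (_root_.map_one ψ).symm ▸ L.one_mem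
  | cons c w ih =>
    have e : mk (c :: w) = mk [c] * mk w := rfl
    rw [e, _root_.map_mul]
    refine L.mul_mem ?_ (ih fun d hd => h d (List.mem_cons_of_mem _ hd))
    have h1 := h c List.mem_cons_self
    rcases c with ⟨a, _ | _⟩
    · have : mk [(a, false)] = (of a)⁻¹ := rfl
      rw [this, _root_.map_inv]
      exact L.inv_mem h1
    · exact h1

theorem tp_opt {Z G : Type} [Finite Z] [Group G] {r : FreeGroup (Option Z)} {g : Option Z → G}
    (hG : IsOR r g) {x y : Z} (hx : Ess (some x) r) (hy : y ≠ x) (h0 : expo none r = 0) :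
    (∃ e, SGood (Sum.elim (fun c : {c // c ≠ some x} => g c.1) fun _ : Unit => e)) ∨
      Surjective (lift fun c : {c // c ≠ some x} => g c.1) := by
  classical
  refine or_iff_not_imp_right.2 fun hns => ?_
  obtain ⟨w, rfl⟩ : ∃ w, r = mk w := ⟨r.toWord, mk_toWord.symm⟩
  obtain ⟨ρ₀, hcyc₀, hconj, -⟩ := exists_levels_word w h0
  have hxρ : (ρ₀.filter fun c => c.1.1 = x) ≠ [] := by
    intro h
    refine hx _ (tp_mk_mem (omitSub (some x)) (projAll Z) ρ₀ fun c hc => ?_) hconj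
    have h1 : c.1.1 ≠ x := by simpa using List.filter_eq_nil_iff.1 h c hc
    have h2 : (of none : FreeGroup (Option Z)) ∈ omitSub (some x) :=
      Subgroup.subset_closure ⟨none, by simp, rfl⟩
    have h3 : (of (some c.1.1) : FreeGroup (Option Z)) ∈ omitSub (some x) :=
      Subgroup.subset_closure ⟨some c.1.1, by simpa using h1, rfl⟩
    simp only [projAll, lift_apply_of]
    exact Subgroup.mul_mem _ (Subgroup.mul_mem _ (Subgroup.zpow_mem _ h2 _) h3)
      (Subgroup.zpow_mem _ h2 _)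
  obtain ⟨xl, hxl, xh, hxh, hxb⟩ := tp_bounds _ (fun c => c.1.2) hxρ
  obtain ⟨al, -, ah, -, hab⟩ := tp_bounds ρ₀ (fun c => c.1.2)
    (fun h => hxρ (by rw [h]; rfl))
  simp only [List.mem_filter, decide_eq_true_eq] at hxl hxh hxb
  let lo : Z → ℤ := fun z => if z = x then xl.1.2 else al.1.2 - 1
  let hi : Z → ℤ := fun z => if z = x then xh.1.2 else ah.1.2 + 1
  have hlox : lo x = xl.1.2 := if_pos rfl
  have hhix : hi x = xh.1.2 := if_pos rfl
  have hloy : lo y = al.1.2 - 1 := if_neg hy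
  have hhiy : hi y = ah.1.2 + 1 := if_neg hy
  have hal : al.1.2 ≤ ah.1.2 := (hab _ hxl.1).1.trans (hab _ hxl.1).2
  have hlo : ∀ z, lo z ≤ hi z := by
    intro z
    simp only [lo, hi]
    split_ifs
    · exact (hxb _ hxl).2
    · omega
  obtain ⟨ρ, hρ⟩ := exists_lev_word lo hi ρ₀ (by
    intro c hc
    simp only [lo, hi]
    split_ifs with h
    · exact hxb c ⟨hc, h⟩
    · have := hab c hc
      omega)
  have hH := isOR_presented (mk ρ)
  set h : Lev lo hi → PresentedGroup ({mk ρ} : Set (FreeGroup (Lev lo hi))) := PresentedGroup.of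
  obtain ⟨f, hf1, hf⟩ := levels_hnn hG hlo (ρ := mk ρ) (by
    have : FreeGroup.map Subtype.val (mk ρ) = mk ρ₀ := by rw [← hρ]; exact FreeGroup.map.mk
    exact (congrArg (fun u => IsConj (projAll Z u) (mk w)) this).mpr hconj) hH
  let zz : Bool → Lev lo hi := fun b => ⟨(x, if b then lo x else hi x), by
    cases b <;> simp [hlo x]⟩
  let a : Bool → Lev lo hi := fun b => ⟨(y, if b then lo y else hi y), by
    cases b <;> simp [hlo y]⟩
  have ha : Injective a := by
    intro b b' e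
    have e' : (if b then lo y else hi y) = if b' then lo y else hi y :=
      congrArg (fun z : Lev lo hi => z.1.2) e
    cases b <;> cases b' <;> simp at e' ⊢ <;> omega
  have hzz : ∀ b k, zz b ≠ a k := fun b k e => hy (congrArg (fun z : Lev lo hi => z.1.1) e).symm
  obtain ⟨ρ₁, hρ₁⟩ := tp_word (fun z : Lev lo hi => ∀ k, z ≠ a k) ρ (by
    rintro c hc k e
    have h1 : (c.1.1, c.2) ∈ ρ₀ := hρ ▸ List.mem_map_of_mem (f := fun c : Lev lo hi × Bool =>
      (c.1.1, c.2)) hc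
    have h2 := hab _ h1
    have h3 : c.1.1.2 = if k then lo y else hi y := congrArg (fun z : Lev lo hi => z.1.2) e
    cases k <;> simp at h2 h3 <;> omega)
  have hcyc : IsCyclicallyReduced ρ := isCyc_of_map Subtype.val (hρ ▸ hcyc₀)
  have hcyc₁ : IsCyclicallyReduced ρ₁ := isCyc_of_map Subtype.val (hρ₁ ▸ hcyc)
  have hbij : Bijective
      (Sum.elim Subtype.val a : {z : Lev lo hi // ∀ k, z ≠ a k} ⊕ Bool → Lev lo hi) := by
    refine ⟨Subtype.val_injective.sumElim ha fun z k => z.2 k, fun z => ?_⟩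
    by_cases hz : ∃ k, z = a k
    · obtain ⟨k, rfl⟩ := hz
      exact ⟨Sum.inr k, rfl⟩
    · exact ⟨Sum.inl ⟨z, fun k hk => hz ⟨k, hk⟩⟩, rfl⟩
  have hH₀ := isOR_presented (mk ρ₁)
  set h₀ : {z : Lev lo hi // ∀ k, z ≠ a k} → PresentedGroup ({mk ρ₁} : Set (FreeGroup _)) :=
    PresentedGroup.of
  obtain ⟨i₀, hi₀, hfree₀⟩ := IsOR.split (Equiv.ofBijective _ hbij) (r₀ := mk ρ₁) (g := h) (by
    have : FreeGroup.map (fun z => Equiv.ofBijective _ hbij (Sum.inl z)) (mk ρ₁) = mk ρ := by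
      rw [← hρ₁]; exact FreeGroup.map.mk
    rwa [this]) hH₀
  simp only [Equiv.ofBijective_apply, Sum.elim_inl, Sum.elim_inr] at hi₀ hfree₀
  have hst : ∀ b, SGood fun z : {z : {z : Lev lo hi // ∀ k, z ≠ a k} // z.1 ≠ zz b} => h₀ z.1 := by
    intro b
    have hess : Ess (⟨zz b, hzz b⟩ : {z : Lev lo hi // ∀ k, z ≠ a k}) (mk ρ₁) := by
      rw [ess_iff hcyc₁]
      have h1 : ∃ c ∈ ρ₀, c.1 = (zz b).1 := by
        cases b
        · exact ⟨xh, hxh.1, Prod.ext hxh.2 hhix.symm⟩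
        · exact ⟨xl, hxl.1, Prod.ext hxl.2 hlox.symm⟩
      obtain ⟨c, hc, hc'⟩ := h1
      rw [← hρ, ← hρ₁] at hc
      obtain ⟨d, hd, rfl⟩ := List.mem_map.1 hc
      obtain ⟨d', hd', rfl⟩ := List.mem_map.1 hd
      refine ⟨d'.2, ?_⟩
      have : d'.1 = ⟨zz b, hzz b⟩ := Subtype.ext (Subtype.ext hc')
      rw [← this]
      exact hd'
    exact (st hH₀ hess).sub (fun z : {z : {z : Lev lo hi // ∀ k, z ≠ a k} // z.1 ≠ zz b} =>
      ⟨z.1, fun e => z.2 (congrArg Subtype.val e)⟩) fun z z' e =>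
        Subtype.ext (congrArg (fun u => u.1) e)
  obtain ⟨M₀, _, κ, _, i, fκ, hM₀, hg0, hg1⟩ := (hst false).common (hst true)
  have hgood : ∀ b, Good fun z : {z : {z : Lev lo hi // ∀ k, z ≠ a k} // z.1 ≠ zz b} =>
      i (h₀ z.1) := fun b => by cases b; exacts [hg0, hg1]
  obtain ⟨M, _, iH, i₁, hcomm, hM, hM₁⟩ := tp_push hfree₀ hM₀
  let L := (lift fun c : {c // c ≠ some x} => g c.1).range
  have hL : ∀ c, c ≠ some x → g c ∈ L := fun c hc => ⟨of ⟨c, hc⟩, by simp⟩
  have hLK : ∀ z : Lev lo hi, z.1.1 ≠ x → f (h z) ∈ L := by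
    intro z hz
    rw [hf1]
    exact L.mul_mem (L.mul_mem (L.zpow_mem (hL _ (by simp)) _) (hL _ (by simpa using hz)))
      (L.zpow_mem (hL _ (by simp)) _)
  let ζ := h (zz true) * (h (a false) * h (a true)) * (h (zz true))⁻¹
  let kv : FreeGroup ({z : Lev lo hi // z.1.1 ≠ x} ⊕ Unit) →* _ :=
    lift (Sum.elim (fun z => h z.1) fun _ => ζ)
  have side := fun b => tp_side a ha (zz b) (fun z => z.1.1 ≠ x) (fun _ => hy) (fun e => e rfl)
    (fun z => iH (h z)) (fun z => i (h₀ z)) (fun z => by rw [← hcomm, hi₀]) (hgood b) hM₁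
    (i (h₀ ⟨zz true, hzz true⟩)) (fun u hu => hns fun γ => by
      have h1 : lift (fun z : {z : {z : Lev lo hi // ∀ k, z ≠ a k} // z.1.1.1 ≠ x} => h₀ z.1) u =
          h₀ ⟨zz true, hzz true⟩ := by
        apply hM₀.injective
        rw [← hu]
        have : i.comp (lift fun z : {z : {z : Lev lo hi // ∀ k, z ≠ a k} // z.1.1.1 ≠ x} =>
            h₀ z.1) = lift fun z => i (h₀ z.1) := by ext z; simp
        exact DFunLike.congr_fun this u
      have h2 : f (h (zz true)) ∈ L := by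
        have := tp_lift_mem (L.comap (f.comp i₀)) (fun z : {z : {z : Lev lo hi // ∀ k, z ≠ a k} //
          z.1.1.1 ≠ x} => h₀ z.1) (fun z => by simpa [hi₀] using hLK _ z.2) u
        rw [h1] at this
        simpa [hi₀] using this
      rw [hf1] at h2
      have h3 : g none ∈ L := hL _ (by simp)
      have h4 : g (some x) ∈ L :=
        (L.mul_mem_cancel_left (L.zpow_mem h3 _)).1 ((L.mul_mem_cancel_right (L.zpow_mem h3 _)).1 h2)
      refine hG.gen L (fun c => ?_) γ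
      by_cases hc : c = some x
      · exact hc ▸ h4
      · exact hL c hc)
    (iH.comp kv) (fun z => by simp [kv]) (by simp [kv, ζ, ← hcomm, hi₀]) b
  choose S emb N hS hN using side
  let τ : FreeGroup ({c : Option Z // c ≠ some x} ⊕ Unit) := of (Sum.inl ⟨none, by simp⟩)
  let jP : FreeGroup ({z : Lev lo hi // z.1.1 ≠ x} ⊕ Unit) →*
      FreeGroup ({c : Option Z // c ≠ some x} ⊕ Unit) :=
    lift (Sum.elim (fun z => τ ^ (-z.1.1.2) * of (Sum.inl ⟨some z.1.1.1, by simpa using z.2⟩) *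
      τ ^ z.1.1.2) fun _ => of (Sum.inr ()))
  let π := lift (Sum.elim (fun c : {c // c ≠ some x} => g c.1) fun _ : Unit => f ζ)
  have main := line_levels x hf hM zz rfl rfl S emb hS kv (fun z => of (Sum.inl z))
    (fun z => by simp [kv]) N (fun b q hq => (hN b q hq).imp id (by
      rintro ⟨z, ε, h1, h2⟩
      exact ⟨z, ε, h1, by rw [h2]⟩)) jP τ π
    (fun k => by
      have : π.comp jP = f.comp kv := by
        ext (z | ⟨⟨⟩⟩)
        · simp [π, jP, kv, τ, hf1]
        · simp [π, jP, kv]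
      exact DFunLike.congr_fun this k)
    (by simp [π, τ])
    (fun L' h1 h2 => tp_gen L' (by
      rintro (⟨_ | z, hz⟩ | ⟨⟨⟩⟩)
      · exact h2
      · have h3 := h1 (of (Sum.inl ⟨⟨(z, lo z), le_rfl, hlo z⟩, by simpa using hz⟩))
        simp only [jP, lift_apply_of, Sum.elim_inl] at h3
        exact (L'.mul_mem_cancel_left (L'.zpow_mem h2 _)).1
          ((L'.mul_mem_cancel_right (L'.zpow_mem h2 _)).1 h3)
      · simpa [jP] using h1 (of (Sum.inr ()))))
    (fun z z' e => by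
      have e1 : z'.1.1.1 = z.1.1.1 := by rw [e]
      have e2 : z'.1.1.2 = z.1.1.2 + 1 := by rw [e]
      simp only [jP, lift_apply_of, Sum.elim_inl, e1, e2]
      group)
    (V := of) (Good.of_bijective (by rw [lift_of_eq_id]; exact bijective_id))
  refine ⟨f ζ, ?_⟩
  simpa only [π, lift_apply_of] using main

theorem tp_expo {X X' : Type} (e : X ≃ X') (x : X) (r : FreeGroup X) :
    expo (e x) (freeGroupCongr e r) = expo x r := by
  classical
  unfold expo
  congr 1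
  have : (lift fun y => if y = e x then Multiplicative.ofAdd (1 : ℤ) else 1).comp
      (freeGroupCongr e : FreeGroup X →* FreeGroup X') =
      lift fun y => if y = x then Multiplicative.ofAdd (1 : ℤ) else 1 := by
    ext y; simp
  exact DFunLike.congr_fun this r

theorem tp_zero {X G : Type} [Finite X] [Group G] {r : FreeGroup X} {g : X → G} (hG : IsOR r g)
    {x : X} (hx : Ess x r) {t y : X} (hty : t ≠ y) (ht : t ≠ x) (hy : y ≠ x)
    (h0 : expo t r = 0) :
    (∃ e, SGood (Sum.elim (fun y : {y // y ≠ x} => g y.1) fun _ : Unit => e)) ∨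
      Surjective (lift fun y : {y // y ≠ x} => g y.1) := by
  classical
  let e := (Equiv.optionSubtypeNe t).symm
  have e1 : e t = none := by simp [e]
  have e2 : e x = some ⟨x, ht.symm⟩ := Equiv.optionSubtypeNe_symm_of_ne ht.symm
  have hne : ∀ c, c ≠ some ⟨x, ht.symm⟩ ↔ e.symm c ≠ x := by
    intro c
    rw [← e2, Ne, Ne, Equiv.symm_apply_eq]
  have h1 := tp_opt (hG.aut (freeGroupCongr e)) (x := ⟨x, ht.symm⟩) (y := ⟨y, hty.symm⟩)
    (hx.aut _ fun c hc => Subgroup.subset_closure ⟨e.symm c, (hne c).1 hc, by simp⟩)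
    (fun h => hy (congrArg Subtype.val h)) (by rw [← e1, tp_expo, h0])
  simp only [freeGroupCongr_symm, freeGroupCongr_apply, FreeGroup.map.of, lift_apply_of] at h1
  rcases h1 with ⟨ε, h1⟩ | h1
  · refine Or.inl ⟨ε, ?_⟩
    have h2 := h1.sub (Sum.map (fun c : {y // y ≠ x} => ⟨e c.1, (hne _).2 (by simpa using c.2)⟩) id)
      (Sum.map_injective.2 ⟨fun c c' h => Subtype.ext (e.injective (congrArg Subtype.val h)),
        injective_id⟩)
    convert h2 using 2 with c
    rcases c with c | c <;> simp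
  · refine Or.inr fun γ => ?_
    obtain ⟨u, rfl⟩ := h1 γ
    exact tp_lift_mem (lift fun y : {y // y ≠ x} => g y.1).range _
      (fun c => ⟨of ⟨e.symm c.1, (hne _).1 c.2⟩, by simp⟩) u

theorem tp {X G : Type} [Finite X] [Group G] {r : FreeGroup X} {g : X → G} (hG : IsOR r g) {x : X}
    (hx : Ess x r) {t y : X} (hty : t ≠ y) (ht : t ≠ x) (hy : y ≠ x) :
    (∃ e, SGood (Sum.elim (fun y : {y // y ≠ x} => g y.1) fun _ : Unit => e)) ∨
      Surjective (lift fun y : {y // y ≠ x} => g y.1) := by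
  obtain ⟨υ, h1, h2, h3, h4⟩ := euclid r hty
  have hof : ∀ c, c ≠ x → of c ∈ omitSub x := fun c hc => Subgroup.subset_closure ⟨c, hc, rfl⟩
  have hsub : ({of t, of y} : Set (FreeGroup X)) ⊆ omitSub x := by
    rintro _ (rfl | rfl)
    exacts [hof t ht, hof y hy]
  have hs : ∀ c, c ≠ x → υ.symm (of c) ∈ omitSub x := by
    intro c hc
    by_cases h : c = t ∨ c = y
    · exact (Subgroup.closure_le _).2 hsub (h2 c h)
    · push Not at h
      rw [υ.symm_apply_eq.2 (h1 c h.1 h.2).symm]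
      exact hof c hc
  have hs' : ∀ c, c ≠ x → υ (of c) ∈ omitSub x := by
    intro c hc
    by_cases h : c = t ∨ c = y
    · have h5 : Submonoid.closure {of t, of y} ≤ (omitSub x).toSubmonoid :=
        Submonoid.closure_le.2 hsub
      rcases h3 c h with h6 | h6
      · exact h5 h6
      · exact (omitSub x).inv_mem_iff.1 (h5 h6)
    · push Not at h
      rw [h1 c h.1 h.2]
      exact hof c hc
  have key : (∃ e, SGood (Sum.elim (fun c : {y // y ≠ x} => lift g (υ.symm (of c.1)))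
      fun _ : Unit => e)) ∨ Surjective (lift fun c : {y // y ≠ x} => lift g (υ.symm (of c.1))) := by
    rcases h4 with h4 | h4
    · exact tp_zero (hG.aut υ) (hx.aut υ hs) hty ht hy h4
    · exact tp_zero (hG.aut υ) (hx.aut υ hs) hty.symm hy ht h4
  rcases key with ⟨e, h⟩ | h
  · exact Or.inl ⟨e, SGood.basis_change g x _ υ.symm hs hs' h⟩
  · refine Or.inr fun γ => ?_
    obtain ⟨u, rfl⟩ := h γ
    refine tp_lift_mem (lift fun y : {y // y ≠ x} => g y.1).range _ (fun c => ?_) u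
    have : omitSub x ≤ (lift fun y : {y // y ≠ x} => g y.1).range.comap (lift g) := by
      refine (Subgroup.closure_le _).2 ?_
      rintro _ ⟨d, hd, rfl⟩
      exact ⟨of ⟨d, hd⟩, by simp⟩
    exact this (hs c.1 c.2)

end Pool.Agent.MP_b9845b_al.H94
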