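import Pool.Agent.MP_b9845b_al.H94.TP
import Pool.Agent.MP_b9845b_al.H94.Hyp
import Pool.Agent.MP_b9845b_al.H94.Asc

namespace Pool.Agent.MP_b9845b_al.H94

open Relation FreeGroup Function

section aux
variable {G ι ι' : Type} [Group G] [Finite ι] [Finite ι']

theorem tt_inv {y : ι → G} (h : TGood y) : TGood fun i => (y i)⁻¹ := by
  obtain ⟨M, _, κ, _, i, f, e, hM, h⟩ := h
  refine ⟨M, inferInstance, κ, inferInstance, i, f, fun k => (e k)⁻¹, hM, ?_⟩
  convert h.inv using 2 with j
  rcases j with j | j <;> simp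

theorem tt_conj {y : ι → G} (h : TGood y) (c : G) : TGood fun i => c * y i * c⁻¹ :=
  h.equiv (MulAut.conj c)

omit [Finite ι] [Finite ι'] in
theorem tt_surj {y : ι → G} (h : Surjective (lift y)) {σ : ι' → ι} (hσ : Surjective σ) :
    Surjective (lift fun i => y (σ i)) := by
  intro γ
  obtain ⟨u, rfl⟩ := h γ
  have : (lift y).range ≤ (lift fun i => y (σ i)).range := by
    rw [FreeGroup.range_lift_eq_closure, Subgroup.closure_le]
    rintro _ ⟨i, rfl⟩
    obtain ⟨j, rfl⟩ := hσ i
    exact ⟨of j, by simp⟩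
  exact this ⟨u, rfl⟩

end aux

theorem tt_ne_one {X : Type} {x : X} {r : FreeGroup X} (hx : Ess x r) : r ≠ 1 := by
  rintro rfl
  exact hx 1 (one_mem _) (IsConj.refl _)

/-- The alternatives needed in the ascending case. -/
theorem tt_case {Z ι H : Type} [Finite Z] [Finite ι] [Group H] {ρ : FreeGroup Z} {h : Z → H}
    (hH : IsOR ρ h) {z : Z} (hz : Ess z ρ) {d : ι → Z} (hd : Injective d)
    (hr : ∀ y, y ≠ z ↔ ∃ i, d i = y) :
    Surjective (lift fun i => h (d i)) ∨ Subsingleton ι ∨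
      ∃ e, SGood (Sum.elim (fun i => h (d i)) fun _ : Unit => e) := by
  have hne : ∀ i, d i ≠ z := fun i => (hr _).2 ⟨i, rfl⟩
  rcases subsingleton_or_nontrivial ι with hι | hι
  · exact Or.inr (Or.inl hι)
  obtain ⟨i, j, hij⟩ := exists_pair_ne ι
  let σ : ι → {y // y ≠ z} := fun i => ⟨d i, hne i⟩
  have hσ : Injective σ := fun i j hij => hd (congrArg Subtype.val hij)
  rcases tp hH hz (fun e => hij (hd e)) (hne i) (hne j) with ⟨e, he⟩ | hs
  · refine Or.inr (Or.inr ⟨e, ?_⟩)
    have := he.sub (Sum.map σ id) (hσ.sumMap injective_id)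
    convert this using 2 with c
    rcases c with c | c <;> rfl
  · refine Or.inl (tt_surj hs (σ := σ) ?_)
    rintro ⟨y, hy⟩
    obtain ⟨i, rfl⟩ := (hr y).1 hy
    exact ⟨i, rfl⟩

theorem tt_two {X G : Type} [Finite X] [Group G] {r : FreeGroup X} {g : X → G} (hG : IsOR r g)
    {x a : X} (hax : a ≠ x) (hX : ∀ c, c = a ∨ c = x) (h0 : expo x r ≠ 0) :
    TGood fun _ : Unit => g a := by
  obtain ⟨Z, ι, H, _, _, _, ρ, h, dn, up, zA, zB, f, t, n, m, c, hH, hA, hB, hdn, hup, hrA, hrB,
    hf, hm, hc⟩ := caseB hG hax hX h0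
  have h1 : SGood fun i => h (dn i) := (st hH hA).sub (fun i => ⟨dn i, (hrA _).2 ⟨i, rfl⟩⟩)
    fun i j hij => hdn (congrArg Subtype.val hij)
  have h2 : SGood fun i => h (up i) := (st hH hB).sub (fun i => ⟨up i, (hrB _).2 ⟨i, rfl⟩⟩)
    fun i j hij => hup (congrArg Subtype.val hij)
  have key : TGood fun _ : Unit => m := by
    by_cases s2 : Surjective (lift fun i => h (up i))
    · exact (asc h1 ⟨h2.injective, s2⟩ hf (tt_case hH hA hdn hrA) hm).tGood
    by_cases s1 : Surjective (lift fun i => h (dn i))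
    · have := (asc h2 ⟨h1.injective, s1⟩ hf.symm (tt_case hH hB hup hrB) hm.inv).tGood
      convert tt_inv (tt_conj this t⁻¹) using 2
      group
    · obtain ⟨e, he⟩ := hyp h1 h2 hf s1 s2 hm
      exact he.tGood
  rcases hc with hc | hc
  · rw [hc]
    exact tt_conj key c
  · have := tt_inv (tt_conj key c)
    rw [← hc] at this
    simpa using this

theorem tt_aux (n : ℕ) : ∀ {X G : Type} [Finite X] [Group G] {w : List (X × Bool)} {g : X → G},
    w.length = n → IsOR (mk w) g → ∀ {x : X}, Ess x (mk w) →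
      TGood fun y : {y // y ≠ x} => g y.1 := by
  induction n using Nat.strong_induction_on with
  | _ n ih =>
  intro X G _ _ w g hn hG x hx
  by_cases h0 : expo x (mk w) = 0
  · obtain ⟨Z, ι, H, _, _, _, ρ, h, dn, up, zA, zB, f, σ, c, hl, hH, hA, hB, hdn, hup, hdA, huB,
      hσ, hf, hc⟩ := caseA hG hx h0
    have h1 := (ih _ (hn ▸ hl) rfl hH hA).sub (fun i => ⟨dn i, hdA i⟩)
      fun i j hij => hdn (congrArg Subtype.val hij)
    have h2 := (ih _ (hn ▸ hl) rfl hH hB).sub (fun i => ⟨up i, huB i⟩)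
      fun i j hij => hup (congrArg Subtype.val hij)
    have := (((TGood.hnn h1 h2 hf).1.sub σ hσ).conj c).tGood
    convert this using 2 with y
    exact hc y
  rcases isEmpty_or_nonempty {y // y ≠ x} with hE | ⟨⟨a, ha⟩⟩
  · have : Subsingleton X := ⟨fun a b => by
      have ha : a = x := by_contra fun h => hE.false ⟨a, h⟩
      have hb : b = x := by_contra fun h => hE.false ⟨b, h⟩
      rw [ha, hb]⟩
    have := hG.finite (tt_ne_one hx)
    exact (Good.of_finite _).tGood
  by_cases hX : ∀ c, c = a ∨ c = x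
  · have := (tt_two hG ha hX h0).sub (fun _ : {y // y ≠ x} => ()) fun y z _ =>
      Subtype.ext (((hX y).resolve_right y.2).trans ((hX z).resolve_right z.2).symm)
    convert this using 2 with y
    rw [(hX y).resolve_right y.2]
  · push Not at hX
    obtain ⟨b, hba, hb⟩ := hX
    have : Nonempty {y // y ≠ x} := ⟨⟨a, ha⟩⟩
    rcases tp hG hx hba hb ha with ⟨e, he⟩ | hs
    · exact he.tGood
    · exact (Good.of_bijective ⟨(st hG hx).injective, hs⟩).tGood

theorem tt {X G : Type} [Finite X] [Group G] {r : FreeGroup X} {g : X → G} (hG : IsOR r g) {x : X}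
    (hx : Ess x r) : TGood fun y : {y // y ≠ x} => g y.1 := by
  classical
  obtain ⟨w, rfl⟩ : ∃ w, mk w = r := ⟨r.toWord, mk_toWord⟩
  exact tt_aux _ rfl hG hx

end Pool.Agent.MP_b9845b_al.H94
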