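import Pool.Agent.MP_b9845b_al.H94.AnchB
import Pool.Agent.MP_b9845b_al.H94.GoodB

namespace Pool.Agent.MP_b9845b_al.H94

open Relation Function

/-- Words in the overlap of two left sides, the second of which starts inside the first and is
over the same subalphabet. -/
theorem jn_of_sub {B G : Type} [Group G] (S : Sys G) {R : Rules B} (j : S.A → B)
    (hj : Injective j) (hR : ∀ p ∈ S.R, (p.1.map j, p.2.map j) ∈ R) {p q : List S.A × List S.A}
    (hp : p ∈ S.R) (hq : q ∈ S.R) {x z₁ z₂ : List B}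
    (h : p.1.map j ++ z₁ = x ++ q.1.map j ++ z₂) (hx : x.length < (p.1.map j).length)
    (hz : z₁ = [] ∨ z₂ = []) : Jn R (p.2.map j ++ z₁) (x ++ q.2.map j ++ z₂) := by
  obtain ⟨x₀, -, rfl, -⟩ := head_of_overlap h hx (by simpa using S.wf.ne_nil q hq)
  have key : ∃ y₁ y₂, z₁ = List.map j y₁ ∧ z₂ = List.map j y₂ := by
    rcases hz with rfl | rfl
    · rw [List.append_nil] at h
      obtain ⟨a, b, -, -, rfl⟩ := List.map_eq_append_iff.1 h
      exact ⟨[], b, rfl, rfl⟩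
    · rw [List.append_nil, ← List.map_append] at h
      obtain ⟨a, b, -, -, rfl⟩ := List.map_eq_append_iff.1 h.symm
      exact ⟨b, [], rfl, rfl⟩
  obtain ⟨y₁, y₂, rfl, rfl⟩ := key
  simp only [← List.map_append] at h ⊢
  have h' := List.map_injective_iff.2 hj h
  refine Jn.map j hR (S.jn_of_ev ?_)
  rw [ev_append, ← S.sound p hp, ← ev_append, h']
  simp [S.sound q hq]

theorem eqvGen_inv_of_sub {B G : Type} [Group G] (S : Sys G) {R : Rules B} (j : S.A → B)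
    (hR : ∀ p ∈ S.R, (p.1.map j, p.2.map j) ∈ R) (a : S.A) :
    ∃ w, EqvGen (Step R) (j a :: w) [] :=
  ⟨(S.word (S.φ a)⁻¹).map j, eqvGen_of_steps
    (Steps.map j hR (S.steps_nil (u := a :: S.word (S.φ a)⁻¹) (by simp)))⟩

theorem union_sys {F H₀ H₁ D : Type} [Group F] [Group H₀] [Group H₁] [Group D] {S₀ : Sys H₀}
    {S₁ : Sys H₁} {C : Sys F} {k₀ : F →* H₀} {k₁ : F →* H₁} {e₀ : C.A → S₀.A} {e₁ : C.A → S₁.A}
    (h₀ : SubGood S₀ C k₀ e₀) (h₁ : SubGood S₁ C k₁ e₁) {f₀ : H₀ →* D} {f₁ : H₁ →* D}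
    (hD : IsAmalg k₀ k₁ f₀ f₁) :
    ∃ (S : Sys D) (j₀ : S₀.A → S.A) (j₁ : S₁.A → S.A), SubGood S S₀ f₀ j₀ ∧ SubGood S S₁ f₁ j₁ ∧
      (∀ a b, j₀ a = j₁ b ↔ ∃ c, a = e₀ c ∧ b = e₁ c) ∧
      (∀ x, (∃ a, x = j₀ a) ∨ ∃ b, x = j₁ b) ∧ S.R = mapR j₀ S₀.R ∪ mapR j₁ S₁.R := by
  classical
  let B := S₀.A ⊕ {b : S₁.A // ¬ ∃ c, b = e₁ c}
  let j₀ : S₀.A → B := Sum.inl
  let j₁ : S₁.A → B := fun b => if h : ∃ c, b = e₁ c then Sum.inl (e₀ h.choose) else Sum.inr ⟨b, h⟩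
  have hj₁e : ∀ c, j₁ (e₁ c) = j₀ (e₀ c) := by
    intro c
    have h : ∃ c', e₁ c = e₁ c' := ⟨c, rfl⟩
    simp only [j₁, dif_pos h]
    rw [← h₁.inj h.choose_spec]
  have hj₁n : ∀ b (h : ¬ ∃ c, b = e₁ c), j₁ b = Sum.inr ⟨b, h⟩ := fun b h => by
    simp only [j₁, dif_neg h]
  have hiff : ∀ a b, j₀ a = j₁ b ↔ ∃ c, a = e₀ c ∧ b = e₁ c := by
    intro a b
    constructor
    · intro h
      by_cases hb : ∃ c, b = e₁ c
      · obtain ⟨c, rfl⟩ := hb
        rw [hj₁e] at h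
        exact ⟨c, Sum.inl_injective h, rfl⟩
      · rw [hj₁n b hb] at h
        cases h
    · rintro ⟨c, rfl, rfl⟩
      exact (hj₁e c).symm
  have hj₀ : Injective j₀ := Sum.inl_injective
  have hj₁ : Injective j₁ := by
    intro b b' h
    by_cases hb : ∃ c, b = e₁ c
    · obtain ⟨c, rfl⟩ := hb
      rw [hj₁e] at h
      obtain ⟨c', h1, rfl⟩ := (hiff _ _).1 h
      rw [h₀.inj h1]
    · by_cases hb' : ∃ c, b' = e₁ c
      · obtain ⟨c, rfl⟩ := hb'
        rw [hj₁e, hj₁n b hb] at h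
        cases h
      · rw [hj₁n b hb, hj₁n b' hb'] at h
        exact congrArg Subtype.val (Sum.inr_injective h)
  have hcov : ∀ x, (∃ a, x = j₀ a) ∨ ∃ b, x = j₁ b := by
    rintro (a | ⟨b, hb⟩)
    · exact Or.inl ⟨a, rfl⟩
    · exact Or.inr ⟨b, (hj₁n b hb).symm⟩
  let φ : B → D := Sum.elim (fun a => f₀ (S₀.φ a)) fun b => f₁ (S₁.φ b.1)
  have hφ₀ : ∀ a, φ (j₀ a) = f₀ (S₀.φ a) := fun a => rfl
  have hφ₁ : ∀ b, φ (j₁ b) = f₁ (S₁.φ b) := by
    intro b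
    by_cases hb : ∃ c, b = e₁ c
    · obtain ⟨c, rfl⟩ := hb
      rw [hj₁e, hφ₀, h₀.val, h₁.val, hD.rel]
    · rw [hj₁n b hb]
      rfl
  let R : Rules B := mapR j₀ S₀.R ∪ mapR j₁ S₁.R
  have hR₀ : ∀ p ∈ S₀.R, (p.1.map j₀, p.2.map j₀) ∈ R := fun p hp => Or.inl (mem_mapR j₀ hp)
  have hR₁ : ∀ p ∈ S₁.R, (p.1.map j₁, p.2.map j₁) ∈ R := fun p hp => Or.inr (mem_mapR j₁ hp)
  have hne : ∀ p ∈ R, p.1 ≠ [] := by
    rintro _ (⟨q, hq, rfl⟩ | ⟨q, hq, rfl⟩)
    · simpa using S₀.wf.ne_nil q hq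
    · simpa using S₁.wf.ne_nil q hq
  have hcomp : (j₁ ∘ e₁) = (j₀ ∘ e₀) := funext hj₁e
  have head₀ : ∀ p ∈ R, ∀ a, p.1.head? = some (j₀ a) → ∃ q ∈ S₀.R, p = (q.1.map j₀, q.2.map j₀) := by
    rintro _ (⟨q, hq, rfl⟩ | ⟨q, hq, rfl⟩) a ha
    · exact ⟨q, hq, rfl⟩
    · simp only [List.head?_map, Option.map_eq_some_iff] at ha
      obtain ⟨b, hb1, hb2⟩ := ha
      obtain ⟨c, rfl, rfl⟩ := (hiff _ _).1 hb2.symm
      obtain ⟨q', hq', rfl⟩ := h₁.head q hq c hb1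
      exact ⟨_, h₀.rule q' hq', by simp [hcomp]⟩
  have head₁ : ∀ p ∈ R, ∀ a, p.1.head? = some (j₁ a) → ∃ q ∈ S₁.R, p = (q.1.map j₁, q.2.map j₁) := by
    rintro _ (⟨q, hq, rfl⟩ | ⟨q, hq, rfl⟩) a ha
    · simp only [List.head?_map, Option.map_eq_some_iff] at ha
      obtain ⟨b, hb1, hb2⟩ := ha
      obtain ⟨c, rfl, rfl⟩ := (hiff _ _).1 hb2
      obtain ⟨q', hq', rfl⟩ := h₀.head q hq c hb1
      exact ⟨_, h₁.rule q' hq', by simp [hcomp]⟩
    · exact ⟨q, hq, rfl⟩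
  have hwf : WFR R := by
    let r : List B → List B → Prop := fun v u => Step R u v ∨ ∃ x, x ≠ [] ∧ u = x ++ v
    have key : ∀ {A' : Type} {R' : Rules A'} (j : A' → B), Injective j → WFR R' →
        (∀ p ∈ R, ∀ a, p.1.head? = some (j a) → ∃ q ∈ R', p = (q.1.map j, q.2.map j)) →
        ∀ v, Acc r v → ∀ u : List A', Acc r (u.map j ++ v) := by
      intro A' R' j hj hR' head v hv
      induction hv with
      | intro v hv ih =>
        intro u
        induction u using WellFounded.induction hR'.drop with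
        | _ u ih2 =>
          refine Acc.intro _ ?_
          rintro w (hw | ⟨x, hx, hw⟩)
          · rcases step_map_append hj hne head hw with ⟨v', h1, u', rfl⟩ | ⟨u', h1, rfl⟩
            · exact ih v' h1 u'
            · exact ih2 u' (Or.inl h1)
          · rcases List.append_eq_append_iff.1 hw with ⟨a, h2, h3⟩ | ⟨a, h2, rfl⟩
            · by_cases ha : a = []
              · subst ha
                rw [List.nil_append] at h3
                subst h3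
                exact Acc.intro _ hv
              · exact hv w (Or.inr ⟨a, ha, h3⟩)
            · obtain ⟨a', b, rfl, rfl, rfl⟩ := List.map_eq_append_iff.1 h2
              exact ih2 b (Or.inr ⟨a', by simpa using hx, rfl⟩)
    have hr : WellFounded r := by
      refine ⟨fun w => ?_⟩
      induction w with
      | nil =>
        refine Acc.intro _ ?_
        rintro w (⟨x, y, p, hp, h, -⟩ | ⟨x, hx, hw⟩)
        · simp at h
          exact absurd h.2.1 (hne p hp)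
        · simp at hw
          exact absurd hw.1 hx
      | cons a w ih =>
        rcases hcov a with ⟨a, rfl⟩ | ⟨b, rfl⟩
        · exact key j₀ hj₀ S₀.wf head₀ w ih [a]
        · exact key j₁ hj₁ S₁.wf head₁ w ih [b]
    exact Subrelation.wf (fun h => Or.inl h) hr
  have hev₀ : ∀ w : List S₀.A, ev φ (w.map j₀) = f₀ (ev S₀.φ w) := ev_map_hom _ _ _ _ hφ₀
  have hev₁ : ∀ w : List S₁.A, ev φ (w.map j₁) = f₁ (ev S₁.φ w) := ev_map_hom _ _ _ _ hφ₁
  let S : Sys D :=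
    { A := B
      fin := inferInstance
      R := R
      Rfin := (finite_mapR j₀ S₀.Rfin).union (finite_mapR j₁ S₁.Rfin)
      φ := φ
      sound := by
        rintro _ (⟨q, hq, rfl⟩ | ⟨q, hq, rfl⟩)
        · rw [hev₀, hev₀, S₀.sound q hq]
        · rw [hev₁, hev₁, S₁.sound q hq]
      wf := hwf
      surj := by
        let L : Subgroup D :=
          { carrier := {g | (∃ w, ev φ w = g) ∧ ∃ w, ev φ w = g⁻¹}
            one_mem' := ⟨⟨[], rfl⟩, ⟨[], by simp⟩⟩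
            mul_mem' := by
              rintro _ _ ⟨⟨u, rfl⟩, u', hu'⟩ ⟨⟨v, rfl⟩, v', hv'⟩
              exact ⟨⟨u ++ v, by simp⟩, v' ++ u', by simp [hu', hv']⟩
            inv_mem' := fun h => ⟨h.2, by simpa using h.1⟩ }
        exact fun g => (hD.gen L
          (fun h => ⟨⟨(S₀.word h).map j₀, by simp [hev₀]⟩, (S₀.word h⁻¹).map j₀, by simp [hev₀]⟩)
          (fun h => ⟨⟨(S₁.word h).map j₁, by simp [hev₁]⟩, (S₁.word h⁻¹).map j₁, by simp [hev₁]⟩)
          g).1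
      inj := by
        refine inj_of_cp hwf ?_ ?_ ?_
        · rintro _ (⟨p, hp, rfl⟩ | ⟨p, hp, rfl⟩) q hq x z₁ z₂ h hx hz
          · obtain ⟨-, c, -, hc⟩ := head_of_overlap h hx (hne q hq)
            obtain ⟨q', hq', rfl⟩ := head₀ q hq c hc
            exact jn_of_sub S₀ j₀ hj₀ hR₀ hp hq' h hx hz
          · obtain ⟨-, c, -, hc⟩ := head_of_overlap h hx (hne q hq)
            obtain ⟨q', hq', rfl⟩ := head₁ q hq c hc
            exact jn_of_sub S₁ j₁ hj₁ hR₁ hp hq' h hx hz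
        · intro a
          rcases hcov a with ⟨a, rfl⟩ | ⟨b, rfl⟩
          · exact eqvGen_inv_of_sub S₀ j₀ hR₀ a
          · exact eqvGen_inv_of_sub S₁ j₁ hR₁ b
        · intro K _ g hg
          obtain ⟨ψ₀, hψ₀⟩ := S₀.pres (fun a => g (j₀ a)) fun p hp => by
            simpa [ev_map] using hg _ (hR₀ p hp)
          obtain ⟨ψ₁, hψ₁⟩ := S₁.pres (fun a => g (j₁ a)) fun p hp => by
            simpa [ev_map] using hg _ (hR₁ p hp)
          have h0 : ∀ a, ψ₀ (S₀.φ a) = g (j₀ a) := fun a => by simpa using hψ₀ [a]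
          have h1 : ∀ a, ψ₁ (S₁.φ a) = g (j₁ a) := fun a => by simpa using hψ₁ [a]
          have : ψ₀.comp k₀ = ψ₁.comp k₁ := C.hom_ext fun c => by
            simp only [MonoidHom.comp_apply]
            rw [← h₀.val, ← h₁.val, h0, h1, hj₁e]
          obtain ⟨ψ, h2, h3⟩ := hD.univ K ψ₀ ψ₁ fun k => DFunLike.congr_fun this k
          refine ⟨ψ, fun a => ?_⟩
          rcases hcov a with ⟨a, rfl⟩ | ⟨b, rfl⟩
          · rw [hφ₀, h2, h0]
          · rw [hφ₁, h3, h1] }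
  exact ⟨S, j₀, j₁, ⟨hj₀, hφ₀, hR₀, head₀⟩, ⟨hj₁, hφ₁, hR₁, head₁⟩, hiff, hcov, rfl⟩

theorem subGood_empty {G : Type} [Group G] (S : Sys G) :
    SubGood S (freeSys Empty) 1 fun c => c.1.elim :=
  ⟨fun c => c.1.elim, fun c => c.1.elim, fun _ ⟨i, _⟩ => i.elim, fun _ _ c => c.1.elim⟩

/-- The system of a free product. -/
theorem coprod_sys {H₀ H₁ D : Type} [Group H₀] [Group H₁] [Group D] (S₀ : Sys H₀) (S₁ : Sys H₁)
    {f₀ : H₀ →* D} {f₁ : H₁ →* D}
    (hD : IsAmalg (1 : FreeGroup Empty →* H₀) (1 : FreeGroup Empty →* H₁) f₀ f₁) :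
    ∃ (S : Sys D) (j₀ : S₀.A → S.A) (j₁ : S₁.A → S.A), SubGood S S₀ f₀ j₀ ∧ SubGood S S₁ f₁ j₁ ∧
      (∀ a b, j₀ a ≠ j₁ b) ∧
      (∀ x, (∃ a, x = j₀ a) ∨ ∃ b, x = j₁ b) ∧ S.R = mapR j₀ S₀.R ∪ mapR j₁ S₁.R := by
  obtain ⟨S, j₀, j₁, h1, h2, h3, h4, h5⟩ := union_sys (subGood_empty S₀) (subGood_empty S₁) hD
  exact ⟨S, j₀, j₁, h1, h2, fun a b h => let ⟨c, _⟩ := (h3 a b).1 h; c.1.elim, h4, h5⟩

theorem IsFreeExt.isAmalg {G M κ : Type} [Group G] [Group M] {i : G →* M} {f : κ → M}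
    (hM : IsFreeExt i f) : IsAmalg (1 : FreeGroup Empty →* G)
      (1 : FreeGroup Empty →* FreeGroup κ) i (FreeGroup.lift f) := by
  refine ⟨by simp, fun L h1 h2 => hM.gen L h1 fun k => by simpa using h2 (FreeGroup.of k),
    fun K _ g₀ g₁ _ => ?_⟩
  obtain ⟨ψ, h1, h2⟩ := hM.univ K g₀ fun k => g₁ (FreeGroup.of k)
  refine ⟨ψ, h1, fun h => ?_⟩
  have : ψ.comp (FreeGroup.lift f) = g₁ := FreeGroup.ext_hom _ _ fun k => by simp [h2]
  exact DFunLike.congr_fun this h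

theorem freeExt_sys {G M κ : Type} [Group G] [Group M] [Finite κ] (S : Sys G) {i : G →* M}
    {f : κ → M} (hM : IsFreeExt i f) :
    ∃ (S' : Sys M) (j : S.A → S'.A) (j' : κ × Bool → S'.A), SubGood S' S i j ∧
      SubGood S' (freeSys κ) (FreeGroup.lift f) j' ∧ (∀ a c, j a ≠ j' c) ∧
      (∀ x, (∃ a, x = j a) ∨ ∃ c, x = j' c) ∧ S'.R = mapR j S.R ∪ mapR j' (freeR κ) :=
  coprod_sys S (freeSys κ) hM.isAmalg

/-- Two disjoint good families in one system form a good family. -/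
theorem SubGood.sum {G ι κ : Type} [Group G] [Finite ι] [Finite κ] {S : Sys G} {y : ι → G}
    {z : κ → G} {e : ι × Bool → S.A} {e' : κ × Bool → S.A}
    (h : SubGood S (freeSys ι) (FreeGroup.lift y) e)
    (h' : SubGood S (freeSys κ) (FreeGroup.lift z) e') (hd : ∀ c c', e c ≠ e' c') :
    SubGood S (freeSys (ι ⊕ κ)) (FreeGroup.lift (Sum.elim y z))
      fun c => Sum.elim (fun i => e (i, c.2)) (fun k => e' (k, c.2)) c.1 := by
  refine ⟨?_, ?_, ?_, ?_⟩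
  · rintro ⟨i | i, b⟩ ⟨i' | i', b'⟩ hh
    · simpa using h.inj hh
    · exact absurd hh (hd _ _)
    · exact absurd hh.symm (hd _ _)
    · simpa using h'.inj hh
  · rintro ⟨i | i, b⟩
    · have := h.val (i, b)
      simp only [lift_mk_single] at this ⊢
      exact this
    · have := h'.val (i, b)
      simp only [lift_mk_single] at this ⊢
      exact this
  · rintro _ ⟨i | i, b, rfl⟩
    · exact h.rule _ ⟨i, b, rfl⟩
    · exact h'.rule _ ⟨i, b, rfl⟩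
  · rintro p hp ⟨i | i, b⟩ hc
    · obtain ⟨_, ⟨i', b', rfl⟩, rfl⟩ := h.head p hp _ hc
      exact ⟨_, ⟨Sum.inl i', b', rfl⟩, rfl⟩
    · obtain ⟨_, ⟨i', b', rfl⟩, rfl⟩ := h'.head p hp _ hc
      exact ⟨_, ⟨Sum.inr i', b', rfl⟩, rfl⟩

theorem lift_comp_eq {G M ι : Type} [Group G] [Group M] (i : G →* M) (y : ι → G) :
    i.comp (FreeGroup.lift y) = FreeGroup.lift fun j => i (y j) :=
  FreeGroup.ext_hom _ _ fun j => by simp

theorem Good.freeExt {G M ι κ : Type} [Group G] [Group M] [Finite ι] [Finite κ] {y : ι → G}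
    (h : Good y) {i : G →* M} {f : κ → M} (hM : IsFreeExt i f) :
    Good (Sum.elim (fun j => i (y j)) f) := by
  obtain ⟨S, e, h⟩ := h
  obtain ⟨S', j, j', h1, h2, h3, -⟩ := freeExt_sys S hM
  exact ⟨S', _, ((h1.trans h).congr (lift_comp_eq i y)).sum h2 fun _ _ => h3 _ _⟩

end Pool.Agent.MP_b9845b_al.H94
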